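import Mathlib

/-!
# Names and forced atomic statements over a preorder `P`
-/

set_option autoImplicit false

namespace Pool.Agent.Sym

universe u

/-- `P`-names: families of names `x i` with weights `w i` (`i : ι`). -/
inductive Nam (P : Type u) [Preorder P] : Type (u + 1)
  | mk (ι : Type u) (w : ι → LowerSet P) (x : ι → Nam P) : Nam P

variable {P : Type u} [Preorder P]

namespace Nam

/-- Index type of a name. -/
def idx : Nam P → Type u
  | mk ι _ _ => ι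

/-- Weights of a name. -/
def wt : (x : Nam P) → x.idx → LowerSet P
  | mk _ w _ => w

/-- Elements of a name. -/
def el : (x : Nam P) → x.idx → Nam P
  | mk _ _ x => x

end Nam

/-- `p` forces `x = y`. -/
def feq : Nam P → Nam P → P → Prop
  | ⟨ι, w, x⟩, ⟨κ, v, y⟩, p =>
    (∀ i : ι, ∀ q ≤ p, q ∈ w i → ∃ r ≤ q, ∃ j : κ, r ∈ v j ∧ feq (x i) (y j) r) ∧
    (∀ j : κ, ∀ q ≤ p, q ∈ v j → ∃ r ≤ q, ∃ i : ι, r ∈ w i ∧ feq (x i) (y j) r)

/-- `p` forces `x ∈ y`. -/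
def fmem (x y : Nam P) (p : P) : Prop :=
  ∀ q ≤ p, ∃ r ≤ q, ∃ j, r ∈ y.wt j ∧ feq x (y.el j) r



/-- A predicate on conditions is monotone and regular. -/
structure Reg (S : P → Prop) : Prop where
  mono : ∀ {p q : P}, q ≤ p → S p → S q
  reg : ∀ {p : P}, (∀ q ≤ p, ∃ r ≤ q, S r) → S p

theorem Reg.iff {S : P → Prop} (h : Reg S) (p : P) : S p ↔ ∀ q ≤ p, ∃ r ≤ q, S r :=
  ⟨fun hp q hq => ⟨q, le_rfl, h.mono hq hp⟩, h.reg⟩

theorem Reg.top : Reg (fun _ : P => True) := ⟨fun _ _ => trivial, fun _ => trivial⟩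

theorem Reg.neg {S : P → Prop} (h : ∀ {p q : P}, q ≤ p → S p → S q) :
    Reg (fun p => ∀ q ≤ p, ¬ S q) := by
  refine ⟨fun hqp hp r hr => hp r (hr.trans hqp), ?_⟩
  intro p hp q hq hS
  obtain ⟨r, hr, hrS⟩ := hp q hq
  exact hrS r le_rfl (h hr hS)

theorem Reg.and {S T : P → Prop} (hS : Reg S) (hT : Reg T) : Reg (fun p => S p ∧ T p) := by
  refine ⟨fun hqp hp => ⟨hS.mono hqp hp.1, hT.mono hqp hp.2⟩, fun {p} hp => ⟨?_, ?_⟩⟩
  · refine hS.reg fun q hq => ?_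
    obtain ⟨r, hr, h, -⟩ := hp q hq
    exact ⟨r, hr, h⟩
  · refine hT.reg fun q hq => ?_
    obtain ⟨r, hr, -, h⟩ := hp q hq
    exact ⟨r, hr, h⟩

theorem Reg.all {ι : Sort*} {S : ι → P → Prop} (hS : ∀ i, Reg (S i)) :
    Reg (fun p => ∀ i, S i p) := by
  refine ⟨fun hqp hp i => (hS i).mono hqp (hp i), fun {p} hp i => ?_⟩
  refine (hS i).reg fun q hq => ?_
  obtain ⟨r, hr, h⟩ := hp q hq
  exact ⟨r, hr, h i⟩

/-- Densely below `p`, `S`, is regular. -/
theorem Reg.dense {S : P → Prop} : Reg (fun p => ∀ q ≤ p, ∃ r ≤ q, S r) := by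
  refine ⟨fun hqp hp r hr => hp r (hr.trans hqp), ?_⟩
  intro p hp q hq
  obtain ⟨r, hr, h⟩ := hp q hq
  obtain ⟨s, hs, h'⟩ := h r le_rfl
  exact ⟨s, hs.trans hr, h'⟩

theorem feq_iff (x y : Nam P) (p : P) : feq x y p ↔
    (∀ i, ∀ q ≤ p, q ∈ x.wt i → ∃ r ≤ q, ∃ j, r ∈ y.wt j ∧ feq (x.el i) (y.el j) r) ∧
    (∀ j, ∀ q ≤ p, q ∈ y.wt j → ∃ r ≤ q, ∃ i, r ∈ x.wt i ∧ feq (x.el i) (y.el j) r) := by
  cases x
  cases y
  rfl

theorem feq_mono {x y : Nam P} {p q : P} (hqp : q ≤ p) (h : feq x y p) : feq x y q := by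
  rw [feq_iff] at h ⊢
  exact ⟨fun i r hr => h.1 i r (hr.trans hqp), fun j r hr => h.2 j r (hr.trans hqp)⟩

theorem feqReg (x y : Nam P) : Reg (feq x y) := by
  refine ⟨fun hqp h => feq_mono hqp h, fun {p} hp => ?_⟩
  rw [feq_iff]
  constructor
  · intro i q hq hqi
    obtain ⟨r, hr, h⟩ := hp q hq
    obtain ⟨s, hs, j, h1, h2⟩ := ((feq_iff _ _ _).1 h).1 i r le_rfl ((x.wt i).lower hr hqi)
    exact ⟨s, hs.trans hr, j, h1, h2⟩
  · intro j q hq hqj
    obtain ⟨r, hr, h⟩ := hp q hq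
    obtain ⟨s, hs, i, h1, h2⟩ := ((feq_iff _ _ _).1 h).2 j r le_rfl ((y.wt j).lower hr hqj)
    exact ⟨s, hs.trans hr, i, h1, h2⟩

theorem feq_refl (x : Nam P) (p : P) : feq x x p := by
  induction x generalizing p with
  | mk ι w x ih =>
    rw [feq_iff]
    exact ⟨fun i q _ hqi => ⟨q, le_rfl, i, hqi, ih i q⟩,
      fun i q _ hqi => ⟨q, le_rfl, i, hqi, ih i q⟩⟩

theorem feq_symm {x y : Nam P} {p : P} (h : feq x y p) : feq y x p := by
  induction x generalizing y p with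
  | mk ι w x ih =>
    rw [feq_iff] at h ⊢
    refine ⟨fun j q hq hqj => ?_, fun i q hq hqi => ?_⟩
    · obtain ⟨r, hr, i, h1, h2⟩ := h.2 j q hq hqj
      exact ⟨r, hr, i, h1, ih i h2⟩
    · obtain ⟨r, hr, j, h1, h2⟩ := h.1 i q hq hqi
      exact ⟨r, hr, j, h1, ih i h2⟩

theorem feq_trans {x y z : Nam P} {p : P} (h : feq x y p) (h' : feq y z p) : feq x z p := by
  induction x generalizing y z p with
  | mk ι w x ih =>
    rw [feq_iff] at h h' ⊢
    constructor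
    · intro i q hq hqi
      obtain ⟨r, hr, j, h1, h2⟩ := h.1 i q hq hqi
      obtain ⟨s, hs, k, h3, h4⟩ := h'.1 j r (hr.trans hq) h1
      exact ⟨s, hs.trans hr, k, h3, ih i (feq_mono hs h2) h4⟩
    · intro k q hq hqk
      obtain ⟨r, hr, j, h1, h2⟩ := h'.2 k q hq hqk
      obtain ⟨s, hs, i, h3, h4⟩ := h.2 j r (hr.trans hq) h1
      exact ⟨s, hs.trans hr, i, h3, ih i h4 (feq_mono hs h2)⟩

theorem fmemReg (x y : Nam P) : Reg (fmem x y) := Reg.dense

theorem fmem_mono {x y : Nam P} {p q : P} (hqp : q ≤ p) (h : fmem x y p) : fmem x y q :=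
  (fmemReg x y).mono hqp h

theorem fmem_of_wt {y : Nam P} {j : y.idx} {p : P} (h : p ∈ y.wt j) : fmem (y.el j) y p :=
  fun q hq => ⟨q, le_rfl, j, (y.wt j).lower hq h, feq_refl _ _⟩

theorem fmem_congr_left {x x' y : Nam P} {p : P} (h : feq x x' p) (h' : fmem x y p) :
    fmem x' y p := by
  intro q hq
  obtain ⟨r, hr, j, h1, h2⟩ := h' q hq
  exact ⟨r, hr, j, h1, feq_trans (feq_symm (feq_mono (hr.trans hq) h)) h2⟩

theorem fmem_congr_right {x y y' : Nam P} {p : P} (h : feq y y' p) (h' : fmem x y p) :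
    fmem x y' p := by
  intro q hq
  obtain ⟨r, hr, j, h1, h2⟩ := h' q hq
  obtain ⟨s, hs, k, h3, h4⟩ := ((feq_iff _ _ _).1 h).1 j r (hr.trans hq) h1
  exact ⟨s, hs.trans hr, k, h3, feq_trans (feq_mono hs h2) h4⟩

theorem fmem_congr_iff {x x' y y' : Nam P} {p : P} (h : feq x x' p) (h' : feq y y' p) :
    fmem x y p ↔ fmem x' y' p :=
  ⟨fun hm => fmem_congr_right h' (fmem_congr_left h hm),
    fun hm => fmem_congr_right (feq_symm h') (fmem_congr_left (feq_symm h) hm)⟩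

theorem fmem_congr {x x' y y' : Nam P} {p : P} (hx : feq x x' p) (hy : feq y y' p)
    (h : fmem x y p) : fmem x' y' p := (fmem_congr_iff hx hy).1 h

theorem feq_reg {x y : Nam P} {p : P} (h : ∀ q ≤ p, ∃ r ≤ q, feq x y r) : feq x y p :=
  (feqReg x y).reg h

theorem fmem_reg {x y : Nam P} {p : P} (h : ∀ q ≤ p, ∃ r ≤ q, fmem x y r) : fmem x y p :=
  (fmemReg x y).reg h

/-- Extensionality. -/
theorem feq_of_fmem {x y : Nam P} {p : P} (h : ∀ z, ∀ q ≤ p, fmem z x q ↔ fmem z y q) :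
    feq x y p := by
  rw [feq_iff]
  constructor
  · intro i q hq hqi
    obtain ⟨r, hr, j, h1, h2⟩ := (h (x.el i) q hq).1 (fmem_of_wt hqi) q le_rfl
    exact ⟨r, hr, j, h1, h2⟩
  · intro j q hq hqj
    obtain ⟨r, hr, i, h1, h2⟩ := (h (y.el j) q hq).2 (fmem_of_wt hqj) q le_rfl
    exact ⟨r, hr, i, h1, feq_symm h2⟩

theorem feq_iff_fmem {x y : Nam P} {p : P} :
    feq x y p ↔ ∀ z, ∀ q ≤ p, fmem z x q ↔ fmem z y q :=
  ⟨fun h z q hq => fmem_congr_iff (feq_refl z q) (feq_mono hq h), feq_of_fmem⟩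

/-- Membership in terms of the elements of a name. -/
theorem fmem_iff {x y : Nam P} {p : P} :
    fmem x y p ↔ ∀ q ≤ p, ∃ r ≤ q, ∃ j, r ∈ y.wt j ∧ feq x (y.el j) r := Iff.rfl

/-- The empty name. -/
def Nam.empty : Nam P := ⟨PEmpty, fun i => i.elim, fun i => i.elim⟩

instance : Inhabited (Nam P) := ⟨Nam.empty⟩

/-! ### Mixing and fullness -/

/-- A set of pairwise incompatible conditions. -/
def Antichain' (C : Set P) : Prop := ∀ a ∈ C, ∀ b ∈ C, ∀ r, r ≤ a → r ≤ b → a = b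

/-- Mixing names over an antichain. -/
theorem exists_mix {C : Set P} (hC : Antichain' C) (f : P → Nam P) :
    ∃ x : Nam P, ∀ a ∈ C, feq x (f a) a := by
  refine ⟨⟨Σ a : C, (f a.1).idx, fun s => ⟨{p | p ≤ s.1.1 ∧ p ∈ (f s.1.1).wt s.2}, ?_⟩,
    fun s => (f s.1.1).el s.2⟩, ?_⟩
  · rintro p q hqp ⟨h1, h2⟩
    exact ⟨hqp.trans h1, ((f s.1.1).wt s.2).lower hqp h2⟩
  · intro a ha
    rw [feq_iff]
    constructor
    · rintro ⟨⟨b, hb⟩, i⟩ q hq ⟨h1, h2⟩
      obtain rfl : a = b := hC a ha b hb q hq h1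
      exact ⟨q, le_rfl, i, h2, feq_refl _ _⟩
    · intro j q hq hqj
      exact ⟨q, le_rfl, ⟨⟨a, ha⟩, j⟩, ⟨hq, hqj⟩, feq_refl _ _⟩

/-- Every set of conditions contains a maximal antichain: every element of the set is compatible
with an element of the antichain. -/
theorem exists_maximal_antichain (D : Set P) : ∃ C ⊆ D, Antichain' C ∧
    ∀ p ∈ D, ∃ a ∈ C, ∃ r, r ≤ a ∧ r ≤ p := by
  obtain ⟨C, hC⟩ : ∃ C, Maximal (fun C : Set P => C ⊆ D ∧ Antichain' C) C := by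
    apply zorn_subset
    intro c hc hchain
    refine ⟨⋃₀ c, ⟨Set.sUnion_subset fun q hq => (hc hq).1, ?_⟩,
      fun q hq => Set.subset_sUnion_of_mem hq⟩
    rintro a ⟨s, hs, has⟩ b ⟨t, ht, hbt⟩ r hra hrb
    rcases hchain.total hs ht with h | h
    · exact (hc ht).2 a (h has) b hbt r hra hrb
    · exact (hc hs).2 a has b (h hbt) r hra hrb
  refine ⟨C, hC.prop.1, hC.prop.2, fun p hp => ?_⟩
  by_contra hcon
  push Not at hcon
  have hins : insert p C ⊆ D ∧ Antichain' (insert p C) := by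
    refine ⟨Set.insert_subset hp hC.prop.1, ?_⟩
    rintro a (rfl | ha) b (rfl | hb) r hra hrb
    · rfl
    · exact absurd hra (hcon b hb r hrb)
    · exact absurd hrb (hcon a ha r hra)
    · exact hC.prop.2 a ha b hb r hra hrb
  have hpC : p ∈ C := hC.le_of_ge hins (Set.subset_insert p C) (Set.mem_insert p C)
  exact hcon p hpC p le_rfl le_rfl

/-- Fullness for an arbitrary regular extensional predicate on names. -/
theorem fullness' (S : Nam P → P → Prop) (hreg : ∀ x, Reg (S x))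
    (hext : ∀ x y p, feq x y p → S x p → S y p) :
    ∃ x, ∀ p, (∀ q ≤ p, ∃ r ≤ q, ∃ y, S y r) → S x p := by
  classical
  obtain ⟨C, hCD, hCa, hCm⟩ := exists_maximal_antichain {p : P | ∃ y, S y p}
  choose! f hf using hCD
  obtain ⟨x, hx⟩ := exists_mix hCa f
  refine ⟨x, fun p hp => (hreg x).reg fun q hq => ?_⟩
  obtain ⟨r, hr, hy⟩ := hp q hq
  obtain ⟨a, ha, s, hsa, hsr⟩ := hCm r hy
  exact ⟨s, hsr.trans hr, hext _ _ _ (feq_symm (feq_mono hsa (hx a ha)))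
    ((hreg _).mono hsa (hf ha))⟩

/-- Densely below `p`, `S` holds. -/
def DB (S : P → Prop) (p : P) : Prop := ∀ q ≤ p, ∃ r ≤ q, S r

theorem DB.reg' (S : P → Prop) : Reg (DB S) := Reg.dense

theorem DB.of {S : P → Prop} (hS : ∀ {p q : P}, q ≤ p → S p → S q) {p : P} (h : S p) : DB S p :=
  fun q hq => ⟨q, le_rfl, hS hq h⟩

theorem DB.mono {S : P → Prop} {p q : P} (hq : q ≤ p) (h : DB S p) : DB S q :=
  (DB.reg' S).mono hq h

theorem DB.imp {S T : P → Prop} {p : P} (h : ∀ q ≤ p, S q → T q) (hS : DB S p) : DB T p := by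
  intro q hq
  obtain ⟨r, hr, h'⟩ := hS q hq
  exact ⟨r, hr, h r (hr.trans hq) h'⟩

/-- An extensional predicate on names. -/
def Ext' (S : Nam P → P → Prop) : Prop := ∀ x y p, feq x y p → S x p → S y p

/-! ### Pairing -/

/-- The pair name `{x, y}`. -/
def Nam.pair (x y : Nam P) : Nam P := ⟨ULift Bool, fun _ => ⊤, fun b => if b.down then x else y⟩

theorem fmem_pair {x y w : Nam P} {p : P} :
    fmem w (Nam.pair x y) p ↔ DB (fun q => feq w x q ∨ feq w y q) p := by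
  constructor
  · intro h q hq
    obtain ⟨r, hr, ⟨j⟩, -, h2⟩ := h q hq
    refine ⟨r, hr, ?_⟩
    cases j
    · exact Or.inr h2
    · exact Or.inl h2
  · intro h q hq
    obtain ⟨r, hr, h2 | h2⟩ := h q hq
    · exact ⟨r, hr, ⟨true⟩, trivial, h2⟩
    · exact ⟨r, hr, ⟨false⟩, trivial, h2⟩

/-! ### Union -/

/-- The union name. -/
def Nam.sUnion (x : Nam P) : Nam P :=
  ⟨Σ i : x.idx, (x.el i).idx, fun s => x.wt s.1 ⊓ (x.el s.1).wt s.2, fun s => (x.el s.1).el s.2⟩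

theorem fmem_sUnion {x z : Nam P} {p : P} :
    fmem z (Nam.sUnion x) p ↔ DB (fun q => ∃ w, fmem w x q ∧ fmem z w q) p := by
  constructor
  · intro h q hq
    obtain ⟨r, hr, ⟨i, k⟩, ⟨h1, h2⟩, h3⟩ := h q hq
    exact ⟨r, hr, x.el i, fmem_of_wt h1, fmem_congr_left (feq_symm h3) (fmem_of_wt h2)⟩
  · intro h q hq
    obtain ⟨r, hr, w, h1, h2⟩ := h q hq
    obtain ⟨s, hs, i, h3, h4⟩ := h1 r le_rfl
    obtain ⟨t, ht, k, h5, h6⟩ := fmem_congr_right h4 (fmem_mono hs h2) s le_rfl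
    exact ⟨t, (ht.trans hs).trans hr, ⟨i, k⟩, ⟨(x.wt i).lower ht h3, h5⟩, h6⟩

/-! ### Power set -/

/-- The power set name. -/
def Nam.power (x : Nam P) : Nam P :=
  ⟨x.idx → LowerSet P, fun _ => ⊤, fun χ => ⟨x.idx, fun i => χ i ⊓ x.wt i, x.el⟩⟩

theorem fmem_power {x z : Nam P} {p : P} :
    fmem z (Nam.power x) p ↔ ∀ w, ∀ q ≤ p, fmem w z q → fmem w x q := by
  constructor
  · intro h w q hq hw
    refine (fmemReg w x).reg fun r hr => ?_
    obtain ⟨s, hs, χ, -, h2⟩ := h r (hr.trans hq)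
    obtain ⟨t, ht, i, h3, h4⟩ := fmem_congr_right h2 (fmem_mono (hs.trans hr) hw) s le_rfl
    exact ⟨t, ht.trans hs, fmem_congr_left (feq_symm h4) (fmem_of_wt h3.2)⟩
  · intro h q hq
    refine ⟨q, le_rfl, fun i => ⟨{r | fmem (x.el i) z r}, fun _ _ hba hb => fmem_mono hba hb⟩,
      trivial, ?_⟩
    apply feq_of_fmem
    intro w r hr
    constructor
    · intro hw s hs
      obtain ⟨t, ht, i, h1, h2⟩ := h w r (hr.trans hq) hw s hs
      exact ⟨t, ht, i, ⟨fmem_congr_left h2 (fmem_mono (ht.trans hs) hw), h1⟩, h2⟩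
    · intro hw
      refine (fmemReg w z).reg fun s hs => ?_
      obtain ⟨t, ht, i, ⟨h1, -⟩, h2⟩ := hw s hs
      exact ⟨t, ht, fmem_congr_left (feq_symm h2) h1⟩

/-! ### Separation -/

/-- The name `{z ∈ x | S z}`. -/
def Nam.sep (x : Nam P) (S : Nam P → P → Prop) (hS : ∀ z, Reg (S z)) : Nam P :=
  ⟨x.idx, fun i => x.wt i ⊓ ⟨{p | S (x.el i) p}, fun _ _ h h' => (hS _).mono h h'⟩, x.el⟩

theorem fmem_sep {x : Nam P} {S : Nam P → P → Prop} {hS : ∀ z, Reg (S z)} (hext : Ext' S)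
    {z : Nam P} {p : P} : fmem z (Nam.sep x S hS) p ↔ fmem z x p ∧ S z p := by
  constructor
  · intro h
    constructor
    · intro q hq
      obtain ⟨r, hr, i, ⟨h1, h2⟩, h3⟩ := h q hq
      exact ⟨r, hr, i, h1, h3⟩
    · refine (hS z).reg fun q hq => ?_
      obtain ⟨r, hr, i, ⟨h1, h2⟩, h3⟩ := h q hq
      exact ⟨r, hr, hext _ _ _ (feq_symm h3) h2⟩
  · rintro ⟨h1, h2⟩ q hq
    obtain ⟨r, hr, i, h3, h4⟩ := h1 q hq
    exact ⟨r, hr, i, ⟨h3, hext _ _ _ h4 ((hS z).mono (hr.trans hq) h2)⟩, h4⟩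

/-! ### Infinity -/

/-- The name `y ∪ {y}`. -/
def Nam.succ (y : Nam P) : Nam P :=
  ⟨Option y.idx, fun o => o.elim ⊤ y.wt, fun o => o.elim y y.el⟩

theorem fmem_succ {y w : Nam P} {p : P} :
    fmem w (Nam.succ y) p ↔ DB (fun q => fmem w y q ∨ feq w y q) p := by
  constructor
  · intro h q hq
    obtain ⟨r, hr, o, h1, h2⟩ := h q hq
    refine ⟨r, hr, ?_⟩
    cases o with
    | none => exact Or.inr h2
    | some j => exact Or.inl (fmem_congr_left (feq_symm h2) (fmem_of_wt h1))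
  · intro h q hq
    obtain ⟨r, hr, h1 | h1⟩ := h q hq
    · obtain ⟨s, hs, j, h2, h3⟩ := h1 r le_rfl
      exact ⟨s, hs.trans hr, some j, h2, h3⟩
    · exact ⟨r, hr, none, trivial, h1⟩

theorem feq_succ {y y' : Nam P} {p : P} (h : feq y y' p) :
    feq (Nam.succ y) (Nam.succ y') p := by
  apply feq_of_fmem
  intro z q hq
  rw [fmem_succ, fmem_succ]
  constructor
  · refine DB.imp fun r hr h' => ?_
    rcases h' with h' | h'
    · exact Or.inl (fmem_congr_right (feq_mono (hr.trans hq) h) h')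
    · exact Or.inr (feq_trans h' (feq_mono (hr.trans hq) h))
  · refine DB.imp fun r hr h' => ?_
    rcases h' with h' | h'
    · exact Or.inl (fmem_congr_right (feq_symm (feq_mono (hr.trans hq) h)) h')
    · exact Or.inr (feq_trans h' (feq_symm (feq_mono (hr.trans hq) h)))

/-- The finite ordinals. -/
def Nam.fin : ℕ → Nam P
  | 0 => Nam.empty
  | n + 1 => Nam.succ (Nam.fin n)

/-- The name `ω`. -/
def Nam.omega : Nam P := ⟨ULift ℕ, fun _ => ⊤, fun n => Nam.fin n.down⟩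

theorem not_fmem_empty (z : Nam P) (p : P) : ¬ fmem z Nam.empty p := by
  intro h
  obtain ⟨r, hr, j, -⟩ := h p le_rfl
  exact j.elim

theorem fmem_omega_fin (n : ℕ) (p : P) : fmem (Nam.fin n) Nam.omega p :=
  fmem_of_wt (y := Nam.omega) (j := ⟨n⟩) trivial

theorem infinity_forced : (∀ p : P, fmem Nam.empty Nam.omega p) ∧
    ∀ (y : Nam P) (p : P), fmem y Nam.omega p → fmem (Nam.succ y) Nam.omega p := by
  refine ⟨fun p => fmem_omega_fin 0 p, fun y p h => ?_⟩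
  refine (fmemReg _ _).reg fun q hq => ?_
  obtain ⟨r, hr, ⟨n⟩, -, h2⟩ := h q hq
  exact ⟨r, hr, fmem_congr_left (feq_symm (feq_succ h2)) (fmem_omega_fin (n + 1) r)⟩


end Pool.Agent.Sym
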