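import Pool.Agent.Lib.MP_1454e8_lc.S9Step2

/-!
# The forced theorem: totally bounded uniform structures have countable dense sets
-/

set_option autoImplicit false

namespace Pool.Agent.Sym

variable {K W : Type} [Uncountable K] {Z U : Nam (Cond K W)}

/-- Nets with a fixed support. -/
theorem exists_nets {e : ℕ} {S : Set (Co K)} (hS : S.Finite) (hlev : ∀ t ∈ S, t.1 < e)
    (hZ : FixN (Fx e S) Z) (hU : FixN (Fx e S) U) {u0 : Cond K W} (hu : res S u0 = u0)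
    (hH : HF (sys K) Z U u0) (n : ℕ) {q : Cond K W} (hq : q ≤ u0) :
    ∃ r ≤ q, ∃ m, ∃ y : Fin m → Nam (Cond K W), (∀ j, HS (sys K) (y j)) ∧
      (∀ j, FixN (Fx e S) (y j)) ∧ Net (sys K) Z U n m y r := by
  obtain ⟨q1, hq1, m, hm⟩ := hH.tb n q hq
  obtain ⟨q2, hq2, y, hy, hN⟩ := hm q1 le_rfl
  have hq20 : q2 ≤ u0 := hq2.trans (hq1.trans hq)
  obtain ⟨r, hr, h1⟩ := DB.simul (S := fun i p => ∀ h : i < m, ∃ z', HS (sys K) z' ∧
      FixN (Fx e S) z' ∧ feq (y ⟨i, h⟩) z' p)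
    (fun i {_ _} hqp h h' => by
      obtain ⟨z', h1, h2, h3⟩ := h h'
      exact ⟨z', h1, h2, feq_mono hqp h3⟩) m (p := q2) (fun i hi q3 hq3 => by
      obtain ⟨r, hr, z', h1, h2, h3⟩ := step12 hS hlev hZ hU hu hH (hy ⟨i, hi⟩)
        (hq3.trans hq20) (fmem_mono hq3 (hN.1 ⟨i, hi⟩))
      exact ⟨r, hr, fun _ => ⟨z', h1, h2, h3⟩⟩)
  have h2 : ∀ j : Fin m, ∃ z', HS (sys K) z' ∧ FixN (Fx e S) z' ∧ feq (y j) z' r :=
    fun j => h1 j.1 j.2 j.2
  choose y' hy1 hy2 hy3 using h2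
  refine ⟨r, hr.trans (hq2.trans hq1), m, y', hy1, hy2, fun j => ?_, fun z hz s hs hzs => ?_⟩
  · exact fmem_congr_left (hy3 j) (fmem_mono hr (hN.1 j))
  · refine DB.imp (fun t ht h => ?_) (hN.2 z hz s (hs.trans hr) hzs)
    obtain ⟨j, h⟩ := h
    exact ⟨j, h.congr (feq_refl _ _) (feq_mono (ht.trans hs) (hy3 j))⟩

theorem main_forced (hZ : HS (sys K) Z) (hU : HS (sys K) U) {p : Cond K W}
    (hH : HF (sys K) Z U p) : DB (CF (sys K) Z U) p := by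
  -- the support
  obtain ⟨HZ, ⟨eZ, SZ, hSZ, hHZ⟩, hfZ⟩ := hZ.sym
  obtain ⟨HU, ⟨eU, SU, hSU, hHU⟩, hfU⟩ := hU.sym
  have hS : (SZ ∪ SU).Finite := hSZ.union hSU
  obtain ⟨e2, he2⟩ : ∃ e2, ∀ t ∈ SZ ∪ SU, t.1 < e2 := by
    obtain ⟨b, hb⟩ := (hS.image (fun t : Co K => t.1)).bddAbove
    exact ⟨b + 1, fun t ht => Nat.lt_succ_of_le (hb ⟨t, ht, rfl⟩)⟩
  set S : Set (Co K) := SZ ∪ SU with hSdef
  set e := max e2 (max eZ eU) with he
  have hlev : ∀ t ∈ S, t.1 < e := fun t ht => lt_of_lt_of_le (he2 t ht) (le_max_left _ _)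
  have hZf : FixN (Fx e S) Z := (hfZ.mono hHZ).mono
    (Fx.mono ((le_max_left _ _).trans (le_max_right _ _)) Set.subset_union_left)
  have hUf : FixN (Fx e S) U := (hfU.mono hHU).mono
    (Fx.mono ((le_max_right _ _).trans (le_max_right _ _)) Set.subset_union_right)
  have hH0 : HF (sys K) Z U (res S p) :=
    hom (HF.reg Z U) hS.countable (fun g hg hgS p => HF.act hZf hUf (Xi.mem_Fx hg hgS e) p) hH
  intro q hq
  have hq0 : q ≤ res S p := hq.trans (le_res S p)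
  -- the sequence of nets
  have key : ∀ (n : ℕ) (x : {x : Cond K W // x ≤ q}), ∃ y : {x : Cond K W // x ≤ q},
      y.1 ≤ x.1 ∧ ∃ m, ∃ ν : Fin m → Nam (Cond K W), (∀ j, HS (sys K) (ν j)) ∧
      (∀ j, FixN (Fx e S) (ν j)) ∧ Net (sys K) Z U n m ν y.1 := by
    intro n x
    obtain ⟨r, hr, m, ν, h1, h2, h3⟩ := exists_nets hS hlev hZf hUf (res_res p) hH0 n
      (x.2.trans hq0)
    exact ⟨⟨r, hr.trans x.2⟩, hr, m, ν, h1, h2, h3⟩
  choose f hf1 m ν hν1 hν2 hν3 using key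
  let s : ℕ → {x : Cond K W // x ≤ q} := fun n => Nat.rec ⟨q, le_rfl⟩ (fun n x => f n x) n
  obtain ⟨r, hr, -⟩ := exists_lower (fun n => (s n).1) (fun n => hf1 n (s n))
  have hN : ∀ n, Net (sys K) Z U n (m n (s n)) (ν n (s n)) r := fun n =>
    (hν3 n (s n)).mono (hr (n + 1))
  let F : Nam (Cond K W) := ⟨Σ n, Fin (m n (s n)), fun _ => ⊤,
    fun i => Nam.opair (Nam.fin (Nat.pair i.1 i.2.1)) (ν i.1 (s i.1) i.2)⟩
  have hFfix : FixN (Fx e S) F := by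
    intro g hg p
    refine feq_act_of_perm (x := F) g (Equiv.refl _) (fun _ _ => ⟨fun _ => trivial,
      fun _ => trivial⟩) (fun i q _ => ?_) p
    change feq (act g (Nam.opair (Nam.fin (Nat.pair i.1 i.2.1)) (ν i.1 (s i.1) i.2)))
      (Nam.opair (Nam.fin (Nat.pair i.1 i.2.1)) (ν i.1 (s i.1) i.2)) q
    rw [act_opair, act_fin]
    exact feq_opair (feq_refl _ _) (hν2 i.1 (s i.1) i.2 g hg q)
  have hF : HS (sys K) F := HS.of (fun i => (HS.fin _).opair (hν1 i.1 (s i.1) i.2))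
    ⟨Fx e S, Fx_mem hS, hFfix⟩
  refine ⟨r, hr 0, F, hF, ?_, ?_⟩
  · intro k y _ y' _ q _ h h'
    refine feq_reg fun t ht => ?_
    obtain ⟨t1, ht1, i, -, h1⟩ := h t ht
    obtain ⟨t2, ht2, i', -, h2⟩ := h' t1 (ht1.trans ht)
    have h3 := feq_of_opair h1
    have h4 := feq_of_opair h2
    have e1 : k = Nat.pair i.1 i.2.1 := fin_inj h3.1
    have e2 : k = Nat.pair i'.1 i'.2.1 := fin_inj h4.1
    have e3 := e1.symm.trans e2
    rw [Nat.pair_eq_pair] at e3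
    have e4 : i = i' := by
      obtain ⟨a, b⟩ := i
      obtain ⟨a', b'⟩ := i'
      obtain ⟨h5, h6⟩ := e3
      dsimp only at h5 h6
      subst h5
      congr 1
      exact Fin.ext h6
    subst e4
    exact ⟨t2, ht2.trans ht1, feq_trans (feq_mono ht2 h3.2) (feq_symm h4.2)⟩
  · intro n z hz q hq' hzq
    refine DB.imp (fun t ht h => ?_) ((hN n).2 z hz q hq' hzq)
    obtain ⟨j, h⟩ := h
    exact ⟨Nat.pair n j.1, ν n (s n) j, hν1 _ _ _, fmem_mono (ht.trans hq') ((hN n).1 j),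
      fmem_of_wt (y := F) (j := ⟨n, j⟩) trivial, h⟩

end Pool.Agent.Sym
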