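import Pool.Agent.Lib.MP_f5c99b_lc.Defs

/-!
# Compact metrizable spaces, countable products and separability inside a structure `(M, ∈)`

All quantifiers over sets range over `M`.
-/

set_option autoImplicit false

namespace Pool.Agent.Sym

open Pool.Agent.Lib.MP_f5c99b_lc

universe u

variable {M : Type u} [Membership M M]

/-- The set `A` is finite: it is the image of a natural number (von Neumann ordinal). -/
def IsFinite (A : M) : Prop :=
  ∃ w n f : M, IsOmega w ∧ n ∈ w ∧ IsFun f n A ∧ ∀ y : M, y ∈ A → ∃ x : M, App f x y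

/-- The set `A` is countable: there is an injective function from `A` to `ω`. -/
def IsCountable (A : M) : Prop :=
  ∃ w f : M, IsOmega w ∧ IsFun f A w ∧ ∀ x y z : M, App f x z → App f y z → x = y

/-- The space `(X, T)` is compact: every open cover has a finite subcover. -/
def IsCompactSp (X T : M) : Prop :=
  ∀ C : M, (∀ U : M, U ∈ C → U ∈ T) → (∀ x : M, x ∈ X → ∃ U : M, U ∈ C ∧ x ∈ U) →
    ∃ F : M, IsFinite F ∧ (∀ U : M, U ∈ F → U ∈ C) ∧ ∀ x : M, x ∈ X → ∃ U : M, U ∈ F ∧ x ∈ U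

/-- `d` is a metric on `X` with values in the real line `K` (`((x, y), r) ∈ d` means
`d(x, y) = r`). -/
def IsMetric (K : RealField M) (X d : M) : Prop :=
  (∀ x y : M, x ∈ X → y ∈ X → ∃! r : El K.R, App2 d x y r.1) ∧
  (∀ (x y : M) (r : El K.R), x ∈ X → y ∈ X → App2 d x y r.1 → 0 ≤ r ∧ (r = 0 ↔ x = y)) ∧
  (∀ (x y : M) (r : El K.R), x ∈ X → y ∈ X → App2 d x y r.1 → App2 d y x r.1) ∧
  ∀ (x y z : M) (r s t : El K.R), x ∈ X → y ∈ X → z ∈ X → App2 d x y r.1 → App2 d y z s.1 →
    App2 d x z t.1 → t ≤ r + s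

/-- The topology `T` on `X` is the one given by the metric `d`. -/
def IsMetricTop (K : RealField M) (X T d : M) : Prop :=
  ∀ U : M, U ∈ T ↔ ∀ x : M, x ∈ U → x ∈ X ∧ ∃ ε : El K.R, 0 < ε ∧
    ∀ (y : M) (r : El K.R), y ∈ X → App2 d x y r.1 → r < ε → y ∈ U

/-- The space `(X, T)` is metrizable. -/
def IsMetrizable (K : RealField M) (X T : M) : Prop :=
  ∃ d : M, IsMetric K X d ∧ IsMetricTop K X T d

/-- The space `(X, T)` is separable: it has a countable dense subset. -/
def IsSeparable (X T : M) : Prop :=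
  ∃ D : M, IsCountable D ∧ (∀ x : M, x ∈ D → x ∈ X) ∧
    ∀ U : M, U ∈ T → (∃ x : M, x ∈ U) → ∃ x : M, x ∈ D ∧ x ∈ U

/-- `f` is a function with domain `a`. -/
def IsFunOn (f a : M) : Prop :=
  (∀ p : M, p ∈ f → ∃ x y : M, x ∈ a ∧ IsPair p x y) ∧ ∀ x : M, x ∈ a → ∃! y : M, App f x y

/-- `(P, Q)` is the Tychonoff product of the family of spaces `(X i, T i)`, `i ∈ I`. -/
def IsProduct (I X T P Q : M) : Prop :=
  (∀ g : M, g ∈ P ↔ IsFunOn g I ∧
    ∀ i Y y : M, i ∈ I → App X i Y → App g i y → y ∈ Y) ∧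
  IsGenerated P (fun U => ∃ i S V : M, i ∈ I ∧ App T i S ∧ V ∈ S ∧
    ∀ g : M, g ∈ U ↔ g ∈ P ∧ ∃ y : M, y ∈ V ∧ App g i y) Q

/-- `M(C, S)`: every compact metrizable space is separable. -/
def MCS (K : RealField M) : Prop :=
  ∀ X T : M, IsTopology X T → IsCompactSp X T → IsMetrizable K X T → IsSeparable X T

/-- `CPM_le(C, S)`: every countable product of compact metrizable spaces is separable. -/
def CPMS (K : RealField M) : Prop :=
  ∀ I X T P Q : M, IsCountable I → IsFunOn X I → IsFunOn T I →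
    (∀ i Y S : M, i ∈ I → App X i Y → App T i S →
      IsTopology Y S ∧ IsCompactSp Y S ∧ IsMetrizable K Y S) →
    IsProduct I X T P Q → IsSeparable P Q

end Pool.Agent.Sym
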