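import Pool.Agent.Lib.MP_f5c99b_lc.Core
import Pool.Agent.Lib.MP_1454e8_lc.TDefs

/-!
# Countably generated uniform structures inside a model of ZF
-/

set_option autoImplicit false

namespace Pool.Agent.Sym

open Pool.Agent.Lib.MP_f5c99b_lc

universe u

variable {M : Type u} [Membership M M] [hZF : Fact (IsModelOfZF M)]

/-- `U` codes a countable base `R_n = {(x, y) : ((n, x), y) ∈ U}`, `n ∈ ω`, of a Hausdorff totally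
bounded uniformity on `Z`. -/
structure HM (Z U : M) : Prop where
  symm : ∀ n, n ∈ omega M → ∀ x, x ∈ Z → ∀ y, y ∈ Z → pr (pr n x) y ∈ U → pr (pr n y) x ∈ U
  comp : ∀ n, n ∈ omega M → ∃ m, m ∈ omega M ∧ ∀ x, x ∈ Z → ∀ y, y ∈ Z → ∀ z, z ∈ Z →
    pr (pr m x) y ∈ U → pr (pr m y) z ∈ U → pr (pr n x) z ∈ U
  haus : ∀ x, x ∈ Z → ∀ y, y ∈ Z → (∀ n, n ∈ omega M → pr (pr n x) y ∈ U) → x = y
  tb : ∀ n, n ∈ omega M → ∃ m, m ∈ omega M ∧ ∃ h : M,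
    (∀ j, j ∈ m → ∃ y, y ∈ Z ∧ pr j y ∈ h) ∧
    (∀ j, j ∈ m → ∀ y, pr j y ∈ h → ∀ y', pr j y' ∈ h → y = y') ∧
    ∀ z, z ∈ Z → ∃ j, j ∈ m ∧ ∃ y, pr j y ∈ h ∧ pr (pr n z) y ∈ U

/-- A countable dense set for the uniformity coded by `U`: `F` is functional and for every
`n ∈ ω`, `z ∈ Z` there are `k ∈ ω` and `y ∈ Z` with `F k = y` and `R_n z y`. -/
def CM (Z U : M) : Prop :=
  ∃ F : M, (∀ k, k ∈ omega M → ∀ y, pr k y ∈ F → ∀ y', pr k y' ∈ F → y = y') ∧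
    ∀ n, n ∈ omega M → ∀ z, z ∈ Z → ∃ k, k ∈ omega M ∧ ∃ y, y ∈ Z ∧ pr k y ∈ F ∧ pr (pr n z) y ∈ U

end Pool.Agent.Sym
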