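import Pool.Agent.Lib.MP_1454e8_lc.S10Step3
import Pool.Agent.Lib.MP_1454e8_lc.THM

/-!
# In the model, totally bounded uniform structures have countable dense sets
-/

set_option autoImplicit false

namespace Pool.Agent.Sym

universe u

open Pool.Agent.Lib.MP_f5c99b_lc

section RE

variable {P : Type u} [Preorder P]

/-- Extensional terms. -/
structure TE (t : Nam P → Nam P) : Prop where
  out : ∀ x y p, feq x y p → feq (t x) (t y) p

theorem TE.id : TE (fun x : Nam P => x) := ⟨fun _ _ _ h => h⟩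

theorem TE.const (c : Nam P) : TE (fun _ : Nam P => c) := ⟨fun _ _ _ _ => feq_refl _ _⟩

theorem TE.opair {s t : Nam P → Nam P} (hs : TE s) (ht : TE t) :
    TE (fun x => Nam.opair (s x) (t x)) :=
  ⟨fun x y p h => feq_opair (hs.out x y p h) (ht.out x y p h)⟩

theorem RE.mem' {s t : Nam P → Nam P} (hs : TE s) (ht : TE t) : RE (fun x => fmem (s x) (t x)) :=
  ⟨fun _ => fmemReg _ _, fun x y p h h' => fmem_congr (hs.out x y p h) (ht.out x y p h) h'⟩

theorem RE.eq' {s t : Nam P → Nam P} (hs : TE s) (ht : TE t) : RE (fun x => feq (s x) (t x)) :=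
  ⟨fun _ => feqReg _ _, fun x y p h h' =>
    feq_trans (feq_symm (hs.out x y p h)) (feq_trans h' (ht.out x y p h))⟩

theorem RE.exI {ι : Sort*} {S : ι → Nam P → P → Prop} (h : ∀ i, RE (S i)) :
    RE (fun x => DB fun p => ∃ i, S i x p) :=
  RE.db fun x y p hxy ⟨i, hi⟩ => ⟨i, (h i).ext x y p hxy hi⟩

end RE


variable {K W : Type} [Uncountable K]

section tr

variable {G P : Type u} [Group G] [Preorder P] [OrdAct G P] {𝓢 : SymSys G}

/-- The forced version of the clauses of `HM`. -/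
def f1 (𝓢 : SymSys G) (Z U : Nam P) (p : P) : Prop :=
  ∀ n : ℕ, ∀ x, HS 𝓢 x → ∀ q ≤ p, fmem x Z q → ∀ y, HS 𝓢 y → ∀ r ≤ q, fmem y Z r → ∀ s ≤ r,
    RR U n x y s → RR U n y x s

def f2 (𝓢 : SymSys G) (Z U : Nam P) (p : P) : Prop :=
  ∀ n : ℕ, DB (fun p => ∃ m : ℕ, ∀ x, HS 𝓢 x → ∀ q ≤ p, fmem x Z q → ∀ y, HS 𝓢 y → ∀ r ≤ q,
    fmem y Z r → ∀ z, HS 𝓢 z → ∀ s ≤ r, fmem z Z s → ∀ t ≤ s, RR U m x y t → ∀ t' ≤ t,
      RR U m y z t' → RR U n x z t') p

def f3 (𝓢 : SymSys G) (Z U : Nam P) (p : P) : Prop :=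
  ∀ x, HS 𝓢 x → ∀ q ≤ p, fmem x Z q → ∀ y, HS 𝓢 y → ∀ r ≤ q, fmem y Z r → ∀ s ≤ r,
    (∀ n, RR U n x y s) → feq x y s

def f4 (𝓢 : SymSys G) (Z U : Nam P) (p : P) : Prop :=
  ∀ n : ℕ, DB (fun p => ∃ m : ℕ, DB (fun p => ∃ h, HS 𝓢 h ∧
    ((∀ j, HS 𝓢 j → ∀ q ≤ p, fmem j (Nam.fin m) q →
      DB (fun r => ∃ y, HS 𝓢 y ∧ (fmem y Z r ∧ fmem (Nam.opair j y) h r)) q) ∧
    ((∀ j, HS 𝓢 j → ∀ q ≤ p, fmem j (Nam.fin m) q → ∀ y, HS 𝓢 y → ∀ r ≤ q,
      fmem (Nam.opair j y) h r → ∀ y', HS 𝓢 y' → ∀ s ≤ r, fmem (Nam.opair j y') h s →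
        feq y y' s) ∧
    ∀ z, HS 𝓢 z → ∀ q ≤ p, fmem z Z q → DB (fun r => ∃ j, HS 𝓢 j ∧ (fmem j (Nam.fin m) r ∧
      DB (fun s => ∃ y, HS 𝓢 y ∧ (fmem (Nam.opair j y) h s ∧ RR U n z y s)) r)) q))) p) p

/-- The forced version of `CM`. -/
def f5 (𝓢 : SymSys G) (Z U : Nam P) (p : P) : Prop :=
  DB (fun p => ∃ F, HS 𝓢 F ∧ ((∀ k : ℕ, ∀ y, HS 𝓢 y → ∀ q ≤ p, fmem (Nam.opair (Nam.fin k) y) F q →
    ∀ y', HS 𝓢 y' → ∀ r ≤ q, fmem (Nam.opair (Nam.fin k) y') F r → feq y y' r) ∧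
    ∀ n : ℕ, ∀ z, HS 𝓢 z → ∀ q ≤ p, fmem z Z q → DB (fun r => ∃ k : ℕ, DB (fun s => ∃ y, HS 𝓢 y ∧
      (fmem y Z s ∧ (fmem (Nam.opair (Nam.fin k) y) F s ∧ RR U n z y s))) r) q)) p

variable [Nonempty P]

theorem tr_f1 {Z U : Nam P} (hZ : LD 𝓢 Z) (hU : LD 𝓢 U) :
    Tr (∀ n, n ∈ omega (Mod P 𝓢) → ∀ x, x ∈ cls Z hZ → ∀ y, y ∈ cls Z hZ →
      pr (pr n x) y ∈ cls U hU → pr (pr n y) x ∈ cls U hU) (f1 𝓢 Z U) := by
  refine Tr.allω (S := fun n p => ∀ x, HS 𝓢 x → ∀ q ≤ p, fmem x Z q → ∀ y, HS 𝓢 y → ∀ r ≤ q,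
    fmem y Z r → ∀ s ≤ r, fmem (Nam.opair (Nam.opair n x) y) U s →
      fmem (Nam.opair (Nam.opair n y) x) U s) (fun n hn => ?_) (by (repeat' first | exact TE.id | exact TE.const _ | apply TE.opair | apply RE.mem' | apply RE.eq' | apply RE.and | apply RE.not | apply RE.imp | apply RE.all | apply RE.ex | apply RE.exI | apply RE.allI | intro _))
  refine Tr.allB hZ (fun x hx => Tr.allB hZ (fun y hy => ?_) (by (repeat' first | exact TE.id | exact TE.const _ | apply TE.opair | apply RE.mem' | apply RE.eq' | apply RE.and | apply RE.not | apply RE.imp | apply RE.all | apply RE.ex | apply RE.exI | apply RE.allI | intro _))) (by (repeat' first | exact TE.id | exact TE.const _ | apply TE.opair | apply RE.mem' | apply RE.eq' | apply RE.and | apply RE.not | apply RE.imp | apply RE.all | apply RE.ex | apply RE.exI | apply RE.allI | intro _))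
  exact (Tr.pr3_mem hn hx hy hU).imp (Tr.pr3_mem hn hy hx hU)

theorem tr_f2 {Z U : Nam P} (hZ : LD 𝓢 Z) (hU : LD 𝓢 U) :
    Tr (∀ n, n ∈ omega (Mod P 𝓢) → ∃ m, m ∈ omega (Mod P 𝓢) ∧ ∀ x, x ∈ cls Z hZ →
      ∀ y, y ∈ cls Z hZ → ∀ z, z ∈ cls Z hZ → pr (pr m x) y ∈ cls U hU →
        pr (pr m y) z ∈ cls U hU → pr (pr n x) z ∈ cls U hU) (f2 𝓢 Z U) := by
  refine Tr.allω (S := fun n => DB fun p => ∃ m : ℕ, ∀ x, HS 𝓢 x → ∀ q ≤ p, fmem x Z q →
    ∀ y, HS 𝓢 y → ∀ r ≤ q, fmem y Z r → ∀ z, HS 𝓢 z → ∀ s ≤ r, fmem z Z s → ∀ t ≤ s,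
      fmem (Nam.opair (Nam.opair (Nam.fin m) x) y) U t → ∀ t' ≤ t,
        fmem (Nam.opair (Nam.opair (Nam.fin m) y) z) U t' →
          fmem (Nam.opair (Nam.opair n x) z) U t') (fun n hn => ?_) (by (repeat' first | exact TE.id | exact TE.const _ | apply TE.opair | apply RE.mem' | apply RE.eq' | apply RE.and | apply RE.not | apply RE.imp | apply RE.all | apply RE.ex | apply RE.exI | apply RE.allI | intro _))
  refine Tr.exω (S := fun m p => ∀ x, HS 𝓢 x → ∀ q ≤ p, fmem x Z q →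
    ∀ y, HS 𝓢 y → ∀ r ≤ q, fmem y Z r → ∀ z, HS 𝓢 z → ∀ s ≤ r, fmem z Z s → ∀ t ≤ s,
      fmem (Nam.opair (Nam.opair m x) y) U t → ∀ t' ≤ t,
        fmem (Nam.opair (Nam.opair m y) z) U t' →
          fmem (Nam.opair (Nam.opair n x) z) U t') (fun m hm => ?_) (by (repeat' first | exact TE.id | exact TE.const _ | apply TE.opair | apply RE.mem' | apply RE.eq' | apply RE.and | apply RE.not | apply RE.imp | apply RE.all | apply RE.ex | apply RE.exI | apply RE.allI | intro _))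
  refine Tr.allB hZ (fun x hx => Tr.allB hZ (fun y hy => Tr.allB hZ (fun z hz => ?_)
    (by (repeat' first | exact TE.id | exact TE.const _ | apply TE.opair | apply RE.mem' | apply RE.eq' | apply RE.and | apply RE.not | apply RE.imp | apply RE.all | apply RE.ex | apply RE.exI | apply RE.allI | intro _))) (by (repeat' first | exact TE.id | exact TE.const _ | apply TE.opair | apply RE.mem' | apply RE.eq' | apply RE.and | apply RE.not | apply RE.imp | apply RE.all | apply RE.ex | apply RE.exI | apply RE.allI | intro _))) (by (repeat' first | exact TE.id | exact TE.const _ | apply TE.opair | apply RE.mem' | apply RE.eq' | apply RE.and | apply RE.not | apply RE.imp | apply RE.all | apply RE.ex | apply RE.exI | apply RE.allI | intro _))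
  exact (Tr.pr3_mem hm hx hy hU).imp ((Tr.pr3_mem hm hy hz hU).imp (Tr.pr3_mem hn hx hz hU))

theorem tr_f3 {Z U : Nam P} (hZ : LD 𝓢 Z) (hU : LD 𝓢 U) :
    Tr (∀ x, x ∈ cls Z hZ → ∀ y, y ∈ cls Z hZ →
      (∀ n, n ∈ omega (Mod P 𝓢) → pr (pr n x) y ∈ cls U hU) → x = y) (f3 𝓢 Z U) := by
  refine Tr.allB hZ (fun x hx => Tr.allB hZ (fun y hy => ?_) (by unfold RR; (repeat' first | exact TE.id | exact TE.const _ | apply TE.opair | apply RE.mem' | apply RE.eq' | apply RE.and | apply RE.not | apply RE.imp | apply RE.all | apply RE.ex | apply RE.exI | apply RE.allI | intro _)))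
    (by unfold RR; (repeat' first | exact TE.id | exact TE.const _ | apply TE.opair | apply RE.mem' | apply RE.eq' | apply RE.and | apply RE.not | apply RE.imp | apply RE.all | apply RE.ex | apply RE.exI | apply RE.allI | intro _))
  refine Tr.imp ?_ (Tr.eq hx hy)
  exact Tr.allω (S := fun n => fmem (Nam.opair (Nam.opair n x) y) U)
    (fun n hn => Tr.pr3_mem hn hx hy hU) (by (repeat' first | exact TE.id | exact TE.const _ | apply TE.opair | apply RE.mem' | apply RE.eq' | apply RE.and | apply RE.not | apply RE.imp | apply RE.all | apply RE.ex | apply RE.exI | apply RE.allI | intro _))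

theorem tr_f4 {Z U : Nam P} (hZ : LD 𝓢 Z) (hU : LD 𝓢 U) :
    Tr (∀ n, n ∈ omega (Mod P 𝓢) → ∃ m, m ∈ omega (Mod P 𝓢) ∧ ∃ h : Mod P 𝓢,
      (∀ j, j ∈ m → ∃ y, y ∈ cls Z hZ ∧ pr j y ∈ h) ∧
      (∀ j, j ∈ m → ∀ y, pr j y ∈ h → ∀ y', pr j y' ∈ h → y = y') ∧
      ∀ z, z ∈ cls Z hZ → ∃ j, j ∈ m ∧ ∃ y, pr j y ∈ h ∧ pr (pr n z) y ∈ cls U hU)
      (f4 𝓢 Z U) := by
  refine Tr.allω (S := fun n => DB (fun p => ∃ m : ℕ, DB (fun p => ∃ h, HS 𝓢 h ∧
    ((∀ j, HS 𝓢 j → ∀ q ≤ p, fmem j (Nam.fin m) q →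
      DB (fun r => ∃ y, HS 𝓢 y ∧ (fmem y Z r ∧ fmem (Nam.opair j y) h r)) q) ∧
    ((∀ j, HS 𝓢 j → ∀ q ≤ p, fmem j (Nam.fin m) q → ∀ y, HS 𝓢 y → ∀ r ≤ q,
      fmem (Nam.opair j y) h r → ∀ y', HS 𝓢 y' → ∀ s ≤ r, fmem (Nam.opair j y') h s →
        feq y y' s) ∧
    ∀ z, HS 𝓢 z → ∀ q ≤ p, fmem z Z q → DB (fun r => ∃ j, HS 𝓢 j ∧ (fmem j (Nam.fin m) r ∧
      DB (fun s => ∃ y, HS 𝓢 y ∧ (fmem (Nam.opair j y) h s ∧
        fmem (Nam.opair (Nam.opair n z) y) U s)) r)) q))) p)) (fun n hn => ?_) (by (repeat' first | exact TE.id | exact TE.const _ | apply TE.opair | apply RE.mem' | apply RE.eq' | apply RE.and | apply RE.not | apply RE.imp | apply RE.all | apply RE.ex | apply RE.exI | apply RE.allI | intro _))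
  refine Tr.exω (S := fun m => DB (fun p => ∃ h, HS 𝓢 h ∧
    ((∀ j, HS 𝓢 j → ∀ q ≤ p, fmem j m q →
      DB (fun r => ∃ y, HS 𝓢 y ∧ (fmem y Z r ∧ fmem (Nam.opair j y) h r)) q) ∧
    ((∀ j, HS 𝓢 j → ∀ q ≤ p, fmem j m q → ∀ y, HS 𝓢 y → ∀ r ≤ q,
      fmem (Nam.opair j y) h r → ∀ y', HS 𝓢 y' → ∀ s ≤ r, fmem (Nam.opair j y') h s →
        feq y y' s) ∧
    ∀ z, HS 𝓢 z → ∀ q ≤ p, fmem z Z q → DB (fun r => ∃ j, HS 𝓢 j ∧ (fmem j m r ∧
      DB (fun s => ∃ y, HS 𝓢 y ∧ (fmem (Nam.opair j y) h s ∧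
        fmem (Nam.opair (Nam.opair n z) y) U s)) r)) q)))) (fun m hm => ?_) (by (repeat' first | exact TE.id | exact TE.const _ | apply TE.opair | apply RE.mem' | apply RE.eq' | apply RE.and | apply RE.not | apply RE.imp | apply RE.all | apply RE.ex | apply RE.exI | apply RE.allI | intro _))
  refine Tr.ex (S := fun h p =>
    ((∀ j, HS 𝓢 j → ∀ q ≤ p, fmem j m q →
      DB (fun r => ∃ y, HS 𝓢 y ∧ (fmem y Z r ∧ fmem (Nam.opair j y) h r)) q) ∧
    ((∀ j, HS 𝓢 j → ∀ q ≤ p, fmem j m q → ∀ y, HS 𝓢 y → ∀ r ≤ q,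
      fmem (Nam.opair j y) h r → ∀ y', HS 𝓢 y' → ∀ s ≤ r, fmem (Nam.opair j y') h s →
        feq y y' s) ∧
    ∀ z, HS 𝓢 z → ∀ q ≤ p, fmem z Z q → DB (fun r => ∃ j, HS 𝓢 j ∧ (fmem j m r ∧
      DB (fun s => ∃ y, HS 𝓢 y ∧ (fmem (Nam.opair j y) h s ∧
        fmem (Nam.opair (Nam.opair n z) y) U s)) r)) q))) (fun h hh => ?_)
    (RE.reg (by (repeat' first | exact TE.id | exact TE.const _ | apply TE.opair | apply RE.mem' | apply RE.eq' | apply RE.and | apply RE.not | apply RE.imp | apply RE.all | apply RE.ex | apply RE.exI | apply RE.allI | intro _))) (RE.ext (by (repeat' first | exact TE.id | exact TE.const _ | apply TE.opair | apply RE.mem' | apply RE.eq' | apply RE.and | apply RE.not | apply RE.imp | apply RE.all | apply RE.ex | apply RE.exI | apply RE.allI | intro _)))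
  refine Tr.and ?_ (Tr.and ?_ ?_)
  · exact Tr.allB hm (fun j hj => Tr.exB hZ (fun y hy => Tr.pr_mem hj hy hh) (by (repeat' first | exact TE.id | exact TE.const _ | apply TE.opair | apply RE.mem' | apply RE.eq' | apply RE.and | apply RE.not | apply RE.imp | apply RE.all | apply RE.ex | apply RE.exI | apply RE.allI | intro _)))
      (by (repeat' first | exact TE.id | exact TE.const _ | apply TE.opair | apply RE.mem' | apply RE.eq' | apply RE.and | apply RE.not | apply RE.imp | apply RE.all | apply RE.ex | apply RE.exI | apply RE.allI | intro _))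
  · refine Tr.allB hm (fun j hj => ?_) (by (repeat' first | exact TE.id | exact TE.const _ | apply TE.opair | apply RE.mem' | apply RE.eq' | apply RE.and | apply RE.not | apply RE.imp | apply RE.all | apply RE.ex | apply RE.exI | apply RE.allI | intro _))
    refine Tr.all (T := fun y => pr (cls j hj) y ∈ cls h hh → ∀ y', pr (cls j hj) y' ∈ cls h hh →
      y = y') (fun y hy => (Tr.pr_mem hj hy hh).imp ?_)
      (RE.reg (by (repeat' first | exact TE.id | exact TE.const _ | apply TE.opair | apply RE.mem' | apply RE.eq' | apply RE.and | apply RE.not | apply RE.imp | apply RE.all | apply RE.ex | apply RE.exI | apply RE.allI | intro _))) (RE.ext (by (repeat' first | exact TE.id | exact TE.const _ | apply TE.opair | apply RE.mem' | apply RE.eq' | apply RE.and | apply RE.not | apply RE.imp | apply RE.all | apply RE.ex | apply RE.exI | apply RE.allI | intro _)))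
    exact Tr.all (T := fun y' => pr (cls j hj) y' ∈ cls h hh → cls y hy = y') (fun y' hy' =>
      (Tr.pr_mem hj hy' hh).imp (Tr.eq hy hy'))
      (RE.reg (by (repeat' first | exact TE.id | exact TE.const _ | apply TE.opair | apply RE.mem' | apply RE.eq' | apply RE.and | apply RE.not | apply RE.imp | apply RE.all | apply RE.ex | apply RE.exI | apply RE.allI | intro _))) (RE.ext (by (repeat' first | exact TE.id | exact TE.const _ | apply TE.opair | apply RE.mem' | apply RE.eq' | apply RE.and | apply RE.not | apply RE.imp | apply RE.all | apply RE.ex | apply RE.exI | apply RE.allI | intro _)))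
  · refine Tr.allB hZ (fun z hz => Tr.exB hm (fun j hj => ?_) (by (repeat' first | exact TE.id | exact TE.const _ | apply TE.opair | apply RE.mem' | apply RE.eq' | apply RE.and | apply RE.not | apply RE.imp | apply RE.all | apply RE.ex | apply RE.exI | apply RE.allI | intro _))) (by (repeat' first | exact TE.id | exact TE.const _ | apply TE.opair | apply RE.mem' | apply RE.eq' | apply RE.and | apply RE.not | apply RE.imp | apply RE.all | apply RE.ex | apply RE.exI | apply RE.allI | intro _))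
    exact Tr.ex (T := fun y => pr (cls j hj) y ∈ cls h hh ∧ pr (pr (cls n hn) (cls z hz)) y ∈
      cls U hU) (fun y hy => (Tr.pr_mem hj hy hh).and (Tr.pr3_mem hn hz hy hU))
      (RE.reg (by (repeat' first | exact TE.id | exact TE.const _ | apply TE.opair | apply RE.mem' | apply RE.eq' | apply RE.and | apply RE.not | apply RE.imp | apply RE.all | apply RE.ex | apply RE.exI | apply RE.allI | intro _))) (RE.ext (by (repeat' first | exact TE.id | exact TE.const _ | apply TE.opair | apply RE.mem' | apply RE.eq' | apply RE.and | apply RE.not | apply RE.imp | apply RE.all | apply RE.ex | apply RE.exI | apply RE.allI | intro _)))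

theorem tr_f5 {Z U : Nam P} (hZ : LD 𝓢 Z) (hU : LD 𝓢 U) :
    Tr (CM (cls Z hZ) (cls U hU)) (f5 𝓢 Z U) := by
  refine Tr.ex (T := fun F : Mod P 𝓢 => (∀ k, k ∈ omega (Mod P 𝓢) → ∀ y, pr k y ∈ F →
    ∀ y', pr k y' ∈ F → y = y') ∧ ∀ n, n ∈ omega (Mod P 𝓢) → ∀ z, z ∈ cls Z hZ →
      ∃ k, k ∈ omega (Mod P 𝓢) ∧ ∃ y, y ∈ cls Z hZ ∧ pr k y ∈ F ∧ pr (pr n z) y ∈ cls U hU)
    (fun F hF => ?_) (RE.reg (by unfold RR; (repeat' first | exact TE.id | exact TE.const _ | apply TE.opair | apply RE.mem' | apply RE.eq' | apply RE.and | apply RE.not | apply RE.imp | apply RE.all | apply RE.ex | apply RE.exI | apply RE.allI | intro _))) (RE.ext (by unfold RR; (repeat' first | exact TE.id | exact TE.const _ | apply TE.opair | apply RE.mem' | apply RE.eq' | apply RE.and | apply RE.not | apply RE.imp | apply RE.all | apply RE.ex | apply RE.exI | apply RE.allI | intro _)))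
  refine Tr.and ?_ ?_
  · refine Tr.allω (S := fun k p => ∀ y, HS 𝓢 y → ∀ q ≤ p, fmem (Nam.opair k y) F q →
      ∀ y', HS 𝓢 y' → ∀ r ≤ q, fmem (Nam.opair k y') F r → feq y y' r) (fun k hk => ?_)
      (by (repeat' first | exact TE.id | exact TE.const _ | apply TE.opair | apply RE.mem' | apply RE.eq' | apply RE.and | apply RE.not | apply RE.imp | apply RE.all | apply RE.ex | apply RE.exI | apply RE.allI | intro _))
    refine Tr.all (T := fun y => pr (cls k hk) y ∈ cls F hF → ∀ y', pr (cls k hk) y' ∈ cls F hF →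
      y = y') (fun y hy => (Tr.pr_mem hk hy hF).imp ?_)
      (RE.reg (by (repeat' first | exact TE.id | exact TE.const _ | apply TE.opair | apply RE.mem' | apply RE.eq' | apply RE.and | apply RE.not | apply RE.imp | apply RE.all | apply RE.ex | apply RE.exI | apply RE.allI | intro _))) (RE.ext (by (repeat' first | exact TE.id | exact TE.const _ | apply TE.opair | apply RE.mem' | apply RE.eq' | apply RE.and | apply RE.not | apply RE.imp | apply RE.all | apply RE.ex | apply RE.exI | apply RE.allI | intro _)))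
    exact Tr.all (T := fun y' => pr (cls k hk) y' ∈ cls F hF → cls y hy = y') (fun y' hy' =>
      (Tr.pr_mem hk hy' hF).imp (Tr.eq hy hy'))
      (RE.reg (by (repeat' first | exact TE.id | exact TE.const _ | apply TE.opair | apply RE.mem' | apply RE.eq' | apply RE.and | apply RE.not | apply RE.imp | apply RE.all | apply RE.ex | apply RE.exI | apply RE.allI | intro _))) (RE.ext (by (repeat' first | exact TE.id | exact TE.const _ | apply TE.opair | apply RE.mem' | apply RE.eq' | apply RE.and | apply RE.not | apply RE.imp | apply RE.all | apply RE.ex | apply RE.exI | apply RE.allI | intro _)))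
  · refine Tr.allω (S := fun n p => ∀ z, HS 𝓢 z → ∀ q ≤ p, fmem z Z q → DB (fun r => ∃ k : ℕ,
      DB (fun s => ∃ y, HS 𝓢 y ∧ (fmem y Z s ∧ (fmem (Nam.opair (Nam.fin k) y) F s ∧
        fmem (Nam.opair (Nam.opair n z) y) U s))) r) q) (fun n hn => ?_) (by (repeat' first | exact TE.id | exact TE.const _ | apply TE.opair | apply RE.mem' | apply RE.eq' | apply RE.and | apply RE.not | apply RE.imp | apply RE.all | apply RE.ex | apply RE.exI | apply RE.allI | intro _))
    refine Tr.allB hZ (fun z hz => ?_) (by (repeat' first | exact TE.id | exact TE.const _ | apply TE.opair | apply RE.mem' | apply RE.eq' | apply RE.and | apply RE.not | apply RE.imp | apply RE.all | apply RE.ex | apply RE.exI | apply RE.allI | intro _))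
    refine Tr.exω (S := fun k => DB (fun s => ∃ y, HS 𝓢 y ∧ (fmem y Z s ∧
      (fmem (Nam.opair k y) F s ∧ fmem (Nam.opair (Nam.opair n z) y) U s)))) (fun k hk => ?_)
      (by (repeat' first | exact TE.id | exact TE.const _ | apply TE.opair | apply RE.mem' | apply RE.eq' | apply RE.and | apply RE.not | apply RE.imp | apply RE.all | apply RE.ex | apply RE.exI | apply RE.allI | intro _))
    exact Tr.exB hZ (fun y hy => (Tr.pr_mem hk hy hF).and (Tr.pr3_mem hn hz hy hU))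
      (by (repeat' first | exact TE.id | exact TE.const _ | apply TE.opair | apply RE.mem' | apply RE.eq' | apply RE.and | apply RE.not | apply RE.imp | apply RE.all | apply RE.ex | apply RE.exI | apply RE.allI | intro _))

/-- The translation of `HM Z U → CM Z U` for all `Z`, `U`. -/
theorem tr_HM_CM : Tr (∀ Z U : Mod P 𝓢, HM Z U → CM Z U)
    (fun p : P => ∀ Z, HS 𝓢 Z → ∀ U, HS 𝓢 U → ∀ q ≤ p,
      (f1 𝓢 Z U q ∧ f2 𝓢 Z U q ∧ f3 𝓢 Z U q ∧ f4 𝓢 Z U q) → f5 𝓢 Z U q) := by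
  refine Tr.all (T := fun Z : Mod P 𝓢 => ∀ U : Mod P 𝓢, HM Z U → CM Z U) (fun Z hZ => ?_)
    (RE.reg (by unfold f1 f2 f3 f4 f5 RR; (repeat' first | exact TE.id | exact TE.const _ | apply TE.opair | apply RE.mem' | apply RE.eq' | apply RE.and | apply RE.not | apply RE.imp | apply RE.all | apply RE.ex | apply RE.exI | apply RE.allI | intro _))) (RE.ext (by unfold f1 f2 f3 f4 f5 RR; (repeat' first | exact TE.id | exact TE.const _ | apply TE.opair | apply RE.mem' | apply RE.eq' | apply RE.and | apply RE.not | apply RE.imp | apply RE.all | apply RE.ex | apply RE.exI | apply RE.allI | intro _)))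
  refine Tr.all (T := fun U : Mod P 𝓢 => HM (cls Z hZ) U → CM (cls Z hZ) U) (fun U hU => ?_)
    (RE.reg (by unfold f1 f2 f3 f4 f5 RR; (repeat' first | exact TE.id | exact TE.const _ | apply TE.opair | apply RE.mem' | apply RE.eq' | apply RE.and | apply RE.not | apply RE.imp | apply RE.all | apply RE.ex | apply RE.exI | apply RE.allI | intro _))) (RE.ext (by unfold f1 f2 f3 f4 f5 RR; (repeat' first | exact TE.id | exact TE.const _ | apply TE.opair | apply RE.mem' | apply RE.eq' | apply RE.and | apply RE.not | apply RE.imp | apply RE.all | apply RE.ex | apply RE.exI | apply RE.allI | intro _)))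
  refine Tr.imp ?_ (tr_f5 hZ hU)
  refine ((tr_f1 hZ hU).and ((tr_f2 hZ hU).and ((tr_f3 hZ hU).and (tr_f4 hZ hU)))).congr ?_
  exact ⟨fun h => ⟨h.symm, h.comp, h.haus, h.tb⟩, fun h => ⟨h.1, h.2.1, h.2.2.1, h.2.2.2⟩⟩

end tr

/-! ### from the translation to `HF` and `CF` -/

section conv

variable {G P : Type u} [Group G] [Preorder P] [OrdAct G P] {𝓢 : SymSys G}

theorem HF_of {Z U : Nam P} {p : P} (h1 : f1 𝓢 Z U p) (h2 : f2 𝓢 Z U p) (h3 : f3 𝓢 Z U p)
    (h4 : f4 𝓢 Z U p) : HF 𝓢 Z U p := by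
  refine ⟨fun n x hx y hy q hq hxq hyq => h1 n x hx q hq hxq y hy q le_rfl hyq q le_rfl,
    fun n => ?_, fun x hx y hy q hq hxq hyq => h3 x hx q hq hxq y hy q le_rfl hyq q le_rfl,
    fun n => ?_⟩
  · refine DB.imp (fun q _ h => ?_) (h2 n)
    obtain ⟨m, h⟩ := h
    exact ⟨m, fun x hx y hy z hz r hr hxr hyr hzr h5 h6 => h x hx r hr hxr y hy r le_rfl hyr z hz
      r le_rfl hzr r le_rfl h5 r le_rfl h6⟩
  · refine DB.imp (fun q _ h => ?_) (h4 n)
    obtain ⟨m, h⟩ := h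
    refine ⟨m, DB.reg' _ |>.reg fun q1 hq1 => ?_⟩
    obtain ⟨q2, hq2, h, -, ha, hb, hc⟩ := h q1 hq1
    obtain ⟨r, hr, h5⟩ := DB.simul (S := fun i p => ∃ y, HS 𝓢 y ∧ fmem y Z p ∧
      fmem (Nam.opair (Nam.fin i) y) h p)
      (fun i {_ _} hqp h' => by
        obtain ⟨y, h6, h7, h8⟩ := h'
        exact ⟨y, h6, fmem_mono hqp h7, fmem_mono hqp h8⟩) m (p := q2)
      (fun i hi => ha _ (HS.fin i) q2 le_rfl (fmem_fin_fin hi q2))
    choose! y hy1 hy2 hy3 using h5
    refine ⟨r, hr.trans hq2, DB.of (S := fun q => ∃ y : Fin m → Nam P, (∀ j, HS 𝓢 (y j)) ∧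
      Net 𝓢 Z U n m y q) (fun hq ⟨y, h6, h7⟩ => ⟨y, h6, h7.mono hq⟩) ⟨fun j => y j.1,
      fun j => hy1 j.1 j.2, fun j => hy2 j.1 j.2, fun z hz s hs hzs => ?_⟩⟩
    intro t ht
    obtain ⟨t1, ht1, j, hj, hjm, h6⟩ := hc z hz s (hs.trans hr) hzs t ht
    obtain ⟨t2, ht2, i, hi, hji⟩ := fmem_fin.1 hjm t1 le_rfl
    obtain ⟨t3, ht3, y', hy', h7, h8⟩ := h6 t2 ht2
    have ht3r : t3 ≤ r := (ht3.trans (ht2.trans (ht1.trans ht))).trans hs
    refine ⟨t3, ht3.trans (ht2.trans ht1), ⟨i, hi⟩, ?_⟩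
    have h9 : fmem (Nam.opair (Nam.fin i) y') h t3 :=
      fmem_congr_left (feq_opair (feq_mono ht3 hji) (feq_refl _ _)) h7
    have h10 := hb _ (HS.fin i) t3 (ht3r.trans hr) (fmem_fin_fin hi t3) y' hy' t3 le_rfl h9
      (y i) (hy1 i hi) t3 le_rfl (fmem_mono ht3r (hy3 i hi))
    exact h8.congr (feq_refl _ _) h10

theorem f5_of {Z U : Nam P} {p : P} (h : DB (CF 𝓢 Z U) p) : f5 𝓢 Z U p := by
  refine DB.imp (fun q _ h => ?_) h
  obtain ⟨F, hF, h1, h2⟩ := h
  refine ⟨F, hF, fun k y hy q1 hq1 hyq y' hy' r hr hyr => ?_, fun n z hz q1 hq1 hzq => ?_⟩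
  · exact h1 k y hy y' hy' r (hr.trans hq1) (fmem_mono hr hyq) hyr
  · refine DB.imp (fun r _ h => ?_) (h2 n z hz q1 hq1 hzq)
    obtain ⟨k, y, hy, h3, h4, h5⟩ := h
    exact ⟨k, DB.of (S := fun s => ∃ y, HS 𝓢 y ∧ (fmem y Z s ∧
      (fmem (Nam.opair (Nam.fin k) y) F s ∧ RR U n z y s))) (fun hq ⟨y, a, b, c, d⟩ =>
      ⟨y, a, fmem_mono hq b, fmem_mono hq c, d.mono hq⟩) ⟨y, hy, h3, h4, h5⟩⟩

end conv

/-- In the model, totally bounded uniform structures have countable dense sets. -/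
theorem HM_CM (Z U : Mod (Cond K W) (sys K)) (h : HM Z U) : CM Z U := by
  refine (tr_HM_CM (P := Cond K W) (𝓢 := sys K)).of_dense (fun p => ⟨p, le_rfl, ?_⟩) Z U h
  rintro Z hZ U hU q - ⟨h1, h2, h3, h4⟩
  exact f5_of (main_forced hZ hU (HF_of h1 h2 h3 h4))

end Pool.Agent.Sym
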