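import Pool.Agent.Lib.MP_1454e8_lc.S4Names

/-!
# The real line of the symmetric model of a countably closed notion of forcing
-/

set_option autoImplicit false

namespace Pool.Agent.Sym

universe u

open Pool.Agent.Lib.MP_f5c99b_lc

/-! ### names all of whose elements are present -/

section codes

variable {P : Type u} [Preorder P]

/-- The name with elements `e j`, all present. -/
def Nam.all {J : Type u} (e : J → Nam P) : Nam P := ⟨J, fun _ => ⊤, e⟩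

theorem fmem_all {J : Type u} {e : J → Nam P} {z : Nam P} {p : P} :
    fmem z (Nam.all e) p ↔ DB (fun q => ∃ j, feq z (e j) q) p := by
  constructor
  · intro h q hq
    obtain ⟨r, hr, j, -, h2⟩ := h q hq
    exact ⟨r, hr, j, h2⟩
  · intro h q hq
    obtain ⟨r, hr, j, h2⟩ := h q hq
    exact ⟨r, hr, j, trivial, h2⟩

theorem fmem_all_of {J : Type u} {e : J → Nam P} {z : Nam P} {p : P} (j : J)
    (h : feq z (e j) p) : fmem z (Nam.all e) p :=
  fmem_all.2 fun q hq => ⟨q, le_rfl, j, feq_mono hq h⟩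

/-- The code of a real number: the codes of the rational numbers below it. -/
noncomputable def rc (r : ℝ) : Nam P :=
  Nam.all (J := ULift.{u} {q : ℚ // (q : ℝ) < r}) fun q => Nam.fin (Encodable.encode q.down.1)

theorem rc_le {r s : ℝ} {p : P} (h : feq (rc r : Nam P) (rc s) p) : s ≤ r := by
  by_contra hlt
  push Not at hlt
  obtain ⟨q, hq1, hq2⟩ := exists_rat_btwn hlt
  have h1 : fmem (Nam.fin (Encodable.encode q) : Nam P) (rc s) p :=
    fmem_all_of ⟨⟨q, hq2⟩⟩ (feq_refl _ _)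
  obtain ⟨t, -, j, hj⟩ := fmem_all.1 (fmem_congr_right (feq_symm h) h1) p le_rfl
  have h2 := Encodable.encode_injective (fin_inj hj)
  have h3 := j.down.2
  rw [← h2] at h3
  exact absurd h3 (not_lt.2 hq1.le)

theorem rc_inj {r s : ℝ} {p : P} (h : feq (rc r : Nam P) (rc s) p) : r = s :=
  le_antisymm (rc_le (feq_symm h)) (rc_le h)

variable {G : Type u} [Group G] [OrdAct G P] {𝓢 : SymSys G}

theorem act_all {J : Type u} {e : J → Nam P} (g : G) (h : ∀ j, act g (e j) = e j) :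
    act g (Nam.all e) = Nam.all e := by
  change Nam.mk J (fun _ => actL g (⊤ : LowerSet P)) (fun j => act g (e j)) =
    Nam.mk J (fun _ => ⊤) e
  rw [funext h, actL_top]

theorem act_rc (g : G) (r : ℝ) : act g (rc r : Nam P) = rc r :=
  act_all g fun _ => act_fin g _

theorem HS.all {J : Type u} {e : J → Nam P} (h : ∀ j, HS 𝓢 (e j))
    (h' : ∀ (g : G) j, act g (e j) = e j) : HS 𝓢 (Nam.all e) :=
  HS.of h ⟨⊤, 𝓢.top, fun g _ p => by rw [act_all g (h' g)]; exact feq_refl _ _⟩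

theorem HS.rc (r : ℝ) : HS 𝓢 (rc r : Nam P) :=
  HS.all (fun _ => HS.fin _) fun g _ => act_fin g _

variable (P) in
/-- The name of the set of codes of real numbers. -/
noncomputable def nR : Nam P := Nam.all (J := ULift.{u} ℝ) fun r => Sym.rc r.down

variable (P) in
/-- The name of the graph of an operation on codes. -/
noncomputable def nOp (f : ℝ → ℝ → ℝ) : Nam P :=
  Nam.all (J := ULift.{u} (ℝ × ℝ)) fun s =>
    Nam.opair (Nam.opair (Sym.rc s.down.1) (Sym.rc s.down.2)) (Sym.rc (f s.down.1 s.down.2))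

variable (P) in
/-- The name of the order relation on codes. -/
noncomputable def nLt : Nam P :=
  Nam.all (J := ULift.{u} {s : ℝ × ℝ // s.1 < s.2}) fun s =>
    Nam.opair (Sym.rc s.down.1.1) (Sym.rc s.down.1.2)

theorem HS.nR : HS 𝓢 (nR P) := HS.all (fun _ => HS.rc _) fun g _ => act_rc g _

theorem HS.nOp (f : ℝ → ℝ → ℝ) : HS 𝓢 (nOp P f) := by
  refine HS.all (fun _ => ((HS.rc _).opair (HS.rc _)).opair (HS.rc _)) fun g _ => ?_
  rw [act_opair, act_opair, act_rc, act_rc, act_rc]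

theorem HS.nLt : HS 𝓢 (nLt P) := by
  refine HS.all (fun _ => (HS.rc _).opair (HS.rc _)) fun g _ => ?_
  rw [act_opair, act_rc, act_rc]

theorem fmem_nR {x : Nam P} {p : P} : fmem x (nR P) p ↔ DB (fun q => ∃ r, feq x (rc r) q) p := by
  rw [nR, fmem_all]
  constructor
  · exact DB.imp fun q _ ⟨j, h⟩ => ⟨j.down, h⟩
  · exact DB.imp fun q _ ⟨r, h⟩ => ⟨⟨r⟩, h⟩

theorem fmem_nOp {f : ℝ → ℝ → ℝ} {x y z : Nam P} {p : P} :
    fmem (Nam.opair (Nam.opair x y) z) (nOp P f) p ↔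
      DB (fun q => ∃ r s, feq x (rc r) q ∧ feq y (rc s) q ∧ feq z (rc (f r s)) q) p := by
  rw [nOp, fmem_all]
  constructor
  · refine DB.imp fun q _ ⟨j, h⟩ => ?_
    obtain ⟨h1, h2⟩ := feq_of_opair h
    obtain ⟨h3, h4⟩ := feq_of_opair h1
    exact ⟨j.down.1, j.down.2, h3, h4, h2⟩
  · exact DB.imp fun q _ ⟨r, s, h1, h2, h3⟩ => ⟨⟨(r, s)⟩, feq_opair (feq_opair h1 h2) h3⟩

theorem fmem_nLt {x y : Nam P} {p : P} :
    fmem (Nam.opair x y) (nLt P) p ↔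
      DB (fun q => ∃ r s, r < s ∧ feq x (rc r) q ∧ feq y (rc s) q) p := by
  rw [nLt, fmem_all]
  constructor
  · refine DB.imp fun q _ ⟨j, h⟩ => ?_
    obtain ⟨h1, h2⟩ := feq_of_opair h
    exact ⟨j.down.1.1, j.down.1.2, j.down.2, h1, h2⟩
  · exact DB.imp fun q _ ⟨r, s, h, h1, h2⟩ => ⟨⟨⟨(r, s), h⟩⟩, feq_opair h1 h2⟩

theorem fmem_nLt_of {x y : Nam P} {p : P} {r s : ℝ} (h : r < s) (h1 : feq x (rc r) p)
    (h2 : feq y (rc s) p) : fmem (Nam.opair x y) (nLt P) p :=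
  fmem_nLt.2 fun q hq => ⟨q, le_rfl, r, s, h, feq_mono hq h1, feq_mono hq h2⟩

theorem fmem_nR_of {x : Nam P} {p : P} {r : ℝ} (h : feq x (rc r) p) : fmem x (nR P) p :=
  fmem_nR.2 fun q hq => ⟨q, le_rfl, r, feq_mono hq h⟩

end codes

/-! ### the forced least upper bound property -/

section sup

variable {G P : Type u} [Group G] [Preorder P] [OrdAct G P] {𝓢 : SymSys G}

/-- The forced hypotheses of the least upper bound property. -/
def SupHyp (𝓢 : SymSys G) (S b : Nam P) (p : P) : Prop :=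
  (∀ x, HS 𝓢 x → ∀ q ≤ p, fmem x S q → fmem x (nR P) q) ∧
  DB (fun q => ∃ x, HS 𝓢 x ∧ fmem x S q) p ∧ fmem b (nR P) p ∧
  ∀ x, HS 𝓢 x → ∀ q ≤ p, fmem x S q → ∀ r ≤ q, ¬ fmem (Nam.opair b x) (nLt P) r

/-- The forced conclusion of the least upper bound property. -/
def SupCon (𝓢 : SymSys G) (S s : Nam P) (p : P) : Prop :=
  fmem s (nR P) p ∧
  (∀ x, HS 𝓢 x → ∀ q ≤ p, fmem x S q → ∀ r ≤ q, ¬ fmem (Nam.opair s x) (nLt P) r) ∧
  ∀ t, HS 𝓢 t → ∀ q ≤ p, fmem t (nR P) q → ∀ r ≤ q, fmem (Nam.opair t s) (nLt P) r →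
    DB (fun r => ∃ x, HS 𝓢 x ∧ fmem x S r ∧ fmem (Nam.opair t x) (nLt P) r) r

theorem SupHyp.mono {S b : Nam P} {p q : P} (hq : q ≤ p) (h : SupHyp 𝓢 S b p) :
    SupHyp 𝓢 S b q :=
  ⟨fun x hx r hr => h.1 x hx r (hr.trans hq), DB.mono hq h.2.1, fmem_mono hq h.2.2.1,
    fun x hx r hr => h.2.2.2 x hx r (hr.trans hq)⟩

/-- Deciding countably many statements. -/
theorem decide_all (hσ : ∀ p : ℕ → P, (∀ n, p (n + 1) ≤ p n) → ∃ q, ∀ n, q ≤ p n)
    {ι : Type} [Encodable ι] (A : ι → P → Prop) (hA : ∀ i p q, q ≤ p → A i p → A i q) (p : P) :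
    ∃ r ≤ p, ∀ i, A i r ∨ ∀ q ≤ r, ¬ A i q := by
  classical
  have hstep : ∀ (i : ι) (q : P), ∃ r ≤ q, A i r ∨ ∀ r' ≤ r, ¬ A i r' := by
    intro i q
    by_cases h : ∃ r ≤ q, A i r
    · obtain ⟨r, hr, h⟩ := h
      exact ⟨r, hr, Or.inl h⟩
    · push Not at h
      exact ⟨q, le_rfl, Or.inr h⟩
  choose next hnext1 hnext2 using hstep
  let step : ℕ → P → P := fun n q => ((Encodable.decode n : Option ι).map (fun i => next i q)).getD q
  let c : ℕ → P := fun n => Nat.rec p (fun n q => step n q) n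
  have hc : ∀ n, c (n + 1) = step n (c n) := fun n => rfl
  have hstep' : ∀ n q, step n q ≤ q := by
    intro n q
    simp only [step]
    cases h : (Encodable.decode n : Option ι) with
    | none => simp
    | some i => simpa using hnext1 i q
  obtain ⟨r, hr⟩ := hσ c fun n => by rw [hc]; exact hstep' _ _
  refine ⟨r, hr 0, fun i => ?_⟩
  have h1 : c (Encodable.encode i + 1) = next i (c (Encodable.encode i)) := by
    rw [hc]
    simp [step]
  have h2 := hr (Encodable.encode i + 1)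
  rw [h1] at h2
  rcases hnext2 i (c (Encodable.encode i)) with h3 | h3
  · exact Or.inl (hA _ _ _ h2 h3)
  · exact Or.inr fun q hq => h3 q (hq.trans h2)

theorem exists_sup_forced
    (hσ : ∀ p : ℕ → P, (∀ n, p (n + 1) ≤ p n) → ∃ q, ∀ n, q ≤ p n)
    (S b : Nam P) (p : P) (h : SupHyp 𝓢 S b p) : ∃ r ≤ p, ∃ s, HS 𝓢 s ∧ SupCon 𝓢 S s r := by
  obtain ⟨p1, hp1, β, hβ⟩ := fmem_nR.1 h.2.2.1 p le_rfl
  obtain ⟨p2, hp2, x0, hx0, hx0S⟩ := h.2.1 p1 hp1
  obtain ⟨p3, hp3, α, hα⟩ := fmem_nR.1 (h.1 x0 hx0 p2 (hp2.trans hp1) hx0S) p2 le_rfl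
  have h' := h.mono (hp3.trans (hp2.trans hp1))
  let A : ℚ → P → Prop := fun t q => ∃ x, HS 𝓢 x ∧ ∃ ρ : ℝ, (t : ℝ) < ρ ∧ fmem x S q ∧
    feq x (rc ρ) q
  have hA : ∀ t p q, q ≤ p → A t p → A t q := by
    rintro t p q hq ⟨x, hx, ρ, h1, h2, h3⟩
    exact ⟨x, hx, ρ, h1, fmem_mono hq h2, feq_mono hq h3⟩
  obtain ⟨r, hr, hdec⟩ := decide_all hσ A hA p3
  have h'' := h'.mono hr
  have hβr : feq b (rc β) r := feq_mono (hr.trans (hp3.trans hp2)) hβ
  let V : Set ℝ := {ρ | ∃ x, HS 𝓢 x ∧ fmem x S r ∧ feq x (rc ρ) r}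
  have hVne : V.Nonempty := ⟨α, x0, hx0, fmem_mono (hr.trans hp3) hx0S, feq_mono hr hα⟩
  have hVb : BddAbove V := by
    refine ⟨β, ?_⟩
    rintro ρ ⟨x, hx, hxS, hxρ⟩
    by_contra hlt
    push Not at hlt
    exact h''.2.2.2 x hx r le_rfl hxS r le_rfl (fmem_nLt_of hlt hβr hxρ)
  refine ⟨r, hr.trans (hp3.trans (hp2.trans hp1)), rc (sSup V), HS.rc _,
    fmem_nR_of (feq_refl _ _), ?_, ?_⟩
  · intro x hx q hq hxS q' hq' hlt
    obtain ⟨q'', hq'', u, v, huv, hu, hv⟩ := fmem_nLt.1 hlt q' le_rfl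
    have hu' := rc_inj hu
    rw [← hu'] at huv
    obtain ⟨t, ht1, ht2⟩ := exists_rat_btwn huv
    have hAt : A t q'' := ⟨x, hx, v, ht2, fmem_mono (hq''.trans hq') hxS, hv⟩
    rcases hdec t with h1 | h1
    · obtain ⟨x', hx', ρ, hρ, hx'S, hx'ρ⟩ := h1
      have h2 : ρ ≤ sSup V := le_csSup hVb ⟨x', hx', hx'S, hx'ρ⟩
      exact absurd (h2.trans_lt (ht1.trans hρ)) (lt_irrefl _)
    · exact h1 q'' (hq''.trans (hq'.trans hq)) hAt
  · intro t ht q hq htR q' hq' hlt q'' hq''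
    obtain ⟨q3, hq3, u, v, huv, hu, hv⟩ := fmem_nLt.1 hlt q'' hq''
    have hv' := rc_inj hv
    rw [← hv'] at huv
    obtain ⟨ρ, ⟨x, hx, hxS, hxρ⟩, hρ⟩ := exists_lt_of_lt_csSup hVne huv
    have hq3r : q3 ≤ r := hq3.trans (hq''.trans (hq'.trans hq))
    exact ⟨q3, hq3, x, hx, fmem_mono hq3r hxS, fmem_nLt_of hρ hu (feq_mono hq3r hxρ)⟩

end sup

/-! ### the real line of the model -/

variable {G P : Type u} [Group G] [Preorder P] [OrdAct G P] {𝓢 : SymSys G} [Nonempty P]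

section values

variable (P 𝓢)

/-- The real line. -/
noncomputable def mR : Mod P 𝓢 := cls (nR P) HS.nR.ld

/-- The graph of an operation. -/
noncomputable def mOp (f : ℝ → ℝ → ℝ) : Mod P 𝓢 := cls (nOp P f) (HS.nOp f).ld

/-- The order. -/
noncomputable def mLt : Mod P 𝓢 := cls (nLt P) HS.nLt.ld

variable {P 𝓢}

/-- `x` is eventually the code of `f`. -/
def Rz (x : Nam P) (f : P → ℝ) : Prop := Ev (fun p => feq x (rc (f p)) p)

theorem exists_rz {x : Nam P} (h : Ev (fmem x (nR P))) : ∃ f : P → ℝ, Rz x f := by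
  classical
  have h1 : Ev (DB (fun q => ∃ r, feq x (rc r) q)) := h.mono fun p hp => fmem_nR.1 hp
  rw [ev_DB (fun p ⟨r, hr⟩ q hq => ⟨r, feq_mono hq hr⟩)] at h1
  choose! f hf using fun (p : P) (hp : ∃ r, feq x (rc r) p) => hp
  exact ⟨f, h1.mono hf⟩

theorem Rz.mem {x : Nam P} {f : P → ℝ} (h : Rz x f) : Ev (fmem x (nR P)) :=
  Ev.mono h fun _ hp => fmem_nR_of hp

theorem Rz.unique {x y : Nam P} {f g : P → ℝ} (h : Rz x f) (h' : Rz y g) :
    Ev (feq x y) ↔ Ev (fun p => f p = g p) := by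
  constructor
  · intro hxy
    refine ((Ev.and h h').and hxy).mono ?_
    rintro p ⟨⟨h1, h2⟩, h3⟩
    exact rc_inj (feq_trans (feq_symm h1) (feq_trans h3 h2))
  · intro hfg
    refine ((Ev.and h h').and hfg).mono ?_
    rintro p ⟨⟨h1, h2⟩, h3⟩
    rw [← h3] at h2
    exact feq_trans h1 (feq_symm h2)

theorem Rz.op_iff {x y z : Nam P} {f g h : P → ℝ} (op : ℝ → ℝ → ℝ) (hx : Rz x f) (hy : Rz y g)
    (hz : Rz z h) : Ev (fmem (Nam.opair (Nam.opair x y) z) (nOp P op)) ↔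
      Ev (fun p => op (f p) (g p) = h p) := by
  constructor
  · intro h1
    have h2 : Ev (DB fun q => ∃ r s, feq x (rc r) q ∧ feq y (rc s) q ∧ feq z (rc (op r s)) q) :=
      h1.mono fun p hp => fmem_nOp.1 hp
    rw [ev_DB (fun p ⟨r, s, h1, h2, h3⟩ q hq => ⟨r, s, feq_mono hq h1, feq_mono hq h2,
      feq_mono hq h3⟩)] at h2
    refine (h2.and (Ev.and hx (Ev.and hy hz))).mono ?_
    rintro p ⟨⟨r, s, h3, h4, h5⟩, h6, h7, h8⟩
    have e1 := rc_inj (feq_trans (feq_symm h3) h6)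
    have e2 := rc_inj (feq_trans (feq_symm h4) h7)
    have e3 := rc_inj (feq_trans (feq_symm h5) h8)
    rw [← e1, ← e2, ← e3]
  · intro h1
    refine (h1.and (Ev.and hx (Ev.and hy hz))).mono ?_
    rintro p ⟨h3, h6, h7, h8⟩
    rw [fmem_nOp]
    rw [← h3] at h8
    exact fun q hq => ⟨q, le_rfl, f p, g p, feq_mono hq h6, feq_mono hq h7, feq_mono hq h8⟩

theorem Rz.lt_iff {x y : Nam P} {f g : P → ℝ} (hx : Rz x f) (hy : Rz y g) :
    Ev (fmem (Nam.opair x y) (nLt P)) ↔ Ev (fun p => f p < g p) := by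
  constructor
  · intro h1
    have h2 : Ev (DB fun q => ∃ r s, r < s ∧ feq x (rc r) q ∧ feq y (rc s) q) :=
      h1.mono fun p hp => fmem_nLt.1 hp
    rw [ev_DB (fun p ⟨r, s, h, h1, h2⟩ q hq => ⟨r, s, h, feq_mono hq h1, feq_mono hq h2⟩)] at h2
    refine (h2.and (Ev.and hx hy)).mono ?_
    rintro p ⟨⟨r, s, h3, h4, h5⟩, h6, h7⟩
    have e1 := rc_inj (feq_trans (feq_symm h4) h6)
    have e2 := rc_inj (feq_trans (feq_symm h5) h7)
    rwa [← e1, ← e2]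
  · intro h1
    refine (h1.and (Ev.and hx hy)).mono ?_
    rintro p ⟨h3, h6, h7⟩
    exact fmem_nLt_of h3 h6 h7

theorem exists_op (op : ℝ → ℝ → ℝ) {x y : Nam P} {f g : P → ℝ} (hx : Rz x f) (hy : Rz y g) :
    ∃ z, LD 𝓢 z ∧ Rz z (fun p => op (f p) (g p)) := by
  let S : Nam P → P → Prop := fun z =>
    DB fun q => ∃ r s, feq x (rc r) q ∧ feq y (rc s) q ∧ feq z (rc (op r s)) q
  have hS : RE S := RE.db fun z z' p hz ⟨r, s, h1, h2, h3⟩ =>
    ⟨r, s, h1, h2, feq_trans (feq_symm hz) h3⟩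
  obtain ⟨z, hz, hz'⟩ := fullness_ld (𝓢 := 𝓢) S hS.reg hS.ext
  refine ⟨z, hz, ?_⟩
  have h1 : Ev (S z) := by
    refine (Ev.and hx hy).mono ?_
    rintro p ⟨h1, h2⟩
    refine hz' p fun q hq => ⟨q, le_rfl, rc (op (f p) (g p)), HS.rc _, fun r hr =>
      ⟨r, le_rfl, f p, g p, feq_mono (hr.trans hq) h1, feq_mono (hr.trans hq) h2,
        feq_refl _ _⟩⟩
  rw [ev_DB (fun p ⟨r, s, h1, h2, h3⟩ q hq => ⟨r, s, feq_mono hq h1, feq_mono hq h2,
      feq_mono hq h3⟩)] at h1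
  refine (h1.and (Ev.and hx hy)).mono ?_
  rintro p ⟨⟨r, s, h3, h4, h5⟩, h6, h7⟩
  have e1 := rc_inj (feq_trans (feq_symm h3) h6)
  have e2 := rc_inj (feq_trans (feq_symm h4) h7)
  change feq z (rc (op (f p) (g p))) p
  rwa [← e1, ← e2]

theorem exists_rep (a : El (mR P 𝓢)) : ∃ x, ∃ hx : LD 𝓢 x, a.1 = cls x hx ∧ ∃ f, Rz x f := by
  obtain ⟨a, ha⟩ := a
  obtain ⟨x, hx, rfl⟩ := cls_surj a
  exact ⟨x, hx, rfl, exists_rz ha⟩

/-- A name of an element of the real line. -/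
noncomputable def rep (a : El (mR P 𝓢)) : Nam P := (exists_rep a).choose

theorem rep_ld (a : El (mR P 𝓢)) : LD 𝓢 (rep a) := (exists_rep a).choose_spec.choose

theorem rep_eq (a : El (mR P 𝓢)) : a.1 = cls (rep a) (rep_ld a) :=
  (exists_rep a).choose_spec.choose_spec.1

/-- The values of an element of the real line. -/
noncomputable def fn (a : El (mR P 𝓢)) : P → ℝ :=
  (exists_rep a).choose_spec.choose_spec.2.choose

theorem fn_rz (a : El (mR P 𝓢)) : Rz (rep a) (fn a) :=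
  (exists_rep a).choose_spec.choose_spec.2.choose_spec

/-- The value of an element of the real line in the ultrapower. -/
noncomputable def val (a : El (mR P 𝓢)) : Filter.Germ (genU P : Filter P) ℝ := (fn a : P → ℝ)

theorem val_injective : Function.Injective (val : El (mR P 𝓢) → _) := by
  intro a b h
  have h1 : Ev (fun p => fn a p = fn b p) := Filter.Germ.coe_eq.1 h
  refine Subtype.ext ?_
  rw [rep_eq a, rep_eq b, cls_eq]
  exact ((fn_rz a).unique (fn_rz b)).2 h1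

theorem exists_val {z : Nam P} (hz : LD 𝓢 z) {f : P → ℝ} (h : Rz z f) :
    ∃ c : El (mR P 𝓢), val c = (f : Filter.Germ (genU P : Filter P) ℝ) := by
  let c : El (mR P 𝓢) := ⟨cls z hz, h.mem⟩
  refine ⟨c, Filter.Germ.coe_eq.2 ?_⟩
  have h1 : Ev (feq (rep c) z) := cls_eq.1 (rep_eq c).symm
  exact ((fn_rz c).unique h).1 h1

theorem exists_val_op (op : ℝ → ℝ → ℝ) (a b : El (mR P 𝓢)) : ∃ c : El (mR P 𝓢),
    val c = ((fun p => op (fn a p) (fn b p) : P → ℝ) : Filter.Germ (genU P : Filter P) ℝ) := by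
  obtain ⟨z, hz, h⟩ := exists_op (𝓢 := 𝓢) op (fn_rz a) (fn_rz b)
  exact exists_val hz h

instance : Nonempty (El (mR P 𝓢)) :=
  ⟨⟨cls (rc 0) (HS.rc 0).ld, Ev.of_forall fun _ => fmem_nR_of (feq_refl _ _)⟩⟩

variable (P 𝓢) in
/-- The subfield of values of elements of the real line of the model. -/
noncomputable def valField : Subfield (Filter.Germ (genU P : Filter P) ℝ) where
  carrier := Set.range (val : El (mR P 𝓢) → _)
  mul_mem' := by
    rintro _ _ ⟨a, rfl⟩ ⟨b, rfl⟩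
    obtain ⟨c, hc⟩ := exists_val_op (· * ·) a b
    exact ⟨c, hc⟩
  one_mem' := by
    obtain ⟨a⟩ := (inferInstance : Nonempty (El (mR P 𝓢)))
    obtain ⟨c, hc⟩ := exists_val_op (fun _ _ => 1) a a
    exact ⟨c, hc⟩
  add_mem' := by
    rintro _ _ ⟨a, rfl⟩ ⟨b, rfl⟩
    obtain ⟨c, hc⟩ := exists_val_op (· + ·) a b
    exact ⟨c, hc⟩
  zero_mem' := by
    obtain ⟨a⟩ := (inferInstance : Nonempty (El (mR P 𝓢)))
    obtain ⟨c, hc⟩ := exists_val_op (fun _ _ => 0) a a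
    exact ⟨c, hc⟩
  neg_mem' := by
    rintro _ ⟨a, rfl⟩
    obtain ⟨c, hc⟩ := exists_val_op (fun x _ => -x) a a
    exact ⟨c, hc⟩
  inv_mem' := by
    rintro _ ⟨a, rfl⟩
    obtain ⟨c, hc⟩ := exists_val_op (fun x _ => x⁻¹) a a
    exact ⟨c, hc⟩

/-- The real line of the model is in bijection with the field of values. -/
noncomputable def valEquiv : El (mR P 𝓢) ≃ valField P 𝓢 :=
  Equiv.ofInjective _ val_injective

theorem valEquiv_coe (a : El (mR P 𝓢)) :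
    ((valEquiv a : valField P 𝓢) : Filter.Germ (genU P : Filter P) ℝ) = val a := rfl

noncomputable instance instFieldmR : Field (El (mR P 𝓢)) := valEquiv.field

theorem val_add (a b : El (mR P 𝓢)) : val (a + b) = val a + val b := by
  have h : valEquiv (a + b) = valEquiv a + valEquiv b := valEquiv.apply_symm_apply _
  exact congrArg Subtype.val h

theorem val_mul (a b : El (mR P 𝓢)) : val (a * b) = val a * val b := by
  have h : valEquiv (a * b) = valEquiv a * valEquiv b := valEquiv.apply_symm_apply _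
  exact congrArg Subtype.val h

theorem val_zero : val (0 : El (mR P 𝓢)) = 0 := by
  have h : valEquiv (0 : El (mR P 𝓢)) = 0 := valEquiv.apply_symm_apply _
  exact congrArg Subtype.val h

theorem val_one : val (1 : El (mR P 𝓢)) = 1 := by
  have h : valEquiv (1 : El (mR P 𝓢)) = 1 := valEquiv.apply_symm_apply _
  exact congrArg Subtype.val h

noncomputable instance instLOmR : LinearOrder (El (mR P 𝓢)) := LinearOrder.lift' val val_injective

theorem val_lt {a b : El (mR P 𝓢)} : a < b ↔ val a < val b := Iff.rfl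

theorem val_le {a b : El (mR P 𝓢)} : a ≤ b ↔ val a ≤ val b := Iff.rfl

instance instOrdmR : IsStrictOrderedRing (El (mR P 𝓢)) :=
  Function.Injective.isStrictOrderedRing val val_zero val_one val_add val_mul Iff.rfl Iff.rfl

end values

theorem mem_pr3 {x y z : El (mR P 𝓢)} {f : ℝ → ℝ → ℝ} :
    App2 (mOp P 𝓢 f) x.1 y.1 z.1 ↔ Ev (fun p => f (fn x p) (fn y p) = fn z p) := by
  rw [app2_iff, rep_eq x, rep_eq y, rep_eq z, mOp,
    (Tr.pr3_mem (rep_ld x) (rep_ld y) (rep_ld z) (HS.nOp f).ld).iff]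
  exact Rz.op_iff f (fn_rz x) (fn_rz y) (fn_rz z)

theorem mem_pr2 {x y : El (mR P 𝓢)} :
    App (mLt P 𝓢) x.1 y.1 ↔ x < y := by
  rw [app_iff, rep_eq x, rep_eq y, mLt, (Tr.pr_mem (rep_ld x) (rep_ld y) HS.nLt.ld).iff, val_lt]
  exact (Rz.lt_iff (fn_rz x) (fn_rz y)).trans Filter.Germ.coe_lt.symm

/-- The least upper bound property. -/
theorem mR_complete (hσ : ∀ p : ℕ → P, (∀ n, p (n + 1) ≤ p n) → ∃ q, ∀ n, q ≤ p n)
    (S b : Mod P 𝓢) (h1 : ∀ x : Mod P 𝓢, x ∈ S → x ∈ mR P 𝓢) (h2 : ∃ x : Mod P 𝓢, x ∈ S)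
    (h3 : b ∈ mR P 𝓢) (h4 : ∀ x : Mod P 𝓢, x ∈ S → ¬ pr b x ∈ mLt P 𝓢) :
    ∃ s : Mod P 𝓢, s ∈ mR P 𝓢 ∧ (∀ x : Mod P 𝓢, x ∈ S → ¬ pr s x ∈ mLt P 𝓢) ∧
      ∀ t : Mod P 𝓢, t ∈ mR P 𝓢 → pr t s ∈ mLt P 𝓢 →
        ∃ x : Mod P 𝓢, x ∈ S ∧ pr t x ∈ mLt P 𝓢 := by
  obtain ⟨S, hS, rfl⟩ := cls_surj S
  obtain ⟨b, hb, rfl⟩ := cls_surj b
  have hE : ∀ z : Nam P, RE (fun x => fmem (Nam.opair z x) (nLt P)) := fun z =>
    (RE.memL (nLt P)).opairR z
  have hE' : ∀ z : Nam P, RE (fun x => fmem (Nam.opair x z) (nLt P)) := fun z =>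
    (RE.memL (nLt P)).opairL z
  have hT1 : Tr (∀ x : Mod P 𝓢, x ∈ cls S hS → x ∈ mR P 𝓢)
      (fun p => ∀ x, HS 𝓢 x → ∀ q ≤ p, fmem x S q → fmem x (nR P) q) :=
    Tr.allB hS (fun x hx => Tr.mem hx HS.nR.ld) (RE.memL (nR P))
  have hT2 : Tr (∃ x : Mod P 𝓢, x ∈ cls S hS) (DB fun p => ∃ x, HS 𝓢 x ∧ fmem x S p) :=
    Tr.ex (fun x hx => Tr.mem hx hS) (RE.memL S).reg (RE.memL S).ext
  have hT3 : Tr (cls b hb ∈ mR P 𝓢) (fmem b (nR P)) := Tr.mem hb HS.nR.ld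
  have hT4 : ∀ (z : Nam P) (hz : LD 𝓢 z),
      Tr (∀ x : Mod P 𝓢, x ∈ cls S hS → ¬ pr (cls z hz) x ∈ mLt P 𝓢)
      (fun p => ∀ x, HS 𝓢 x → ∀ q ≤ p, fmem x S q →
        ∀ r ≤ q, ¬ fmem (Nam.opair z x) (nLt P) r) := fun z hz =>
    Tr.allB hS (fun x hx => (Tr.pr_mem hz hx HS.nLt.ld).not) (hE z).not
  have hE4 : RE (fun z p => ∀ x, HS 𝓢 x → ∀ q ≤ p, fmem x S q →
        ∀ r ≤ q, ¬ fmem (Nam.opair z x) (nLt P) r) :=
    RE.all fun x => (RE.const (fmemReg x S)).imp (hE' x).not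
  have hT5 : ∀ (t : Nam P) (ht : LD 𝓢 t),
      Tr (∃ x : Mod P 𝓢, x ∈ cls S hS ∧ pr (cls t ht) x ∈ mLt P 𝓢)
      (DB fun p => ∃ x, HS 𝓢 x ∧ fmem x S p ∧ fmem (Nam.opair t x) (nLt P) p) := fun t ht =>
    Tr.exB hS (fun x hx => Tr.pr_mem ht hx HS.nLt.ld) (hE t)
  have hE5 : RE (fun t => DB fun p => ∃ x, HS 𝓢 x ∧ fmem x S p ∧
      fmem (Nam.opair t x) (nLt P) p) :=
    RE.ex fun x => (RE.const (fmemReg x S)).and (hE' x)
  have hT6 : ∀ (z : Nam P) (hz : LD 𝓢 z),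
      Tr (∀ t : Mod P 𝓢, t ∈ mR P 𝓢 → pr t (cls z hz) ∈ mLt P 𝓢 →
        ∃ x : Mod P 𝓢, x ∈ cls S hS ∧ pr t x ∈ mLt P 𝓢)
      (fun p => ∀ t, HS 𝓢 t → ∀ q ≤ p, fmem t (nR P) q → ∀ r ≤ q,
        fmem (Nam.opair t z) (nLt P) r →
          DB (fun r => ∃ x, HS 𝓢 x ∧ fmem x S r ∧ fmem (Nam.opair t x) (nLt P) r) r) :=
    fun z hz => Tr.allB HS.nR.ld (fun t ht => (Tr.pr_mem ht hz HS.nLt.ld).imp (hT5 t ht))
      ((hE' z).imp hE5)
  have hE6 : RE (fun z p => ∀ t, HS 𝓢 t → ∀ q ≤ p, fmem t (nR P) q → ∀ r ≤ q,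
        fmem (Nam.opair t z) (nLt P) r →
          DB (fun r => ∃ x, HS 𝓢 x ∧ fmem x S r ∧ fmem (Nam.opair t x) (nLt P) r) r) :=
    RE.all fun t => (RE.const (fmemReg t (nR P))).imp ((hE t).imp (RE.const (DB.reg' _)))
  have hE7 : RE (fun z p => SupCon 𝓢 S z p) := (RE.memL (nR P)).and (hE4.and hE6)
  have hT7 : Tr (∃ s : Mod P 𝓢, s ∈ mR P 𝓢 ∧ (∀ x : Mod P 𝓢, x ∈ cls S hS → ¬ pr s x ∈ mLt P 𝓢) ∧
      ∀ t : Mod P 𝓢, t ∈ mR P 𝓢 → pr t s ∈ mLt P 𝓢 →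
        ∃ x : Mod P 𝓢, x ∈ cls S hS ∧ pr t x ∈ mLt P 𝓢)
      (DB fun p => ∃ s, HS 𝓢 s ∧ SupCon 𝓢 S s p) :=
    Tr.ex (fun z hz => (Tr.mem hz HS.nR.ld).and ((hT4 z hz).and (hT6 z hz))) hE7.reg hE7.ext
  have hT8 := (hT1.and (hT2.and (hT3.and (hT4 b hb)))).imp hT7
  refine hT8.of_dense (fun p => ⟨p, le_rfl, fun q _ hq r hr => ?_⟩) ⟨h1, h2, h3, h4⟩
  exact exists_sup_forced hσ S b r (SupHyp.mono hr hq)

/-- The symmetric model of a countably closed notion of forcing has a real line. -/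
theorem exists_realField (hσ : ∀ p : ℕ → P, (∀ n, p (n + 1) ≤ p n) → ∃ q, ∀ n, q ≤ p n) :
    Nonempty (RealField (Mod P 𝓢)) := by
  refine ⟨{ R := mR P 𝓢, A := mOp P 𝓢 (· + ·), B := mOp P 𝓢 (· * ·), L := mLt P 𝓢,
            field := instFieldmR, order := instLOmR, ordered := instOrdmR,
            add_iff := fun x y z => ?_, mul_iff := fun x y z => ?_,
            lt_iff := fun x y => mem_pr2, complete := ?_ }⟩
  · rw [mem_pr3]
    constructor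
    · intro h
      apply val_injective
      rw [val_add]
      exact Filter.Germ.coe_eq.2 h
    · rintro rfl
      exact Filter.Germ.coe_eq.1 (val_add x y).symm
  · rw [mem_pr3]
    constructor
    · intro h
      apply val_injective
      rw [val_mul]
      exact Filter.Germ.coe_eq.2 h
    · rintro rfl
      exact Filter.Germ.coe_eq.1 (val_mul x y).symm
  · rintro S h1 h2 ⟨b, hb⟩
    obtain ⟨s, hs1, hs2, hs3⟩ := mR_complete hσ S b.1 h1 h2 b.2 (fun x hx h => by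
      have h3 : App (mLt P 𝓢) b.1 (⟨x, h1 x hx⟩ : El (mR P 𝓢)).1 := app_iff.2 h
      exact absurd (hb ⟨x, h1 x hx⟩ hx) (not_le.2 (mem_pr2.1 h3)))
    refine ⟨⟨s, hs1⟩, fun x hx => ?_, fun t ht => ?_⟩
    · refine not_lt.1 fun hlt => hs2 x.1 hx ?_
      exact app_iff.1 (mem_pr2.2 hlt)
    · refine not_lt.1 fun hlt => ?_
      obtain ⟨x, hx, hx'⟩ := hs3 t.1 t.2 (app_iff.1 (mem_pr2.2 hlt))
      have h3 : App (mLt P 𝓢) t.1 (⟨x, h1 x hx⟩ : El (mR P 𝓢)).1 := app_iff.2 hx'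
      exact absurd (ht (a := ⟨x, h1 x hx⟩) hx) (not_le.2 (mem_pr2.1 h3))

end Pool.Agent.Sym
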