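import Pool.Agent.Lib.MP_1454e8_lc.T3OneP

set_option autoImplicit false

namespace Pool.Agent.Sym

open Pool.Agent.Lib.MP_f5c99b_lc

universe u

variable {M : Type u} [Membership M M] [hZF : Fact (IsModelOfZF M)]

/-- There is a family `(A i)`, `i ∈ ω`, of countably infinite sets that cannot be enumerated
uniformly. -/
def BadFam (A : M) : Prop :=
  IsFunOn A (omega M) ∧
  (∀ i Y : M, i ∈ omega M → App A i Y → emp ∉ Y ∧ ∃ f, Enum f Y) ∧
  ¬ ∃ G : M, (∀ k, k ∈ omega M → ∀ i, i ∈ omega M → ∀ x x' : M,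
      App2 G k i x → App2 G k i x' → x = x') ∧
    ∀ i, i ∈ omega M → ∀ Y x : M, App A i Y → x ∈ Y → ∃ k, k ∈ omega M ∧ App2 G k i x

theorem IsFunOn.isFun {f a : M} (h : IsFunOn f a) : IsFun f a (sU (sU f)) := by
  refine ⟨fun p hp => ?_, h.2⟩
  obtain ⟨x, y, hx, hxy⟩ := h.1 p hp
  refine ⟨x, y, hx, ?_, hxy⟩
  rw [isPair_iff] at hxy
  subst hxy
  refine mem_sU.mpr ⟨upair x y, mem_sU.mpr ⟨_, hp, ?_⟩, mem_upair.mpr (Or.inr rfl)⟩
  exact mem_upair.mpr (Or.inr rfl)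

omit hZF in
theorem IsFun.isFunOn {f a b : M} (h : IsFun f a b) : IsFunOn f a := by
  refine ⟨fun p hp => ?_, h.2⟩
  obtain ⟨x, y, hx, _, hxy⟩ := h.1 p hp
  exact ⟨x, y, hx, hxy⟩

/-- the topology generated by the class `G` -/
noncomputable def gen (X : M) (G : M → Prop) : M :=
  sep (pow X) (fun U => ∀ T', IsTopology X T' → (∀ V, G V → V ∈ T') → U ∈ T')

theorem isGenerated_gen {X : M} {G : M → Prop} [hG : D (fun v => G (v 0))]
    (hs : ∀ U, G U → ∀ x, x ∈ U → x ∈ X) : IsGenerated X G (gen X G) := by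
  have hD : D (fun v : ℕ → M => ∀ T', IsTopology X T' → (∀ V, G V → V ∈ T') → v 0 ∈ T') := by
    have := hG.perm (fun i => i)
    infer_instance
  have hm : ∀ {U}, U ∈ gen X G ↔ U ∈ pow X ∧
      ∀ T', IsTopology X T' → (∀ V, G V → V ∈ T') → U ∈ T' := by
    intro U
    exact mem_sep
  refine ⟨⟨?_, ?_, ?_, ?_⟩, ?_, ?_⟩
  · intro U hU
    exact mem_pow.mp (hm.mp hU).1
  · exact hm.mpr ⟨mem_pow.mpr fun _ h => h, fun T' hT' _ => hT'.2.1⟩
  · intro U V W hU hV hW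
    obtain rfl : W = inter U V := ext fun x => (hW x).trans mem_inter.symm
    obtain ⟨hU1, hU2⟩ := hm.mp hU
    obtain ⟨hV1, hV2⟩ := hm.mp hV
    refine hm.mpr ⟨mem_pow.mpr fun x hx => mem_pow.mp hU1 x (mem_inter.mp hx).1, ?_⟩
    intro T' hT' h
    exact hT'.inter (hU2 T' hT' h) (hV2 T' hT' h)
  · intro S' W hS hW
    refine hm.mpr ⟨mem_pow.mpr ?_, ?_⟩
    · intro x hx
      obtain ⟨U, hU, hxU⟩ := (hW x).mp hx
      exact mem_pow.mp (hm.mp (hS U hU)).1 x hxU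
    · intro T' hT' h
      exact hT'.2.2.2 S' W (fun U hU => (hm.mp (hS U hU)).2 T' hT' h) hW
  · intro U hU
    exact hm.mpr ⟨mem_pow.mpr (hs U hU), fun T' _ h => h U hU⟩
  · intro T' hT' h U hU
    exact (hm.mp hU).2 T' hT' h

theorem opX_mono {Y Z : M} (h : ∀ x, x ∈ Y → x ∈ Z) {x : M} (hx : x ∈ opX Y) : x ∈ opX Z := by
  rcases mem_opX.mp hx with h1 | h1
  · exact mem_opX.mpr (Or.inl (h x h1))
  · exact mem_opX.mpr (Or.inr h1)

theorem isCountable_omega : IsCountable (omega M) := by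
  have h : ∀ x : M, x ∈ omega M → x ∈ omega M := fun _ h => h
  have hf : IsFun (lam (omega M) (fun x => x)) (omega M) (omega M) := isFun_lam h
  refine ⟨omega M, lam (omega M) (fun x => x), isOmega_omega, hf, fun x y z hx hy => ?_⟩
  obtain ⟨h1, h2⟩ := hf.app.mp hx
  obtain ⟨h3, h4⟩ := hf.app.mp hy
  rw [ap_lam h h1] at h2
  rw [ap_lam h h3] at h4
  rw [← h2, ← h4]

theorem not_CPMS (K : RealField M) {A : M} (hA : BadFam A) : ¬ CPMS K := by
  intro hC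
  obtain ⟨hA1, hA2, hA3⟩ := hA
  have hAf := hA1.isFun
  -- a common bound for the sets `A i`
  let B : M := sU (sU (sU A))
  have hB : ∀ i, i ∈ omega M → ∀ x, x ∈ ap A i → x ∈ B := fun i hi x hx =>
    mem_sU.mpr ⟨ap A i, hAf.ap_mem hi, hx⟩
  have hXm : ∀ i, i ∈ omega M → opX (ap A i) ∈ pow (opX B) := fun i hi =>
    mem_pow.mpr fun x hx => opX_mono (hB i hi) hx
  have hTm : ∀ i, i ∈ omega M → opT (ap A i) ∈ pow (pow (opX B)) := fun i hi =>
    mem_pow.mpr fun U hU => mem_pow.mpr fun x hx =>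
      opX_mono (hB i hi) ((mem_opT'.mp hU).1 x hx)
  let X : M := lam (omega M) (fun i => opX (ap A i))
  let T : M := lam (omega M) (fun i => opT (ap A i))
  have hX : IsFun X (omega M) (pow (opX B)) := isFun_lam hXm
  have hT : IsFun T (omega M) (pow (pow (opX B))) := isFun_lam hTm
  have hXi : ∀ i, i ∈ omega M → ∀ Y, App X i Y ↔ Y = opX (ap A i) := by
    intro i hi Y
    rw [hX.app, ap_lam hXm hi]
    exact ⟨fun h => h.2, fun h => ⟨hi, h⟩⟩
  have hTi : ∀ i, i ∈ omega M → ∀ Y, App T i Y ↔ Y = opT (ap A i) := by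
    intro i hi Y
    rw [hT.app, ap_lam hTm hi]
    exact ⟨fun h => h.2, fun h => ⟨hi, h⟩⟩
  -- the product
  let P : M := sep (funs (omega M) (opX B)) (fun g => ∀ i Y y : M, i ∈ omega M → App X i Y →
    App g i y → y ∈ Y)
  have hP : ∀ g : M, g ∈ P ↔ IsFunOn g (omega M) ∧ ∀ i Y y : M, i ∈ omega M → App X i Y →
      App g i y → y ∈ Y := by
    intro g
    have : g ∈ P ↔ g ∈ funs (omega M) (opX B) ∧ ∀ i Y y : M, i ∈ omega M → App X i Y →
      App g i y → y ∈ Y := mem_sep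
    rw [this, mem_funs]
    constructor
    · rintro ⟨h1, h2⟩
      exact ⟨IsFun.isFunOn h1, h2⟩
    · rintro ⟨h1, h2⟩
      refine ⟨⟨fun p hp => ?_, h1.2⟩, h2⟩
      obtain ⟨x, y, hx, hxy⟩ := h1.1 p hp
      refine ⟨x, y, hx, ?_, hxy⟩
      have h3 := h2 x _ y hx ((hXi x hx _).mpr rfl) ⟨p, hxy, hp⟩
      exact opX_mono (hB x hx) h3
  let Gc : M → Prop := fun U => ∃ i S V : M, i ∈ omega M ∧ App T i S ∧ V ∈ S ∧
    ∀ g : M, g ∈ U ↔ g ∈ P ∧ ∃ y : M, y ∈ V ∧ App g i y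
  have hGD : D (fun v : ℕ → M => Gc (v 0)) := by
    show D (fun v : ℕ → M => ∃ i S V : M, i ∈ omega M ∧ App T i S ∧ V ∈ S ∧
      ∀ g : M, g ∈ v 0 ↔ g ∈ P ∧ ∃ y : M, y ∈ V ∧ App g i y)
    infer_instance
  have hQ : IsGenerated P Gc (gen P Gc) := by
    refine isGenerated_gen ?_
    rintro U ⟨i, S, V, hi, hS, hV, hU⟩ g hg
    exact ((hU g).mp hg).1
  obtain ⟨Ds, ⟨w, h, hw, hh, hinj⟩, hDP, hdense⟩ := hC (omega M) X T P (gen P Gc)
    isCountable_omega (IsFun.isFunOn hX) (IsFun.isFunOn hT) (by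
      intro i Y S hi hY hS
      rw [hXi i hi] at hY
      rw [hTi i hi] at hS
      subst hY hS
      obtain ⟨h1, f, hf⟩ := hA2 i (ap A i) hi (hAf.mem hi)
      exact ⟨isTopology_opT _, isCompactSp_opT _, isMetrizable_opT K hf h1⟩) ⟨hP, hQ⟩
  rw [isOmega_eq hw] at hh
  -- the uniform enumeration
  refine hA3 ⟨sep (prod (prod (omega M) (omega M)) (opX B)) (fun p => ∃ k i x g : M,
    p = pr (pr k i) x ∧ g ∈ Ds ∧ App h g k ∧ App g i x), ?_, ?_⟩
  · intro k hk i hi x x' hx hx'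
    rw [app2_iff, mem_sep] at hx hx'
    obtain ⟨_, k₁, i₁, x₁, g₁, e₁, hg₁, hk₁, hx₁⟩ := hx
    obtain ⟨_, k₂, i₂, x₂, g₂, e₂, hg₂, hk₂, hx₂⟩ := hx'
    obtain ⟨e₃, rfl⟩ := pr_inj e₁
    obtain ⟨rfl, rfl⟩ := pr_inj e₃
    obtain ⟨e₄, rfl⟩ := pr_inj e₂
    obtain ⟨rfl, rfl⟩ := pr_inj e₄
    obtain rfl := hinj g₁ g₂ k hk₁ hk₂
    exact (((hP g₁).mp (hDP g₁ hg₁)).1.2 i hi).unique hx₁ hx₂
  · intro i hi Y x hY hx
    obtain ⟨_, rfl⟩ := hAf.app.mp hY
    have hxe : x ≠ emp := by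
      rintro rfl
      exact (hA2 i _ hi hY).1 hx
    -- the point `x` at `i` and `∅` elsewhere
    have hgm : ∀ j, j ∈ omega M → iota (fun z => (j = i ∧ z = x) ∨ (j ≠ i ∧ z = emp)) ∈
        opX B := by
      intro j hj
      by_cases hji : j = i
      · rw [iota_eq (P := fun z => (j = i ∧ z = x) ∨ (j ≠ i ∧ z = emp)) (x := x)]
        · exact mem_opX.mpr (Or.inl (hB i hi x hx))
        · exact Or.inl ⟨hji, rfl⟩
        · rintro z (h1 | h1)
          · exact h1.2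
          · exact absurd hji h1.1
      · rw [iota_eq (P := fun z => (j = i ∧ z = x) ∨ (j ≠ i ∧ z = emp)) (x := emp)]
        · exact mem_opX.mpr (Or.inr rfl)
        · exact Or.inr ⟨hji, rfl⟩
        · rintro z (h1 | h1)
          · exact absurd h1.1 hji
          · exact h1.2
    let g₀ : M := lam (omega M) (fun j => iota (fun z => (j = i ∧ z = x) ∨ (j ≠ i ∧ z = emp)))
    have hg₀ : IsFun g₀ (omega M) (opX B) := isFun_lam hgm
    have hg₀i : App g₀ i x := by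
      refine hg₀.app.mpr ⟨hi, ?_⟩
      rw [ap_lam hgm hi]
      symm
      refine iota_eq (P := fun z => (i = i ∧ z = x) ∨ (i ≠ i ∧ z = emp)) (Or.inl ⟨rfl, rfl⟩) ?_
      rintro z (h1 | h1)
      · exact h1.2
      · exact absurd rfl h1.1
    have hg₀P : g₀ ∈ P := by
      refine (hP g₀).mpr ⟨IsFun.isFunOn hg₀, fun j Y y hj hY hy => ?_⟩
      rw [hXi j hj] at hY
      subst hY
      by_cases hji : j = i
      · subst hji
        rw [(hg₀.app.mp hy).2, ← (hg₀.app.mp hg₀i).2]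
        exact mem_opX.mpr (Or.inl hx)
      · have : y = emp := by
          rw [(hg₀.app.mp hy).2, ap_lam hgm hj]
          refine iota_eq (P := fun z => (j = i ∧ z = x) ∨ (j ≠ i ∧ z = emp)) (Or.inr ⟨hji, rfl⟩) ?_
          rintro z (h1 | h1)
          · exact absurd h1.1 hji
          · exact h1.2
        rw [this]
        exact mem_opX.mpr (Or.inr rfl)
    have hxT : upair x x ∈ opT (ap A i) := by
      refine mem_opT.mpr ⟨fun z hz => ?_, fun he => ?_⟩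
      · rcases mem_upair.mp hz with rfl | rfl <;> exact Or.inl hx
      · rcases mem_upair.mp he with h1 | h1 <;> exact absurd h1.symm hxe
    have hUm : ∀ g, g ∈ sep P (fun g => App g i x) ↔ g ∈ P ∧ App g i x := fun g => mem_sep
    have hUQ : sep P (fun g => App g i x) ∈ gen P Gc := by
      refine hQ.2.1 _ ⟨i, opT (ap A i), upair x x, hi, (hTi i hi _).mpr rfl, hxT, fun g => ?_⟩
      rw [hUm g]
      refine and_congr_right fun _ => ⟨fun h1 => ⟨x, mem_upair.mpr (Or.inl rfl), h1⟩, ?_⟩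
      rintro ⟨y, hy, h1⟩
      rcases mem_upair.mp hy with rfl | rfl <;> exact h1
    obtain ⟨g, hgD, hgU⟩ := hdense _ hUQ ⟨g₀, (hUm g₀).mpr ⟨hg₀P, hg₀i⟩⟩
    have hgx := ((hUm g).mp hgU).2
    refine ⟨ap h g, hh.ap_mem hgD, ?_⟩
    rw [app2_iff, mem_sep]
    refine ⟨mem_prod.mpr ⟨_, mem_prod.mpr ⟨_, hh.ap_mem hgD, i, hi, rfl⟩, x,
      mem_opX.mpr (Or.inl (hB i hi x hx)), rfl⟩, ap h g, i, x, g, rfl, hgD, hh.mem hgD, hgx⟩

end Pool.Agent.Sym
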