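import Pool.Agent.Lib.MP_1454e8_lc.S11Bridge
import Pool.Agent.Lib.MP_1454e8_lc.T4Prod

/-!
# A family of countably infinite sets without a uniform enumeration
-/

set_option autoImplicit false

namespace Pool.Agent.Sym

open Pool.Agent.Lib.MP_f5c99b_lc

section internal

universe u

variable {M : Type u} [Membership M M] [hZF : Fact (IsModelOfZF M)]

/-- `f` is a bijection from `ω` onto `Y`. -/
def EnumP (f Y : M) : Prop :=
  (∀ p, p ∈ f → ∃ n, n ∈ omega M ∧ ∃ y, y ∈ Y ∧ p = pr n y) ∧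
  (∀ n, n ∈ omega M → ∃ y, pr n y ∈ f) ∧
  (∀ n, n ∈ omega M → ∀ y, pr n y ∈ f → ∀ y', pr n y' ∈ f → y = y') ∧
  (∀ y, y ∈ Y → ∃ n, n ∈ omega M ∧ pr n y ∈ f) ∧
  ∀ n, n ∈ omega M → ∀ m, m ∈ omega M → ∀ y, pr n y ∈ f → pr m y ∈ f → n = m

theorem EnumP.enum {f Y : M} (h : EnumP f Y) : Enum f Y := by
  obtain ⟨h1, h2, h3, h4, h5⟩ := h
  refine ⟨⟨fun p hp => ?_, fun n hn => ?_⟩, fun y hy => ?_, fun m n y hm hn => ?_⟩
  · obtain ⟨n, hn, y, hy, he⟩ := h1 p hp
    exact ⟨n, y, hn, hy, isPair_iff.2 he⟩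
  · obtain ⟨y, hy⟩ := h2 n hn
    exact ⟨y, app_iff.2 hy, fun y' hy' => h3 n hn y' (app_iff.1 hy') y hy⟩
  · obtain ⟨n, -, hn⟩ := h4 y hy
    exact ⟨n, app_iff.2 hn⟩
  · rw [app_iff] at hm hn
    obtain ⟨m', hm', y', -, he⟩ := h1 _ hm
    obtain ⟨n', hn', y'', -, he'⟩ := h1 _ hn
    rw [← (pr_inj he).1] at hm'
    rw [← (pr_inj he').1] at hn'
    exact h5 m hm' n hn' y hm hn

/-- `BadFam` in terms of ordered pairs. -/
structure BF (A : M) : Prop where
  a1 : ∀ p, p ∈ A → ∃ i, i ∈ omega M ∧ ∃ Y, p = pr i Y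
  a2 : ∀ i, i ∈ omega M → ∃ Y, pr i Y ∈ A
  a3 : ∀ i, i ∈ omega M → ∀ Y, pr i Y ∈ A → ∀ Y', pr i Y' ∈ A → Y = Y'
  b : ∀ i, i ∈ omega M → ∀ Y, pr i Y ∈ A → (¬ emp ∈ Y) ∧ ∃ f, EnumP f Y
  c : ∀ G : M, ¬ ((∀ k, k ∈ omega M → ∀ i, i ∈ omega M → ∀ x, pr (pr k i) x ∈ G →
        ∀ x', pr (pr k i) x' ∈ G → x = x') ∧
      ∀ i, i ∈ omega M → ∀ Y, pr i Y ∈ A → ∀ x, x ∈ Y → ∃ k, k ∈ omega M ∧ pr (pr k i) x ∈ G)

theorem BF.badFam {A : M} (h : BF A) : BadFam A := by
  refine ⟨⟨fun p hp => ?_, fun i hi => ?_⟩, fun i Y hi hY => ?_, ?_⟩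
  · obtain ⟨i, hi, Y, he⟩ := h.a1 p hp
    exact ⟨i, Y, hi, isPair_iff.2 he⟩
  · obtain ⟨Y, hY⟩ := h.a2 i hi
    exact ⟨Y, app_iff.2 hY, fun Y' hY' => h.a3 i hi Y' (app_iff.1 hY') Y hY⟩
  · obtain ⟨h1, f, hf⟩ := h.b i hi Y (app_iff.1 hY)
    exact ⟨h1, f, hf.enum⟩
  · rintro ⟨G, h1, h2⟩
    refine h.c G ⟨fun k hk i hi x hx x' hx' => h1 k hk i hi x x' (app2_iff.2 hx) (app2_iff.2 hx'),
      fun i hi Y hY x hx => ?_⟩
    obtain ⟨k, hk, h3⟩ := h2 i hi Y x (app_iff.2 hY) hx
    exact ⟨k, hk, app2_iff.1 h3⟩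

end internal

/-! ### the names -/

section names

universe u

variable {P : Type u} [Preorder P]

/-- The check name of a set of natural numbers. -/
def code (w : Set ℕ) : Nam P := ⟨ULift.{u} {n : ℕ // n ∈ w}, fun _ => ⊤, fun n => Nam.fin n.down.1⟩

theorem code_mem {w : Set ℕ} {n : ℕ} {p : P} : fmem (Nam.fin n) (code w) p ↔ n ∈ w := by
  constructor
  · intro h
    obtain ⟨r, -, ⟨⟨m, hm⟩⟩, -, h1⟩ := h p le_rfl
    rwa [fin_inj h1]
  · intro h
    exact fmem_of_wt (y := code w) (j := ⟨⟨n, h⟩⟩) trivial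

theorem code_inj {w w' : Set ℕ} {p : P} (h : feq (code w) (code w') p) : w = w' := by
  ext n
  rw [← code_mem (p := p), ← code_mem (w := w') (p := p)]
  exact fmem_congr_iff (feq_refl _ _) h

variable {G : Type u} [Group G] [OrdAct G P] {𝓢 : SymSys G}

theorem act_code (g : G) (w : Set ℕ) : act g (code w : Nam P) = code w := by
  have h1 : (fun _ : ULift.{u} {n : ℕ // n ∈ w} => actL g (⊤ : LowerSet P)) = fun _ => ⊤ :=
    funext fun _ => actL_top g
  have h2 : (fun n : ULift.{u} {n : ℕ // n ∈ w} => act g (Nam.fin n.down.1 : Nam P)) =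
      fun n => Nam.fin n.down.1 := funext fun n => act_fin g n.down.1
  change Nam.mk _ _ _ = Nam.mk _ _ _
  rw [h1, h2]

theorem HS_code (w : Set ℕ) : HS 𝓢 (code w : Nam P) :=
  HS.of (x := (code w : Nam P)) (fun n => HS.fin n.down.1) ⟨⊤, 𝓢.top, fun g _ p => by
    rw [act_code]; exact feq_refl _ _⟩

end names

variable {K : Type}

/-- The generic set at the coordinate `t`. -/
def xN (t : Co K) : Nam (Cond K (Set ℕ)) :=
  ⟨Set ℕ, fun w => ⟨{p | w ∈ (p t).A}, fun _ _ h h' => (h t).1 h'⟩, code⟩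

/-- The blob. -/
def blob (K : Type) (i n : ℕ) : Nam (Cond K (Set ℕ)) := ⟨K, fun _ => ⊤, fun k => xN (i, n, k)⟩

/-- The set of blobs of level `i`. -/
def AN (K : Type) (i : ℕ) : Nam (Cond K (Set ℕ)) := ⟨ℕ, fun _ => ⊤, blob K i⟩

/-- The enumeration of the blobs of level `i`. -/
def fN (K : Type) (i : ℕ) : Nam (Cond K (Set ℕ)) :=
  ⟨ℕ, fun _ => ⊤, fun n => Nam.opair (Nam.fin n) (blob K i n)⟩

/-- The family. -/
def AA (K : Type) : Nam (Cond K (Set ℕ)) :=
  ⟨ℕ, fun _ => ⊤, fun i => Nam.opair (Nam.fin i) (AN K i)⟩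

theorem act_xN (g : Gt K) (t : Co K) : act g (xN t) = xN (g.1 t) := by
  have h1 : (fun w : Set ℕ => actL g (⟨{p | w ∈ (p t).A}, fun _ _ h h' => (h t).1 h'⟩ :
      LowerSet (Cond K (Set ℕ)))) = fun w => ⟨{p | w ∈ (p (g.1 t)).A},
        fun _ _ h h' => (h (g.1 t)).1 h'⟩ := by
    funext w
    ext p
    change w ∈ ((g⁻¹ • p) t).A ↔ w ∈ (p (g.1 t)).A
    rw [Cond.smul_apply]
    change w ∈ (p (g.1⁻¹⁻¹ t)).A ↔ _
    rw [inv_inv]
  have h2 : (fun w : Set ℕ => act g (code w : Nam (Cond K (Set ℕ)))) = code :=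
    funext fun w => act_code g w
  change Nam.mk _ _ _ = Nam.mk _ _ _
  rw [h1, h2]

theorem HS_xN (t : Co K) : HS (sys K) (xN t) := by
  refine HS.of (fun w => HS_code w) ⟨Fx 0 {t}, Fx_mem (Set.finite_singleton t), fun g hg p => ?_⟩
  rw [act_xN, Fx.fix hg (Set.mem_singleton t)]
  exact feq_refl _ _

theorem act_blob (g : Gt K) {i n m : ℕ} (h : ∀ k, (g.1 (i, n, k)).2.1 = m)
    (h' : ∀ k, (g.1⁻¹ (i, m, k)).2.1 = n) (p : Cond K (Set ℕ)) :
    feq (act g (blob K i n)) (blob K i m) p := by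
  rw [feq_iff]
  constructor
  · intro (k : K) q hq _
    refine ⟨q, le_rfl, (g.1 (i, n, k)).2.2, trivial, ?_⟩
    change feq (act g (xN (i, n, k))) (xN (i, m, (g.1 (i, n, k)).2.2)) q
    rw [act_xN]
    have h1 : g.1 (i, n, k) = (i, m, (g.1 (i, n, k)).2.2) :=
      Prod.ext (g.fst _) (Prod.ext (h k) rfl)
    rw [← h1]
    exact feq_refl _ _
  · intro (k : K) q hq _
    refine ⟨q, le_rfl, (g.1⁻¹ (i, m, k)).2.2, trivial, ?_⟩
    change feq (act g (xN (i, n, (g.1⁻¹ (i, m, k)).2.2))) (xN (i, m, k)) q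
    rw [act_xN]
    have h1 : g.1⁻¹ (i, m, k) = (i, n, (g.1⁻¹ (i, m, k)).2.2) :=
      Prod.ext ((g⁻¹ : Gt K).fst _) (Prod.ext (h' k) rfl)
    rw [← h1, pinv_l]
    exact feq_refl _ _

theorem fix_blob (i n : ℕ) : FixN (Fx (i + 1) (∅ : Set (Co K))) (blob K i n) := by
  intro g hg p
  exact act_blob g (fun k => hg.1 _ (Nat.lt_succ_self i))
    (fun k => (inv_mem hg : g⁻¹ ∈ Fx (i + 1) ∅).1 _ (Nat.lt_succ_self i)) p

theorem HS_blob (i n : ℕ) : HS (sys K) (blob K i n) :=
  HS.of (fun _ => HS_xN _) ⟨_, Fx_mem Set.finite_empty, fix_blob i n⟩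

theorem fix_AN (i : ℕ) : FixN (⊤ : Subgroup (Gt K)) (AN K i) := by
  intro g _ p
  obtain ⟨π, hπ⟩ := g.2
  obtain ⟨π', hπ'⟩ := (g⁻¹ : Gt K).2
  refine feq_act_of_perm (x := AN K i) g (π i).1 (fun _ _ => ⟨fun _ => trivial, fun _ => trivial⟩)
    (fun n q _ => ?_) p
  refine act_blob g (fun k => (hπ (i, n, k)).2) (fun k => ?_) q
  have h1 := (hπ (g.1⁻¹ (i, (π i).1 n, k))).2
  rw [pinv_l] at h1
  have h2 : (g.1⁻¹ (i, (π i).1 n, k)).1 = i := (g⁻¹ : Gt K).fst _
  rw [h2] at h1
  exact ((π i).1.injective h1).symm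

theorem HS_AN (i : ℕ) : HS (sys K) (AN K i) :=
  HS.of (fun n => HS_blob i n) ⟨⊤, (sys K).top, fix_AN i⟩

theorem HS_fN (i : ℕ) : HS (sys K) (fN K i) := by
  refine HS.of (fun n => (HS.fin n).opair (HS_blob i n)) ⟨Fx (i + 1) ∅,
    Fx_mem Set.finite_empty, fun g hg p => ?_⟩
  refine feq_act_of_perm (x := fN K i) g (Equiv.refl _) (fun _ _ => ⟨fun _ => trivial,
    fun _ => trivial⟩) (fun n q _ => ?_) p
  change feq (act g (Nam.opair (Nam.fin n) (blob K i n))) (Nam.opair (Nam.fin n) (blob K i n)) q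
  rw [act_opair, act_fin]
  exact feq_opair (feq_refl _ _) (fix_blob i n g hg q)

theorem HS_AA : HS (sys K) (AA K) := by
  refine HS.of (fun i => (HS.fin i).opair (HS_AN i)) ⟨⊤, (sys K).top, fun g hg p => ?_⟩
  refine feq_act_of_perm (x := AA K) g (Equiv.refl _) (fun _ _ => ⟨fun _ => trivial,
    fun _ => trivial⟩) (fun i q _ => ?_) p
  change feq (act g (Nam.opair (Nam.fin i) (AN K i))) (Nam.opair (Nam.fin i) (AN K i)) q
  rw [act_opair, act_fin]
  exact feq_opair (feq_refl _ _) (fix_AN i g trivial q)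

/-! ### distinctness -/

instance : Uncountable (Set ℕ) := by
  refine ⟨fun h => ?_⟩
  obtain ⟨f, hf⟩ := h.exists_injective_nat
  exact Function.cantor_injective f hf

theorem xN_ne {t t' : Co K} (h : t ≠ t') (p : Cond K (Set ℕ)) : ¬ feq (xN t) (xN t') p := by
  classical
  intro hf
  obtain ⟨w, hw⟩ : ∃ w : Set ℕ, w ∉ (p t).A ∪ (p t).B ∪ ((p t').A ∪ (p t').B) := by
    by_contra hcon
    push Not at hcon
    exact Set.not_countable_univ (α := Set ℕ) (((((p t).hA.union (p t).hB).union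
      ((p t').hA.union (p t').hB))).mono fun w _ => hcon w)
  simp only [Set.mem_union, not_or] at hw
  let q : Cond K (Set ℕ) := ⟨fun s => if s = t then
      { A := insert w (p t).A
        B := (p t).B
        hA := (p t).hA.insert w
        hB := (p t).hB
        disj := by
          intro v hv
          rcases Set.mem_insert_iff.1 hv with rfl | hv
          · exact hw.1.2
          · exact (p t).disj v hv }
    else if s = t' then
      { A := (p t').A
        B := insert w (p t').B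
        hA := (p t').hA
        hB := (p t').hB.insert w
        disj := by
          intro v hv hv'
          rcases Set.mem_insert_iff.1 hv' with rfl | hv'
          · exact hw.2.1 hv
          · exact (p t').disj v hv hv' }
    else p s, by
      refine ((p.2.union (Set.countable_singleton t)).union (Set.countable_singleton t')).mono ?_
      intro s hs
      by_cases h1 : s = t
      · exact Or.inl (Or.inr h1)
      · by_cases h2 : s = t'
        · exact Or.inr h2
        · refine Or.inl (Or.inl ?_)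
          change (if s = t then _ else if s = t' then _ else p s) ≠ ⊤ at hs
          rwa [if_neg h1, if_neg h2] at hs⟩
  have hqt : (q t).A = insert w (p t).A := by
    change (if t = t then _ else _ : LCond (Set ℕ)).A = _
    rw [if_pos rfl]
  have hqt' : (q t').B = insert w (p t').B := by
    change (if t' = t then _ else if t' = t' then _ else _ : LCond (Set ℕ)).B = _
    rw [if_neg (Ne.symm h), if_pos rfl]
  have hqp : q ≤ p := by
    intro s
    change (if s = t then _ else if s = t' then _ else p s : LCond (Set ℕ)) ≤ p s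
    by_cases h1 : s = t
    · rw [if_pos h1, h1]
      exact ⟨Set.subset_insert _ _, subset_rfl⟩
    · rw [if_neg h1]
      by_cases h2 : s = t'
      · rw [if_pos h2, h2]
        exact ⟨subset_rfl, Set.subset_insert _ _⟩
      · rw [if_neg h2]
  have h1 : fmem (code w) (xN t) q := by
    refine fmem_of_wt (y := xN t) (j := w) ?_
    change w ∈ (q t).A
    rw [hqt]
    exact Set.mem_insert _ _
  obtain ⟨r, hr, w', h2, h3⟩ := fmem_congr_right (feq_mono hqp hf) h1 q le_rfl
  have h4 : w = w' := code_inj h3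
  change w' ∈ (r t').A at h2
  rw [← h4] at h2
  refine (r t').disj w h2 ((hr t').2 ?_)
  rw [hqt']
  exact Set.mem_insert _ _

theorem blob_ne [Nonempty K] {i n m : ℕ} (h : n ≠ m) (p : Cond K (Set ℕ)) :
    ¬ feq (blob K i n) (blob K i m) p := by
  intro hf
  obtain ⟨k⟩ := (inferInstance : Nonempty K)
  have h1 : fmem (xN (i, n, k)) (blob K i n) p := fmem_of_wt (y := blob K i n) (j := k) trivial
  obtain ⟨r, -, k', -, h2⟩ := fmem_congr_right hf h1 p le_rfl
  exact xN_ne (by simp [h]) r h2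

theorem blob_nonempty [Nonempty K] {i n : ℕ} (p : Cond K (Set ℕ)) :
    ¬ feq Nam.empty (blob K i n) p := by
  intro hf
  obtain ⟨k⟩ := (inferInstance : Nonempty K)
  have h1 : fmem (xN (i, n, k)) (blob K i n) p := fmem_of_wt (y := blob K i n) (j := k) trivial
  exact not_fmem_empty _ _ (fmem_congr_right (feq_symm hf) h1)

theorem fmem_AN {i : ℕ} {y : Nam (Cond K (Set ℕ))} {p : Cond K (Set ℕ)} :
    fmem y (AN K i) p ↔ DB (fun q => ∃ n, feq y (blob K i n) q) p := by
  constructor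
  · intro h q hq
    obtain ⟨r, hr, n, -, h1⟩ := h q hq
    exact ⟨r, hr, n, h1⟩
  · intro h q hq
    obtain ⟨r, hr, n, h1⟩ := h q hq
    exact ⟨r, hr, n, trivial, h1⟩

theorem fmem_fN {i : ℕ} {x y : Nam (Cond K (Set ℕ))} {p : Cond K (Set ℕ)} :
    fmem (Nam.opair x y) (fN K i) p ↔
      DB (fun q => ∃ n, feq x (Nam.fin n) q ∧ feq y (blob K i n) q) p := by
  constructor
  · intro h q hq
    obtain ⟨r, hr, n, -, h1⟩ := h q hq
    exact ⟨r, hr, n, feq_of_opair h1⟩
  · intro h q hq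
    obtain ⟨r, hr, n, h1, h2⟩ := h q hq
    exact ⟨r, hr, n, trivial, feq_opair h1 h2⟩

theorem fmem_fN_fin {i n : ℕ} {y : Nam (Cond K (Set ℕ))} {p : Cond K (Set ℕ)} :
    fmem (Nam.opair (Nam.fin n) y) (fN K i) p ↔ feq y (blob K i n) p := by
  rw [fmem_fN]
  constructor
  · intro h
    refine feq_reg fun q hq => ?_
    obtain ⟨r, hr, m, h1, h2⟩ := h q hq
    rw [fin_inj h1]
    exact ⟨r, hr, h2⟩
  · intro h q hq
    exact ⟨q, le_rfl, n, feq_refl _ _, feq_mono hq h⟩

theorem fmem_AA_fin {i : ℕ} {y : Nam (Cond K (Set ℕ))} {p : Cond K (Set ℕ)} :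
    fmem (Nam.opair (Nam.fin i) y) (AA K) p ↔ feq y (AN K i) p := by
  constructor
  · intro h
    refine feq_reg fun q hq => ?_
    obtain ⟨r, hr, j, -, h1⟩ := h q hq
    have h2 := feq_of_opair h1
    rw [fin_inj h2.1]
    exact ⟨r, hr, h2.2⟩
  · intro h q hq
    exact ⟨q, le_rfl, i, trivial, feq_opair (feq_refl _ _) (feq_mono hq h)⟩

/-! ### the translation -/

section tr

universe u

variable {G P : Type u} [Group G] [Preorder P] [OrdAct G P] {𝓢 : SymSys G}

/-- The forced version of `EnumP`. -/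
def g1 (𝓢 : SymSys G) (f Y : Nam P) (p : P) : Prop :=
  (∀ x, HS 𝓢 x → ∀ q ≤ p, fmem x f q → DB (fun q => ∃ n : ℕ,
    DB (fun q => ∃ y, HS 𝓢 y ∧ (fmem y Y q ∧ feq x (Nam.opair (Nam.fin n) y) q)) q) q) ∧
  ((∀ n : ℕ, DB (fun q => ∃ y, HS 𝓢 y ∧ fmem (Nam.opair (Nam.fin n) y) f q) p) ∧
  ((∀ n : ℕ, ∀ y, HS 𝓢 y → ∀ q ≤ p, fmem (Nam.opair (Nam.fin n) y) f q → ∀ y', HS 𝓢 y' →
    ∀ r ≤ q, fmem (Nam.opair (Nam.fin n) y') f r → feq y y' r) ∧
  ((∀ y, HS 𝓢 y → ∀ q ≤ p, fmem y Y q → DB (fun r => ∃ n : ℕ,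
    fmem (Nam.opair (Nam.fin n) y) f r) q) ∧
  ∀ n : ℕ, ∀ m : ℕ, ∀ y, HS 𝓢 y → ∀ q ≤ p, fmem (Nam.opair (Nam.fin n) y) f q → ∀ r ≤ q,
    fmem (Nam.opair (Nam.fin m) y) f r → feq (Nam.fin n) (Nam.fin m) r)))

variable [Nonempty P]

theorem tr_EnumP {f Y : Nam P} (hf : LD 𝓢 f) (hY : LD 𝓢 Y) :
    Tr (EnumP (cls f hf) (cls Y hY)) (g1 𝓢 f Y) := by
  refine Tr.and ?_ (Tr.and ?_ (Tr.and ?_ (Tr.and ?_ ?_)))
  · refine Tr.allB hf (fun x hx => ?_) (by (repeat' first | exact TE.id | exact TE.const _ | apply TE.opair | apply RE.mem' | apply RE.eq' | apply RE.and | apply RE.not | apply RE.imp | apply RE.all | apply RE.ex | apply RE.exI | apply RE.allI | intro _))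
    refine Tr.exω (S := fun n => DB (fun q => ∃ y, HS 𝓢 y ∧ (fmem y Y q ∧
      feq x (Nam.opair n y) q))) (fun n hn => ?_) (by (repeat' first | exact TE.id | exact TE.const _ | apply TE.opair | apply RE.mem' | apply RE.eq' | apply RE.and | apply RE.not | apply RE.imp | apply RE.all | apply RE.ex | apply RE.exI | apply RE.allI | intro _))
    refine Tr.exB hY (fun y hy => ?_) (by (repeat' first | exact TE.id | exact TE.const _ | apply TE.opair | apply RE.mem' | apply RE.eq' | apply RE.and | apply RE.not | apply RE.imp | apply RE.all | apply RE.ex | apply RE.exI | apply RE.allI | intro _))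
    exact (Tr.eq hx (hn.opair hy)).congr (by rw [cls_opair])
  · refine Tr.allω (S := fun n => DB (fun q => ∃ y, HS 𝓢 y ∧ fmem (Nam.opair n y) f q))
      (fun n hn => ?_) (by (repeat' first | exact TE.id | exact TE.const _ | apply TE.opair | apply RE.mem' | apply RE.eq' | apply RE.and | apply RE.not | apply RE.imp | apply RE.all | apply RE.ex | apply RE.exI | apply RE.allI | intro _))
    exact Tr.ex (T := fun y => pr (cls n hn) y ∈ cls f hf) (fun y hy => Tr.pr_mem hn hy hf)
      (RE.reg (by (repeat' first | exact TE.id | exact TE.const _ | apply TE.opair | apply RE.mem' | apply RE.eq' | apply RE.and | apply RE.not | apply RE.imp | apply RE.all | apply RE.ex | apply RE.exI | apply RE.allI | intro _))) (RE.ext (by (repeat' first | exact TE.id | exact TE.const _ | apply TE.opair | apply RE.mem' | apply RE.eq' | apply RE.and | apply RE.not | apply RE.imp | apply RE.all | apply RE.ex | apply RE.exI | apply RE.allI | intro _)))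
  · refine Tr.allω (S := fun n p => ∀ y, HS 𝓢 y → ∀ q ≤ p, fmem (Nam.opair n y) f q →
      ∀ y', HS 𝓢 y' → ∀ r ≤ q, fmem (Nam.opair n y') f r → feq y y' r) (fun n hn => ?_)
      (by (repeat' first | exact TE.id | exact TE.const _ | apply TE.opair | apply RE.mem' | apply RE.eq' | apply RE.and | apply RE.not | apply RE.imp | apply RE.all | apply RE.ex | apply RE.exI | apply RE.allI | intro _))
    refine Tr.all (T := fun y => pr (cls n hn) y ∈ cls f hf → ∀ y', pr (cls n hn) y' ∈ cls f hf →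
      y = y') (fun y hy => (Tr.pr_mem hn hy hf).imp ?_)
      (RE.reg (by (repeat' first | exact TE.id | exact TE.const _ | apply TE.opair | apply RE.mem' | apply RE.eq' | apply RE.and | apply RE.not | apply RE.imp | apply RE.all | apply RE.ex | apply RE.exI | apply RE.allI | intro _))) (RE.ext (by (repeat' first | exact TE.id | exact TE.const _ | apply TE.opair | apply RE.mem' | apply RE.eq' | apply RE.and | apply RE.not | apply RE.imp | apply RE.all | apply RE.ex | apply RE.exI | apply RE.allI | intro _)))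
    exact Tr.all (T := fun y' => pr (cls n hn) y' ∈ cls f hf → cls y hy = y') (fun y' hy' =>
      (Tr.pr_mem hn hy' hf).imp (Tr.eq hy hy'))
      (RE.reg (by (repeat' first | exact TE.id | exact TE.const _ | apply TE.opair | apply RE.mem' | apply RE.eq' | apply RE.and | apply RE.not | apply RE.imp | apply RE.all | apply RE.ex | apply RE.exI | apply RE.allI | intro _))) (RE.ext (by (repeat' first | exact TE.id | exact TE.const _ | apply TE.opair | apply RE.mem' | apply RE.eq' | apply RE.and | apply RE.not | apply RE.imp | apply RE.all | apply RE.ex | apply RE.exI | apply RE.allI | intro _)))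
  · refine Tr.allB hY (fun y hy => ?_) (by (repeat' first | exact TE.id | exact TE.const _ | apply TE.opair | apply RE.mem' | apply RE.eq' | apply RE.and | apply RE.not | apply RE.imp | apply RE.all | apply RE.ex | apply RE.exI | apply RE.allI | intro _))
    exact Tr.exω (S := fun n => fmem (Nam.opair n y) f) (fun n hn => Tr.pr_mem hn hy hf)
      (by (repeat' first | exact TE.id | exact TE.const _ | apply TE.opair | apply RE.mem' | apply RE.eq' | apply RE.and | apply RE.not | apply RE.imp | apply RE.all | apply RE.ex | apply RE.exI | apply RE.allI | intro _))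
  · refine Tr.allω (S := fun n p => ∀ m : ℕ, ∀ y, HS 𝓢 y → ∀ q ≤ p, fmem (Nam.opair n y) f q →
      ∀ r ≤ q, fmem (Nam.opair (Nam.fin m) y) f r → feq n (Nam.fin m) r) (fun n hn => ?_)
      (by (repeat' first | exact TE.id | exact TE.const _ | apply TE.opair | apply RE.mem' | apply RE.eq' | apply RE.and | apply RE.not | apply RE.imp | apply RE.all | apply RE.ex | apply RE.exI | apply RE.allI | intro _))
    refine Tr.allω (S := fun m p => ∀ y, HS 𝓢 y → ∀ q ≤ p, fmem (Nam.opair n y) f q →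
      ∀ r ≤ q, fmem (Nam.opair m y) f r → feq n m r) (fun m hm => ?_) (by (repeat' first | exact TE.id | exact TE.const _ | apply TE.opair | apply RE.mem' | apply RE.eq' | apply RE.and | apply RE.not | apply RE.imp | apply RE.all | apply RE.ex | apply RE.exI | apply RE.allI | intro _))
    exact Tr.all (T := fun y => pr (cls n hn) y ∈ cls f hf → pr (cls m hm) y ∈ cls f hf →
      cls n hn = cls m hm) (fun y hy => (Tr.pr_mem hn hy hf).imp ((Tr.pr_mem hm hy hf).imp
      (Tr.eq hn hm))) (RE.reg (by (repeat' first | exact TE.id | exact TE.const _ | apply TE.opair | apply RE.mem' | apply RE.eq' | apply RE.and | apply RE.not | apply RE.imp | apply RE.all | apply RE.ex | apply RE.exI | apply RE.allI | intro _))) (RE.ext (by (repeat' first | exact TE.id | exact TE.const _ | apply TE.opair | apply RE.mem' | apply RE.eq' | apply RE.and | apply RE.not | apply RE.imp | apply RE.all | apply RE.ex | apply RE.exI | apply RE.allI | intro _)))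

theorem tr_b {A : Nam P} (hA : LD 𝓢 A) :
    Tr (∀ i, i ∈ omega (Mod P 𝓢) → ∀ Y, pr i Y ∈ cls A hA → (¬ emp ∈ Y) ∧ ∃ f, EnumP f Y)
      (fun p => ∀ i : ℕ, ∀ Y, HS 𝓢 Y → ∀ q ≤ p, fmem (Nam.opair (Nam.fin i) Y) A q →
        ((∀ r ≤ q, ¬ fmem Nam.empty Y r) ∧ DB (fun r => ∃ f, HS 𝓢 f ∧ g1 𝓢 f Y r) q)) := by
  refine Tr.allω (S := fun i p => ∀ Y, HS 𝓢 Y → ∀ q ≤ p, fmem (Nam.opair i Y) A q →
        ((∀ r ≤ q, ¬ fmem Nam.empty Y r) ∧ DB (fun r => ∃ f, HS 𝓢 f ∧ g1 𝓢 f Y r) q))
    (fun i hi => ?_) (by unfold g1; (repeat' first | exact TE.id | exact TE.const _ | apply TE.opair | apply RE.mem' | apply RE.eq' | apply RE.and | apply RE.not | apply RE.imp | apply RE.all | apply RE.ex | apply RE.exI | apply RE.allI | intro _))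
  refine Tr.all (T := fun Y => pr (cls i hi) Y ∈ cls A hA → (¬ emp ∈ Y) ∧ ∃ f, EnumP f Y)
    (fun Y hY => (Tr.pr_mem hi hY hA).imp (Tr.and ?_ ?_))
    (RE.reg (by unfold g1; (repeat' first | exact TE.id | exact TE.const _ | apply TE.opair | apply RE.mem' | apply RE.eq' | apply RE.and | apply RE.not | apply RE.imp | apply RE.all | apply RE.ex | apply RE.exI | apply RE.allI | intro _)))
    (RE.ext (by unfold g1; (repeat' first | exact TE.id | exact TE.const _ | apply TE.opair | apply RE.mem' | apply RE.eq' | apply RE.and | apply RE.not | apply RE.imp | apply RE.all | apply RE.ex | apply RE.exI | apply RE.allI | intro _)))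
  · refine Tr.not ((Tr.mem HS.empty.ld hY).congr ?_)
    rw [cls_empty]
  · exact Tr.ex (T := fun f => EnumP f (cls Y hY)) (fun f hf => tr_EnumP hf hY)
      (RE.reg (by unfold g1; (repeat' first | exact TE.id | exact TE.const _ | apply TE.opair | apply RE.mem' | apply RE.eq' | apply RE.and | apply RE.not | apply RE.imp | apply RE.all | apply RE.ex | apply RE.exI | apply RE.allI | intro _))) (RE.ext (by unfold g1; (repeat' first | exact TE.id | exact TE.const _ | apply TE.opair | apply RE.mem' | apply RE.eq' | apply RE.and | apply RE.not | apply RE.imp | apply RE.all | apply RE.ex | apply RE.exI | apply RE.allI | intro _)))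

theorem tr_a1 {A : Nam P} (hA : LD 𝓢 A) :
    Tr (∀ p, p ∈ cls A hA → ∃ i, i ∈ omega (Mod P 𝓢) ∧ ∃ Y, p = pr i Y)
      (fun p => ∀ x, HS 𝓢 x → ∀ q ≤ p, fmem x A q → DB (fun q => ∃ i : ℕ,
        DB (fun q => ∃ Y, HS 𝓢 Y ∧ feq x (Nam.opair (Nam.fin i) Y) q) q) q) := by
  refine Tr.allB hA (fun x hx => ?_) (by (repeat' first | exact TE.id | exact TE.const _ | apply TE.opair | apply RE.mem' | apply RE.eq' | apply RE.and | apply RE.not | apply RE.imp | apply RE.all | apply RE.ex | apply RE.exI | apply RE.allI | intro _))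
  refine Tr.exω (S := fun i => DB (fun q => ∃ Y, HS 𝓢 Y ∧ feq x (Nam.opair i Y) q))
    (fun i hi => ?_) (by (repeat' first | exact TE.id | exact TE.const _ | apply TE.opair | apply RE.mem' | apply RE.eq' | apply RE.and | apply RE.not | apply RE.imp | apply RE.all | apply RE.ex | apply RE.exI | apply RE.allI | intro _))
  refine Tr.ex (T := fun Y => cls x hx = pr (cls i hi) Y) (fun Y hY => ?_)
    (RE.reg (by (repeat' first | exact TE.id | exact TE.const _ | apply TE.opair | apply RE.mem' | apply RE.eq' | apply RE.and | apply RE.not | apply RE.imp | apply RE.all | apply RE.ex | apply RE.exI | apply RE.allI | intro _))) (RE.ext (by (repeat' first | exact TE.id | exact TE.const _ | apply TE.opair | apply RE.mem' | apply RE.eq' | apply RE.and | apply RE.not | apply RE.imp | apply RE.all | apply RE.ex | apply RE.exI | apply RE.allI | intro _)))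
  exact (Tr.eq hx (hi.opair hY)).congr (by rw [cls_opair])

theorem tr_a2 {A : Nam P} (hA : LD 𝓢 A) :
    Tr (∀ i, i ∈ omega (Mod P 𝓢) → ∃ Y, pr i Y ∈ cls A hA)
      (fun p => ∀ i : ℕ, DB (fun q => ∃ Y, HS 𝓢 Y ∧ fmem (Nam.opair (Nam.fin i) Y) A q) p) := by
  refine Tr.allω (S := fun i => DB (fun q => ∃ Y, HS 𝓢 Y ∧ fmem (Nam.opair i Y) A q))
    (fun i hi => ?_) (by (repeat' first | exact TE.id | exact TE.const _ | apply TE.opair | apply RE.mem' | apply RE.eq' | apply RE.and | apply RE.not | apply RE.imp | apply RE.all | apply RE.ex | apply RE.exI | apply RE.allI | intro _))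
  exact Tr.ex (T := fun Y => pr (cls i hi) Y ∈ cls A hA) (fun Y hY => Tr.pr_mem hi hY hA)
    (RE.reg (by (repeat' first | exact TE.id | exact TE.const _ | apply TE.opair | apply RE.mem' | apply RE.eq' | apply RE.and | apply RE.not | apply RE.imp | apply RE.all | apply RE.ex | apply RE.exI | apply RE.allI | intro _))) (RE.ext (by (repeat' first | exact TE.id | exact TE.const _ | apply TE.opair | apply RE.mem' | apply RE.eq' | apply RE.and | apply RE.not | apply RE.imp | apply RE.all | apply RE.ex | apply RE.exI | apply RE.allI | intro _)))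

theorem tr_a3 {A : Nam P} (hA : LD 𝓢 A) :
    Tr (∀ i, i ∈ omega (Mod P 𝓢) → ∀ Y, pr i Y ∈ cls A hA → ∀ Y', pr i Y' ∈ cls A hA → Y = Y')
      (fun p => ∀ i : ℕ, ∀ Y, HS 𝓢 Y → ∀ q ≤ p, fmem (Nam.opair (Nam.fin i) Y) A q →
        ∀ Y', HS 𝓢 Y' → ∀ r ≤ q, fmem (Nam.opair (Nam.fin i) Y') A r → feq Y Y' r) := by
  refine Tr.allω (S := fun i p => ∀ Y, HS 𝓢 Y → ∀ q ≤ p, fmem (Nam.opair i Y) A q →
    ∀ Y', HS 𝓢 Y' → ∀ r ≤ q, fmem (Nam.opair i Y') A r → feq Y Y' r) (fun i hi => ?_)
    (by (repeat' first | exact TE.id | exact TE.const _ | apply TE.opair | apply RE.mem' | apply RE.eq' | apply RE.and | apply RE.not | apply RE.imp | apply RE.all | apply RE.ex | apply RE.exI | apply RE.allI | intro _))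
  refine Tr.all (T := fun Y => pr (cls i hi) Y ∈ cls A hA → ∀ Y', pr (cls i hi) Y' ∈ cls A hA →
    Y = Y') (fun Y hY => (Tr.pr_mem hi hY hA).imp ?_)
    (RE.reg (by (repeat' first | exact TE.id | exact TE.const _ | apply TE.opair | apply RE.mem' | apply RE.eq' | apply RE.and | apply RE.not | apply RE.imp | apply RE.all | apply RE.ex | apply RE.exI | apply RE.allI | intro _))) (RE.ext (by (repeat' first | exact TE.id | exact TE.const _ | apply TE.opair | apply RE.mem' | apply RE.eq' | apply RE.and | apply RE.not | apply RE.imp | apply RE.all | apply RE.ex | apply RE.exI | apply RE.allI | intro _)))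
  exact Tr.all (T := fun Y' => pr (cls i hi) Y' ∈ cls A hA → cls Y hY = Y') (fun Y' hY' =>
    (Tr.pr_mem hi hY' hA).imp (Tr.eq hY hY'))
    (RE.reg (by (repeat' first | exact TE.id | exact TE.const _ | apply TE.opair | apply RE.mem' | apply RE.eq' | apply RE.and | apply RE.not | apply RE.imp | apply RE.all | apply RE.ex | apply RE.exI | apply RE.allI | intro _))) (RE.ext (by (repeat' first | exact TE.id | exact TE.const _ | apply TE.opair | apply RE.mem' | apply RE.eq' | apply RE.and | apply RE.not | apply RE.imp | apply RE.all | apply RE.ex | apply RE.exI | apply RE.allI | intro _)))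

theorem tr_c {A : Nam P} (hA : LD 𝓢 A) :
    Tr (∀ G : Mod P 𝓢, ¬ ((∀ k, k ∈ omega (Mod P 𝓢) → ∀ i, i ∈ omega (Mod P 𝓢) →
        ∀ x, pr (pr k i) x ∈ G → ∀ x', pr (pr k i) x' ∈ G → x = x') ∧
      ∀ i, i ∈ omega (Mod P 𝓢) → ∀ Y, pr i Y ∈ cls A hA → ∀ x, x ∈ Y →
        ∃ k, k ∈ omega (Mod P 𝓢) ∧ pr (pr k i) x ∈ G))
      (fun p => ∀ G, HS 𝓢 G → ∀ q ≤ p, ¬ ((∀ k : ℕ, ∀ i : ℕ, ∀ x, HS 𝓢 x → ∀ q1 ≤ q,
          fmem (Nam.opair (Nam.opair (Nam.fin k) (Nam.fin i)) x) G q1 → ∀ x', HS 𝓢 x' →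
          ∀ q2 ≤ q1, fmem (Nam.opair (Nam.opair (Nam.fin k) (Nam.fin i)) x') G q2 →
            feq x x' q2) ∧
        ∀ i : ℕ, ∀ Y, HS 𝓢 Y → ∀ q1 ≤ q, fmem (Nam.opair (Nam.fin i) Y) A q1 → ∀ x, HS 𝓢 x →
          ∀ q2 ≤ q1, fmem x Y q2 → DB (fun r => ∃ k : ℕ,
            fmem (Nam.opair (Nam.opair (Nam.fin k) (Nam.fin i)) x) G r) q2)) := by
  refine Tr.all (T := fun G : Mod P 𝓢 => ¬ ((∀ k, k ∈ omega (Mod P 𝓢) →
      ∀ i, i ∈ omega (Mod P 𝓢) → ∀ x, pr (pr k i) x ∈ G → ∀ x', pr (pr k i) x' ∈ G → x = x') ∧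
      ∀ i, i ∈ omega (Mod P 𝓢) → ∀ Y, pr i Y ∈ cls A hA → ∀ x, x ∈ Y →
        ∃ k, k ∈ omega (Mod P 𝓢) ∧ pr (pr k i) x ∈ G)) (fun G hG => ?_)
    (RE.reg (by (repeat' first | exact TE.id | exact TE.const _ | apply TE.opair | apply RE.mem' | apply RE.eq' | apply RE.and | apply RE.not | apply RE.imp | apply RE.all | apply RE.ex | apply RE.exI | apply RE.allI | intro _))) (RE.ext (by (repeat' first | exact TE.id | exact TE.const _ | apply TE.opair | apply RE.mem' | apply RE.eq' | apply RE.and | apply RE.not | apply RE.imp | apply RE.all | apply RE.ex | apply RE.exI | apply RE.allI | intro _)))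
  refine Tr.not (Tr.and ?_ ?_)
  · refine Tr.allω (S := fun k p => ∀ i : ℕ, ∀ x, HS 𝓢 x → ∀ q1 ≤ p,
      fmem (Nam.opair (Nam.opair k (Nam.fin i)) x) G q1 → ∀ x', HS 𝓢 x' →
      ∀ q2 ≤ q1, fmem (Nam.opair (Nam.opair k (Nam.fin i)) x') G q2 → feq x x' q2)
      (fun k hk => ?_) (by (repeat' first | exact TE.id | exact TE.const _ | apply TE.opair | apply RE.mem' | apply RE.eq' | apply RE.and | apply RE.not | apply RE.imp | apply RE.all | apply RE.ex | apply RE.exI | apply RE.allI | intro _))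
    refine Tr.allω (S := fun i p => ∀ x, HS 𝓢 x → ∀ q1 ≤ p,
      fmem (Nam.opair (Nam.opair k i) x) G q1 → ∀ x', HS 𝓢 x' →
      ∀ q2 ≤ q1, fmem (Nam.opair (Nam.opair k i) x') G q2 → feq x x' q2)
      (fun i hi => ?_) (by (repeat' first | exact TE.id | exact TE.const _ | apply TE.opair | apply RE.mem' | apply RE.eq' | apply RE.and | apply RE.not | apply RE.imp | apply RE.all | apply RE.ex | apply RE.exI | apply RE.allI | intro _))
    refine Tr.all (T := fun x => pr (pr (cls k hk) (cls i hi)) x ∈ cls G hG →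
      ∀ x', pr (pr (cls k hk) (cls i hi)) x' ∈ cls G hG → x = x')
      (fun x hx => (Tr.pr3_mem hk hi hx hG).imp ?_)
      (RE.reg (by (repeat' first | exact TE.id | exact TE.const _ | apply TE.opair | apply RE.mem' | apply RE.eq' | apply RE.and | apply RE.not | apply RE.imp | apply RE.all | apply RE.ex | apply RE.exI | apply RE.allI | intro _))) (RE.ext (by (repeat' first | exact TE.id | exact TE.const _ | apply TE.opair | apply RE.mem' | apply RE.eq' | apply RE.and | apply RE.not | apply RE.imp | apply RE.all | apply RE.ex | apply RE.exI | apply RE.allI | intro _)))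
    exact Tr.all (T := fun x' => pr (pr (cls k hk) (cls i hi)) x' ∈ cls G hG → cls x hx = x')
      (fun x' hx' => (Tr.pr3_mem hk hi hx' hG).imp (Tr.eq hx hx'))
      (RE.reg (by (repeat' first | exact TE.id | exact TE.const _ | apply TE.opair | apply RE.mem' | apply RE.eq' | apply RE.and | apply RE.not | apply RE.imp | apply RE.all | apply RE.ex | apply RE.exI | apply RE.allI | intro _))) (RE.ext (by (repeat' first | exact TE.id | exact TE.const _ | apply TE.opair | apply RE.mem' | apply RE.eq' | apply RE.and | apply RE.not | apply RE.imp | apply RE.all | apply RE.ex | apply RE.exI | apply RE.allI | intro _)))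
  · refine Tr.allω (S := fun i p => ∀ Y, HS 𝓢 Y → ∀ q1 ≤ p, fmem (Nam.opair i Y) A q1 →
      ∀ x, HS 𝓢 x → ∀ q2 ≤ q1, fmem x Y q2 → DB (fun r => ∃ k : ℕ,
        fmem (Nam.opair (Nam.opair (Nam.fin k) i) x) G r) q2) (fun i hi => ?_) (by (repeat' first | exact TE.id | exact TE.const _ | apply TE.opair | apply RE.mem' | apply RE.eq' | apply RE.and | apply RE.not | apply RE.imp | apply RE.all | apply RE.ex | apply RE.exI | apply RE.allI | intro _))
    refine Tr.all (T := fun Y => pr (cls i hi) Y ∈ cls A hA → ∀ x, x ∈ Y →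
        ∃ k, k ∈ omega (Mod P 𝓢) ∧ pr (pr k (cls i hi)) x ∈ cls G hG)
      (fun Y hY => (Tr.pr_mem hi hY hA).imp ?_)
      (RE.reg (by (repeat' first | exact TE.id | exact TE.const _ | apply TE.opair | apply RE.mem' | apply RE.eq' | apply RE.and | apply RE.not | apply RE.imp | apply RE.all | apply RE.ex | apply RE.exI | apply RE.allI | intro _))) (RE.ext (by (repeat' first | exact TE.id | exact TE.const _ | apply TE.opair | apply RE.mem' | apply RE.eq' | apply RE.and | apply RE.not | apply RE.imp | apply RE.all | apply RE.ex | apply RE.exI | apply RE.allI | intro _)))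
    refine Tr.allB hY (fun x hx => ?_) (by (repeat' first | exact TE.id | exact TE.const _ | apply TE.opair | apply RE.mem' | apply RE.eq' | apply RE.and | apply RE.not | apply RE.imp | apply RE.all | apply RE.ex | apply RE.exI | apply RE.allI | intro _))
    exact Tr.exω (S := fun k => fmem (Nam.opair (Nam.opair k i) x) G)
      (fun k hk => Tr.pr3_mem hk hi hx hG) (by (repeat' first | exact TE.id | exact TE.const _ | apply TE.opair | apply RE.mem' | apply RE.eq' | apply RE.and | apply RE.not | apply RE.imp | apply RE.all | apply RE.ex | apply RE.exI | apply RE.allI | intro _))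

end tr

variable [Uncountable K]

theorem g1_fN (i : ℕ) (p : Cond K (Set ℕ)) : g1 (sys K) (fN K i) (AN K i) p := by
  refine ⟨fun x hx q hq h => ?_, fun n => ?_, fun n y hy q hq h y' hy' r hr h' => ?_,
    fun y hy q hq h => ?_, fun n m y hy q hq h r hr h' => ?_⟩
  · intro r hr
    obtain ⟨s, hs, n, -, h1⟩ := h r hr
    refine ⟨s, hs, n, DB.of (S := fun q => ∃ y, HS (sys K) y ∧ (fmem y (AN K i) q ∧
      feq x (Nam.opair (Nam.fin n) y) q)) (fun hq ⟨y, a, b, c⟩ => ⟨y, a, fmem_mono hq b,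
      feq_mono hq c⟩) ⟨blob K i n, HS_blob i n, fmem_of_wt (y := AN K i) (j := n) trivial, h1⟩⟩
  · intro r hr
    exact ⟨r, le_rfl, blob K i n, HS_blob i n, fmem_fN_fin.2 (feq_refl _ _)⟩
  · rw [fmem_fN_fin] at h h'
    exact feq_trans (feq_mono hr h) (feq_symm h')
  · refine DB.imp (fun r _ h1 => ?_) (fmem_AN.1 h)
    obtain ⟨n, h1⟩ := h1
    exact ⟨n, fmem_fN_fin.2 h1⟩
  · rw [fmem_fN_fin] at h h'
    have h1 : n = m := by
      by_contra hne
      exact blob_ne hne r (feq_trans (feq_symm (feq_mono hr h)) h')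
    rw [h1]
    exact feq_refl _ _

omit [Uncountable K] in
theorem re_g1 (f : Nam (Cond K (Set ℕ))) : RE (fun Y => g1 (sys K) f Y) := by
  unfold g1
  (repeat' first | exact TE.id | exact TE.const _ | apply TE.opair | apply RE.mem' | apply RE.eq' | apply RE.and | apply RE.not | apply RE.imp | apply RE.all | apply RE.ex | apply RE.exI | apply RE.allI | intro _)

/-- Fact 1: the family of the sets of blobs cannot be enumerated uniformly. -/
theorem bf_AA : BF (cls (AA K) (HS_AA (K := K)).ld) := by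
  refine ⟨?_, ?_, ?_, ?_, ?_⟩
  · refine (tr_a1 HS_AA.ld).of_dense fun p => ⟨p, le_rfl, fun x hx q hq h => ?_⟩
    intro r hr
    obtain ⟨s, hs, i, -, h1⟩ := h r hr
    exact ⟨s, hs, i, DB.of (S := fun q => ∃ Y, HS (sys K) Y ∧
      feq x (Nam.opair (Nam.fin i) Y) q) (fun hq ⟨y, a, b⟩ => ⟨y, a, feq_mono hq b⟩)
      ⟨AN K i, HS_AN i, h1⟩⟩
  · refine (tr_a2 HS_AA.ld).of_dense fun p => ⟨p, le_rfl, fun i r hr => ?_⟩
    exact ⟨r, le_rfl, AN K i, HS_AN i, fmem_AA_fin.2 (feq_refl _ _)⟩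
  · refine (tr_a3 HS_AA.ld).of_dense fun p => ⟨p, le_rfl, fun i Y hY q hq h Y' hY' r hr h' => ?_⟩
    rw [fmem_AA_fin] at h h'
    exact feq_trans (feq_mono hr h) (feq_symm h')
  · refine (tr_b HS_AA.ld).of_dense fun p => ⟨p, le_rfl, fun i Y hY q hq h => ?_⟩
    rw [fmem_AA_fin] at h
    refine ⟨fun r hr h1 => ?_, ?_⟩
    · obtain ⟨s, -, n, h2⟩ := fmem_AN.1 (fmem_congr_right (feq_mono hr h) h1) r le_rfl
      exact blob_nonempty s h2
    · intro r hr
      exact ⟨r, le_rfl, fN K i, HS_fN i, (re_g1 _).ext _ _ _ (feq_symm (feq_mono hr h))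
        (g1_fN i r)⟩
  · refine (tr_c HS_AA.ld).of_dense fun p => ⟨p, le_rfl, fun G hG q hq hcon => ?_⟩
    obtain ⟨h1, h2⟩ := hcon
    obtain ⟨H, ⟨e, S, hS, hH⟩, hfH⟩ := hG.sym
    have hf : FixN (Fx e S) G := hfH.mono hH
    obtain ⟨e2, he2⟩ : ∃ e2, ∀ t ∈ S, t.1 < e2 := by
      obtain ⟨b, hb⟩ := (hS.image (fun t : Co K => t.1)).bddAbove
      exact ⟨b + 1, fun t ht => Nat.lt_succ_of_le (hb ⟨t, ht, rfl⟩)⟩
    set i := max e e2 with hi
    have hlev : ∀ t ∈ S, t.1 < i := fun t ht => lt_of_lt_of_le (he2 t ht) (le_max_right _ _)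
    obtain ⟨r, hr, k, h3⟩ := h2 i (AN K i) (HS_AN i) q le_rfl (fmem_AA_fin.2 (feq_refl _ _))
      (blob K i 0) (HS_blob i 0) q le_rfl (fmem_of_wt (y := AN K i) (j := (0 : ℕ)) trivial) q le_rfl
    -- homogeneity
    have h4 : fmem (Nam.opair (Nam.opair (Nam.fin k) (Nam.fin i)) (blob K i 0)) G (res S r) := by
      refine hom (fmemReg _ _) hS.countable ?_ h3
      intro g hg hgS p
      have hgS' : g ∈ Fx e S := Xi.mem_Fx hg hgS e
      rw [← hf.fmem_iff hgS' _ p, act_opair, act_opair, act_fin, act_fin]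
      have h5 : feq (act g (blob K i 0)) (blob K i 0) (g • p) :=
        fix_blob i 0 g (Xi.mem_Fx hg (fun t ht => absurd ht (Set.notMem_empty t)) _) _
      exact fmem_congr_iff (feq_opair (feq_refl _ _) (feq_symm h5)) (feq_refl _ _)
    set g := lvl K i ⟨tc 0 1 2, tc_mem (by omega) (by omega) (by omega)⟩ with hg
    have hgm : g ∈ Fx i S := lvl_mem hlev _
    have hgm' : g ∈ Fx e S := Fx.mono (le_max_left _ _) subset_rfl hgm
    have h5 := (hf.fmem_iff hgm' _ _).2 h4
    rw [smul_eq_self (res_res r) (fun t ht => Fx.fix hgm ht), act_opair, act_opair, act_fin,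
      act_fin] at h5
    have h6 : feq (act g (blob K i 0)) (blob K i 1) (res S r) := by
      refine act_blob g (fun k => ?_) (fun k => ?_) _
      · rw [hg, lvl_apply]
        change (if i = i then _ else _) = 1
        rw [if_pos rfl]
        exact tc_first (by omega) (by omega)
      · have h7 : g.1 (i, 0, k) = (i, 1, k) := by
          rw [hg, lvl_apply]
          refine Prod.ext rfl (Prod.ext ?_ rfl)
          change (if i = i then _ else _) = 1
          rw [if_pos rfl]
          exact tc_first (by omega) (by omega)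
        rw [← h7, pinv_r]
    have h8 : fmem (Nam.opair (Nam.opair (Nam.fin k) (Nam.fin i)) (blob K i 1)) G (res S r) :=
      fmem_congr_left (feq_opair (feq_refl _ _) h6) h5
    exact blob_ne (by omega) r (h1 k i _ (HS_blob i 0) r hr h3 _ (HS_blob i 1) r le_rfl
      (fmem_mono (le_res S r) h8))

theorem badFam_AA : BadFam (cls (AA K) (HS_AA (K := K)).ld) := bf_AA.badFam

end Pool.Agent.Sym
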