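import Pool.Agent.Lib.MP_1454e8_lc.S0Force

/-!
# Group actions on names and hereditarily symmetric names
-/

set_option autoImplicit false

namespace Pool.Agent.Sym

universe u

/-- An action of a group by order automorphisms. -/
class OrdAct (G P : Type u) [Group G] [Preorder P] extends MulAction G P where
  smul_le : ∀ (g : G) {p q : P}, p ≤ q → g • p ≤ g • q

variable {G P : Type u} [Group G] [Preorder P] [OrdAct G P]

theorem smul_le' (g : G) {p q : P} (h : p ≤ q) : g • p ≤ g • q := OrdAct.smul_le g h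

theorem smul_le_iff (g : G) {p q : P} : g • p ≤ g • q ↔ p ≤ q := by
  refine ⟨fun h => ?_, smul_le' g⟩
  have := smul_le' g⁻¹ h
  rwa [inv_smul_smul, inv_smul_smul] at this

theorem smul_le_iff_le_inv (g : G) {p q : P} : g • p ≤ q ↔ p ≤ g⁻¹ • q := by
  rw [← smul_le_iff g⁻¹ (p := g • p), inv_smul_smul]

theorem le_smul_iff (g : G) {p q : P} : p ≤ g • q ↔ g⁻¹ • p ≤ q := by
  rw [← smul_le_iff g⁻¹ (q := g • q), inv_smul_smul]

/-- The action on weights. -/
def actL (g : G) (w : LowerSet P) : LowerSet P :=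
  ⟨{p | g⁻¹ • p ∈ w}, fun _ _ h h' => w.lower (smul_le' g⁻¹ h) h'⟩

theorem mem_actL {g : G} {w : LowerSet P} {p : P} : p ∈ actL g w ↔ g⁻¹ • p ∈ w := Iff.rfl

/-- The action on names. -/
def act (g : G) : Nam P → Nam P
  | ⟨ι, w, x⟩ => ⟨ι, fun i => actL g (w i), fun i => act g (x i)⟩

theorem act_one (x : Nam P) : act (1 : G) x = x := by
  induction x with
  | mk ι w x ih =>
    have h1 : (fun i => actL (1 : G) (w i)) = w := by
      funext i
      ext p
      change (1 : G)⁻¹ • p ∈ w i ↔ p ∈ w i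
      rw [inv_one, one_smul]
    have h2 : (fun i => act (1 : G) (x i)) = x := funext ih
    simp only [act, h1, h2]

theorem act_mul (g h : G) (x : Nam P) : act (g * h) x = act g (act h x) := by
  induction x with
  | mk ι w x ih =>
    have h1 : (fun i => actL (g * h) (w i)) = fun i => actL g (actL h (w i)) := by
      funext i
      ext p
      change (g * h)⁻¹ • p ∈ w i ↔ h⁻¹ • g⁻¹ • p ∈ w i
      rw [mul_inv_rev, mul_smul]
    have h2 : (fun i => act (g * h) (x i)) = fun i => act g (act h (x i)) := funext ih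
    simp only [act, h1, h2]

theorem act_inv_act (g : G) (x : Nam P) : act g⁻¹ (act g x) = x := by
  rw [← act_mul, inv_mul_cancel, act_one]

theorem act_act_inv (g : G) (x : Nam P) : act g (act g⁻¹ x) = x := by
  rw [← act_mul, mul_inv_cancel, act_one]

theorem feq_act_aux (g : G) (x y : Nam P) (p : P) (h : feq x y p) :
    feq (act g x) (act g y) (g • p) := by
  induction x generalizing y p with
  | mk ι w x ih =>
    obtain ⟨κ, v, y⟩ := y
    rw [feq_iff] at h ⊢
    constructor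
    · intro i q hq hqi
      obtain ⟨r, hr, j, h1, h2⟩ := h.1 i (g⁻¹ • q)
        (by rw [← smul_le_iff g, smul_inv_smul]; exact hq) hqi
      refine ⟨g • r, ?_, j, ?_, ih i _ _ h2⟩
      · rw [smul_le_iff_le_inv]; exact hr
      · change g⁻¹ • g • r ∈ v j
        rw [inv_smul_smul]; exact h1
    · intro j q hq hqj
      obtain ⟨r, hr, i, h1, h2⟩ := h.2 j (g⁻¹ • q)
        (by rw [← smul_le_iff g, smul_inv_smul]; exact hq) hqj
      refine ⟨g • r, ?_, i, ?_, ih i _ _ h2⟩
      · rw [smul_le_iff_le_inv]; exact hr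
      · change g⁻¹ • g • r ∈ w i
        rw [inv_smul_smul]; exact h1

theorem feq_act (g : G) (x y : Nam P) (p : P) :
    feq (act g x) (act g y) (g • p) ↔ feq x y p := by
  refine ⟨fun h => ?_, feq_act_aux g x y p⟩
  have := feq_act_aux g⁻¹ _ _ _ h
  rwa [act_inv_act, act_inv_act, inv_smul_smul] at this

theorem act_el (g : G) (x : Nam P) (P' : Nam P → Prop) :
    (∀ i, P' ((act g x).el i)) ↔ ∀ i, P' (act g (x.el i)) := by
  cases x; exact Iff.rfl

theorem fmem_act_aux (g : G) (x y : Nam P) (p : P) (h : fmem x y p) :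
    fmem (act g x) (act g y) (g • p) := by
  obtain ⟨κ, v, y⟩ := y
  intro q hq
  obtain ⟨r, hr, j, h1, h2⟩ := h (g⁻¹ • q) (by rw [← smul_le_iff g, smul_inv_smul]; exact hq)
  refine ⟨g • r, ?_, j, ?_, feq_act_aux g _ _ _ h2⟩
  · rw [smul_le_iff_le_inv]; exact hr
  · change g⁻¹ • g • r ∈ v j
    rw [inv_smul_smul]; exact h1

theorem fmem_act (g : G) (x y : Nam P) (p : P) :
    fmem (act g x) (act g y) (g • p) ↔ fmem x y p := by
  refine ⟨fun h => ?_, fmem_act_aux g x y p⟩
  have := fmem_act_aux g⁻¹ _ _ _ h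
  rwa [act_inv_act, act_inv_act, inv_smul_smul] at this

/-- A symmetric system: a normal filter of subgroups. -/
structure SymSys (G : Type u) [Group G] where
  F : Set (Subgroup G)
  top : ⊤ ∈ F
  inter : ∀ H H', H ∈ F → H' ∈ F → H ⊓ H' ∈ F
  up : ∀ H H', H ∈ F → H ≤ H' → H' ∈ F
  conj : ∀ (g : G) (H), H ∈ F → ∃ H' ∈ F, ∀ h ∈ H', g⁻¹ * h * g ∈ H

variable (𝓢 : SymSys G)

/-- `x` is fixed (forced by all conditions) by all elements of `H`. -/
def FixN (H : Subgroup G) (x : Nam P) : Prop := ∀ g ∈ H, ∀ p, feq (act g x) x p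

/-- `x` is symmetric. -/
def SymN (x : Nam P) : Prop := ∃ H ∈ 𝓢.F, FixN H x

/-- Hereditarily symmetric names. -/
inductive HS : Nam P → Prop
  | mk (ι : Type u) (w : ι → LowerSet P) (x : ι → Nam P) :
      (∀ i, HS (x i)) → SymN 𝓢 ⟨ι, w, x⟩ → HS ⟨ι, w, x⟩

variable {𝓢}

theorem HS.el {x : Nam P} (h : HS 𝓢 x) (i : x.idx) : HS 𝓢 (x.el i) := by
  cases h with
  | mk ι w x h h' => exact h i

theorem HS.sym {x : Nam P} (h : HS 𝓢 x) : SymN 𝓢 x := by
  cases h with
  | mk ι w x h h' => exact h'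

theorem HS.of {x : Nam P} (h : ∀ i, HS 𝓢 (x.el i)) (h' : SymN 𝓢 x) : HS 𝓢 x := by
  cases x with
  | mk ι w x => exact HS.mk ι w x h h'

theorem FixN.mono {H H' : Subgroup G} {x : Nam P} (h : FixN H x) (hH : H' ≤ H) : FixN H' x :=
  fun g hg p => h g (hH hg) p

theorem FixN.smul {H H' : Subgroup G} {x : Nam P} (h : FixN H x) (g : G)
    (hH : ∀ h ∈ H', g⁻¹ * h * g ∈ H) : FixN H' (Sym.act g x) := by
  intro k hk p
  have h1 := h _ (hH k hk) (g⁻¹ • p)
  have h2 := (feq_act g _ _ _).2 h1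
  rw [smul_inv_smul] at h2
  have h3 : Sym.act g (Sym.act (g⁻¹ * k * g) x) = Sym.act k (Sym.act g x) := by
    rw [← act_mul, ← act_mul]
    congr 1
    group
  rwa [h3] at h2

theorem SymN.smul {x : Nam P} (h : SymN 𝓢 x) (g : G) : SymN 𝓢 (Sym.act g x) := by
  obtain ⟨H, hH, hx⟩ := h
  obtain ⟨H', hH', hconj⟩ := 𝓢.conj g H hH
  exact ⟨H', hH', hx.smul g hconj⟩

theorem HS.smul {x : Nam P} (h : HS 𝓢 x) (g : G) : HS 𝓢 (Sym.act g x) := by
  induction h with
  | mk ι w x h h' ih => exact HS.mk _ _ _ ih (h'.smul g)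

theorem HS.smul_iff {x : Nam P} (g : G) : HS 𝓢 (Sym.act g x) ↔ HS 𝓢 x := by
  refine ⟨fun h => ?_, fun h => h.smul g⟩
  have := h.smul g⁻¹
  rwa [act_inv_act] at this

/-- A name is fixed by `g` if it is fixed elementwise up to a permutation of the index set. -/
theorem feq_act_of_perm {x : Nam P} (g : G) (σ : Equiv.Perm x.idx)
    (hw : ∀ i p, p ∈ x.wt (σ i) ↔ g⁻¹ • p ∈ x.wt i)
    (he : ∀ i p, g⁻¹ • p ∈ x.wt i → feq (act g (x.el i)) (x.el (σ i)) p) (p : P) :
    feq (act g x) x p := by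
  obtain ⟨ι, w, e⟩ := x
  rw [feq_iff]
  constructor
  · intro i q hq hqi
    exact ⟨q, le_rfl, σ i, (hw i q).2 hqi, he i q hqi⟩
  · intro j q hq hqj
    have h1 : g⁻¹ • q ∈ w (σ.symm j) := by
      have := (hw (σ.symm j) q).1
      rw [Equiv.apply_symm_apply] at this
      exact this hqj
    refine ⟨q, le_rfl, σ.symm j, h1, ?_⟩
    have := he (σ.symm j) q h1
    rwa [Equiv.apply_symm_apply] at this

end Pool.Agent.Sym
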