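import Pool.Agent.Lib.MP_1454e8_lc.S1Act

/-!
# The model of locally hereditarily symmetric names and the transfer calculus
-/

set_option autoImplicit false

namespace Pool.Agent.Sym

universe u

section mixing

variable {P : Type u} [Preorder P]

theorem feq_empty {x : Nam P} {p : P} (h : ∀ i, ∀ q ≤ p, q ∉ x.wt i) :
    feq x Nam.empty p := by
  rw [feq_iff]
  exact ⟨fun i q hq hqi => absurd hqi (h i q hq), fun j => j.elim⟩

/-- Mixing names over an antichain. -/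
theorem exists_mix' {C : Set P} (hC : Antichain' C) (f : P → Nam P) :
    ∃ x : Nam P, (∀ a ∈ C, feq x (f a) a) ∧
      ∀ p, (∀ a ∈ C, ∀ r ≤ p, ¬ r ≤ a) → feq x Nam.empty p := by
  refine ⟨⟨Σ a : C, (f a.1).idx, fun s => ⟨{p | p ≤ s.1.1 ∧ p ∈ (f s.1.1).wt s.2}, ?_⟩,
    fun s => (f s.1.1).el s.2⟩, ?_, ?_⟩
  · rintro p q hqp ⟨h1, h2⟩
    exact ⟨hqp.trans h1, ((f s.1.1).wt s.2).lower hqp h2⟩
  · intro a ha
    rw [feq_iff]
    constructor
    · rintro ⟨⟨b, hb⟩, i⟩ q hq ⟨h1, h2⟩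
      obtain rfl : a = b := hC a ha b hb q hq h1
      exact ⟨q, le_rfl, i, h2, feq_refl _ _⟩
    · intro j q hq hqj
      exact ⟨q, le_rfl, ⟨⟨a, ha⟩, j⟩, ⟨hq, hqj⟩, feq_refl _ _⟩
  · intro p hp
    refine feq_empty ?_
    rintro ⟨⟨a, ha⟩, i⟩ q hq ⟨h1, -⟩
    exact hp a ha q hq h1

end mixing

section generic

variable {P : Type u} [Preorder P]

/-- Dense open sets of conditions. -/
def DenseOpen (D : Set P) : Prop :=
  (∀ p ∈ D, ∀ q ≤ p, q ∈ D) ∧ ∀ p, ∃ q ≤ p, q ∈ D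

theorem DenseOpen.inter {D D' : Set P} (h : DenseOpen D) (h' : DenseOpen D') :
    DenseOpen (D ∩ D') := by
  refine ⟨fun p hp q hq => ⟨h.1 p hp.1 q hq, h'.1 p hp.2 q hq⟩, fun p => ?_⟩
  obtain ⟨q, hq, hqD⟩ := h.2 p
  obtain ⟨r, hr, hrD⟩ := h'.2 q
  exact ⟨r, hr.trans hq, h.1 q hqD r hr, hrD⟩

/-- The filter generated by the dense open sets. -/
def denseFilter (P : Type u) [Preorder P] : Filter P where
  sets := {A | ∃ D, DenseOpen D ∧ D ⊆ A}
  univ_sets := ⟨Set.univ, ⟨fun _ _ _ _ => trivial, fun p => ⟨p, le_rfl, trivial⟩⟩,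
    Set.subset_univ _⟩
  sets_of_superset := by
    rintro A B ⟨D, hD, hDA⟩ hAB
    exact ⟨D, hD, hDA.trans hAB⟩
  inter_sets := by
    rintro A B ⟨D, hD, hDA⟩ ⟨D', hD', hDB⟩
    exact ⟨D ∩ D', hD.inter hD', Set.inter_subset_inter hDA hDB⟩

theorem denseFilter_neBot [Nonempty P] : (denseFilter P).NeBot := by
  refine Filter.neBot_iff.2 fun h => ?_
  have h1 : (∅ : Set P) ∈ denseFilter P := by rw [h]; exact Filter.mem_bot
  obtain ⟨D, hD, hDe⟩ := h1
  obtain ⟨p⟩ := (inferInstance : Nonempty P)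
  obtain ⟨q, -, hq⟩ := hD.2 p
  exact hDe hq

/-- An ultrafilter containing all dense open sets. -/
noncomputable def genU (P : Type u) [Preorder P] [Nonempty P] : Ultrafilter P :=
  haveI := denseFilter_neBot (P := P)
  Ultrafilter.of (denseFilter P)

variable [Nonempty P]

/-- `S` holds eventually. -/
def Ev (S : P → Prop) : Prop := ∀ᶠ p in (genU P : Filter P), S p

theorem Ev.of_dense {S : P → Prop} (h1 : ∀ p, S p → ∀ q ≤ p, S q) (h2 : ∀ p, ∃ q ≤ p, S q) :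
    Ev S := by
  have := denseFilter_neBot (P := P)
  have h3 : (genU P : Filter P) ≤ denseFilter P := Ultrafilter.of_le _
  exact h3 ⟨{p | S p}, ⟨h1, h2⟩, fun _ h => h⟩

theorem Ev.of_forall {S : P → Prop} (h : ∀ p, S p) : Ev S := Filter.Eventually.of_forall h

theorem Ev.mono {S T : P → Prop} (h : Ev S) (hST : ∀ p, S p → T p) : Ev T :=
  Filter.Eventually.mono h hST

theorem Ev.and {S T : P → Prop} (h : Ev S) (h' : Ev T) : Ev (fun p => S p ∧ T p) :=
  Filter.Eventually.and h h'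

theorem Ev.exists {S : P → Prop} (h : Ev S) : ∃ p, S p := Filter.Eventually.exists h

theorem ev_and {S T : P → Prop} : Ev (fun p => S p ∧ T p) ↔ Ev S ∧ Ev T :=
  Filter.eventually_and

theorem not_ev_false : ¬ Ev (fun _ : P => False) := fun h => (h.exists).elim fun _ h => h

/-- For downwards closed predicates, holding densely below is the same as holding. -/
theorem ev_DB {A : P → Prop} (hA : ∀ p, A p → ∀ q ≤ p, A q) : Ev (DB A) ↔ Ev A := by
  refine ⟨fun h => ?_, fun h => h.mono fun p hp q hq => ⟨q, le_rfl, hA p hp q hq⟩⟩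
  have hD : Ev (fun p : P => A p ∨ ∀ q ≤ p, ¬ A q) := by
    refine Ev.of_dense ?_ fun p => ?_
    · rintro p (hp | hp) q hq
      · exact Or.inl (hA p hp q hq)
      · exact Or.inr fun r hr => hp r (hr.trans hq)
    · by_cases hp : ∃ q ≤ p, A q
      · obtain ⟨q, hq, hAq⟩ := hp
        exact ⟨q, hq, Or.inl hAq⟩
      · push Not at hp
        exact ⟨p, le_rfl, Or.inr hp⟩
  refine (h.and hD).mono ?_
  rintro p ⟨hp, hp'⟩
  rcases hp' with hp' | hp'
  · exact hp'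
  · obtain ⟨r, hr, hAr⟩ := hp p le_rfl
    exact absurd hAr (hp' r hr)

/-- Negation. -/
theorem ev_not {A : P → Prop} (hA : ∀ p, A p → ∀ q ≤ p, A q) :
    Ev (fun p => ∀ q ≤ p, ¬ A q) ↔ ¬ Ev A := by
  constructor
  · intro h h'
    refine not_ev_false (P := P) ((h.and h').mono ?_)
    rintro p ⟨hp, hp'⟩
    exact hp p le_rfl hp'
  · intro h
    have h1 : Ev (fun p => ¬ A p) := Ultrafilter.eventually_not.2 h
    have hD : Ev (fun p : P => A p ∨ ∀ q ≤ p, ¬ A q) := by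
      refine Ev.of_dense ?_ fun p => ?_
      · rintro p (hp | hp) q hq
        · exact Or.inl (hA p hp q hq)
        · exact Or.inr fun r hr => hp r (hr.trans hq)
      · by_cases hp : ∃ q ≤ p, A q
        · obtain ⟨q, hq, hAq⟩ := hp
          exact ⟨q, hq, Or.inl hAq⟩
        · push Not at hp
          exact ⟨p, le_rfl, Or.inr hp⟩
    refine (h1.and hD).mono ?_
    rintro p ⟨hp, hp'⟩
    rcases hp' with hp' | hp'
    · exact absurd hp' hp
    · exact hp'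

end generic

variable {G P : Type u} [Group G] [Preorder P] [OrdAct G P] (𝓢 : SymSys G)

/-- Locally hereditarily symmetric names. -/
def LD (x : Nam P) : Prop := ∀ p, ∃ q ≤ p, ∃ y, HS 𝓢 y ∧ feq x y q

variable {𝓢}

theorem HS.ld {x : Nam P} (h : HS 𝓢 x) : LD 𝓢 x := fun p => ⟨p, le_rfl, x, h, feq_refl x p⟩

theorem feq_act_empty (g : G) (p : P) : feq (act g (Nam.empty : Nam P)) Nam.empty p :=
  feq_empty fun i => i.elim

theorem HS.empty : HS 𝓢 (Nam.empty : Nam P) :=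
  HS.of (fun i => i.elim) ⟨⊤, 𝓢.top, fun g _ p => feq_act_empty g p⟩

/-- Fullness for the class of locally hereditarily symmetric names. -/
theorem fullness_ld (S : Nam P → P → Prop) (hreg : ∀ x, Reg (S x)) (hext : Ext' S) :
    ∃ x, LD 𝓢 x ∧ ∀ p, DB (fun q => ∃ y, HS 𝓢 y ∧ S y q) p → S x p := by
  classical
  obtain ⟨C, hCD, hCa, hCm⟩ := exists_maximal_antichain {p : P | ∃ y, HS 𝓢 y ∧ S y p}
  have hch : ∀ p : P, ∃ y, HS 𝓢 y ∧ (p ∈ C → S y p) := by
    intro p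
    by_cases hp : p ∈ C
    · obtain ⟨y, hy, hy'⟩ := hCD hp
      exact ⟨y, hy, fun _ => hy'⟩
    · exact ⟨Nam.empty, HS.empty, fun h => absurd h hp⟩
  choose f hf1 hf2 using hch
  obtain ⟨x, hx, hx'⟩ := exists_mix' hCa f
  refine ⟨x, fun p => ?_, fun p hp => (hreg x).reg fun q hq => ?_⟩
  · by_cases h : ∃ a ∈ C, ∃ r ≤ p, r ≤ a
    · obtain ⟨a, ha, r, hrp, hra⟩ := h
      exact ⟨r, hrp, f a, hf1 a, feq_mono hra (hx a ha)⟩
    · push Not at h
      exact ⟨p, le_rfl, Nam.empty, HS.empty, hx' p h⟩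
  · obtain ⟨r, hr, y, hy, hy'⟩ := hp q hq
    obtain ⟨a, ha, s, hsa, hsr⟩ := hCm r ⟨y, hy, hy'⟩
    exact ⟨s, hsr.trans hr, hext _ _ _ (feq_symm (feq_mono hsa (hx a ha)))
      ((hreg _).mono hsa (hf2 a ha))⟩

variable [Nonempty P]

variable (P 𝓢) in
/-- Names of the model, up to eventual equality. -/
def namSetoid : Setoid {x : Nam P // LD 𝓢 x} where
  r x y := Ev (feq x.1 y.1)
  iseqv :=
    { refl := fun x => Ev.of_forall fun p => feq_refl x.1 p
      symm := fun h => h.mono fun p hp => feq_symm hp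
      trans := fun h h' => (h.and h').mono fun p hp => feq_trans hp.1 hp.2 }

variable (P 𝓢) in
/-- The symmetric model. -/
def Mod : Type (u + 1) := Quotient (namSetoid P 𝓢)

/-- The class of a name. -/
def cls (x : Nam P) (hx : LD 𝓢 x) : Mod P 𝓢 := Quotient.mk (namSetoid P 𝓢) ⟨x, hx⟩

theorem cls_surj (a : Mod P 𝓢) : ∃ x hx, a = cls x hx := by
  induction a using Quotient.inductionOn with
  | h a => exact ⟨a.1, a.2, rfl⟩

theorem cls_eq {x y : Nam P} {hx : LD 𝓢 x} {hy : LD 𝓢 y} : cls x hx = cls y hy ↔ Ev (feq x y) :=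
  Quotient.eq (r := namSetoid P 𝓢)

instance : Membership (Mod P 𝓢) (Mod P 𝓢) where
  mem a b := Quotient.liftOn₂ b a (fun x y => Ev (fmem x.1 y.1)) (by
    intro x y x' y' hx hy
    refine propext ⟨fun h => ?_, fun h => ?_⟩
    · exact ((h.and (Ev.and (S := feq x.1 x'.1) hx (T := feq y.1 y'.1) hy))).mono
        fun p hp => fmem_congr hp.2.1 hp.2.2 hp.1
    · exact ((h.and (Ev.and (S := feq x.1 x'.1) hx (T := feq y.1 y'.1) hy))).mono
        fun p hp => fmem_congr (feq_symm hp.2.1) (feq_symm hp.2.2) hp.1)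

theorem mem_cls {x y : Nam P} {hx : LD 𝓢 x} {hy : LD 𝓢 y} :
    cls x hx ∈ cls y hy ↔ Ev (fmem x y) := Iff.rfl

/-- Every element of the model is eventually equal to a hereditarily symmetric name. -/
theorem LD.ev {x : Nam P} (hx : LD 𝓢 x) : Ev (fun p => ∃ y, HS 𝓢 y ∧ feq x y p) :=
  Ev.of_dense (fun _ ⟨y, hy, h⟩ _ hq => ⟨y, hy, feq_mono hq h⟩) hx

/-- `S` is the forced version of `T`. -/
structure Tr (T : Prop) (S : P → Prop) : Prop where
  iff : T ↔ Ev S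
  reg : Reg S

theorem Tr.congr {T T' : Prop} {S : P → Prop} (h : Tr T S) (hT : T' ↔ T) : Tr T' S :=
  ⟨hT.trans h.iff, h.reg⟩

theorem Tr.congr' {T : Prop} {S S' : P → Prop} (h : Tr T S) (hS : ∀ p, S' p ↔ S p) :
    Tr T S' := by
  have : S' = S := funext fun p => propext (hS p)
  rwa [this]

theorem Tr.and {T T' : Prop} {S S' : P → Prop} (h : Tr T S) (h' : Tr T' S') :
    Tr (T ∧ T') (fun p => S p ∧ S' p) :=
  ⟨by rw [ev_and, h.iff, h'.iff], h.reg.and h'.reg⟩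

theorem Tr.not {T : Prop} {S : P → Prop} (h : Tr T S) : Tr (¬ T) (fun p => ∀ q ≤ p, ¬ S q) :=
  ⟨by rw [ev_not fun p hp q hq => h.reg.mono hq hp, h.iff], Reg.neg h.reg.mono⟩

theorem Reg.imp {P : Type u} [Preorder P] {S S' : P → Prop}
    (h : ∀ {p q : P}, q ≤ p → S p → S q) (h' : Reg S') :
    Reg (fun p => ∀ q ≤ p, S q → S' q) := by
  refine ⟨fun hqp hp r hr => hp r (hr.trans hqp), ?_⟩
  intro p hp q hq hS
  refine h'.reg fun r hr => ?_
  obtain ⟨s, hs, h1⟩ := hp r (hr.trans hq)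
  exact ⟨s, hs, h1 s le_rfl (h (hs.trans hr) hS)⟩

theorem Tr.imp {T T' : Prop} {S S' : P → Prop} (h : Tr T S) (h' : Tr T' S') :
    Tr (T → T') (fun p => ∀ q ≤ p, S q → S' q) := by
  refine ⟨?_, Reg.imp h.reg.mono h'.reg⟩
  rw [h.iff, h'.iff]
  constructor
  · intro hT
    by_cases hS : Ev S
    · exact (hT hS).mono fun p hp q hq _ => h'.reg.mono hq hp
    · rw [← ev_not fun p hp q hq => h.reg.mono hq hp] at hS
      exact hS.mono fun p hp q hq hSq => absurd hSq (hp q hq)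
  · intro hT hS
    exact (hT.and hS).mono fun p hp => hp.1 p le_rfl hp.2

theorem Tr.iffT {T T' : Prop} {S S' : P → Prop} (h : Tr T S) (h' : Tr T' S') :
    Tr (T ↔ T') (fun p => ∀ q ≤ p, S q ↔ S' q) := by
  refine ((h.imp h').and (h'.imp h)).congr iff_iff_implies_and_implies |>.congr' fun p => ?_
  exact ⟨fun hp => ⟨fun q hq => (hp q hq).1, fun q hq => (hp q hq).2⟩,
    fun hp q hq => ⟨hp.1 q hq, hp.2 q hq⟩⟩

theorem Tr.or {T T' : Prop} {S S' : P → Prop} (h : Tr T S) (h' : Tr T' S') :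
    Tr (T ∨ T') (DB fun p => S p ∨ S' p) := by
  refine ⟨?_, DB.reg' _⟩
  rw [ev_DB, h.iff, h'.iff]
  · exact (Ultrafilter.eventually_or).symm
  · rintro p (hp | hp) q hq
    · exact Or.inl (h.reg.mono hq hp)
    · exact Or.inr (h'.reg.mono hq hp)

theorem Tr.all {T : Mod P 𝓢 → Prop} {S : Nam P → P → Prop}
    (h : ∀ x (hx : LD 𝓢 x), Tr (T (cls x hx)) (S x)) (hreg : ∀ x, Reg (S x)) (hext : Ext' S) :
    Tr (∀ x, T x) (fun p => ∀ x, HS 𝓢 x → S x p) := by
  have hR : Reg (fun p => ∀ x, HS 𝓢 x → S x p) := by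
    refine ⟨fun hqp hp x hx => (hreg x).mono hqp (hp x hx), fun {p} hp x hx => ?_⟩
    refine (hreg x).reg fun q hq => ?_
    obtain ⟨r, hr, h'⟩ := hp q hq
    exact ⟨r, hr, h' x hx⟩
  refine ⟨⟨fun hT => ?_, fun hS x => ?_⟩, hR⟩
  · by_contra hc
    rw [← ev_not fun p hp q hq => hR.mono hq hp] at hc
    obtain ⟨x, hx, hx'⟩ := fullness_ld (𝓢 := 𝓢) (fun x p => ∀ q ≤ p, ¬ S x q)
      (fun x => Reg.neg (hreg x).mono)
      (fun x y p hxy hS q hq hSy => hS q hq (hext _ _ _ (feq_symm (feq_mono hq hxy)) hSy))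
    have h1 : Ev (fun p => ∀ q ≤ p, ¬ S x q) := by
      refine hc.mono fun p hp => hx' p fun q hq => ?_
      have h2 := hp q hq
      push Not at h2
      obtain ⟨y, hy, hSy⟩ := h2
      by_contra h3
      push Not at h3
      refine hSy ((hreg y).reg fun r hr => ?_)
      obtain ⟨s, hs, hs'⟩ := h3 r hr y hy
      exact ⟨s, hs, hs'⟩
    rw [ev_not fun p hp q hq => (hreg x).mono hq hp] at h1
    exact h1 ((h x hx).iff.1 (hT _))
  · obtain ⟨x, hx, rfl⟩ := cls_surj x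
    rw [(h x hx).iff]
    refine (hS.and hx.ev).mono ?_
    rintro p ⟨hp, y, hy, hxy⟩
    exact hext _ _ _ (feq_symm hxy) (hp y hy)

theorem Tr.ex {T : Mod P 𝓢 → Prop} {S : Nam P → P → Prop}
    (h : ∀ x (hx : LD 𝓢 x), Tr (T (cls x hx)) (S x)) (hreg : ∀ x, Reg (S x)) (hext : Ext' S) :
    Tr (∃ x, T x) (DB fun p => ∃ x, HS 𝓢 x ∧ S x p) := by
  refine ⟨⟨?_, fun hS => ?_⟩, DB.reg' _⟩
  · rintro ⟨x, hT⟩
    obtain ⟨x, hx, rfl⟩ := cls_surj x
    rw [(h x hx).iff] at hT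
    refine (ev_DB (fun p ⟨y, hy, hSy⟩ q hq => ⟨y, hy, (hreg y).mono hq hSy⟩)).2 ?_
    refine (hT.and hx.ev).mono ?_
    rintro p ⟨hp, y, hy, hxy⟩
    exact ⟨y, hy, hext _ _ _ hxy hp⟩
  · obtain ⟨x, hx, hx'⟩ := fullness_ld (𝓢 := 𝓢) S hreg hext
    exact ⟨cls x hx, (h x hx).iff.2 (hS.mono hx')⟩

theorem Tr.mem {x y : Nam P} (hx : LD 𝓢 x) (hy : LD 𝓢 y) : Tr (cls x hx ∈ cls y hy) (fmem x y) :=
  ⟨mem_cls, fmemReg x y⟩

theorem Tr.eq {x y : Nam P} (hx : LD 𝓢 x) (hy : LD 𝓢 y) : Tr (cls x hx = cls y hy) (feq x y) :=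
  ⟨cls_eq, feqReg x y⟩

/-- A forced statement which holds densely often gives a true statement. -/
theorem Tr.of_dense {T : Prop} {S : P → Prop} (h : Tr T S) (hS : ∀ p, ∃ q ≤ p, S q) : T :=
  h.iff.2 (Ev.of_dense (fun _ hp _ hq => h.reg.mono hq hp) hS)

end Pool.Agent.Sym
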