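import Pool.Agent.Lib.MP_1454e8_lc.S2Los
import Pool.Agent.Lib.MP_f5c99b_lc.Defs

/-!
# The symmetric model satisfies ZF
-/

set_option autoImplicit false

namespace Pool.Agent.Sym

universe u

open Pool.Agent.Lib.MP_f5c99b_lc

/-! ### regular and extensional families -/

section RE

variable {P : Type u} [Preorder P]

/-- A family of forced statements, regular and extensional in the name. -/
structure RE (S : Nam P → P → Prop) : Prop where
  reg : ∀ x, Reg (S x)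
  ext : Ext' S

theorem RE.memL (y : Nam P) : RE (fun x => fmem x y) :=
  ⟨fun x => fmemReg x y, fun _ _ _ h h' => fmem_congr_left h h'⟩

theorem RE.memR (x : Nam P) : RE (fun y => fmem x y) :=
  ⟨fun y => fmemReg x y, fun _ _ _ h h' => fmem_congr_right h h'⟩

theorem RE.eqL (y : Nam P) : RE (fun x => feq x y) :=
  ⟨fun x => feqReg x y, fun _ _ _ h h' => feq_trans (feq_symm h) h'⟩

theorem RE.eqR (x : Nam P) : RE (fun y => feq x y) :=
  ⟨fun y => feqReg x y, fun _ _ _ h h' => feq_trans h' h⟩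

theorem RE.const {S : P → Prop} (h : Reg S) : RE (fun _ : Nam P => S) :=
  ⟨fun _ => h, fun _ _ _ _ h => h⟩

theorem RE.and {S S' : Nam P → P → Prop} (h : RE S) (h' : RE S') :
    RE (fun x p => S x p ∧ S' x p) :=
  ⟨fun x => (h.reg x).and (h'.reg x), fun x y p hxy hp =>
    ⟨h.ext x y p hxy hp.1, h'.ext x y p hxy hp.2⟩⟩

theorem RE.imp {S S' : Nam P → P → Prop} (h : RE S) (h' : RE S') :
    RE (fun x p => ∀ q ≤ p, S x q → S' x q) :=
  ⟨fun x => Reg.imp (h.reg x).mono (h'.reg x), fun x y p hxy hp q hq hS =>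
    h'.ext x y q (feq_mono hq hxy)
      (hp q hq (h.ext y x q (feq_symm (feq_mono hq hxy)) hS))⟩

theorem RE.not {S : Nam P → P → Prop} (h : RE S) : RE (fun x p => ∀ q ≤ p, ¬ S x q) :=
  ⟨fun x => Reg.neg (h.reg x).mono, fun x y p hxy hp q hq hS =>
    hp q hq (h.ext y x q (feq_symm (feq_mono hq hxy)) hS)⟩

theorem RE.iff {S S' : Nam P → P → Prop} (h : RE S) (h' : RE S') :
    RE (fun x p => ∀ q ≤ p, S x q ↔ S' x q) := by
  have := (h.imp h').and (h'.imp h)
  refine ⟨fun x => ?_, fun x y p hxy hp => ?_⟩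
  · have h1 := this.reg x
    have h2 : (fun p => ∀ q ≤ p, S x q ↔ S' x q) =
        fun p => (∀ q ≤ p, S x q → S' x q) ∧ (∀ q ≤ p, S' x q → S x q) := by
      funext p
      refine propext ⟨fun hp => ⟨fun q hq => (hp q hq).1, fun q hq => (hp q hq).2⟩,
        fun hp q hq => ⟨hp.1 q hq, hp.2 q hq⟩⟩
    rwa [h2]
  · have h1 := this.ext x y p hxy ⟨fun q hq => (hp q hq).1, fun q hq => (hp q hq).2⟩
    exact fun q hq => ⟨h1.1 q hq, h1.2 q hq⟩

theorem RE.db {S : Nam P → P → Prop} (h : ∀ x y p, feq x y p → S x p → S y p) :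
    RE (fun x => DB (S x)) :=
  ⟨fun x => DB.reg' (S x), fun x y p hxy hp =>
    DB.imp (fun q hq hS => h x y q (feq_mono hq hxy) hS) hp⟩

theorem RE.or {S S' : Nam P → P → Prop} (h : RE S) (h' : RE S') :
    RE (fun x => DB fun p => S x p ∨ S' x p) :=
  RE.db fun x y p hxy hp => hp.imp (h.ext x y p hxy) (h'.ext x y p hxy)

theorem RE.allI {ι : Sort*} {S : ι → Nam P → P → Prop} (h : ∀ i, RE (S i)) :
    RE (fun x p => ∀ i, S i x p) :=
  ⟨fun x => Reg.all fun i => (h i).reg x, fun x y p hxy hp i => (h i).ext x y p hxy (hp i)⟩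

variable {G : Type u} [Group G] [OrdAct G P] {𝓢 : SymSys G}

theorem Reg.allHS {S : Nam P → P → Prop} (h : ∀ x, Reg (S x)) :
    Reg (fun p => ∀ x, HS 𝓢 x → S x p) := by
  refine ⟨fun hqp hp x hx => (h x).mono hqp (hp x hx), fun {p} hp x hx => ?_⟩
  refine (h x).reg fun q hq => ?_
  obtain ⟨r, hr, h'⟩ := hp q hq
  exact ⟨r, hr, h' x hx⟩

theorem RE.all {S : Nam P → Nam P → P → Prop} (h : ∀ y, RE (fun x => S x y)) :
    RE (fun x p => ∀ y, HS 𝓢 y → S x y p) :=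
  ⟨fun x => Reg.allHS fun y => (h y).reg x, fun x y p hxy hp z hz =>
    (h z).ext x y p hxy (hp z hz)⟩

theorem RE.ex {S : Nam P → Nam P → P → Prop} (h : ∀ y, RE (fun x => S x y)) :
    RE (fun x => DB fun p => ∃ y, HS 𝓢 y ∧ S x y p) :=
  RE.db fun x y p hxy ⟨z, hz, hp⟩ => ⟨z, hz, (h z).ext x y p hxy hp⟩

end RE

/-! ### forced formulas -/

variable {G P : Type u} [Group G] [Preorder P] [OrdAct G P] (𝓢 : SymSys G)

/-- `p` forces `φ`; quantifiers range over hereditarily symmetric names. -/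
def Forces : Fml → (ℕ → Nam P) → P → Prop
  | .mem i j, v, p => fmem (v i) (v j) p
  | .eq i j, v, p => feq (v i) (v j) p
  | .neg φ, v, p => ∀ q ≤ p, ¬ Forces φ v q
  | .conj φ ψ, v, p => Forces φ v p ∧ Forces ψ v p
  | .all φ, v, p => ∀ x, HS 𝓢 x → Forces φ (push x v) p

variable {𝓢}

theorem Forces.reg (φ : Fml) : ∀ v : ℕ → Nam P, Reg (Forces 𝓢 φ v) := by
  induction φ with
  | mem i j => exact fun v => fmemReg _ _
  | eq i j => exact fun v => feqReg _ _
  | neg φ ih => exact fun v => Reg.neg (ih v).mono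
  | conj φ ψ ih ih' => exact fun v => (ih v).and (ih' v)
  | all φ ih => exact fun v => Reg.allHS fun x => ih _

/-- A bound for the free variables. -/
def bd : Fml → ℕ
  | .mem i j => max (i + 1) (j + 1)
  | .eq i j => max (i + 1) (j + 1)
  | .neg φ => bd φ
  | .conj φ ψ => max (bd φ) (bd ψ)
  | .all φ => bd φ

theorem Forces.congr (φ : Fml) : ∀ {v v' : ℕ → Nam P} {p : P},
    (∀ n < bd φ, feq (v n) (v' n) p) → Forces 𝓢 φ v p → Forces 𝓢 φ v' p := by
  induction φ with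
  | mem i j =>
    intro v v' p h
    exact fmem_congr (h i (by simp [bd])) (h j (by simp [bd]))
  | eq i j =>
    intro v v' p h h'
    exact feq_trans (feq_symm (h i (by simp [bd]))) (feq_trans h' (h j (by simp [bd])))
  | neg φ ih =>
    intro v v' p h h' q hq hS
    exact h' q hq (ih (fun n hn => feq_symm (feq_mono hq (h n hn))) hS)
  | conj φ ψ ih ih' =>
    intro v v' p h h'
    exact ⟨ih (fun n hn => h n (lt_of_lt_of_le hn (le_max_left _ _))) h'.1,
      ih' (fun n hn => h n (lt_of_lt_of_le hn (le_max_right _ _))) h'.2⟩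
  | all φ ih =>
    intro v v' p h h' x hx
    refine ih (fun n hn => ?_) (h' x hx)
    cases n with
    | zero => exact feq_refl _ _
    | succ n => exact h n (lt_of_lt_of_le (Nat.lt_succ_self n) (le_of_lt hn))

theorem Forces_act (φ : Fml) (g : G) : ∀ (v : ℕ → Nam P) (p : P),
    Forces 𝓢 φ (fun n => act g (v n)) (g • p) ↔ Forces 𝓢 φ v p := by
  induction φ with
  | mem i j => exact fun v p => fmem_act g _ _ p
  | eq i j => exact fun v p => feq_act g _ _ p
  | neg φ ih =>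
    intro v p
    constructor
    · intro h q hq hS
      exact h (g • q) (smul_le' g hq) ((ih v q).2 hS)
    · intro h q hq hS
      refine h (g⁻¹ • q) ?_ ((ih v _).1 ?_)
      · rw [← smul_le_iff g, smul_inv_smul]; exact hq
      · rw [smul_inv_smul]; exact hS
  | conj φ ψ ih ih' => exact fun v p => and_congr (ih v p) (ih' v p)
  | all φ ih =>
    intro v p
    constructor
    · intro h x hx
      have := h (Sym.act g x) (hx.smul g)
      rw [← ih]
      refine Forces.congr φ (fun n _ => ?_) this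
      cases n with
      | zero => exact feq_refl _ _
      | succ n => exact feq_refl _ _
    · intro h x hx
      have := h (Sym.act g⁻¹ x) (hx.smul g⁻¹)
      rw [← ih] at this
      refine Forces.congr φ (fun n _ => ?_) this
      cases n with
      | zero =>
        change feq (Sym.act g (Sym.act g⁻¹ x)) x _
        rw [act_act_inv]
        exact feq_refl _ _
      | succ n => exact feq_refl _ _

theorem push_RE (φ : Fml) (v : ℕ → Nam P) : RE (fun x => Forces 𝓢 φ (push x v)) :=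
  ⟨fun x => Forces.reg φ _, fun x y p hxy h => Forces.congr φ (fun n _ => by
    cases n with
    | zero => exact hxy
    | succ n => exact feq_refl _ _) h⟩

/-- Membership characterises invariance. -/
theorem FixN.of_fmem {H : Subgroup G} {x : Nam P}
    (h : ∀ g ∈ H, ∀ z p, fmem (act g z) x (g • p) ↔ fmem z x p) : FixN H x := by
  intro g hg p
  refine feq_of_fmem fun z q _ => ?_
  have h1 := fmem_act g (act g⁻¹ z) x (g⁻¹ • q)
  rw [act_act_inv, smul_inv_smul] at h1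
  have h2 := h g hg (act g⁻¹ z) (g⁻¹ • q)
  rw [act_act_inv, smul_inv_smul] at h2
  rw [h1, h2]

theorem FixN.fmem_iff {H : Subgroup G} {x : Nam P} (h : FixN H x) {g : G} (hg : g ∈ H)
    (z : Nam P) (p : P) : fmem (act g z) x (g • p) ↔ fmem z x p := by
  rw [← fmem_act g z x p]
  exact ⟨fun h' => fmem_congr_right (feq_symm (h g hg _)) h', fun h' =>
    fmem_congr_right (h g hg _) h'⟩

/-- A small family of hereditarily symmetric names is contained in one. -/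
theorem exists_super {J : Type u} (e : J → Nam P) (he : ∀ j, HS 𝓢 (e j)) :
    ∃ c, HS 𝓢 c ∧ ∀ j p, fmem (e j) c p := by
  let c : Nam P := ⟨G × J, fun _ => ⊤, fun k => act k.1 (e k.2)⟩
  refine ⟨c, HS.of (fun k => (he k.2).smul k.1) ⟨⊤, 𝓢.top, fun g _ p => ?_⟩, fun j p => ?_⟩
  · refine feq_act_of_perm (x := c) g ((Equiv.mulLeft g).prodCongr (Equiv.refl J)) ?_ ?_ p
    · exact fun i p => ⟨fun _ => trivial, fun _ => trivial⟩
    · intro i p _
      change feq (act g (act i.1 (e i.2))) (act (g * i.1) (e i.2)) p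
      rw [act_mul]
      exact feq_refl _ _
  · have := fmem_of_wt (y := c) (j := ((1 : G), j)) (p := p) trivial
    change fmem (act (1 : G) (e j)) c p at this
    rwa [act_one] at this

/-- Forced separation for hereditarily symmetric names. -/
theorem HS.sep {a : Nam P} (ha : HS 𝓢 a) (S : Nam P → P → Prop) (hS : RE S)
    (hinv : ∃ H ∈ 𝓢.F, ∀ g ∈ H, ∀ z p, S (act g z) (g • p) ↔ S z p) :
    HS 𝓢 (Nam.sep a S hS.reg) := by
  refine HS.of (fun i => ha.el i) ?_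
  obtain ⟨H, hH, hHS⟩ := hinv
  obtain ⟨H', hH', hHa⟩ := ha.sym
  refine ⟨H ⊓ H', 𝓢.inter _ _ hH hH', FixN.of_fmem fun g hg z p => ?_⟩
  rw [fmem_sep hS.ext, fmem_sep hS.ext, hHS g hg.1, hHa.fmem_iff hg.2]

theorem exists_common (k : ℕ) (v : ℕ → Nam P) (hv : ∀ n, LD 𝓢 (v n)) (p : P) :
    ∃ q ≤ p, ∃ v' : ℕ → Nam P, (∀ n, HS 𝓢 (v' n)) ∧ ∀ n < k, feq (v n) (v' n) q := by
  induction k generalizing p with
  | zero => exact ⟨p, le_rfl, fun _ => Nam.empty, fun _ => HS.empty, fun n hn => absurd hn (by omega)⟩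
  | succ k ih =>
    obtain ⟨q, hq, v', hv', h⟩ := ih p
    obtain ⟨r, hr, y, hy, hy'⟩ := hv k q
    refine ⟨r, hr.trans hq, fun n => if n = k then y else v' n, fun n => ?_, fun n hn => ?_⟩
    · by_cases hn : n = k
      · simp [hn, hy]
      · simp [hn, hv' n]
    · by_cases hnk : n = k
      · subst hnk; simpa using hy'
      · simp only [hnk, if_false]
        exact feq_mono hr (h n (by omega))

theorem exists_fixAll (k : ℕ) (v : ℕ → Nam P) (hv : ∀ n, HS 𝓢 (v n)) :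
    ∃ H ∈ 𝓢.F, ∀ n < k, FixN H (v n) := by
  induction k with
  | zero => exact ⟨⊤, 𝓢.top, fun n hn => absurd hn (by omega)⟩
  | succ k ih =>
    obtain ⟨H, hH, h⟩ := ih
    obtain ⟨H', hH', h'⟩ := (hv k).sym
    refine ⟨H ⊓ H', 𝓢.inter _ _ hH hH', fun n hn => ?_⟩
    by_cases hnk : n = k
    · subst hnk; exact h'.mono inf_le_right
    · exact (h n (by omega)).mono inf_le_left

variable [Nonempty P]

theorem los (φ : Fml) : ∀ (v : ℕ → Nam P) (hv : ∀ n, LD 𝓢 (v n)),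
    Tr (Sat φ (fun n => cls (v n) (hv n))) (Forces 𝓢 φ v) := by
  induction φ with
  | mem i j => exact fun v hv => Tr.mem (hv i) (hv j)
  | eq i j => exact fun v hv => Tr.eq (hv i) (hv j)
  | neg φ ih => exact fun v hv => (ih v hv).not
  | conj φ ψ ih ih' => exact fun v hv => (ih v hv).and (ih' v hv)
  | all φ ih =>
    intro v hv
    refine Tr.all (T := fun x => Sat φ (push x fun n => cls (v n) (hv n))) ?_
      (push_RE φ v).reg (push_RE φ v).ext
    intro x hx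
    have h1 : ∀ n, LD 𝓢 (push x v n) := fun n => by
      cases n with
      | zero => exact hx
      | succ n => exact hv n
    refine (ih (push x v) h1).congr (iff_of_eq (congrArg _ ?_))
    funext n
    cases n <;> rfl

/-- Separation. -/
theorem ax_sep (φ : Fml) (v : ℕ → Mod P 𝓢) (a : Mod P 𝓢) : ∃ b : Mod P 𝓢, ∀ x : Mod P 𝓢,
    x ∈ b ↔ x ∈ a ∧ Sat φ (push x v) := by
  obtain ⟨a, ha, rfl⟩ := cls_surj a
  choose v' hv' hvv using fun n => cls_surj (v n)
  obtain rfl : v = fun n => cls (v' n) (hv' n) := funext hvv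
  have h0 : ∀ x (hx : LD 𝓢 x), Tr (Sat φ (push (cls x hx) fun n => cls (v' n) (hv' n)))
      (Forces 𝓢 φ (push x v')) := by
    intro x hx
    have h1 : ∀ n, LD 𝓢 (push x v' n) := fun n => by
      cases n with
      | zero => exact hx
      | succ n => exact hv' n
    refine (los φ (push x v') h1).congr (iff_of_eq (congrArg _ ?_))
    funext n
    cases n <;> rfl
  have hE : ∀ b : Nam P, RE (fun x p => ∀ q ≤ p, fmem x b q ↔
      (fmem x a q ∧ Forces 𝓢 φ (push x v') q)) := fun b =>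
    (RE.memL b).iff ((RE.memL a).and (push_RE φ v'))
  have hE' : RE (fun b p => ∀ x, HS 𝓢 x → ∀ q ≤ p, fmem x b q ↔
      (fmem x a q ∧ Forces 𝓢 φ (push x v') q)) :=
    RE.all fun x => (RE.memR x).iff (RE.const ((fmemReg x a).and (Forces.reg φ _)))
  refine (Tr.ex (S := fun b p => ∀ x, HS 𝓢 x → ∀ q ≤ p, fmem x b q ↔
      (fmem x a q ∧ Forces 𝓢 φ (push x v') q)) (fun b hb => Tr.all (fun x hx =>
      (Tr.mem hx hb).iffT ((Tr.mem hx ha).and (h0 x hx))) (hE b).reg (hE b).ext)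
      hE'.reg hE'.ext).of_dense fun p => ?_
  obtain ⟨q, hq, w, hw, hw'⟩ := exists_common (bd φ + 1) (push a v') (fun n => by
    cases n with
    | zero => exact ha
    | succ n => exact hv' n) p
  refine ⟨q, hq, DB.of (S := fun p => ∃ b, HS 𝓢 b ∧ ∀ x, HS 𝓢 x → ∀ q ≤ p, fmem x b q ↔
      (fmem x a q ∧ Forces 𝓢 φ (push x v') q)) ?_ ?_⟩
  · rintro p q hqp ⟨b, hb, h⟩
    exact ⟨b, hb, fun x hx r hr => h x hx r (hr.trans hqp)⟩
  obtain ⟨H, hH, hfix⟩ := exists_fixAll (bd φ + 1) w hw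
  have hRE := push_RE (𝓢 := 𝓢) φ (fun n => w (n + 1))
  refine ⟨Nam.sep (w 0) _ hRE.reg, HS.sep (hw 0) _ hRE ⟨H, hH, fun g hg z p => ?_⟩, ?_⟩
  · rw [← Forces_act φ g (push z fun n => w (n + 1)) p]
    constructor
    · refine Forces.congr φ fun n hn => ?_
      cases n with
      | zero => exact feq_refl _ _
      | succ n => exact feq_symm (hfix (n + 1) (by omega) g hg _)
    · refine Forces.congr φ fun n hn => ?_
      cases n with
      | zero => exact feq_refl _ _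
      | succ n => exact hfix (n + 1) (by omega) g hg _
  · intro x hx r hr
    rw [fmem_sep hRE.ext]
    refine and_congr ?_ ?_
    · exact fmem_congr_iff (feq_refl _ _) (feq_symm (feq_mono hr (hw' 0 (by omega))))
    · constructor
      · refine Forces.congr φ fun n hn => ?_
        cases n with
        | zero => exact feq_refl _ _
        | succ n => exact feq_symm (feq_mono hr (hw' (n + 1) (by omega)))
      · refine Forces.congr φ fun n hn => ?_
        cases n with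
        | zero => exact feq_refl _ _
        | succ n => exact feq_mono hr (hw' (n + 1) (by omega))

/-! ### the other axioms -/

omit [Nonempty P] in
/-- Extensionality for hereditarily symmetric names. -/
theorem feq_of_fmem_HS {x y : Nam P} {p : P} (hx : HS 𝓢 x) (hy : HS 𝓢 y)
    (h : ∀ z, HS 𝓢 z → ∀ q ≤ p, fmem z x q ↔ fmem z y q) : feq x y p := by
  rw [feq_iff]
  constructor
  · intro i q hq hqi
    obtain ⟨r, hr, j, h1, h2⟩ := (h (x.el i) (hx.el i) q hq).1 (fmem_of_wt hqi) q le_rfl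
    exact ⟨r, hr, j, h1, h2⟩
  · intro j q hq hqj
    obtain ⟨r, hr, i, h1, h2⟩ := (h (y.el j) (hy.el j) q hq).2 (fmem_of_wt hqj) q le_rfl
    exact ⟨r, hr, i, h1, feq_symm h2⟩

theorem ax_ext (a b : Mod P 𝓢) (h : ∀ x : Mod P 𝓢, x ∈ a ↔ x ∈ b) : a = b := by
  obtain ⟨a, ha, rfl⟩ := cls_surj a
  obtain ⟨b, hb, rfl⟩ := cls_surj b
  have hT := (Tr.all (T := fun x => x ∈ cls a ha ↔ x ∈ cls b hb) (fun x hx =>
    (Tr.mem hx ha).iffT (Tr.mem hx hb)) ((RE.memL a).iff (RE.memL b)).reg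
    ((RE.memL a).iff (RE.memL b)).ext).imp (Tr.eq ha hb)
  refine hT.of_dense (fun p => ?_) h
  obtain ⟨q, hq, w, hw, hw'⟩ := exists_common (𝓢 := 𝓢) 2 (push a (push b fun _ => Nam.empty))
    (fun n => match n with
      | 0 => ha
      | 1 => hb
      | n + 2 => HS.empty.ld) p
  refine ⟨q, hq, fun r hr h => ?_⟩
  have h0 : feq a (w 0) q := hw' 0 (by omega)
  have h1 : feq b (w 1) q := hw' 1 (by omega)
  have h2 : feq (w 0) (w 1) r := by
    refine feq_of_fmem_HS (hw 0) (hw 1) fun z hz s hs => ?_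
    have hsq : s ≤ q := hs.trans hr
    rw [← fmem_congr_iff (feq_refl z s) (feq_mono hsq h0),
      ← fmem_congr_iff (feq_refl z s) (feq_mono hsq h1)]
    exact h z hz s hs
  exact feq_trans (feq_mono hr h0) (feq_trans h2 (feq_symm (feq_mono hr h1)))

theorem ax_found (a : Mod P 𝓢) (h : ∃ x : Mod P 𝓢, x ∈ a) :
    ∃ x : Mod P 𝓢, x ∈ a ∧ ∀ y : Mod P 𝓢, y ∈ x → y ∉ a := by
  obtain ⟨a, ha, rfl⟩ := cls_surj a
  have hR1 : ∀ x : Nam P, RE (fun y p => ∀ q ≤ p, fmem y x q → ∀ r ≤ q, ¬ fmem y a r) :=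
    fun x => (RE.memL x).imp (RE.memL a).not
  have hR2 : RE (fun x p => fmem x a p ∧ ∀ y, HS 𝓢 y → ∀ q ≤ p, fmem y x q →
      ∀ r ≤ q, ¬ fmem y a r) :=
    (RE.memL a).and (RE.all fun y => (RE.memR y).imp (RE.const (Reg.neg (fmemReg y a).mono)))
  have hT := (Tr.ex (fun x hx => Tr.mem hx ha) (RE.memL a).reg (RE.memL a).ext).imp
    (Tr.ex (T := fun x => x ∈ cls a ha ∧ ∀ y : Mod P 𝓢, y ∈ x → y ∉ cls a ha)
      (fun x hx => (Tr.mem hx ha).and (Tr.all (fun y hy =>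
      (Tr.mem hy hx).imp (Tr.mem hy ha).not) (hR1 x).reg (hR1 x).ext)) hR2.reg hR2.ext)
  refine hT.of_dense (fun p => ⟨p, le_rfl, fun q hq h1 r hr => ?_⟩) h
  by_contra hcon
  push Not at hcon
  have key : ∀ y : Nam P, HS 𝓢 y → ∀ s ≤ r, ¬ fmem y a s := by
    intro y hy
    induction hy with
    | mk ι w e he hsym ih =>
      intro s hs hya
      obtain ⟨z, hz, t, ht, h2, t', ht', h3⟩ := hcon s hs _ (HS.mk ι w e he hsym) hya
      obtain ⟨t2, ht2, j, -, h4⟩ := h2 t' ht'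
      exact ih j t2 ((ht2.trans (ht'.trans ht)).trans hs) (fmem_congr_left h4 (fmem_mono ht2 h3))
  obtain ⟨s, hs, y, hy, hya⟩ := h1 r hr
  exact key y hy s hs hya

theorem ax_pair (a b : Mod P 𝓢) : ∃ c : Mod P 𝓢, ∀ x : Mod P 𝓢, x ∈ c ↔ x = a ∨ x = b := by
  obtain ⟨c, hc⟩ : ∃ c : Mod P 𝓢, a ∈ c ∧ b ∈ c := by
    obtain ⟨a, ha, rfl⟩ := cls_surj a
    obtain ⟨b, hb, rfl⟩ := cls_surj b
    have hR : RE (fun c p => fmem a c p ∧ fmem b c p) := (RE.memR a).and (RE.memR b)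
    refine (Tr.ex (fun c hc => (Tr.mem ha hc).and (Tr.mem hb hc)) hR.reg hR.ext).of_dense
      fun p => ?_
    obtain ⟨q, hq, w, hw, hw'⟩ := exists_common (𝓢 := 𝓢) 2 (push a (push b fun _ => Nam.empty))
      (fun n => match n with
        | 0 => ha
        | 1 => hb
        | n + 2 => HS.empty.ld) p
    obtain ⟨c, hc, hc'⟩ := exists_super (𝓢 := 𝓢) (J := ULift.{u} Bool)
      (fun b => if b.down then w 0 else w 1) (fun b => by cases b.down <;> simp [hw])
    refine ⟨q, hq, DB.of (S := fun q => ∃ c, HS 𝓢 c ∧ fmem a c q ∧ fmem b c q) ?_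
      ⟨c, hc, ?_, ?_⟩⟩
    · rintro p q hqp ⟨c, hc, h1, h2⟩
      exact ⟨c, hc, fmem_mono hqp h1, fmem_mono hqp h2⟩
    · exact fmem_congr_left (feq_symm (hw' 0 (by omega))) (hc' ⟨true⟩ q)
    · exact fmem_congr_left (feq_symm (hw' 1 (by omega))) (hc' ⟨false⟩ q)
  obtain ⟨d, hd⟩ := ax_sep (Fml.neg (Fml.conj (Fml.neg (Fml.eq 0 1)) (Fml.neg (Fml.eq 0 2))))
    (push a (push b fun _ => a)) c
  refine ⟨d, fun x => ?_⟩
  rw [hd]
  change x ∈ c ∧ ¬ (¬ x = a ∧ ¬ x = b) ↔ _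
  constructor
  · rintro ⟨-, h⟩
    tauto
  · intro h
    refine ⟨?_, by tauto⟩
    rcases h with rfl | rfl
    · exact hc.1
    · exact hc.2

theorem ax_union (a : Mod P 𝓢) : ∃ b : Mod P 𝓢, ∀ x : Mod P 𝓢, x ∈ b ↔ ∃ y : Mod P 𝓢,
    y ∈ a ∧ x ∈ y := by
  obtain ⟨c, hc⟩ : ∃ c : Mod P 𝓢, ∀ y : Mod P 𝓢, y ∈ a → ∀ x : Mod P 𝓢, x ∈ y → x ∈ c := by
    obtain ⟨a, ha, rfl⟩ := cls_surj a
    have hR1 : ∀ c y : Nam P, RE (fun x p => ∀ q ≤ p, fmem x y q → fmem x c q) :=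
      fun c y => (RE.memL y).imp (RE.memL c)
    have hR2 : ∀ c : Nam P, RE (fun y p => ∀ q ≤ p, fmem y a q → ∀ x, HS 𝓢 x → ∀ r ≤ q,
        fmem x y r → fmem x c r) := fun c =>
      (RE.memL a).imp (RE.all fun x => (RE.memR x).imp (RE.const (fmemReg x c)))
    have hR3 : RE (fun c p => ∀ y, HS 𝓢 y → ∀ q ≤ p, fmem y a q → ∀ x, HS 𝓢 x → ∀ r ≤ q,
        fmem x y r → fmem x c r) :=
      RE.all fun y => (RE.const (fmemReg y a)).imp (RE.all fun x =>
        (RE.const (fmemReg x y)).imp (RE.memR x))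
    refine (Tr.ex (fun c hc => Tr.all (fun y hy => (Tr.mem hy ha).imp (Tr.all (fun x hx =>
      (Tr.mem hx hy).imp (Tr.mem hx hc)) (hR1 c y).reg (hR1 c y).ext)) (hR2 c).reg (hR2 c).ext)
      hR3.reg hR3.ext).of_dense fun p => ?_
    obtain ⟨q, hq, a', ha', haa⟩ := ha p
    obtain ⟨c, hc, hc'⟩ := exists_super (𝓢 := 𝓢) (J := Σ i : a'.idx, (a'.el i).idx)
      (fun s => (a'.el s.1).el s.2) (fun s => (ha'.el s.1).el s.2)
    refine ⟨q, hq, fun r hr => ⟨r, le_rfl, c, hc, ?_⟩⟩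
    intro y _ s hs hya x _ t ht hxy
    refine (fmemReg x c).reg fun t1 ht1 => ?_
    obtain ⟨t2, ht2, i, -, h2⟩ := fmem_congr_right (feq_mono (ht1.trans (ht.trans (hs.trans hr)))
      haa) (fmem_mono (ht1.trans ht) hya) t1 le_rfl
    obtain ⟨t3, ht3, k, -, h4⟩ := fmem_congr_right h2 (fmem_mono (ht2.trans ht1) hxy) t2 le_rfl
    exact ⟨t3, ht3.trans ht2, fmem_congr_left (feq_symm h4) (hc' ⟨i, k⟩ t3)⟩
  obtain ⟨d, hd⟩ := ax_sep (Fml.neg (Fml.all (Fml.neg (Fml.conj (Fml.mem 0 2) (Fml.mem 1 0)))))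
    (fun _ => a) c
  refine ⟨d, fun x => ?_⟩
  rw [hd]
  change x ∈ c ∧ ¬ (∀ y, ¬ (y ∈ a ∧ x ∈ y)) ↔ _
  push Not
  exact ⟨fun h => h.2, fun h => ⟨by obtain ⟨y, hy, hx⟩ := h; exact hc y hy x hx, h⟩⟩

theorem ax_pow (a : Mod P 𝓢) : ∃ b : Mod P 𝓢, ∀ x : Mod P 𝓢, x ∈ b ↔
    ∀ y : Mod P 𝓢, y ∈ x → y ∈ a := by
  obtain ⟨c, hc⟩ : ∃ c : Mod P 𝓢, ∀ x : Mod P 𝓢, (∀ y : Mod P 𝓢, y ∈ x → y ∈ a) → x ∈ c := by
    obtain ⟨a, ha, rfl⟩ := cls_surj a
    have hR1 : ∀ x : Nam P, RE (fun y p => ∀ q ≤ p, fmem y x q → fmem y a q) :=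
      fun x => (RE.memL x).imp (RE.memL a)
    have hR2 : ∀ c : Nam P, RE (fun x p => ∀ q ≤ p, (∀ y, HS 𝓢 y → ∀ r ≤ q, fmem y x r →
        fmem y a r) → fmem x c q) := fun c =>
      (RE.all fun y => (RE.memR y).imp (RE.const (fmemReg y a))).imp (RE.memL c)
    have hR3 : RE (fun c p => ∀ x, HS 𝓢 x → ∀ q ≤ p, (∀ y, HS 𝓢 y → ∀ r ≤ q, fmem y x r →
        fmem y a r) → fmem x c q) :=
      RE.all fun x => (RE.const (Reg.allHS fun y => Reg.imp (fmemReg y x).mono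
        (fmemReg y a))).imp (RE.memR x)
    refine (Tr.ex (fun c hc => Tr.all (fun x hx => (Tr.all (fun y hy => (Tr.mem hy hx).imp
      (Tr.mem hy ha)) (hR1 x).reg (hR1 x).ext).imp (Tr.mem hx hc)) (hR2 c).reg (hR2 c).ext)
      hR3.reg hR3.ext).of_dense fun p => ?_
    obtain ⟨q, hq, a', ha', haa⟩ := ha p
    obtain ⟨c, hc, hc'⟩ := exists_super (𝓢 := 𝓢)
      (J := {χ : a'.idx → LowerSet P // HS 𝓢 (⟨a'.idx, fun i => a'.wt i ⊓ χ i, a'.el⟩ : Nam P)})
      (fun χ => ⟨a'.idx, fun i => a'.wt i ⊓ χ.1 i, a'.el⟩) (fun χ => χ.2)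
    refine ⟨q, hq, fun r hr => ⟨r, le_rfl, c, hc, ?_⟩⟩
    intro x hx s hs hxa
    obtain ⟨H, hH, hHx⟩ := hx.sym
    have hsep : HS 𝓢 (Nam.sep a' (fun z => fmem z x) (RE.memL x).reg) :=
      HS.sep ha' _ (RE.memL x) ⟨H, hH, fun g hg z p => hHx.fmem_iff hg z p⟩
    have h1 : feq x (Nam.sep a' (fun z => fmem z x) (RE.memL x).reg) s := by
      refine feq_of_fmem_HS hx hsep fun z hz t ht => ?_
      rw [fmem_sep (RE.memL x).ext]
      refine ⟨fun h => ⟨?_, h⟩, fun h => h.2⟩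
      exact fmem_congr_right (feq_mono (ht.trans (hs.trans hr)) haa) (hxa z hz t ht h)
    exact fmem_congr_left (feq_symm h1) (hc' ⟨_, hsep⟩ s)
  obtain ⟨d, hd⟩ := ax_sep (Fml.all (Fml.neg (Fml.conj (Fml.mem 0 1) (Fml.neg (Fml.mem 0 2)))))
    (fun _ => a) c
  refine ⟨d, fun x => ?_⟩
  rw [hd]
  change x ∈ c ∧ (∀ y, ¬ (y ∈ x ∧ ¬ y ∈ a)) ↔ _
  have h1 : (∀ y : Mod P 𝓢, ¬ (y ∈ x ∧ ¬ y ∈ a)) ↔ ∀ y : Mod P 𝓢, y ∈ x → y ∈ a :=
    forall_congr' fun y => by tauto
  rw [h1]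
  exact ⟨fun h => h.2, fun h => ⟨hc x h, h⟩⟩

theorem ax_repl (φ : Fml) (v : ℕ → Mod P 𝓢) (a : Mod P 𝓢) :
    ∃ b : Mod P 𝓢, ∀ x : Mod P 𝓢, x ∈ a → (∃ y : Mod P 𝓢, Sat φ (push x (push y v))) →
      ∃ y : Mod P 𝓢, y ∈ b ∧ Sat φ (push x (push y v)) := by
  classical
  obtain ⟨a, ha, rfl⟩ := cls_surj a
  choose v' hv' hvv using fun n => cls_surj (v n)
  obtain rfl : v = fun n => cls (v' n) (hv' n) := funext hvv
  have h0 : ∀ x (hx : LD 𝓢 x) y (hy : LD 𝓢 y), Tr (Sat φ (push (cls x hx) (push (cls y hy)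
      fun n => cls (v' n) (hv' n)))) (Forces 𝓢 φ (push x (push y v'))) := by
    intro x hx y hy
    have h1 : ∀ n, LD 𝓢 (push x (push y v') n) := fun n => match n with
      | 0 => hx
      | 1 => hy
      | n + 2 => hv' n
    refine (los φ (push x (push y v')) h1).congr (iff_of_eq (congrArg _ ?_))
    funext n
    match n with
    | 0 => rfl
    | 1 => rfl
    | n + 2 => rfl
  have hRx : ∀ y : Nam P, RE (fun x => Forces 𝓢 φ (push x (push y v'))) := fun y => push_RE φ _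
  have hRy : ∀ x : Nam P, RE (fun y => Forces 𝓢 φ (push x (push y v'))) := fun x =>
    ⟨fun y => Forces.reg φ _, fun y z p hyz h => Forces.congr (v := push x (push y v'))
      (v' := push x (push z v')) φ (fun n _ => match n with
      | 0 => feq_refl _ _
      | 1 => hyz
      | n + 2 => feq_refl _ _) h⟩
  have hR1 : ∀ b : Nam P, RE (fun x p => ∀ q ≤ p, fmem x a q → ∀ r ≤ q,
      DB (fun p => ∃ y, HS 𝓢 y ∧ Forces 𝓢 φ (push x (push y v')) p) r →
      DB (fun p => ∃ y, HS 𝓢 y ∧ (fmem y b p ∧ Forces 𝓢 φ (push x (push y v')) p)) r) :=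
    fun b => (RE.memL a).imp ((RE.ex fun y => hRx y).imp
      (RE.ex fun y => (RE.const (fmemReg y b)).and (hRx y)))
  have hR2 : RE (fun b p => ∀ x, HS 𝓢 x → ∀ q ≤ p, fmem x a q → ∀ r ≤ q,
      DB (fun p => ∃ y, HS 𝓢 y ∧ Forces 𝓢 φ (push x (push y v')) p) r →
      DB (fun p => ∃ y, HS 𝓢 y ∧ (fmem y b p ∧ Forces 𝓢 φ (push x (push y v')) p)) r) :=
    RE.all fun x => (RE.const (fmemReg x a)).imp ((RE.const (DB.reg' _)).imp
      (RE.ex fun y => (RE.memR y).and (RE.const (Forces.reg φ _))))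
  refine (Tr.ex (fun b hb => Tr.all (fun x hx => (Tr.mem hx ha).imp ((Tr.ex (fun y hy =>
    h0 x hx y hy) (hRy x).reg (hRy x).ext).imp (Tr.ex (fun y hy => (Tr.mem hy hb).and
    (h0 x hx y hy)) ((RE.memL b).and (hRy x)).reg ((RE.memL b).and (hRy x)).ext)))
    (hR1 b).reg (hR1 b).ext) hR2.reg hR2.ext).of_dense fun p => ?_
  obtain ⟨q, hq, w, hw, hw'⟩ := exists_common (𝓢 := 𝓢) (bd φ + 1) (push a v') (fun n => by
    cases n with
    | zero => exact ha
    | succ n => exact hv' n) p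
  have hwit : ∀ s : (w 0).idx × P, ∃ y, HS 𝓢 y ∧ ((∃ z, HS 𝓢 z ∧
      Forces 𝓢 φ (push ((w 0).el s.1) (push z fun n => w (n + 1))) s.2) →
      Forces 𝓢 φ (push ((w 0).el s.1) (push y fun n => w (n + 1))) s.2) := by
    intro s
    by_cases h : ∃ z, HS 𝓢 z ∧ Forces 𝓢 φ (push ((w 0).el s.1) (push z fun n => w (n + 1))) s.2
    · obtain ⟨z, hz, h⟩ := h
      exact ⟨z, hz, fun _ => h⟩
    · exact ⟨Nam.empty, HS.empty, fun h' => absurd h' h⟩
  choose e he he' using hwit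
  obtain ⟨c, hc, hc'⟩ := exists_super (𝓢 := 𝓢) e he
  refine ⟨q, hq, fun r hr => ⟨r, le_rfl, c, hc, ?_⟩⟩
  intro x hx s hs hxa t ht hex t1 ht1
  obtain ⟨t2, ht2, y, hy, hF⟩ := hex t1 ht1
  have ht2q : t2 ≤ q := (ht2.trans (ht1.trans (ht.trans hs))).trans hr
  obtain ⟨t3, ht3, i, -, h3⟩ := fmem_congr_right (feq_mono ht2q (hw' 0 (by omega)))
    (fmem_mono (ht2.trans (ht1.trans ht)) hxa) t2 le_rfl
  have h4 : ∀ z, ∀ n < bd φ, feq (push x (push z v') n)
      (push ((w 0).el i) (push z fun n => w (n + 1)) n) t3 := fun z n hn => match n with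
    | 0 => h3
    | 1 => feq_refl _ _
    | n + 2 => feq_mono (ht3.trans ht2q) (hw' (n + 1) (by omega))
  have h5 := he' (i, t3) ⟨y, hy, Forces.congr φ (h4 y) ((Forces.reg φ _).mono ht3 hF)⟩
  refine ⟨t3, ht3.trans ht2, e (i, t3), he _, hc' _ _, ?_⟩
  exact Forces.congr φ (fun n hn => feq_symm (h4 _ n hn)) h5

/-! ### infinity -/

omit [Nonempty P] in
theorem DB_smul (g : G) (S : P → Prop) (p : P) : DB S (g • p) ↔ DB (fun q => S (g • q)) p := by
  constructor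
  · intro h q hq
    obtain ⟨r, hr, h'⟩ := h (g • q) (smul_le' g hq)
    refine ⟨g⁻¹ • r, ?_, ?_⟩
    · rw [← smul_le_iff g, smul_inv_smul]; exact hr
    · change S (g • g⁻¹ • r)
      rw [smul_inv_smul]; exact h'
  · intro h q hq
    obtain ⟨r, hr, h'⟩ := h (g⁻¹ • q) (by rw [← smul_le_iff g, smul_inv_smul]; exact hq)
    exact ⟨g • r, by rw [smul_le_iff_le_inv]; exact hr, h'⟩

omit [Nonempty P] in
theorem FixN.feq_iff {H : Subgroup G} {x : Nam P} (h : FixN H x) {g : G} (hg : g ∈ H)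
    (z : Nam P) (p : P) : feq (act g z) x (g • p) ↔ feq z x p := by
  rw [← feq_act g z x p]
  exact ⟨fun h' => feq_trans h' (feq_symm (h g hg _)), fun h' =>
    feq_trans h' (h g hg _)⟩

omit [Nonempty P] in
theorem FixN.succ {H : Subgroup G} {x : Nam P} (h : FixN H x) : FixN H (Nam.succ x) := by
  refine FixN.of_fmem fun g hg z p => ?_
  rw [fmem_succ, fmem_succ, DB_smul]
  simp only [h.fmem_iff hg, h.feq_iff hg]

omit [Nonempty P] in
theorem HS.succ {x : Nam P} (h : HS 𝓢 x) : HS 𝓢 (Nam.succ x) := by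
  refine HS.of (fun o => ?_) ?_
  · cases o with
    | none => exact h
    | some i => exact h.el i
  · obtain ⟨H, hH, hx⟩ := h.sym
    exact ⟨H, hH, hx.succ⟩

omit [Nonempty P] in
theorem FixN.empty (H : Subgroup G) : FixN H (Nam.empty : Nam P) :=
  fun g _ p => feq_act_empty g p

omit [Nonempty P] in
theorem FixN.fin (H : Subgroup G) (n : ℕ) : FixN H (Nam.fin n : Nam P) := by
  induction n with
  | zero => exact FixN.empty H
  | succ n ih => exact ih.succ

omit [Nonempty P] in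
theorem HS.fin (n : ℕ) : HS 𝓢 (Nam.fin n : Nam P) := by
  induction n with
  | zero => exact HS.empty
  | succ n ih => exact ih.succ

omit [Nonempty P] in
theorem FixN.omega (H : Subgroup G) : FixN H (Nam.omega : Nam P) := by
  intro g hg p
  refine feq_act_of_perm (x := (Nam.omega : Nam P)) g (Equiv.refl _)
    (fun i p => ⟨fun _ => trivial, fun _ => trivial⟩) (fun i p _ => ?_) p
  exact FixN.fin H i.down g hg p

omit [Nonempty P] in
theorem HS.omega : HS 𝓢 (Nam.omega : Nam P) :=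
  HS.of (fun n => HS.fin n.down) ⟨⊤, 𝓢.top, FixN.omega ⊤⟩

omit [Nonempty P] in
theorem LD.succ {x : Nam P} (h : LD 𝓢 x) : LD 𝓢 (Nam.succ x) := by
  intro p
  obtain ⟨q, hq, y, hy, hxy⟩ := h p
  exact ⟨q, hq, Nam.succ y, hy.succ, feq_succ hxy⟩

theorem mem_succ {x : Nam P} (hx : LD 𝓢 x) (z : Mod P 𝓢) :
    z ∈ cls (Nam.succ x) hx.succ ↔ z ∈ cls x hx ∨ z = cls x hx := by
  obtain ⟨z, hz, rfl⟩ := cls_surj z
  refine ((Tr.mem hz hx.succ).iffT ((Tr.mem hz hx).or (Tr.eq hz hx))).of_dense fun p =>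
    ⟨p, le_rfl, fun q _ => fmem_succ⟩

theorem not_mem_empty (z : Mod P 𝓢) : ¬ z ∈ cls (Nam.empty : Nam P) HS.empty.ld := by
  obtain ⟨z, hz, rfl⟩ := cls_surj z
  rw [mem_cls]
  intro h
  exact not_ev_false (P := P) (h.mono fun p hp => not_fmem_empty z p hp)

theorem ax_inf : ∃ a : Mod P 𝓢, (∃ e : Mod P 𝓢, e ∈ a ∧ ∀ x : Mod P 𝓢, x ∉ e) ∧
    ∀ x : Mod P 𝓢, x ∈ a → ∃ y : Mod P 𝓢, y ∈ a ∧ ∀ z : Mod P 𝓢, z ∈ y ↔ z ∈ x ∨ z = x := by
  refine ⟨cls Nam.omega HS.omega.ld, ⟨cls Nam.empty HS.empty.ld, ?_, not_mem_empty⟩, ?_⟩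
  · exact Ev.of_forall fun p => infinity_forced.1 p
  · intro x hx
    obtain ⟨x, hx', rfl⟩ := cls_surj x
    refine ⟨cls (Nam.succ x) hx'.succ, ?_, mem_succ hx'⟩
    exact Ev.mono hx fun p hp => infinity_forced.2 x p hp

/-- The symmetric model is a model of ZF. -/
theorem isModelOfZF : IsModelOfZF (Mod P 𝓢) where
  ext := ax_ext
  foundation := ax_found
  pairing := ax_pair
  union := ax_union
  powerset := ax_pow
  infinity := ax_inf
  separation := ax_sep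
  replacement := fun φ v a h => by
    obtain ⟨b, hb⟩ := ax_repl φ v a
    exact ⟨b, fun x hx => hb x hx (h x hx).exists⟩

end Pool.Agent.Sym
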