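import Pool.Agent.Lib.MP_1454e8_lc.S3ZF
import Pool.Agent.Lib.MP_f5c99b_lc.Core

/-!
# Names for ordered pairs and natural numbers, and their meaning in the model
-/

set_option autoImplicit false

namespace Pool.Agent.Sym

universe u

open Pool.Agent.Lib.MP_f5c99b_lc

section names

variable {P : Type u} [Preorder P]

/-- The ordered pair. -/
def Nam.opair (x y : Nam P) : Nam P := Nam.pair (Nam.pair x x) (Nam.pair x y)

theorem feq_pair {x x' y y' : Nam P} {p : P} (hx : feq x x' p) (hy : feq y y' p) :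
    feq (Nam.pair x y) (Nam.pair x' y') p := by
  refine feq_of_fmem fun z q hq => ?_
  rw [fmem_pair, fmem_pair]
  constructor
  · refine DB.imp fun r hr h => ?_
    have hrp := hr.trans hq
    exact h.imp (fun h => feq_trans h (feq_mono hrp hx)) (fun h => feq_trans h (feq_mono hrp hy))
  · refine DB.imp fun r hr h => ?_
    have hrp := hr.trans hq
    exact h.imp (fun h => feq_trans h (feq_symm (feq_mono hrp hx)))
      (fun h => feq_trans h (feq_symm (feq_mono hrp hy)))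

theorem feq_opair {x x' y y' : Nam P} {p : P} (hx : feq x x' p) (hy : feq y y' p) :
    feq (Nam.opair x y) (Nam.opair x' y') p :=
  feq_pair (feq_pair hx hx) (feq_pair hx hy)

theorem fmem_pair_left (x y : Nam P) (p : P) : fmem x (Nam.pair x y) p :=
  fmem_pair.2 fun q _ => ⟨q, le_rfl, Or.inl (feq_refl _ _)⟩

theorem fmem_pair_right (x y : Nam P) (p : P) : fmem y (Nam.pair x y) p :=
  fmem_pair.2 fun q _ => ⟨q, le_rfl, Or.inr (feq_refl _ _)⟩

theorem feq_of_fmem_pair_self {x y : Nam P} {p : P} (h : fmem x (Nam.pair y y) p) : feq x y p := by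
  refine feq_reg fun q hq => ?_
  obtain ⟨r, hr, h⟩ := fmem_pair.1 h q hq
  exact ⟨r, hr, h.elim id id⟩

theorem feq_of_opair {x x' y y' : Nam P} {p : P}
    (h : feq (Nam.opair x y) (Nam.opair x' y') p) : feq x x' p ∧ feq y y' p := by
  have h1 : feq x x' p := by
    refine feq_reg fun q hq => ?_
    obtain ⟨r, hr, h1⟩ := fmem_pair.1 (fmem_congr_right h (fmem_pair_left (Nam.pair x x)
      (Nam.pair x y) p)) q hq
    refine ⟨r, hr, ?_⟩
    rcases h1 with h1 | h1
    · exact feq_of_fmem_pair_self (fmem_congr_right h1 (fmem_pair_left x x r))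
    · exact feq_symm (feq_of_fmem_pair_self (fmem_congr_right (feq_symm h1)
        (fmem_pair_left x' y' r)))
  refine ⟨h1, ?_⟩
  have h2 : feq (Nam.opair x y) (Nam.opair x y') p :=
    feq_trans h (feq_opair (feq_symm h1) (feq_refl _ _))
  refine feq_reg fun q hq => ?_
  obtain ⟨r, hr, h3⟩ := fmem_pair.1 (fmem_congr_right h2 (fmem_pair_right (Nam.pair x x)
    (Nam.pair x y) p)) q hq
  rcases h3 with h3 | h3
  · have h4 : feq y x r := feq_of_fmem_pair_self (fmem_congr_right h3 (fmem_pair_right x y r))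
    have h5 : fmem (Nam.pair x y') (Nam.opair x x) r :=
      fmem_congr_right (feq_trans (feq_symm (feq_mono (hr.trans hq) h2))
        (feq_opair (feq_refl x r) h4)) (fmem_pair_right _ _ r)
    have h6 : feq (Nam.pair x y') (Nam.pair x x) r := feq_of_fmem_pair_self h5
    have h7 : feq y' x r := feq_of_fmem_pair_self (fmem_congr_right h6 (fmem_pair_right x y' r))
    exact ⟨r, hr, feq_trans h4 (feq_symm h7)⟩
  · obtain ⟨s, hs, h4⟩ := fmem_pair.1 (fmem_congr_right h3 (fmem_pair_right x y r)) r le_rfl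
    rcases h4 with h4 | h4
    · obtain ⟨t, ht, h5⟩ := fmem_pair.1 (fmem_congr_right (feq_symm (feq_mono hs h3))
        (fmem_pair_right x y' s)) s le_rfl
      refine ⟨t, ht.trans (hs.trans hr), ?_⟩
      rcases h5 with h5 | h5
      · exact feq_trans (feq_mono ht h4) (feq_symm h5)
      · exact feq_symm h5
    · exact ⟨s, hs.trans hr, h4⟩

theorem not_fmem_self (x : Nam P) (p : P) : ¬ fmem x x p := by
  induction x generalizing p with
  | mk ι w x ih =>
    intro h
    obtain ⟨r, hr, j, -, h2⟩ := h p le_rfl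
    exact ih j r (fmem_congr_iff h2 h2 |>.1 (fmem_congr_right (feq_refl _ _) (by
      have h3 := fmem_mono hr h
      exact h3)))

theorem fmem_fin {z : Nam P} {n : ℕ} {p : P} :
    fmem z (Nam.fin n) p ↔ DB (fun q => ∃ j < n, feq z (Nam.fin j) q) p := by
  induction n generalizing p with
  | zero =>
    refine ⟨fun h => absurd h (not_fmem_empty z p), fun h => ?_⟩
    obtain ⟨r, hr, j, hj, -⟩ := h p le_rfl
    omega
  | succ n ih =>
    change fmem z (Nam.succ (Nam.fin n)) p ↔ _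
    rw [fmem_succ]
    constructor
    · intro h q hq
      obtain ⟨r, hr, h1 | h1⟩ := h q hq
      · obtain ⟨s, hs, j, hj, h2⟩ := ih.1 h1 r le_rfl
        exact ⟨s, hs.trans hr, j, by omega, h2⟩
      · exact ⟨r, hr, n, by omega, h1⟩
    · intro h q hq
      obtain ⟨r, hr, j, hj, h1⟩ := h q hq
      refine ⟨r, hr, ?_⟩
      rcases Nat.lt_succ_iff_lt_or_eq.1 hj with hj | rfl
      · exact Or.inl (ih.2 (DB.of (S := fun q => ∃ j < n, feq z (Nam.fin j) q)
          (fun hq ⟨j, hj, h⟩ => ⟨j, hj, feq_mono hq h⟩) ⟨j, hj, h1⟩))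
      · exact Or.inr h1

theorem fmem_fin_fin {n m : ℕ} (h : n < m) (p : P) : fmem (Nam.fin n) (Nam.fin m : Nam P) p :=
  fmem_fin.2 fun q _ => ⟨q, le_rfl, n, h, feq_refl _ _⟩

theorem fin_inj {n m : ℕ} {p : P} (h : feq (Nam.fin n : Nam P) (Nam.fin m) p) : n = m := by
  rcases lt_trichotomy n m with h1 | h1 | h1
  · exact absurd (fmem_congr_right (feq_symm h) (fmem_fin_fin h1 p)) (not_fmem_self _ _)
  · exact h1
  · exact absurd (fmem_congr_right h (fmem_fin_fin h1 p)) (not_fmem_self _ _)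

theorem fmem_omega {z : Nam P} {p : P} :
    fmem z Nam.omega p ↔ DB (fun q => ∃ n, feq z (Nam.fin n) q) p := by
  constructor
  · intro h q hq
    obtain ⟨r, hr, ⟨n⟩, -, h2⟩ := h q hq
    exact ⟨r, hr, n, h2⟩
  · intro h q hq
    obtain ⟨r, hr, n, h2⟩ := h q hq
    exact ⟨r, hr, ⟨n⟩, trivial, h2⟩

/-- Forced statements about a pair, as statements about its first entry. -/
theorem RE.opairL {S : Nam P → P → Prop} (h : RE S) (y : Nam P) :
    RE (fun x => S (Nam.opair x y)) :=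
  ⟨fun x => h.reg _, fun _ _ _ hx hp => h.ext _ _ _ (feq_opair hx (feq_refl _ _)) hp⟩

theorem RE.opairR {S : Nam P → P → Prop} (h : RE S) (x : Nam P) :
    RE (fun y => S (Nam.opair x y)) :=
  ⟨fun y => h.reg _, fun _ _ _ hy hp => h.ext _ _ _ (feq_opair (feq_refl _ _) hy) hp⟩

variable {G : Type u} [Group G] [OrdAct G P] {𝓢 : SymSys G}

theorem actL_top (g : G) : actL g (⊤ : LowerSet P) = ⊤ := by
  ext p
  exact ⟨fun _ => trivial, fun _ => trivial⟩

theorem act_pair (g : G) (x y : Nam P) :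
    act g (Nam.pair x y) = Nam.pair (act g x) (act g y) := by
  have h1 : (fun _ : ULift.{u} Bool => actL g (⊤ : LowerSet P)) = fun _ => ⊤ := by
    funext _
    exact actL_top g
  have h2 : (fun b : ULift.{u} Bool => act g (if b.down then x else y)) =
      fun b => if b.down then act g x else act g y := by
    funext b
    cases b.down <;> rfl
  change Nam.mk _ _ _ = Nam.mk _ _ _
  rw [h1, h2]

theorem act_opair (g : G) (x y : Nam P) :
    act g (Nam.opair x y) = Nam.opair (act g x) (act g y) := by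
  rw [Nam.opair, act_pair, act_pair, act_pair, Nam.opair]

theorem act_empty (g : G) : act g (Nam.empty : Nam P) = Nam.empty := by
  change Nam.mk _ _ _ = Nam.mk _ _ _
  congr 1
  · funext i; exact i.elim
  · funext i; exact i.elim

theorem act_succ (g : G) (x : Nam P) : act g (Nam.succ x) = Nam.succ (act g x) := by
  obtain ⟨ι, w, x⟩ := x
  change Nam.mk _ _ _ = Nam.mk _ _ _
  congr 1
  · funext o
    cases o with
    | none => exact actL_top g
    | some i => rfl
  · funext o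
    cases o with
    | none => rfl
    | some i => rfl

theorem act_fin (g : G) (n : ℕ) : act g (Nam.fin n : Nam P) = Nam.fin n := by
  induction n with
  | zero => exact act_empty g
  | succ n ih =>
    change act g (Nam.succ (Nam.fin n)) = Nam.succ (Nam.fin n)
    rw [act_succ, ih]

theorem FixN.pair {H : Subgroup G} {x y : Nam P} (hx : FixN H x) (hy : FixN H y) :
    FixN H (Nam.pair x y) := by
  intro g hg p
  rw [act_pair]
  exact feq_pair (hx g hg p) (hy g hg p)

theorem FixN.opair {H : Subgroup G} {x y : Nam P} (hx : FixN H x) (hy : FixN H y) :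
    FixN H (Nam.opair x y) := (hx.pair hx).pair (hx.pair hy)

theorem HS.pair {x y : Nam P} (hx : HS 𝓢 x) (hy : HS 𝓢 y) : HS 𝓢 (Nam.pair x y) := by
  refine HS.of (fun b => ?_) ?_
  · change HS 𝓢 (if b.down then x else y)
    split
    · exact hx
    · exact hy
  · obtain ⟨H, hH, h⟩ := hx.sym
    obtain ⟨H', hH', h'⟩ := hy.sym
    exact ⟨H ⊓ H', 𝓢.inter _ _ hH hH', (h.mono inf_le_left).pair (h'.mono inf_le_right)⟩

theorem HS.opair {x y : Nam P} (hx : HS 𝓢 x) (hy : HS 𝓢 y) : HS 𝓢 (Nam.opair x y) :=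
  (hx.pair hx).pair (hx.pair hy)

theorem LD.pair {x y : Nam P} (hx : LD 𝓢 x) (hy : LD 𝓢 y) : LD 𝓢 (Nam.pair x y) := by
  intro p
  obtain ⟨q, hq, x', hx', h1⟩ := hx p
  obtain ⟨r, hr, y', hy', h2⟩ := hy q
  exact ⟨r, hr.trans hq, _, hx'.pair hy', feq_pair (feq_mono hr h1) h2⟩

theorem LD.opair {x y : Nam P} (hx : LD 𝓢 x) (hy : LD 𝓢 y) : LD 𝓢 (Nam.opair x y) :=
  (hx.pair hx).pair (hx.pair hy)

theorem LD.fin (n : ℕ) : LD 𝓢 (Nam.fin n : Nam P) := (HS.fin n).ld

/-- Quantification over the forced natural numbers. -/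
theorem all_omega_iff {S : Nam P → P → Prop} (hS : RE S) (p : P) :
    (∀ x, HS 𝓢 x → ∀ q ≤ p, fmem x Nam.omega q → S x q) ↔ ∀ n, S (Nam.fin n) p := by
  constructor
  · intro h n
    exact h _ (HS.fin n) p le_rfl (fmem_omega_fin n p)
  · intro h x _ q hq hx
    refine (hS.reg x).reg fun r hr => ?_
    obtain ⟨s, hs, n, h1⟩ := fmem_omega.1 hx r hr
    exact ⟨s, hs, hS.ext _ _ _ (feq_symm h1)
      ((hS.reg _).mono (hs.trans (hr.trans hq)) (h n))⟩

theorem ex_omega_iff {S : Nam P → P → Prop} (hS : RE S) (p : P) :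
    DB (fun q => ∃ x, HS 𝓢 x ∧ fmem x Nam.omega q ∧ S x q) p ↔
      DB (fun q => ∃ n, S (Nam.fin n) q) p := by
  constructor
  · intro h q hq
    obtain ⟨r, hr, x, -, hx, hS'⟩ := h q hq
    obtain ⟨s, hs, n, h1⟩ := fmem_omega.1 hx r le_rfl
    exact ⟨s, hs.trans hr, n, hS.ext _ _ _ h1 ((hS.reg _).mono hs hS')⟩
  · intro h q hq
    obtain ⟨r, hr, n, hS'⟩ := h q hq
    exact ⟨r, hr, _, HS.fin n, fmem_omega_fin n r, hS'⟩

/-- Quantification over the elements of a forced natural number. -/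
theorem all_fin_iff {S : Nam P → P → Prop} (hS : RE S) (m : ℕ) (p : P) :
    (∀ x, HS 𝓢 x → ∀ q ≤ p, fmem x (Nam.fin m) q → S x q) ↔ ∀ n < m, S (Nam.fin n) p := by
  constructor
  · intro h n hn
    exact h _ (HS.fin n) p le_rfl (fmem_fin_fin hn p)
  · intro h x _ q hq hx
    refine (hS.reg x).reg fun r hr => ?_
    obtain ⟨s, hs, n, hn, h1⟩ := fmem_fin.1 hx r hr
    exact ⟨s, hs, hS.ext _ _ _ (feq_symm h1)
      ((hS.reg _).mono (hs.trans (hr.trans hq)) (h n hn))⟩

theorem ex_fin_iff {S : Nam P → P → Prop} (hS : RE S) (m : ℕ) (p : P) :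
    DB (fun q => ∃ x, HS 𝓢 x ∧ fmem x (Nam.fin m) q ∧ S x q) p ↔
      DB (fun q => ∃ n < m, S (Nam.fin n) q) p := by
  constructor
  · intro h q hq
    obtain ⟨r, hr, x, -, hx, hS'⟩ := h q hq
    obtain ⟨s, hs, n, hn, h1⟩ := fmem_fin.1 hx r le_rfl
    exact ⟨s, hs.trans hr, n, hn, hS.ext _ _ _ h1 ((hS.reg _).mono hs hS')⟩
  · intro h q hq
    obtain ⟨r, hr, n, hn, hS'⟩ := h q hq
    exact ⟨r, hr, _, HS.fin n, fmem_fin_fin hn r, hS'⟩

end names

/-! ### the meaning in the model -/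

variable {G P : Type u} [Group G] [Preorder P] [OrdAct G P] {𝓢 : SymSys G} [Nonempty P]

instance fact_isModelOfZF : Fact (IsModelOfZF (Mod P 𝓢)) := ⟨isModelOfZF⟩

theorem cls_pair {x y : Nam P} (hx : LD 𝓢 x) (hy : LD 𝓢 y) :
    cls (Nam.pair x y) (hx.pair hy) = upair (cls x hx) (cls y hy) := by
  refine Pool.Agent.Lib.MP_f5c99b_lc.ext fun z => ?_
  obtain ⟨z, hz, rfl⟩ := cls_surj z
  rw [mem_upair]
  exact ((Tr.mem hz (hx.pair hy)).iffT ((Tr.eq hz hx).or (Tr.eq hz hy))).of_dense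
    fun p => ⟨p, le_rfl, fun q _ => fmem_pair⟩

theorem cls_opair {x y : Nam P} (hx : LD 𝓢 x) (hy : LD 𝓢 y) :
    cls (Nam.opair x y) (hx.opair hy) = pr (cls x hx) (cls y hy) := by
  rw [pr, ← cls_pair hx hx, ← cls_pair hx hy, ← cls_pair (hx.pair hx) (hx.pair hy)]
  rfl

theorem cls_empty : cls (Nam.empty : Nam P) HS.empty.ld = (emp : Mod P 𝓢) :=
  Pool.Agent.Lib.MP_f5c99b_lc.ext fun z => iff_of_false (not_mem_empty z) (not_mem_emp z)

theorem cls_succ {x : Nam P} (hx : LD 𝓢 x) : cls (Nam.succ x) hx.succ = suc (cls x hx) :=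
  Pool.Agent.Lib.MP_f5c99b_lc.ext fun z => by rw [mem_suc, mem_succ hx z]

theorem cls_omega : cls (Nam.omega : Nam P) HS.omega.ld = omega (Mod P 𝓢) := by
  refine Pool.Agent.Lib.MP_f5c99b_lc.ext fun z => ?_
  rw [mem_omega]
  constructor
  · intro hz b hb
    obtain ⟨b, hb', rfl⟩ := cls_surj b
    have hT : Tr (((emp : Mod P 𝓢) ∈ cls b hb' ∧ ∀ x : Mod P 𝓢, x ∈ cls b hb' →
        suc x ∈ cls b hb') → ∀ z : Mod P 𝓢, z ∈ cls (Nam.omega : Nam P) HS.omega.ld →
          z ∈ cls b hb')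
        (fun p => ∀ q ≤ p, (fmem Nam.empty b q ∧ ∀ x, HS 𝓢 x → ∀ r ≤ q, fmem x b r →
          fmem (Nam.succ x) b r) → ∀ z, HS 𝓢 z → ∀ r ≤ q, fmem z Nam.omega r → fmem z b r) := by
      refine Tr.imp (Tr.and ?_ ?_) ?_
      · refine (Tr.mem (𝓢 := 𝓢) HS.empty.ld hb').congr ?_
        rw [cls_empty]
      · have hR : RE (fun x p => ∀ r ≤ p, fmem x b r → fmem (Nam.succ x) b r) :=
          (RE.memL b).imp ⟨fun x => fmemReg _ _, fun x y p hxy h =>
            fmem_congr_left (feq_succ hxy) h⟩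
        refine Tr.all (fun x hx => (Tr.mem hx hb').imp ?_) hR.reg hR.ext
        refine (Tr.mem hx.succ hb').congr ?_
        rw [cls_succ]
      · have hR : RE (fun x p => ∀ r ≤ p, fmem x Nam.omega r → fmem x b r) :=
          (RE.memL _).imp (RE.memL b)
        exact Tr.all (fun x hx => (Tr.mem hx HS.omega.ld).imp (Tr.mem hx hb')) hR.reg hR.ext
    refine hT.of_dense (fun p => ⟨p, le_rfl, ?_⟩) hb z hz
    rintro q - ⟨h1, h2⟩
    rw [all_omega_iff (RE.memL b)]
    intro n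
    induction n with
    | zero => exact h1
    | succ n ih => exact h2 _ (HS.fin n) q le_rfl ih
  · intro h
    refine h _ ⟨?_, ?_⟩
    · rw [← cls_empty]
      exact Ev.of_forall fun p => infinity_forced.1 p
    · intro x hx
      obtain ⟨x, hx', rfl⟩ := cls_surj x
      rw [← cls_succ]
      exact Ev.mono hx fun p hp => infinity_forced.2 x p hp

/-- Membership of an ordered pair. -/
theorem Tr.pr_mem {x y f : Nam P} (hx : LD 𝓢 x) (hy : LD 𝓢 y) (hf : LD 𝓢 f) :
    Tr (pr (cls x hx) (cls y hy) ∈ cls f hf) (fmem (Nam.opair x y) f) :=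
  (Tr.mem (hx.opair hy) hf).congr (by rw [cls_opair])

/-- Membership of an ordered triple. -/
theorem Tr.pr3_mem {n x y f : Nam P} (hn : LD 𝓢 n) (hx : LD 𝓢 x) (hy : LD 𝓢 y) (hf : LD 𝓢 f) :
    Tr (pr (pr (cls n hn) (cls x hx)) (cls y hy) ∈ cls f hf)
      (fmem (Nam.opair (Nam.opair n x) y) f) :=
  (Tr.mem ((hn.opair hx).opair hy) hf).congr (by
    rw [cls_opair (hn.opair hx) hy, cls_opair hn hx])

/-- Quantification over `ω`. -/
theorem Tr.allω {T : Mod P 𝓢 → Prop} {S : Nam P → P → Prop}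
    (h : ∀ x (hx : LD 𝓢 x), Tr (T (cls x hx)) (S x)) (hS : RE S) :
    Tr (∀ x, x ∈ omega (Mod P 𝓢) → T x) (fun p => ∀ n, S (Nam.fin n) p) := by
  have hR : RE (fun x p => ∀ q ≤ p, fmem x Nam.omega q → S x q) := (RE.memL _).imp hS
  refine ((Tr.all (T := fun x => x ∈ omega (Mod P 𝓢) → T x) (fun x hx => ?_) hR.reg
    hR.ext).congr' fun p => (all_omega_iff hS p).symm)
  refine Tr.imp ?_ (h x hx)
  refine (Tr.mem hx HS.omega.ld).congr ?_
  rw [cls_omega]

theorem Tr.exω {T : Mod P 𝓢 → Prop} {S : Nam P → P → Prop}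
    (h : ∀ x (hx : LD 𝓢 x), Tr (T (cls x hx)) (S x)) (hS : RE S) :
    Tr (∃ x, x ∈ omega (Mod P 𝓢) ∧ T x) (DB fun p => ∃ n, S (Nam.fin n) p) := by
  have hR : RE (fun x p => fmem x Nam.omega p ∧ S x p) := (RE.memL _).and hS
  refine ((Tr.ex (T := fun x => x ∈ omega (Mod P 𝓢) ∧ T x) (fun x hx => ?_) hR.reg
    hR.ext).congr' fun p => (ex_omega_iff hS p).symm)
  refine Tr.and ?_ (h x hx)
  refine (Tr.mem hx HS.omega.ld).congr ?_
  rw [cls_omega]

/-- Bounded quantification. -/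
theorem Tr.allB {a : Nam P} (ha : LD 𝓢 a) {T : Mod P 𝓢 → Prop} {S : Nam P → P → Prop}
    (h : ∀ x (hx : LD 𝓢 x), Tr (T (cls x hx)) (S x)) (hS : RE S) :
    Tr (∀ x, x ∈ cls a ha → T x) (fun p => ∀ x, HS 𝓢 x → ∀ q ≤ p, fmem x a q → S x q) := by
  have hR : RE (fun x p => ∀ q ≤ p, fmem x a q → S x q) := (RE.memL _).imp hS
  exact Tr.all (T := fun x => x ∈ cls a ha → T x) (fun x hx => (Tr.mem hx ha).imp (h x hx))
    hR.reg hR.ext

theorem Tr.exB {a : Nam P} (ha : LD 𝓢 a) {T : Mod P 𝓢 → Prop} {S : Nam P → P → Prop}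
    (h : ∀ x (hx : LD 𝓢 x), Tr (T (cls x hx)) (S x)) (hS : RE S) :
    Tr (∃ x, x ∈ cls a ha ∧ T x) (DB fun p => ∃ x, HS 𝓢 x ∧ fmem x a p ∧ S x p) := by
  have hR : RE (fun x p => fmem x a p ∧ S x p) := (RE.memL _).and hS
  exact Tr.ex (T := fun x => x ∈ cls a ha ∧ T x) (fun x hx => (Tr.mem hx ha).and (h x hx))
    hR.reg hR.ext

end Pool.Agent.Sym
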