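import Pool.Agent.Lib.MP_1454e8_lc.S1Act

/-!
# The notion of forcing and the symmetric system

Coordinates are triples `(i, n, k) : ℕ × ℕ × K`; a condition gives, at countably many
coordinates, countable information about a subset of `W`.
-/

set_option autoImplicit false

namespace Pool.Agent.Sym

/-- Countable information about a subset of `W`. -/
@[ext]
structure LCond (W : Type) where
  A : Set W
  B : Set W
  hA : A.Countable
  hB : B.Countable
  disj : ∀ w, w ∈ A → w ∉ B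

instance (W : Type) : PartialOrder (LCond W) where
  le p q := q.A ⊆ p.A ∧ q.B ⊆ p.B
  le_refl p := ⟨subset_rfl, subset_rfl⟩
  le_trans p q r h h' := ⟨h'.1.trans h.1, h'.2.trans h.2⟩
  le_antisymm p q h h' := LCond.ext (h'.1.antisymm h.1) (h'.2.antisymm h.2)

theorem LCond.le_iff {W : Type} {p q : LCond W} : p ≤ q ↔ q.A ⊆ p.A ∧ q.B ⊆ p.B := Iff.rfl

instance (W : Type) : OrderTop (LCond W) where
  top := ⟨∅, ∅, Set.countable_empty, Set.countable_empty, fun _ h => absurd h (Set.notMem_empty _)⟩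
  le_top _ := ⟨Set.empty_subset _, Set.empty_subset _⟩

/-- Coordinates. -/
abbrev Co (K : Type) : Type := ℕ × ℕ × K

/-- Conditions. -/
def Cond (K W : Type) : Type := {p : Co K → LCond W // {t | p t ≠ ⊤}.Countable}

variable {K W : Type}

instance : CoeFun (Cond K W) (fun _ => Co K → LCond W) := ⟨Subtype.val⟩

instance : PartialOrder (Cond K W) :=
  inferInstanceAs (PartialOrder {p : Co K → LCond W // {t | p t ≠ ⊤}.Countable})

instance : Nonempty (Cond K W) := ⟨⟨fun _ => ⊤, by simp⟩⟩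

theorem Cond.le_iff {p q : Cond K W} : p ≤ q ↔ ∀ t, p t ≤ q t := Iff.rfl

@[ext]
theorem Cond.ext {p q : Cond K W} (h : ∀ t, p t = q t) : p = q := Subtype.ext (funext h)

/-- The support of a condition. -/
def Cond.supp (p : Cond K W) : Set (Co K) := {t | p t ≠ ⊤}

theorem Cond.supp_countable (p : Cond K W) : p.supp.Countable := p.2

theorem Cond.eq_top {p : Cond K W} {t : Co K} (h : t ∉ p.supp) : p t = ⊤ := by
  by_contra h'
  exact h h'

theorem pinv_l {α : Type*} (f : Equiv.Perm α) (x : α) : f (f⁻¹ x) = x := f.apply_symm_apply x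

theorem pinv_r {α : Type*} (f : Equiv.Perm α) (x : α) : f⁻¹ (f x) = x := f.symm_apply_apply x

/-- The group generated by the 3-cycles. -/
def Alt : Subgroup (Equiv.Perm ℕ) :=
  Subgroup.closure {σ | ∃ a b c : ℕ, a ≠ b ∧ b ≠ c ∧ a ≠ c ∧ σ = Equiv.swap a b * Equiv.swap b c}

/-- The group of symmetries. -/
def Gp (K : Type) : Subgroup (Equiv.Perm (Co K)) where
  carrier := {g | ∃ π : ℕ → Alt, ∀ t, (g t).1 = t.1 ∧ (g t).2.1 = (π t.1).1 t.2.1}
  one_mem' := ⟨fun _ => 1, fun t => ⟨rfl, rfl⟩⟩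
  mul_mem' := by
    rintro g h ⟨π, hπ⟩ ⟨ρ, hρ⟩
    refine ⟨fun i => π i * ρ i, fun t => ?_⟩
    have h1 := hρ t
    have h2 := hπ (h t)
    rw [h1.1, h1.2] at h2
    exact h2
  inv_mem' := by
    rintro g ⟨π, hπ⟩
    refine ⟨fun i => (π i)⁻¹, fun t => ?_⟩
    have h1 := hπ (g⁻¹ t)
    rw [pinv_l] at h1
    refine ⟨h1.1.symm, ?_⟩
    rw [h1.1, h1.2]
    change _ = ((π (g⁻¹ t).1).1)⁻¹ ((π (g⁻¹ t).1).1 (g⁻¹ t).2.1)
    rw [pinv_r]

/-- The group of symmetries, as a type. -/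
abbrev Gt (K : Type) : Type := Gp K

instance : OrdAct (Gt K) (Cond K W) where
  smul g p := ⟨fun t => p (g.1⁻¹ t), by
    refine (p.2.image g.1).mono ?_
    intro t ht
    exact ⟨g.1⁻¹ t, ht, pinv_l _ _⟩⟩
  one_smul p := rfl
  mul_smul g h p := by
    apply Cond.ext
    intro t
    change p ((g.1 * h.1)⁻¹ t) = p (h.1⁻¹ (g.1⁻¹ t))
    rw [mul_inv_rev]
    rfl
  smul_le g p q h t := h _

theorem Cond.smul_apply (g : Gt K) (p : Cond K W) (t : Co K) : (g • p) t = p (g.1⁻¹ t) := rfl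

theorem Gt.fst (g : Gt K) (t : Co K) : (g.1 t).1 = t.1 := by
  obtain ⟨π, hπ⟩ := g.2
  exact (hπ t).1

/-- `g` does not move the second coordinate at the levels `< e` and fixes `S` pointwise. -/
def Fx (e : ℕ) (S : Set (Co K)) : Subgroup (Gt K) where
  carrier := {g | (∀ t, t.1 < e → (g.1 t).2.1 = t.2.1) ∧ ∀ t ∈ S, g.1 t = t}
  one_mem' := ⟨fun _ _ => rfl, fun _ _ => rfl⟩
  mul_mem' := by
    rintro g h ⟨h1, h2⟩ ⟨h3, h4⟩
    refine ⟨fun t ht => ?_, fun t ht => ?_⟩
    · change (g.1 (h.1 t)).2.1 = t.2.1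
      rw [h1 _ (by rw [h.fst]; exact ht), h3 t ht]
    · change g.1 (h.1 t) = t
      rw [h4 t ht, h2 t ht]
  inv_mem' := by
    rintro g ⟨h1, h2⟩
    refine ⟨fun t ht => ?_, fun t ht => ?_⟩
    · change (g.1⁻¹ t).2.1 = t.2.1
      have h3 : (g.1⁻¹ t).1 = t.1 := by
        have := g.fst (g.1⁻¹ t)
        rw [pinv_l] at this
        exact this.symm
      have := h1 (g.1⁻¹ t) (by rw [h3]; exact ht)
      rw [pinv_l] at this
      exact this.symm
    · change g.1⁻¹ t = t
      rw [Equiv.Perm.inv_eq_iff_eq, h2 t ht]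

theorem mem_Fx {e : ℕ} {S : Set (Co K)} {g : Gt K} :
    g ∈ Fx e S ↔ (∀ t, t.1 < e → (g.1 t).2.1 = t.2.1) ∧ ∀ t ∈ S, g.1 t = t := Iff.rfl

theorem Fx.mono {e e' : ℕ} {S S' : Set (Co K)} (h : e ≤ e') (h' : S ⊆ S') :
    Fx e' S' ≤ Fx e S := fun _ hg =>
  ⟨fun t ht => hg.1 t (lt_of_lt_of_le ht h), fun t ht => hg.2 t (h' ht)⟩

/-- Conjugation. -/
theorem Fx.conj {e : ℕ} {S : Set (Co K)} (g : Gt K) {h : Gt K} (hh : h ∈ Fx e (g.1 '' S)) :
    g⁻¹ * h * g ∈ Fx e S := by
  obtain ⟨π, hπ⟩ := g.2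
  refine ⟨fun t ht => ?_, fun t ht => ?_⟩
  · change (g.1⁻¹ (h.1 (g.1 t))).2.1 = t.2.1
    set u := g.1⁻¹ (h.1 (g.1 t)) with hu
    have h1 : g.1 u = h.1 (g.1 t) := by rw [hu, pinv_l]
    have h2 : (h.1 (g.1 t)).2.1 = (g.1 t).2.1 := hh.1 _ (by rw [g.fst]; exact ht)
    have h3 : u.1 = t.1 := by rw [← g.fst u, h1, h.fst, g.fst]
    have h4 := (hπ u).2
    rw [h1, h2, (hπ t).2, h3] at h4
    exact ((π t.1).1.injective h4).symm
  · change g.1⁻¹ (h.1 (g.1 t)) = t
    rw [hh.2 _ ⟨t, ht, rfl⟩, pinv_r]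

/-- The symmetric system. -/
def sys (K : Type) : SymSys (Gt K) where
  F := {H | ∃ e S, S.Finite ∧ Fx e S ≤ H}
  top := ⟨0, ∅, Set.finite_empty, le_top⟩
  inter := by
    rintro H H' ⟨e, S, hS, h⟩ ⟨e', S', hS', h'⟩
    exact ⟨max e e', S ∪ S', hS.union hS', le_inf
      ((Fx.mono (le_max_left _ _) Set.subset_union_left).trans h)
      ((Fx.mono (le_max_right _ _) Set.subset_union_right).trans h')⟩
  up := by
    rintro H H' ⟨e, S, hS, h⟩ hH
    exact ⟨e, S, hS, h.trans hH⟩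
  conj := by
    rintro g H ⟨e, S, hS, h⟩
    exact ⟨Fx e (g.1 '' S), ⟨e, _, hS.image _, le_rfl⟩, fun k hk => h (Fx.conj g hk)⟩

theorem Fx_mem {e : ℕ} {S : Set (Co K)} (hS : S.Finite) : Fx e S ∈ (sys K).F :=
  ⟨e, S, hS, le_rfl⟩

/-! ### restriction and gluing -/

open Classical in
/-- `p` on `E` and `q` outside. -/
noncomputable def glue (E : Set (Co K)) (p q : Cond K W) : Cond K W :=
  ⟨fun t => if t ∈ E then p t else q t, by
    refine (p.2.union q.2).mono ?_
    intro t ht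
    by_cases h : t ∈ E
    · have ht' : (if t ∈ E then p t else q t) ≠ ⊤ := ht
      rw [if_pos h] at ht'
      exact Or.inl ht'
    · have ht' : (if t ∈ E then p t else q t) ≠ ⊤ := ht
      rw [if_neg h] at ht'
      exact Or.inr ht'⟩

theorem glue_in {E : Set (Co K)} {p q : Cond K W} {t : Co K} (h : t ∈ E) :
    glue E p q t = p t := if_pos h

theorem glue_out {E : Set (Co K)} {p q : Cond K W} {t : Co K} (h : t ∉ E) :
    glue E p q t = q t := if_neg h

/-- The trivial condition. -/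
def topC : Cond K W := ⟨fun _ => ⊤, by simp⟩

theorem le_topC (p : Cond K W) : p ≤ topC := fun _ => le_top

/-- The restriction of `p` to `E`. -/
noncomputable def res (E : Set (Co K)) (p : Cond K W) : Cond K W := glue E p topC

theorem res_in {E : Set (Co K)} {p : Cond K W} {t : Co K} (h : t ∈ E) : res E p t = p t :=
  glue_in h

theorem res_out {E : Set (Co K)} {p : Cond K W} {t : Co K} (h : t ∉ E) : res E p t = ⊤ :=
  glue_out h

theorem le_res (E : Set (Co K)) (p : Cond K W) : p ≤ res E p := fun t => by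
  by_cases h : t ∈ E
  · rw [res_in h]
  · rw [res_out h]; exact le_top

theorem res_mono (E : Set (Co K)) {p q : Cond K W} (h : p ≤ q) : res E p ≤ res E q := fun t => by
  by_cases ht : t ∈ E
  · rw [res_in ht, res_in ht]; exact h t
  · rw [res_out ht, res_out ht]

/-- Elements of the group that only move the third coordinate. -/
def Xi (K : Type) : Subgroup (Gt K) where
  carrier := {g | ∀ t, (g.1 t).2.1 = t.2.1}
  one_mem' := fun _ => rfl
  mul_mem' := by
    intro g h hg hh t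
    change (g.1 (h.1 t)).2.1 = t.2.1
    rw [hg, hh]
  inv_mem' := by
    intro g hg t
    change (g.1⁻¹ t).2.1 = t.2.1
    have := hg (g.1⁻¹ t)
    rw [pinv_l] at this
    exact this.symm

theorem mem_Xi {g : Gt K} : g ∈ Xi K ↔ ∀ t, (g.1 t).2.1 = t.2.1 := Iff.rfl

/-- A permutation preserving the first two coordinates, as a symmetry. -/
def ofPerm (f : Equiv.Perm (Co K)) (h : ∀ t, (f t).1 = t.1 ∧ (f t).2.1 = t.2.1) : Gt K :=
  ⟨f, ⟨fun _ => 1, h⟩⟩

theorem ofPerm_mem_Xi (f : Equiv.Perm (Co K)) (h : ∀ t, (f t).1 = t.1 ∧ (f t).2.1 = t.2.1) :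
    ofPerm f h ∈ Xi K := fun t => (h t).2

theorem Xi.mem_Fx {g : Gt K} (hg : g ∈ Xi K) {S : Set (Co K)} (h : ∀ t ∈ S, g.1 t = t) (e : ℕ) :
    g ∈ Fx e S := ⟨fun t _ => hg t, h⟩

/-- A partial injection whose image is disjoint from its domain extends to an involution. -/
theorem exists_invol {α : Type*} (A : Set α) (f : α → α) (hf : Set.InjOn f A)
    (hd : ∀ a ∈ A, f a ∉ A) : ∃ g : Equiv.Perm α, (∀ a ∈ A, g a = f a) ∧
      (∀ a ∈ A, g (f a) = a) ∧ ∀ a, a ∉ A → (∀ b ∈ A, f b ≠ a) → g a = a := by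
  classical
  have h0 : ∀ a, (∃ b, b ∈ A ∧ f b = a) → ∃ b, b ∈ A ∧ f b = a := fun _ h => h
  let k : α → α := fun a => if a ∈ A then f a else if h : ∃ b, b ∈ A ∧ f b = a then h.choose else a
  have hk1 : ∀ a ∈ A, k a = f a := fun a ha => if_pos ha
  have hk2 : ∀ a ∈ A, k (f a) = a := by
    intro a ha
    have hex : ∃ b, b ∈ A ∧ f b = f a := ⟨a, ha, rfl⟩
    have h1 : k (f a) = hex.choose := by
      change (if f a ∈ A then f (f a) else if h : ∃ b, b ∈ A ∧ f b = f a then h.choose else f a) = _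
      rw [if_neg (hd a ha), dif_pos hex]
    rw [h1]
    exact hf hex.choose_spec.1 ha hex.choose_spec.2
  have hk3 : ∀ a, a ∉ A → (∀ b ∈ A, f b ≠ a) → k a = a := by
    intro a ha hb
    change (if a ∈ A then f a else if h : ∃ b, b ∈ A ∧ f b = a then h.choose else a) = a
    rw [if_neg ha, dif_neg]
    rintro ⟨b, hb1, hb2⟩
    exact hb b hb1 hb2
  have hinv : Function.Involutive k := by
    intro a
    by_cases ha : a ∈ A
    · rw [hk1 a ha, hk2 a ha]
    · by_cases hb : ∃ b, b ∈ A ∧ f b = a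
      · obtain ⟨b, hb, rfl⟩ := hb
        rw [hk2 b hb, hk1 b hb]
      · push Not at hb
        rw [hk3 a ha hb, hk3 a ha hb]
  exact ⟨hinv.toPerm, hk1, hk2, hk3⟩

/-- A countable set can be moved away from a countable set, fixing a countable set. -/
theorem exists_move [Uncountable K] {X Y E : Set (Co K)} (hX : X.Countable) (hY : Y.Countable)
    (hE : E.Countable) : ∃ g ∈ Xi K, (∀ t ∈ E, g.1 t = t) ∧ ∀ t ∈ X, t ∉ E → g.1 t ∉ Y := by
  classical
  have hc : ∀ i n, ∃ j : ℕ → K, Function.Injective j ∧ ∀ m, (i, n, j m) ∉ X ∪ Y ∪ E := by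
    intro i n
    have h1 : {k : K | (i, n, k) ∈ X ∪ Y ∪ E}.Countable :=
      Set.Countable.preimage (s := X ∪ Y ∪ E) ((hX.union hY).union hE) (f := fun k => (i, n, k))
        (fun a b h => by simpa using h)
    have h2 : {k : K | (i, n, k) ∈ X ∪ Y ∪ E}ᶜ.Infinite := by
      intro hfin
      exact Set.not_countable_univ (α := K) (by
        rw [← Set.union_compl_self {k : K | (i, n, k) ∈ X ∪ Y ∪ E}]
        exact h1.union hfin.countable)
    let e := Set.Infinite.natEmbedding _ h2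
    exact ⟨fun m => (e m).1, fun a b h => e.injective (Subtype.ext h), fun m => (e m).2⟩
  choose j hj1 hj2 using hc
  obtain ⟨c, hcinj⟩ : ∃ c : Co K → ℕ, Set.InjOn c X :=
    Set.countable_iff_exists_injOn.1 hX
  let f : Co K → Co K := fun t => (t.1, t.2.1, j t.1 t.2.1 (c t))
  have hf : Set.InjOn f (X \ E) := by
    intro s hs t ht hst
    have h1 : (f s).1 = (f t).1 := by rw [hst]
    have h2 : (f s).2.1 = (f t).2.1 := by rw [hst]
    have h3 : (f s).2.2 = (f t).2.2 := by rw [hst]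
    change s.1 = t.1 at h1
    change s.2.1 = t.2.1 at h2
    change j s.1 s.2.1 (c s) = j t.1 t.2.1 (c t) at h3
    rw [h1, h2] at h3
    exact hcinj hs.1 ht.1 (hj1 _ _ h3)
  have hfn : ∀ t, f t ∉ X ∪ Y ∪ E := fun t => hj2 _ _ _
  obtain ⟨g, hg1, hg2, hg3⟩ := exists_invol (X \ E) f hf
    (fun a ha h => hfn a (Or.inl (Or.inl h.1)))
  have hg : ∀ t, (g t).1 = t.1 ∧ (g t).2.1 = t.2.1 := by
    intro t
    by_cases h1 : t ∈ X \ E
    · rw [hg1 t h1]; exact ⟨rfl, rfl⟩
    · by_cases h2 : ∃ b ∈ X \ E, f b = t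
      · obtain ⟨b, hb, rfl⟩ := h2
        rw [hg2 b hb]; exact ⟨rfl, rfl⟩
      · push Not at h2
        rw [hg3 t h1 h2]; exact ⟨rfl, rfl⟩
  refine ⟨ofPerm g hg, ofPerm_mem_Xi g hg, fun t ht => ?_, fun t ht htE => ?_⟩
  · exact hg3 t (fun h => h.2 ht) (fun b _ h => hfn b (Or.inr (h ▸ ht)))
  · change g t ∉ Y
    rw [hg1 t ⟨ht, htE⟩]
    exact fun h => hfn t (Or.inl (Or.inr h))

/-- Finite partial injections preserving the fibres extend to symmetries. -/
theorem exists_extend {X : Set (Co K)} (hX : X.Finite) (f : Co K → Co K) (hf : Set.InjOn f X)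
    (hf' : ∀ t ∈ X, (f t).1 = t.1 ∧ (f t).2.1 = t.2.1) :
    ∃ g ∈ Xi K, ∀ t ∈ X, g.1 t = f t := by
  classical
  induction X, hX using Set.Finite.induction_on with
  | empty => exact ⟨1, one_mem _, fun t ht => absurd ht (Set.notMem_empty _)⟩
  | @insert a X ha _ ih =>
    obtain ⟨g, hg, hgf⟩ := ih (hf.mono (Set.subset_insert _ _))
      (fun t ht => hf' t (Set.mem_insert_of_mem _ ht))
    have hsw : ∀ t, (Equiv.swap (g.1 a) (f a) t).1 = t.1 ∧
        (Equiv.swap (g.1 a) (f a) t).2.1 = t.2.1 := by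
      have h1 := hf' a (Set.mem_insert _ _)
      have h2 := g.fst a
      have h3 : (g.1 a).2.1 = a.2.1 := hg a
      intro t
      rcases eq_or_ne t (g.1 a) with rfl | h4
      · rw [Equiv.swap_apply_left, h1.1, h1.2, h2, h3]; exact ⟨rfl, rfl⟩
      · rcases eq_or_ne t (f a) with rfl | h5
        · rw [Equiv.swap_apply_right, h1.1, h1.2, h2, h3]; exact ⟨rfl, rfl⟩
        · rw [Equiv.swap_apply_of_ne_of_ne h4 h5]; exact ⟨rfl, rfl⟩
    refine ⟨ofPerm _ hsw * g, mul_mem (ofPerm_mem_Xi _ hsw) hg, fun t ht => ?_⟩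
    change Equiv.swap (g.1 a) (f a) (g.1 t) = f t
    rcases Set.mem_insert_iff.1 ht with rfl | ht'
    · rw [Equiv.swap_apply_left]
    · have hne : t ≠ a := fun h => ha (h ▸ ht')
      rw [Equiv.swap_apply_of_ne_of_ne (fun h => hne (g.1.injective h)), hgf t ht']
      rw [hgf t ht']
      exact fun h => hne (hf ht (Set.mem_insert _ _) h)

/-- Homogeneity. -/
theorem hom [Uncountable K] {S : Cond K W → Prop} (hS : Reg S) {E : Set (Co K)}
    (hE : E.Countable)
    (hinv : ∀ g ∈ Xi K, (∀ t ∈ E, g.1 t = t) → ∀ p, S (g • p) ↔ S p) {p : Cond K W} (h : S p) :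
    S (res E p) := by
  refine hS.reg fun q hq => ?_
  obtain ⟨g, hg, hgE, hgX⟩ := exists_move p.supp_countable q.supp_countable hE
  refine ⟨glue (g.1 '' (p.supp \ E)) (g • p) q, fun t => ?_, ?_⟩
  · by_cases ht : t ∈ g.1 '' (p.supp \ E)
    · obtain ⟨s, hs, rfl⟩ := ht
      rw [Cond.eq_top (hgX s hs.1 hs.2)]
      exact le_top
    · rw [glue_out ht]
  · refine hS.mono (fun t => ?_) ((hinv g hg hgE p).2 h)
    by_cases ht : t ∈ g.1 '' (p.supp \ E)
    · rw [glue_in ht]
    · rw [glue_out ht, Cond.smul_apply]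
      by_cases h1 : g.1⁻¹ t ∈ p.supp
      · have h2 : g.1⁻¹ t ∈ E := by
          by_contra h2
          exact ht ⟨_, ⟨h1, h2⟩, pinv_l _ _⟩
        have h3 : g.1⁻¹ t = t := by
          have := hgE _ h2
          rw [pinv_l] at this
          exact this.symm
        rw [h3] at h2 ⊢
        have := hq t
        rwa [res_in h2] at this
      · rw [Cond.eq_top h1]
        exact le_top

/-- Descending sequences have lower bounds. -/
theorem exists_lower (p : ℕ → Cond K W) (hp : ∀ n, p (n + 1) ≤ p n) :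
    ∃ q : Cond K W, (∀ n, q ≤ p n) ∧ ∀ E : Set (Co K), (∀ n, res E (p n) = p n) → res E q = q := by
  have hanti : ∀ n m, n ≤ m → p m ≤ p n := fun n m h => antitone_nat_of_succ_le hp h
  let q0 : Co K → LCond W := fun t =>
    { A := ⋃ n, (p n t).A
      B := ⋃ n, (p n t).B
      hA := Set.countable_iUnion fun n => (p n t).hA
      hB := Set.countable_iUnion fun n => (p n t).hB
      disj := by
        intro w h1 h2
        obtain ⟨n, h1⟩ := Set.mem_iUnion.1 h1
        obtain ⟨m, h2⟩ := Set.mem_iUnion.1 h2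
        exact (p (max n m) t).disj w ((hanti n _ (le_max_left _ _) t).1 h1)
          ((hanti m _ (le_max_right _ _) t).2 h2) }
  have htop : ∀ t, (∀ n, p n t = ⊤) → q0 t = ⊤ := by
    intro t ht
    refine LCond.ext ?_ ?_
    · change (⋃ n, (p n t).A) = ∅
      simp only [ht]
      exact Set.iUnion_empty
    · change (⋃ n, (p n t).B) = ∅
      simp only [ht]
      exact Set.iUnion_empty
  refine ⟨⟨q0, (Set.countable_iUnion fun n => (p n).2).mono ?_⟩, fun n t => ?_, fun E hE => ?_⟩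
  · intro t ht
    by_contra hcon
    refine ht (htop t fun n => ?_)
    by_contra h
    exact hcon (Set.mem_iUnion.2 ⟨n, h⟩)
  · exact ⟨Set.subset_iUnion (fun n => (p n t).A) n, Set.subset_iUnion (fun n => (p n t).B) n⟩
  · refine Cond.ext fun t => ?_
    by_cases ht : t ∈ E
    · rw [res_in ht]
    · rw [res_out ht]
      refine (htop t fun n => ?_).symm
      rw [← hE n, res_out ht]

end Pool.Agent.Sym
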