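import Pool.Agent.Lib.MP_1454e8_lc.S5Poset

/-!
# The group generated by the 3-cycles, and totally bounded invariant uniformities
-/

set_option autoImplicit false

namespace Pool.Agent.Sym

/-- The 3-cycle `a → b → c → a`. -/
def tc (a b c : ℕ) : Equiv.Perm ℕ := Equiv.swap a b * Equiv.swap b c

theorem tc_mem {a b c : ℕ} (h1 : a ≠ b) (h2 : b ≠ c) (h3 : a ≠ c) : tc a b c ∈ Alt :=
  Subgroup.subset_closure ⟨a, b, c, h1, h2, h3, rfl⟩

theorem tc_first {a b c : ℕ} (h1 : a ≠ b) (h3 : a ≠ c) : tc a b c a = b := by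
  change Equiv.swap a b (Equiv.swap b c a) = b
  rw [Equiv.swap_apply_of_ne_of_ne h1 h3, Equiv.swap_apply_left]

theorem tc_other {a b c x : ℕ} (h1 : x ≠ a) (h2 : x ≠ b) (h3 : x ≠ c) : tc a b c x = x := by
  change Equiv.swap a b (Equiv.swap b c x) = x
  rw [Equiv.swap_apply_of_ne_of_ne h2 h3, Equiv.swap_apply_of_ne_of_ne h1 h2]

theorem conj_tc (σ : Equiv.Perm ℕ) (a b c : ℕ) :
    σ * tc a b c * σ⁻¹ = tc (σ a) (σ b) (σ c) := by
  have h1 := Equiv.mul_swap_eq_swap_mul σ a b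
  have h2 := Equiv.mul_swap_eq_swap_mul σ b c
  rw [tc, tc, ← mul_assoc, h1, mul_assoc (Equiv.swap (σ a) (σ b)), h2, ← mul_assoc,
    mul_inv_cancel_right]

/-- Moving one point, fixing a finite set. -/
theorem exists_alt_move (x y : ℕ) (F : Finset ℕ) (hx : x ∉ F) (hy : y ∉ F) :
    ∃ σ ∈ Alt, σ x = y ∧ ∀ f ∈ F, σ f = f := by
  by_cases hxy : x = y
  · exact ⟨1, one_mem _, hxy, fun f _ => rfl⟩
  obtain ⟨d, hd⟩ := Infinite.exists_notMem_finset (insert x (insert y F))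
  simp only [Finset.mem_insert, not_or] at hd
  refine ⟨tc x y d, tc_mem hxy (Ne.symm hd.2.1) (Ne.symm hd.1),
    tc_first hxy (Ne.symm hd.1), fun f hf => tc_other ?_ ?_ ?_⟩
  · rintro rfl; exact hx hf
  · rintro rfl; exact hy hf
  · rintro rfl; exact hd.2.2 hf

/-- All 3-cycles are conjugate. -/
theorem exists_alt_triple {a b c a' b' c' : ℕ} (h1 : a ≠ b) (h2 : b ≠ c) (h3 : a ≠ c)
    (h1' : a' ≠ b') (h2' : b' ≠ c') (h3' : a' ≠ c') :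
    ∃ σ ∈ Alt, σ a = a' ∧ σ b = b' ∧ σ c = c' := by
  obtain ⟨x, hx⟩ := Infinite.exists_notMem_finset ({a, b, c, a', b', c'} : Finset ℕ)
  obtain ⟨y, hy⟩ := Infinite.exists_notMem_finset ({x, a, b, c, a', b', c'} : Finset ℕ)
  obtain ⟨z, hz⟩ := Infinite.exists_notMem_finset ({x, y, a, b, c, a', b', c'} : Finset ℕ)
  simp only [Finset.mem_insert, Finset.mem_singleton, not_or] at hx hy hz
  obtain ⟨xa, xb, xc, xa', xb', xc'⟩ := hx
  obtain ⟨yx, ya, yb, yc, ya', yb', yc'⟩ := hy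
  obtain ⟨zx, zy, za, zb, zc, za', zb', zc'⟩ := hz
  have mk : ∀ (u v s t : ℕ), u ≠ s → u ≠ t → v ≠ s → v ≠ t →
      ∃ σ ∈ Alt, σ u = v ∧ σ s = s ∧ σ t = t := by
    intro u v s t h1 h2 h3 h4
    obtain ⟨σ, hσ, h5, h6⟩ := exists_alt_move u v {s, t} (by simp [h1, h2]) (by simp [h3, h4])
    exact ⟨σ, hσ, h5, h6 s (by simp), h6 t (by simp)⟩
  obtain ⟨σ1, m1, e11, e12, e13⟩ := mk a x b c h1 h3 xb xc
  obtain ⟨σ2, m2, e21, e22, e23⟩ := mk b y x c (Ne.symm xb) h2 yx yc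
  obtain ⟨σ3, m3, e31, e32, e33⟩ := mk c z x y (Ne.symm xc) (Ne.symm yc) zx zy
  obtain ⟨σ4, m4, e41, e42, e43⟩ := mk x a' y z (Ne.symm yx) (Ne.symm zx) (Ne.symm ya')
    (Ne.symm za')
  obtain ⟨σ5, m5, e51, e52, e53⟩ := mk y b' a' z ya' (Ne.symm zy) (Ne.symm h1') (Ne.symm zb')
  obtain ⟨σ6, m6, e61, e62, e63⟩ := mk z c' a' b' za' zb' (Ne.symm h3') (Ne.symm h2')
  refine ⟨σ6 * σ5 * σ4 * σ3 * σ2 * σ1, mul_mem (mul_mem (mul_mem (mul_mem (mul_mem m6 m5) m4) m3)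
    m2) m1, ?_, ?_, ?_⟩
  · change σ6 (σ5 (σ4 (σ3 (σ2 (σ1 a))))) = a'
    rw [e11, e22, e32, e41, e52, e62]
  · change σ6 (σ5 (σ4 (σ3 (σ2 (σ1 b))))) = b'
    rw [e12, e21, e33, e42, e51, e63]
  · change σ6 (σ5 (σ4 (σ3 (σ2 (σ1 c))))) = c'
    rw [e13, e23, e31, e43, e53, e61]

instance : Countable Alt := by
  let f : FreeGroup (ℕ × ℕ × ℕ) →* Equiv.Perm ℕ := FreeGroup.lift fun t => tc t.1 t.2.1 t.2.2
  have h : Alt ≤ f.range := by
    refine (Subgroup.closure_le _).2 ?_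
    rintro σ ⟨a, b, c, -, -, -, rfl⟩
    exact ⟨FreeGroup.of (a, b, c), by simp [f, tc]⟩
  have hc : (Set.range f).Countable := Set.countable_range f
  exact (hc.mono fun x hx => h hx).to_subtype

/-- In a totally bounded left invariant uniformity, every sequence `g` has two members
`g i`, `g j` such that all conjugates of `g i⁻¹ * g j` are close to `1`. -/
theorem exists_conj {Q : Type*} [Group Q] (ρ : ℕ → Q → Q → Prop)
    (hinv : ∀ n g h h', ρ n h h' → ρ n (g * h) (g * h'))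
    (hsymm : ∀ n h h', ρ n h h' → ρ n h' h)
    (hcomp : ∀ n, ∃ m, ∀ h h' h'', ρ m h h' → ρ m h' h'' → ρ n h h'')
    (htb : ∀ n (s : ℕ → Q), ∃ i j, i < j ∧ ρ n (s i) (s j)) (n : ℕ) (g : ℕ → Q) :
    ∃ i j, i < j ∧ ∀ h, ρ n 1 (h⁻¹ * ((g i)⁻¹ * g j) * h) := by
  have hrefl : ∀ n h, ρ n h h := by
    intro n h
    obtain ⟨i, j, -, hij⟩ := htb n (fun _ => h)
    exact hij
  obtain ⟨m1, hm1⟩ := hcomp n
  obtain ⟨m2, hm2⟩ := hcomp m1
  obtain ⟨m3, hm3⟩ := hcomp m2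
  obtain ⟨N, hN⟩ : ∃ N : Finset Q, ∀ h, ∃ ν ∈ N, ρ m3 h ν := by
    by_contra hcon
    push Not at hcon
    obtain ⟨f, -, hf⟩ := exists_seq_of_forall_finset_exists (fun _ : Q => True)
      (fun x y => ¬ ρ m3 y x) (fun s _ => by
        obtain ⟨h, hh⟩ := hcon s
        exact ⟨h, trivial, hh⟩)
    obtain ⟨i, j, hij, h⟩ := htb m3 f
    exact hf i j hij (hsymm _ _ _ h)
  choose c hcN hc using hN
  let v : ℕ → N → N := fun i ν => ⟨c (g i * ν.1), hcN _⟩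
  obtain ⟨i, j, hij, hv⟩ : ∃ i j, i < j ∧ v i = v j := by
    obtain ⟨i, j, hne, he⟩ := Finite.exists_ne_map_eq_of_infinite v
    rcases lt_or_gt_of_ne hne with h | h
    · exact ⟨i, j, h, he⟩
    · exact ⟨j, i, h, he.symm⟩
  refine ⟨i, j, hij, fun h => ?_⟩
  have h1 : ∀ k, ρ m2 (g k * h) (g k * c h) := fun k =>
    hinv _ _ _ _ (hm3 _ _ _ (hc h) (hrefl _ _))
  have h2 : ρ m2 (g i * c h) (g j * c h) := by
    have h3 : c (g i * c h) = c (g j * c h) := by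
      have := congrFun hv ⟨c h, hcN h⟩
      exact congrArg Subtype.val this
    refine hm3 _ _ _ (hc (g i * c h)) ?_
    rw [h3]
    exact hsymm _ _ _ (hc _)
  have h4 : ρ n (g i * h) (g j * h) :=
    hm1 _ _ _ (hm2 _ _ _ (h1 i) h2) (hm2 _ _ _ (hsymm _ _ _ (h1 j)) (hrefl _ _))
  have h5 := hinv n (h⁻¹ * (g i)⁻¹) _ _ h4
  have e1 : h⁻¹ * (g i)⁻¹ * (g i * h) = 1 := by group
  have e2 : h⁻¹ * (g i)⁻¹ * (g j * h) = h⁻¹ * ((g i)⁻¹ * g j) * h := by group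
  rwa [e1, e2] at h5

/-- Every 3-cycle is close to `1` in a totally bounded left invariant uniformity on `Alt`. -/
theorem tc_close (ρ : ℕ → Alt → Alt → Prop)
    (hinv : ∀ n g h h', ρ n h h' → ρ n (g * h) (g * h'))
    (hsymm : ∀ n h h', ρ n h h' → ρ n h' h)
    (hcomp : ∀ n, ∃ m, ∀ h h' h'', ρ m h h' → ρ m h' h'' → ρ n h h'')
    (htb : ∀ n (s : ℕ → Alt), ∃ i j, i < j ∧ ρ n (s i) (s j)) (n : ℕ) (a b c : ℕ)
    (h1 : a ≠ b) (h2 : b ≠ c) (h3 : a ≠ c) : ρ n 1 ⟨tc a b c, tc_mem h1 h2 h3⟩ := by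
  obtain ⟨i, j, hij, h⟩ := exists_conj ρ hinv hsymm hcomp htb n
    (fun i => ⟨tc 0 1 (i + 2), tc_mem (by omega) (by omega) (by omega)⟩)
  obtain ⟨σ, hσ, e1, e2, e3⟩ := exists_alt_triple h1 h2 h3
    (a' := i + 2) (b' := 1) (c' := j + 2) (by omega) (by omega) (by omega)
  have h4 := h ⟨σ, hσ⟩
  have h5 : (⟨σ, hσ⟩ : Alt)⁻¹ * ((⟨tc 0 1 (i + 2), tc_mem (by omega) (by omega) (by omega)⟩ : Alt)⁻¹
      * ⟨tc 0 1 (j + 2), tc_mem (by omega) (by omega) (by omega)⟩) * ⟨σ, hσ⟩ =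
      ⟨tc a b c, tc_mem h1 h2 h3⟩ := by
    apply Subtype.ext
    change σ⁻¹ * ((tc 0 1 (i + 2))⁻¹ * tc 0 1 (j + 2)) * σ = tc a b c
    have h6 : (tc 0 1 (i + 2))⁻¹ * tc 0 1 (j + 2) = tc (i + 2) 1 (j + 2) := by
      rw [tc, tc, tc, mul_inv_rev, Equiv.swap_inv, Equiv.swap_inv, Equiv.swap_comm 1 (i + 2),
        mul_assoc, ← mul_assoc (Equiv.swap 0 1), Equiv.swap_mul_self, one_mul]
    rw [h6, ← e1, ← e2, ← e3, ← conj_tc]
    group
  rwa [h5] at h4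

end Pool.Agent.Sym
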