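import Pool.Agent.Lib.MP_1454e8_lc.S4Names
import Pool.Agent.Lib.MP_1454e8_lc.S6Alt

/-!
# Forced uniform structures
-/

set_option autoImplicit false

namespace Pool.Agent.Sym

universe u

section inv

variable {G P : Type u} [Group G] [Preorder P] [OrdAct G P] {𝓢 : SymSys G}

theorem forall_le_smul (g : G) (p : P) (A : P → Prop) :
    (∀ q ≤ g • p, A q) ↔ ∀ q ≤ p, A (g • q) := by
  constructor
  · intro h q hq
    exact h _ (smul_le' g hq)
  · intro h q hq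
    have := h (g⁻¹ • q) (by rw [← smul_le_iff g, smul_inv_smul]; exact hq)
    rwa [smul_inv_smul] at this

theorem forall_HS_act (g : G) (A : Nam P → Prop) :
    (∀ x, HS 𝓢 x → A x) ↔ ∀ x, HS 𝓢 x → A (act g x) := by
  constructor
  · intro h x hx
    exact h _ (hx.smul g)
  · intro h x hx
    have := h (act g⁻¹ x) (hx.smul g⁻¹)
    rwa [act_act_inv] at this

theorem DB.congr' {S T : P → Prop} {p : P} (h : ∀ q ≤ p, S q ↔ T q) : DB S p ↔ DB T p :=
  ⟨DB.imp fun q hq => (h q hq).1, DB.imp fun q hq => (h q hq).2⟩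

/-- Finitely many dense monotone statements hold simultaneously below `p`. -/
theorem DB.simul {S : ℕ → P → Prop} (hS : ∀ i {p q : P}, q ≤ p → S i p → S i q) (k : ℕ) {p : P}
    (h : ∀ i < k, DB (S i) p) : ∃ q ≤ p, ∀ i < k, S i q := by
  induction k with
  | zero => exact ⟨p, le_rfl, fun i hi => absurd hi (by omega)⟩
  | succ k ih =>
    obtain ⟨q, hq, h1⟩ := ih fun i hi => h i (by omega)
    obtain ⟨r, hr, h2⟩ := h k (by omega) q hq
    refine ⟨r, hr.trans hq, fun i hi => ?_⟩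
    rcases Nat.lt_succ_iff_lt_or_eq.1 hi with hi | rfl
    · exact hS i hr (h1 i hi)
    · exact h2

/-- Symmetrisation of a name. -/
theorem symmetrize {Γ : Subgroup G} (hΓ : Γ ∈ 𝓢.F) (c : P) {z : Nam P} (hz : HS 𝓢 z)
    (h : ∀ g ∈ Γ, ∀ d, d ≤ c → d ≤ g • c → feq (act g z) z d) :
    ∃ z', HS 𝓢 z' ∧ FixN Γ z' ∧ feq z z' c := by
  let ic : LowerSet P := ⟨{p | p ≤ c}, fun _ _ h h' => h.trans h'⟩
  let z' : Nam P := ⟨Γ × z.idx, fun s => actL s.1.1 (z.wt s.2 ⊓ ic), fun s => act s.1.1 (z.el s.2)⟩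
  have hfix : FixN Γ z' := by
    intro g hg p
    refine feq_act_of_perm (x := z') g ((Equiv.mulLeft (⟨g, hg⟩ : Γ)).prodCongr (Equiv.refl _))
      (fun s q => ?_) (fun s q _ => ?_) p
    · change (g * s.1.1)⁻¹ • q ∈ z.wt s.2 ⊓ ic ↔ s.1.1⁻¹ • g⁻¹ • q ∈ z.wt s.2 ⊓ ic
      rw [mul_inv_rev, mul_smul]
    · change feq (act g (act s.1.1 (z.el s.2))) (act (g * s.1.1) (z.el s.2)) q
      rw [act_mul]
      exact feq_refl _ _
  refine ⟨z', HS.of (fun s => (hz.el s.2).smul s.1.1) ⟨Γ, hΓ, hfix⟩, hfix, ?_⟩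
  rw [feq_iff]
  constructor
  · intro i q hq hqi
    refine ⟨q, le_rfl, ⟨(1 : Γ), i⟩, ?_, ?_⟩
    · change (1 : G)⁻¹ • q ∈ z.wt i ∧ (1 : G)⁻¹ • q ≤ c
      rw [inv_one, one_smul]
      exact ⟨hqi, hq⟩
    · change feq (z.el i) (act (1 : G) (z.el i)) q
      rw [act_one]
      exact feq_refl _ _
  · rintro ⟨⟨g, hg⟩, i⟩ q hq hqi
    change g⁻¹ • q ∈ z.wt i ∧ g⁻¹ • q ≤ c at hqi
    have h1 : fmem (act g (z.el i)) (act g z) q := by
      have h2 : fmem (z.el i) z (g⁻¹ • q) := fmem_of_wt hqi.1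
      have h3 := (fmem_act g _ _ _).2 h2
      rwa [smul_inv_smul] at h3
    have h4 : feq (act g z) z q := h g hg q hq (by
      rw [le_smul_iff]; exact hqi.2)
    obtain ⟨r, hr, j, h5, h6⟩ := fmem_congr_right h4 h1 q le_rfl
    exact ⟨r, hr, j, h5, feq_symm h6⟩

/-! ### the uniform structure -/

/-- `R_n x y` is forced. -/
def RR (U : Nam P) (n : ℕ) (x y : Nam P) : P → Prop :=
  fmem (Nam.opair (Nam.opair (Nam.fin n) x) y) U

theorem RR.reg (U : Nam P) (n : ℕ) (x y : Nam P) : Reg (RR U n x y) := fmemReg _ _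

theorem RR.mono {U : Nam P} {n : ℕ} {x y : Nam P} {p q : P} (hq : q ≤ p) (h : RR U n x y p) :
    RR U n x y q := (RR.reg U n x y).mono hq h

theorem RR.congr {U : Nam P} {n : ℕ} {x x' y y' : Nam P} {p : P} (hx : feq x x' p)
    (hy : feq y y' p) (h : RR U n x y p) : RR U n x' y' p :=
  fmem_congr_left (feq_opair (feq_opair (feq_refl _ _) hx) hy) h

theorem RR.act {H : Subgroup G} {U : Nam P} (hU : FixN H U) {g : G} (hg : g ∈ H) (n : ℕ)
    (x y : Nam P) (p : P) : RR U n (Sym.act g x) (Sym.act g y) (g • p) ↔ RR U n x y p := by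
  unfold RR
  rw [← hU.fmem_iff hg (Nam.opair (Nam.opair (Nam.fin n) x) y) p, act_opair, act_opair, act_fin]

/-- `R_m ∘ R_m ⊆ R_n` is forced. -/
def Comp (𝓢 : SymSys G) (Z U : Nam P) (n m : ℕ) (q : P) : Prop :=
  ∀ x, HS 𝓢 x → ∀ y, HS 𝓢 y → ∀ z, HS 𝓢 z → ∀ r ≤ q, fmem x Z r → fmem y Z r → fmem z Z r →
    RR U m x y r → RR U m y z r → RR U n x z r

/-- `y` is a net for `R_n`. -/
def Net (𝓢 : SymSys G) (Z U : Nam P) (n m : ℕ) (y : Fin m → Nam P) (q : P) : Prop :=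
  (∀ j, fmem (y j) Z q) ∧ ∀ z, HS 𝓢 z → ∀ r ≤ q, fmem z Z r → DB (fun s => ∃ j, RR U n z (y j) s) r

/-- There is a net of size `m` for `R_n`. -/
def TB (𝓢 : SymSys G) (Z U : Nam P) (n m : ℕ) (q : P) : Prop :=
  DB (fun q => ∃ y : Fin m → Nam P, (∀ j, HS 𝓢 (y j)) ∧ Net 𝓢 Z U n m y q) q

/-- `U` is forced to code a countable base of a Hausdorff totally bounded uniformity on `Z`. -/
structure HF (𝓢 : SymSys G) (Z U : Nam P) (p : P) : Prop where
  symm : ∀ n x, HS 𝓢 x → ∀ y, HS 𝓢 y → ∀ q ≤ p, fmem x Z q → fmem y Z q → RR U n x y q →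
    RR U n y x q
  comp : ∀ n, DB (fun q => ∃ m, Comp 𝓢 Z U n m q) p
  haus : ∀ x, HS 𝓢 x → ∀ y, HS 𝓢 y → ∀ q ≤ p, fmem x Z q → fmem y Z q → (∀ n, RR U n x y q) →
    feq x y q
  tb : ∀ n, DB (fun q => ∃ m, TB 𝓢 Z U n m q) p

/-- `Z` is forced to have a countable dense subset. -/
def CF (𝓢 : SymSys G) (Z U : Nam P) (p : P) : Prop :=
  ∃ F, HS 𝓢 F ∧ (∀ k y, HS 𝓢 y → ∀ y', HS 𝓢 y' → ∀ q ≤ p, fmem (Nam.opair (Nam.fin k) y) F q →
      fmem (Nam.opair (Nam.fin k) y') F q → feq y y' q) ∧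
    ∀ n z, HS 𝓢 z → ∀ q ≤ p, fmem z Z q → DB (fun r => ∃ k y, HS 𝓢 y ∧ fmem y Z r ∧
      fmem (Nam.opair (Nam.fin k) y) F r ∧ RR U n z y r) q

theorem Comp.mono {Z U : Nam P} {n m : ℕ} {p q : P} (hq : q ≤ p) (h : Comp 𝓢 Z U n m p) :
    Comp 𝓢 Z U n m q := fun x hx y hy z hz r hr => h x hx y hy z hz r (hr.trans hq)

theorem Comp.reg (Z U : Nam P) (n m : ℕ) : Reg (Comp 𝓢 Z U n m) := by
  refine ⟨fun hq h => h.mono hq, fun {p} h => ?_⟩
  intro x hx y hy z hz r hr h1 h2 h3 h4 h5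
  refine (RR.reg U n x z).reg fun s hs => ?_
  obtain ⟨t, ht, h'⟩ := h s (hs.trans hr)
  have htr := ht.trans hs
  exact ⟨t, ht, h' x hx y hy z hz t le_rfl (fmem_mono htr h1) (fmem_mono htr h2)
    (fmem_mono htr h3) (h4.mono htr) (h5.mono htr)⟩

theorem Comp.act {H : Subgroup G} {Z U : Nam P} (hZ : FixN H Z) (hU : FixN H U) {g : G}
    (hg : g ∈ H) (n m : ℕ) (p : P) : Comp 𝓢 Z U n m (g • p) ↔ Comp 𝓢 Z U n m p := by
  unfold Comp
  rw [forall_HS_act g]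
  refine forall_congr' fun x => forall_congr' fun _ => ?_
  rw [forall_HS_act g]
  refine forall_congr' fun y => forall_congr' fun _ => ?_
  rw [forall_HS_act g]
  refine forall_congr' fun z => forall_congr' fun _ => ?_
  rw [forall_le_smul]
  refine forall_congr' fun r => forall_congr' fun _ => ?_
  rw [hZ.fmem_iff hg, hZ.fmem_iff hg, hZ.fmem_iff hg, RR.act hU hg, RR.act hU hg, RR.act hU hg]

theorem Net.mono {Z U : Nam P} {n m : ℕ} {y : Fin m → Nam P} {p q : P} (hq : q ≤ p)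
    (h : Net 𝓢 Z U n m y p) : Net 𝓢 Z U n m y q :=
  ⟨fun j => fmem_mono hq (h.1 j), fun z hz r hr => h.2 z hz r (hr.trans hq)⟩

theorem Net.act {H : Subgroup G} {Z U : Nam P} (hZ : FixN H Z) (hU : FixN H U) {g : G}
    (hg : g ∈ H) {n m : ℕ} {y : Fin m → Nam P} {p : P} (h : Net 𝓢 Z U n m y p) :
    Net 𝓢 Z U n m (fun j => Sym.act g (y j)) (g • p) := by
  refine ⟨fun j => (hZ.fmem_iff hg _ _).2 (h.1 j), ?_⟩
  rw [forall_HS_act g]
  intro z hz
  rw [forall_le_smul]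
  intro r hr h1
  rw [DB_smul]
  refine DB.imp (fun s _ h2 => ?_) (h.2 z hz r hr ((hZ.fmem_iff hg _ _).1 h1))
  obtain ⟨j, h2⟩ := h2
  exact ⟨j, (RR.act hU hg _ _ _ _).2 h2⟩

theorem TB.reg (Z U : Nam P) (n m : ℕ) : Reg (TB 𝓢 Z U n m) := DB.reg' _

theorem TB.mono {Z U : Nam P} {n m : ℕ} {p q : P} (hq : q ≤ p) (h : TB 𝓢 Z U n m p) :
    TB 𝓢 Z U n m q := (TB.reg Z U n m).mono hq h

theorem TB.act {H : Subgroup G} {Z U : Nam P} (hZ : FixN H Z) (hU : FixN H U) {g : G}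
    (hg : g ∈ H) {n m : ℕ} (p : P) : TB 𝓢 Z U n m (g • p) ↔ TB 𝓢 Z U n m p := by
  have key : ∀ g ∈ H, ∀ p, TB 𝓢 Z U n m p → TB 𝓢 Z U n m (g • p) := by
    intro g hg p h
    unfold TB
    rw [DB_smul]
    refine DB.imp (fun q _ h1 => ?_) h
    obtain ⟨y, hy, h1⟩ := h1
    exact ⟨fun j => Sym.act g (y j), fun j => (hy j).smul g, h1.act hZ hU hg⟩
  refine ⟨fun h => ?_, key g hg p⟩
  have := key g⁻¹ (inv_mem hg) _ h
  rwa [inv_smul_smul] at this

theorem HF.mono {Z U : Nam P} {p q : P} (hq : q ≤ p) (h : HF 𝓢 Z U p) : HF 𝓢 Z U q :=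
  ⟨fun n x hx y hy r hr => h.symm n x hx y hy r (hr.trans hq), fun n => (h.comp n).mono hq,
    fun x hx y hy r hr => h.haus x hx y hy r (hr.trans hq), fun n => (h.tb n).mono hq⟩

theorem HF.reg (Z U : Nam P) : Reg (HF 𝓢 Z U) := by
  refine ⟨fun hq h => h.mono hq, fun {p} h => ⟨?_, ?_, ?_, ?_⟩⟩
  · intro n x hx y hy q hq h1 h2 h3
    refine (RR.reg U n y x).reg fun s hs => ?_
    obtain ⟨t, ht, h'⟩ := h s (hs.trans hq)
    have htq := ht.trans hs
    exact ⟨t, ht, h'.symm n x hx y hy t le_rfl (fmem_mono htq h1) (fmem_mono htq h2)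
      (h3.mono htq)⟩
  · intro n
    refine (DB.reg' _).reg fun s hs => ?_
    obtain ⟨t, ht, h'⟩ := h s hs
    exact ⟨t, ht, h'.comp n⟩
  · intro x hx y hy q hq h1 h2 h3
    refine feq_reg fun s hs => ?_
    obtain ⟨t, ht, h'⟩ := h s (hs.trans hq)
    have htq := ht.trans hs
    exact ⟨t, ht, h'.haus x hx y hy t le_rfl (fmem_mono htq h1) (fmem_mono htq h2)
      fun n => (h3 n).mono htq⟩
  · intro n
    refine (DB.reg' _).reg fun s hs => ?_
    obtain ⟨t, ht, h'⟩ := h s hs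
    exact ⟨t, ht, h'.tb n⟩

theorem HF.act {H : Subgroup G} {Z U : Nam P} (hZ : FixN H Z) (hU : FixN H U) {g : G}
    (hg : g ∈ H) (p : P) : HF 𝓢 Z U (g • p) ↔ HF 𝓢 Z U p := by
  have key : ∀ g ∈ H, ∀ p, HF 𝓢 Z U p → HF 𝓢 Z U (g • p) := by
    intro g hg p h
    refine ⟨fun n => ?_, fun n => ?_, ?_, fun n => ?_⟩
    · rw [forall_HS_act g]
      intro x hx
      rw [forall_HS_act g]
      intro y hy
      rw [forall_le_smul]
      intro r hr
      rw [hZ.fmem_iff hg, hZ.fmem_iff hg, RR.act hU hg, RR.act hU hg]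
      exact h.symm n x hx y hy r hr
    · rw [DB_smul]
      refine DB.imp (fun q _ h1 => ?_) (h.comp n)
      obtain ⟨m, h1⟩ := h1
      exact ⟨m, (Comp.act hZ hU hg n m q).2 h1⟩
    · rw [forall_HS_act g]
      intro x hx
      rw [forall_HS_act g]
      intro y hy
      rw [forall_le_smul]
      intro r hr
      rw [hZ.fmem_iff hg, hZ.fmem_iff hg, feq_act]
      intro h1 h2 h3
      exact h.haus x hx y hy r hr h1 h2 fun n => (RR.act hU hg n x y r).1 (h3 n)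
    · rw [DB_smul]
      refine DB.imp (fun q _ h1 => ?_) (h.tb n)
      obtain ⟨m, h1⟩ := h1
      exact ⟨m, (TB.act hZ hU hg q).2 h1⟩
  refine ⟨fun h => ?_, key g hg p⟩
  have := key g⁻¹ (inv_mem hg) _ h
  rwa [inv_smul_smul] at this

/-- Two members of a sequence of more than `m` points are close, if there is a net of size `m`. -/
theorem pigeon {Z U : Nam P} {n m M : ℕ} {p : P} (hsym : ∀ n x, HS 𝓢 x → ∀ y, HS 𝓢 y → ∀ q ≤ p,
      fmem x Z q → fmem y Z q → RR U n x y q → RR U n y x q)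
    (hC : Comp 𝓢 Z U n m p) (hT : TB 𝓢 Z U m M p) (s : ℕ → Nam P) (hs : ∀ i, HS 𝓢 (s i))
    (hsZ : ∀ i ≤ M, fmem (s i) Z p) :
    ∃ q ≤ p, ∃ i j, i < j ∧ j ≤ M ∧ RR U n (s i) (s j) q := by
  obtain ⟨q, hq, y, hy, hN⟩ := hT p le_rfl
  obtain ⟨r, hr, h1⟩ := DB.simul (S := fun i r => ∃ j, RR U m (s i) (y j) r)
    (fun i {_ _} h ⟨j, h'⟩ => ⟨j, h'.mono h⟩) (M + 1) (p := q) fun i hi =>
      hN.2 (s i) (hs i) q le_rfl (fmem_mono hq (hsZ i (by omega)))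
  have hne : Nonempty (Fin M) := ⟨(h1 0 (by omega)).choose⟩
  choose! J hJ using h1
  have hcard : Fintype.card (Fin M) < Fintype.card (Fin (M + 1)) := by simp
  obtain ⟨i, j, hne, he⟩ := Fintype.exists_ne_map_eq_of_card_lt
    (fun i : Fin (M + 1) => J i.1) hcard
  have hrp := hr.trans hq
  have key : ∀ i j : ℕ, i ≤ M → j ≤ M → J i = J j → RR U n (s i) (s j) r := by
    intro i j hi hj hij
    have h2 : RR U m (s i) (y (J i)) r := hJ i (by omega)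
    have h3 : RR U m (y (J i)) (s j) r := by
      rw [hij]
      exact hsym m _ (hs j) _ (hy _) r hrp (fmem_mono hrp (hsZ j hj)) (fmem_mono hr (hN.1 _))
        (hJ j (by omega))
    exact hC _ (hs i) _ (hy _) _ (hs j) r hrp (fmem_mono hrp (hsZ i hi)) (fmem_mono hr (hN.1 _))
      (fmem_mono hrp (hsZ j hj)) h2 h3
  rcases lt_or_gt_of_ne (fun h => hne (Fin.ext h) : i.1 ≠ j.1) with h | h
  · exact ⟨r, hrp, i, j, h, by omega, key i j (by omega) (by omega) he⟩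
  · exact ⟨r, hrp, j, i, h, by omega, key j i (by omega) (by omega) he.symm⟩

end inv

end Pool.Agent.Sym
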