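import Pool.Agent.Lib.MP_1454e8_lc.S7Def

/-!
# Removing the support in the third coordinate
-/

set_option autoImplicit false

namespace Pool.Agent.Sym

variable {K W : Type}

theorem Fx.fix {e : ℕ} {S : Set (Co K)} {g : Gt K} (hg : g ∈ Fx e S) {t : Co K} (ht : t ∈ S) :
    g.1 t = t := hg.2 t ht

theorem Fx.fix_inv {e : ℕ} {S : Set (Co K)} {g : Gt K} (hg : g ∈ Fx e S) {t : Co K} (ht : t ∈ S) :
    g.1⁻¹ t = t := by
  have h := (inv_mem hg : g⁻¹ ∈ Fx e S).2 t ht
  exact h

theorem Fx.lev {e : ℕ} {S : Set (Co K)} {g : Gt K} (hg : g ∈ Fx e S) {t : Co K} (ht : t.1 < e) :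
    (g.1 t).1 = t.1 ∧ (g.1 t).2.1 = t.2.1 := ⟨g.fst t, hg.1 t ht⟩

theorem res_eq_iff {E : Set (Co K)} {c : Cond K W} : res E c = c ↔ ∀ t, t ∉ E → c t = ⊤ := by
  constructor
  · intro h t ht
    rw [← h, res_out ht]
  · intro h
    refine Cond.ext fun t => ?_
    by_cases ht : t ∈ E
    · rw [res_in ht]
    · rw [res_out ht, h t ht]

theorem res_res {E : Set (Co K)} (c : Cond K W) : res E (res E c) = res E c :=
  res_eq_iff.2 fun _ ht => res_out ht

/-- Symmetries that agree on `E` act in the same way on conditions supported by `E`. -/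
theorem smul_eq_of_agree {E : Set (Co K)} {c : Cond K W} (hc : res E c = c) {g h : Gt K}
    (hgh : ∀ t ∈ E, g.1 t = h.1 t) : g • c = h • c := by
  rw [res_eq_iff] at hc
  have key : ∀ g h : Gt K, (∀ t ∈ E, g.1 t = h.1 t) → ∀ t, g.1⁻¹ t ∈ E → (g • c) t = (h • c) t := by
    intro g h hgh t ht
    have h1 : h.1⁻¹ t = g.1⁻¹ t := by
      have h2 := hgh _ ht
      rw [pinv_l] at h2
      have h3 : h.1⁻¹ t = h.1⁻¹ (h.1 (g.1⁻¹ t)) := congrArg _ h2
      rwa [pinv_r] at h3
    rw [Cond.smul_apply, Cond.smul_apply, h1]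
  refine Cond.ext fun t => ?_
  by_cases h1 : g.1⁻¹ t ∈ E
  · exact key g h hgh t h1
  · by_cases h2 : h.1⁻¹ t ∈ E
    · exact (key h g (fun t ht => (hgh t ht).symm) t h2).symm
    · rw [Cond.smul_apply, Cond.smul_apply, hc _ h1, hc _ h2]

theorem smul_eq_self {S : Set (Co K)} {c : Cond K W} (hc : res S c = c) {g : Gt K}
    (hg : ∀ t ∈ S, g.1 t = t) : g • c = c := by
  have h := smul_eq_of_agree (g := g) (h := 1) hc (fun t ht => (hg t ht).trans rfl)
  rwa [one_smul] at h

theorem LCond.le_top' (x : LCond W) : x ≤ ⊤ := le_top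

theorem top_smul (g : Gt K) : g • (topC : Cond K W) = topC := rfl

section step1

variable [Uncountable K] {Z U z : Nam (Cond K W)} {e e' : ℕ} {S E : Set (Co K)}

/-- The copies of `E \ S` under `g` and `h` are disjoint. -/
def Dj (S E : Set (Co K)) (g h : Gt K) : Prop := ∀ t ∈ E, t ∉ S → ∀ t' ∈ E, t' ∉ S → g.1 t ≠ h.1 t'

omit [Uncountable K] in
theorem Dj.symm {g h : Gt K} (hd : Dj S E g h) : Dj S E h g :=
  fun t ht ht' s hs hs' he => hd s hs hs' t ht ht' he.symm

/-- `c0` and `c1` force separated copies of `z`. -/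
def Sep (U z : Nam (Cond K W)) (e' : ℕ) (S E : Set (Co K)) (n : ℕ) (c0 c1 : Cond K W) : Prop :=
  ∀ g ∈ Fx e' S, ∀ h ∈ Fx e' S, Dj S E g h → ∀ d : Cond K W, d ≤ g • c0 → d ≤ h • c1 →
    ¬ RR U n (act g z) (act h z) d

/-- Independent copies of `z` are close. -/
def GoodC (U z : Nam (Cond K W)) (e' : ℕ) (S E : Set (Co K)) (n : ℕ) (c : Cond K W) : Prop :=
  ∀ a ∈ Fx e' S, Dj S E 1 a → ∀ d : Cond K W, d ≤ c → d ≤ a • c → RR U n z (act a z) d

omit [Uncountable K] in
theorem Sep.mono {n : ℕ} {c0 c1 c0' c1' : Cond K W} (h : Sep U z e' S E n c0 c1) (h0 : c0' ≤ c0)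
    (h1 : c1' ≤ c1) : Sep U z e' S E n c0' c1' :=
  fun g hg k hk hd d hd0 hd1 => h g hg k hk hd d (hd0.trans (smul_le' g h0))
    (hd1.trans (smul_le' k h1))

omit [Uncountable K] in
theorem GoodC.mono {n : ℕ} {c c' : Cond K W} (h : GoodC U z e' S E n c) (h0 : c' ≤ c) :
    GoodC U z e' S E n c' :=
  fun a ha hd d hd0 hd1 => h a ha hd d (hd0.trans h0) (hd1.trans (smul_le' a h0))

omit [Uncountable K] in
/-- Elements that agree on `E` act in the same way on `z`. -/
theorem act_agree (hz : FixN (Fx e' E) z) {g h : Gt K}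
    (hg : g ∈ Fx e' S) (hh : h ∈ Fx e' S) (hgh : ∀ t ∈ E, g.1 t = h.1 t) (p : Cond K W) :
    feq (act g z) (act h z) p := by
  have h1 : h⁻¹ * g ∈ Fx e' E := by
    refine ⟨fun t ht => ?_, fun t ht => ?_⟩
    · have h2 := ((mul_mem (inv_mem hh) hg : h⁻¹ * g ∈ Fx e' S)).1 t ht
      exact h2
    · change h.1⁻¹ (g.1 t) = t
      rw [hgh t ht, pinv_r]
  have h2 := hz _ h1 (h⁻¹ • p)
  have h3 := (feq_act h _ _ _).2 h2
  rw [smul_inv_smul, ← act_mul, mul_inv_cancel_left] at h3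
  exact h3

/-- A bad pair of conditions, below a condition that is not good. -/
theorem exists_sep (hSE : S ⊆ E) (hE : E.Finite) (hlev : ∀ t ∈ E, t.1 < e')
    (hz : FixN (Fx e' E) z) (hU : FixN (Fx e' S) U) {n : ℕ} {c : Cond K W} (hc : res E c = c)
    {a : Gt K} (ha : a ∈ Fx e' S) (hd : Dj S E 1 a) {d : Cond K W} (hd0 : d ≤ c) (hd1 : d ≤ a • c)
    (hR : ¬ RR U n z (act a z) d) :
    ∃ c0 c1 : Cond K W, c0 ≤ c ∧ c1 ≤ c ∧ res E c0 = c0 ∧ res E c1 = c1 ∧
      (∀ t ∈ S, c0 t = c1 t) ∧ Sep U z e' S E n c0 c1 := by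
  obtain ⟨d', hd', hR'⟩ : ∃ d' ≤ d, ∀ d'' ≤ d', ¬ RR U n z (act a z) d'' := by
    by_contra hcon
    push Not at hcon
    exact hR ((RR.reg U n z _).reg hcon)
  set X : Set (Co K) := E ∪ a.1 '' E with hX
  have hXfin : X.Finite := hE.union (hE.image _)
  -- homogeneity
  have hΦ : ∀ d'' ≤ res X d', ¬ RR U n z (act a z) d'' := by
    refine hom (S := fun d => ∀ d'' ≤ d, ¬ RR U n z (act a z) d'') (Reg.neg
      (RR.reg U n z (act a z)).mono) hXfin.countable ?_ hR'
    intro g hg hgX p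
    have hgS : g ∈ Fx e' S := Xi.mem_Fx hg (fun t ht => hgX t (Or.inl (hSE ht))) e'
    rw [forall_le_smul]
    refine forall_congr' fun q => forall_congr' fun _ => not_congr ?_
    rw [← RR.act hU hgS n z (act a z) q]
    have h1 : feq (act g z) z (g • q) := by
      have := act_agree hz hgS (one_mem _) (fun t ht => (hgX t (Or.inl ht))) (g • q)
      rwa [act_one] at this
    have h2 : feq (act g (act a z)) (act a z) (g • q) := by
      rw [← act_mul]
      exact act_agree hz (mul_mem hgS ha) ha (fun t ht => hgX _ (Or.inr ⟨t, ht, rfl⟩)) _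
    exact ⟨fun h => h.congr (feq_symm h1) (feq_symm h2), fun h => h.congr h1 h2⟩
  refine ⟨res E d', res E (a⁻¹ • d'), ?_, ?_, res_res _, res_res _, ?_, ?_⟩
  · have := res_mono E (hd'.trans hd0)
    rwa [hc] at this
  · have h1 : a⁻¹ • d' ≤ c := by
      rw [← le_smul_iff]; exact hd'.trans hd1
    have := res_mono E h1
    rwa [hc] at this
  · intro t ht
    rw [res_in (hSE ht), res_in (hSE ht), Cond.smul_apply]
    change d' t = d' (a.1⁻¹⁻¹ t)
    rw [inv_inv, Fx.fix ha ht]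
  · intro g hg h hh hgh d1 h0 h1 hRd
    classical
    -- the symmetry
    let f : Co K → Co K := fun x => if x ∈ E then g.1 x else h.1 (a.1⁻¹ x)
    have hf1 : ∀ x ∈ E, f x = g.1 x := fun x hx => if_pos hx
    have haE : ∀ x ∈ a.1 '' E, a.1⁻¹ x ∈ E := by
      rintro _ ⟨x, hx, rfl⟩
      rwa [pinv_r]
    have hmid : ∀ x ∈ E, x ∈ a.1 '' E → x ∈ S := by
      rintro x hx ⟨y, hy, rfl⟩
      by_contra hxS
      have hyS : y ∉ S := fun h => hxS (by rw [Fx.fix ha h]; exact h)
      exact hd _ hx hxS y hy hyS rfl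
    have hf2 : ∀ x ∈ a.1 '' E, f x = h.1 (a.1⁻¹ x) := by
      intro x hx
      by_cases hxE : x ∈ E
      · have hxS := hmid x hxE hx
        rw [hf1 x hxE, Fx.fix hg hxS, Fx.fix_inv ha hxS, Fx.fix hh hxS]
      · exact if_neg hxE
    have hcross : ∀ x ∈ E, ∀ y ∈ a.1 '' E, f x = f y → x = y := by
      intro x hx y hy he
      rw [hf1 x hx, hf2 y hy] at he
      by_cases hxS : x ∈ S
      · rw [Fx.fix hg hxS] at he
        have h2 : h.1 x = h.1 (a.1⁻¹ y) := by rw [Fx.fix hh hxS]; exact he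
        have h3 := h.1.injective h2
        rw [h3] at hxS
        have h4 := Fx.fix ha hxS
        rw [pinv_l] at h4
        rw [h3]
        exact h4.symm
      · by_cases hyS : a.1⁻¹ y ∈ S
        · rw [Fx.fix hh hyS] at he
          have h2 : g.1 x = g.1 (a.1⁻¹ y) := by rw [Fx.fix hg hyS]; exact he
          have h3 := g.1.injective h2
          rw [← h3] at hyS
          exact absurd hyS hxS
        · exact absurd he (hgh x hx hxS _ (haE y hy) hyS)
    have hfinj : Set.InjOn f X := by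
      rintro x (hx | hx) y (hy | hy) he
      · rw [hf1 x hx, hf1 y hy] at he
        exact g.1.injective he
      · exact hcross x hx y hy he
      · exact (hcross y hy x hx he.symm).symm
      · rw [hf2 x hx, hf2 y hy] at he
        have h2 := h.1.injective he
        have h3 : a.1 (a.1⁻¹ x) = a.1 (a.1⁻¹ y) := by rw [h2]
        rwa [pinv_l, pinv_l] at h3
    have hffib : ∀ t ∈ X, (f t).1 = t.1 ∧ (f t).2.1 = t.2.1 := by
      rintro x (hx | hx)
      · rw [hf1 x hx]
        exact Fx.lev hg (hlev x hx)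
      · rw [hf2 x hx]
        have h2 := Fx.lev hh (hlev _ (haE x hx))
        have h3 := Fx.lev ha (hlev _ (haE x hx))
        rw [pinv_l] at h3
        exact ⟨h2.1.trans h3.1.symm, h2.2.trans h3.2.symm⟩
    obtain ⟨k, hk, hkf⟩ := exists_extend hXfin f hfinj hffib
    have hkS : k ∈ Fx e' S := by
      refine Xi.mem_Fx hk (fun t ht => ?_) e'
      rw [hkf t (Or.inl (hSE ht)), hf1 t (hSE ht), Fx.fix hg ht]
    have hkg : ∀ t ∈ E, k.1 t = g.1 t := fun t ht => by
      rw [hkf t (Or.inl ht), hf1 t ht]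
    have hkh : ∀ t ∈ E, (k * a).1 t = h.1 t := by
      intro t ht
      change k.1 (a.1 t) = h.1 t
      rw [hkf _ (Or.inr ⟨t, ht, rfl⟩), hf2 _ ⟨t, ht, rfl⟩, pinv_r]
    have e1 : k • res E d' = g • res E d' := smul_eq_of_agree (res_res _) hkg
    have e2 : (k * a) • res E (a⁻¹ • d') = h • res E (a⁻¹ • d') :=
      smul_eq_of_agree (res_res _) hkh
    have h2 : k⁻¹ • d1 ≤ res E d' := by
      rw [← le_smul_iff, e1]; exact h0
    have h3 : k⁻¹ • d1 ≤ a • res E (a⁻¹ • d') := by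
      rw [← le_smul_iff, ← mul_smul, e2]; exact h1
    have h4 : k⁻¹ • d1 ≤ res X d' := by
      intro t
      by_cases ht : t ∈ X
      · rw [res_in ht]
        rcases ht with ht | ht
        · have := h2 t
          rwa [res_in ht] at this
        · have := h3 t
          rw [Cond.smul_apply a, res_in (haE t ht), Cond.smul_apply a⁻¹] at this
          change (k⁻¹ • d1) t ≤ d' (a.1⁻¹⁻¹ (a.1⁻¹ t)) at this
          rwa [inv_inv, pinv_l] at this
      · rw [res_out ht]; exact le_top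
    refine hΦ _ h4 ?_
    have h5 : RR U n (act k z) (act (k * a) z) d1 :=
      hRd.congr (feq_symm (act_agree hz hkS hg hkg _))
        (feq_symm (act_agree hz (mul_mem hkS ha) hh hkh _))
    have h6 := (RR.act hU (inv_mem hkS) n _ _ d1).2 h5
    rwa [act_inv_act, act_mul, act_inv_act] at h6

/-- Moving `E \ S` away from a countable set. -/
theorem exists_fresh (hSE : S ⊆ E) (hE : E.Finite) {Y : Set (Co K)} (hY : Y.Countable) (e' : ℕ) :
    ∃ b ∈ Fx e' S, ∀ t ∈ E, t ∉ S → b.1 t ∉ Y := by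
  obtain ⟨b, hb, hbS, hbY⟩ := exists_move hE.countable hY (hE.subset hSE).countable
  exact ⟨b, Xi.mem_Fx hb hbS e', hbY⟩

omit [Uncountable K] in
/-- Amalgamation with a fresh copy. -/
theorem exists_amalg {d F : Cond K W} {b : Gt K} (hb : b ∈ Fx e' S)
    (hF : res E F = F) (hfr : ∀ t ∈ E, t ∉ S → b.1 t ∉ d.supp) (hS : ∀ t ∈ S, d t ≤ F t) :
    ∃ d' ≤ d, d' ≤ b • F ∧ ∀ t ∈ S, d' t = d t := by
  have hmem : ∀ t, t ∈ b.1 '' (E \ S) ↔ b.1⁻¹ t ∈ E \ S := by
    intro t
    constructor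
    · rintro ⟨s, hs, rfl⟩
      rwa [pinv_r]
    · intro h
      exact ⟨_, h, pinv_l _ _⟩
  refine ⟨glue (b.1 '' (E \ S)) (b • F) d, fun t => ?_, fun t => ?_, fun t ht => ?_⟩
  · by_cases ht : t ∈ b.1 '' (E \ S)
    · obtain ⟨s, hs, rfl⟩ := ht
      rw [Cond.eq_top (hfr s hs.1 hs.2)]
      exact le_top
    · rw [glue_out ht]
  · by_cases ht : t ∈ b.1 '' (E \ S)
    · rw [glue_in ht]
    · rw [glue_out ht, Cond.smul_apply]
      by_cases h1 : b.1⁻¹ t ∈ S
      · have h2 := Fx.fix hb h1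
        rw [pinv_l] at h2
        have h3 := hS _ h1
        rwa [← h2] at h3 ⊢
      · have h2 : b.1⁻¹ t ∉ E := fun h => ht ((hmem t).2 ⟨h, h1⟩)
        rw [res_eq_iff.1 hF _ h2]
        exact le_top
  · rw [glue_out]
    rw [hmem]
    rintro ⟨-, h⟩
    exact h (by rw [Fx.fix_inv hb ht]; exact ht)

/-- Independent copies of conditions with the same `S`-part. -/
theorem exists_copies (hSE : S ⊆ E) (hE : E.Finite) (F : ℕ → Cond K W)
    (hF : ∀ i, res E (F i) = F i) (k : ℕ) (hS : ∀ i < k, ∀ t ∈ S, F i t = F 0 t) :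
    ∃ (a : ℕ → Gt K) (d : Cond K W), (∀ i, a i ∈ Fx e' S) ∧ (∀ i < k, ∀ j < k, i ≠ j →
      Dj S E (a i) (a j)) ∧ (∀ i < k, d ≤ a i • F i) ∧ ∀ t ∈ S, d t = F 0 t := by
  induction k with
  | zero =>
    refine ⟨fun _ => 1, F 0, fun _ => one_mem _, fun i hi => absurd hi (by omega),
      fun i hi => absurd hi (by omega), fun t _ => rfl⟩
  | succ k ih =>
    obtain ⟨a, d, ha, hdj, hle, hdS⟩ := ih fun i hi => hS i (by omega)
    have hY : (d.supp ∪ ⋃ i, (a i).1 '' E).Countable :=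
      d.supp_countable.union (Set.countable_iUnion fun i => (hE.image _).countable)
    obtain ⟨b, hb, hbY⟩ := exists_fresh hSE hE hY e'
    obtain ⟨d', hd', hd'b, hd'S⟩ := exists_amalg hb (hF k) (d := d)
      (fun t ht ht' h => hbY t ht ht' (Or.inl h))
      (fun t ht => by rw [hdS t ht, hS k (by omega) t ht])
    have hfr : ∀ i, Dj S E (a i) b := by
      intro i t ht _ t' ht' ht'' he
      exact hbY t' ht' ht'' (Or.inr (Set.mem_iUnion.2 ⟨i, t, ht, he⟩))
    refine ⟨fun i => if i = k then b else a i, d', fun i => ?_, fun i hi j hj hij => ?_,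
      fun i hi => ?_, fun t ht => (hd'S t ht).trans (hdS t ht)⟩
    · dsimp only
      split
      · exact hb
      · exact ha i
    · dsimp only
      by_cases hik : i = k
      · have hjk : j ≠ k := fun h => hij (hik.trans h.symm)
        rw [if_pos hik, if_neg hjk]
        exact (hfr j).symm
      · rw [if_neg hik]
        by_cases hjk : j = k
        · rw [if_pos hjk]; exact hfr i
        · rw [if_neg hjk]; exact hdj i (by omega) j (by omega) hij
    · dsimp only
      by_cases hik : i = k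
      · rw [if_pos hik, hik]; exact hd'b
      · rw [if_neg hik]; exact hd'.trans (hle i (by omega))

/-- The standing assumptions. -/
structure Std (Z U z : Nam (Cond K W)) (e e' : ℕ) (S E : Set (Co K)) : Prop where
  hSE : S ⊆ E
  hE : E.Finite
  hee : e ≤ e'
  hlev : ∀ t ∈ E, t.1 < e'
  hZ : FixN (Fx e S) Z
  hU : FixN (Fx e S) U
  hz : HS (sys K) z
  hzE : FixN (Fx e' E) z

variable (hs : Std Z U z e e' S E)

include hs

omit [Uncountable K] in
theorem Std.sub : Fx e' S ≤ Fx e S := Fx.mono hs.hee subset_rfl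

omit [Uncountable K] in
theorem Std.memZ {c d : Cond K W} (hzc : fmem z Z c) {g : Gt K} (hg : g ∈ Fx e' S)
    (hd : d ≤ g • c) : fmem (act g z) Z d :=
  fmem_mono hd ((hs.hZ.fmem_iff (hs.sub hg) z c).2 hzc)

/-- Claim A. -/
theorem Std.claimA {c : Cond K W} (hc : res E c = c) (hH : HF (sys K) Z U c)
    (hzc : fmem z Z c) (n : ℕ) : ∃ c' ≤ c, res E c' = c' ∧ GoodC U z e' S E n c' := by
  by_contra hcon
  push Not at hcon
  -- the parameters
  obtain ⟨q, hq, m, hm⟩ := hH.comp n c le_rfl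
  obtain ⟨q', hq', M, hM⟩ := hH.tb m q hq
  have hSc : S.Countable := (hs.hE.subset hs.hSE).countable
  have hinvX : ∀ g ∈ Xi K, (∀ t ∈ S, g.1 t = t) → g ∈ Fx e S := fun g hg h => Xi.mem_Fx hg h e
  have hm' : Comp (sys K) Z U n m (res S q') :=
    hom (Comp.reg Z U n m) hSc (fun g hg hgS p => Comp.act hs.hZ hs.hU (hinvX g hg hgS) n m p)
      (hm.mono hq')
  have hM' : TB (sys K) Z U m M (res S q') :=
    hom (TB.reg Z U m M) hSc (fun g hg hgS p => TB.act hs.hZ hs.hU (hinvX g hg hgS) p) hM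
  set c1 := res E q' with hc1
  have hc1c : c1 ≤ c := by
    have := res_mono E (hq'.trans hq)
    rwa [hc] at this
  have hres : ∀ d : Cond K W, (∀ t ∈ S, d t ≤ c1 t) → d ≤ res S q' := by
    intro d hd t
    by_cases ht : t ∈ S
    · rw [res_in ht]
      have := hd t ht
      rwa [hc1, res_in (hs.hSE ht)] at this
    · rw [res_out ht]; exact le_top
  -- separated families
  have hfam : ∀ k : ℕ, ∀ c' ≤ c1, res E c' = c' → ∃ F : ℕ → Cond K W,
      (∀ i, F i ≤ c' ∧ res E (F i) = F i) ∧ (∀ i, ∀ t ∈ S, F i t = F 0 t) ∧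
      ∀ i j, i < j → j ≤ k → Sep U z e' S E n (F i) (F j) := by
    intro k
    induction k with
    | zero =>
      intro c' _ hc'E
      exact ⟨fun _ => c', fun _ => ⟨le_rfl, hc'E⟩, fun _ _ _ => rfl,
        fun i j h1 h2 => absurd h1 (by omega)⟩
    | succ k ih =>
      intro c' hc' hc'E
      have h1 := hcon c' (hc'.trans hc1c) hc'E
      unfold GoodC at h1
      push Not at h1
      obtain ⟨a, ha, hd, d, hd0, hd1, hR⟩ := h1
      obtain ⟨d0, d1, h2, h3, h4, h5, h6, h7⟩ := exists_sep hs.hSE hs.hE hs.hlev hs.hzE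
        (hs.hU.mono hs.sub) hc'E ha hd hd0 hd1 hR
      obtain ⟨F, hF1, hF2, hF3⟩ := ih d1 (h3.trans hc') h5
      have hg0 : glue S (F 0) d0 ≤ d0 := by
        intro t
        by_cases ht : t ∈ S
        · rw [glue_in ht, h6 t ht]; exact (hF1 0).1 t
        · rw [glue_out ht]
      refine ⟨fun i => Nat.casesOn i (glue S (F 0) d0) F, fun i => ?_, fun i t ht => ?_,
        fun i j hij hj => ?_⟩
      · cases i with
        | zero =>
          refine ⟨hg0.trans h2, res_eq_iff.2 fun t ht => ?_⟩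
          change glue S (F 0) d0 t = ⊤
          rw [glue_out (fun h => ht (hs.hSE h))]
          exact res_eq_iff.1 h4 t ht
        | succ i => exact ⟨(hF1 i).1.trans h3, (hF1 i).2⟩
      · cases i with
        | zero => rfl
        | succ i =>
          change F i t = glue S (F 0) d0 t
          rw [glue_in ht]
          exact hF2 i t ht
      · cases j with
        | zero => exact absurd hij (by omega)
        | succ j =>
          cases i with
          | zero => exact h7.mono hg0 (hF1 j).1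
          | succ i => exact hF3 i j (by omega) (by omega)
  obtain ⟨F, hF1, hF2, hF3⟩ := hfam M c1 le_rfl (res_res _)
  obtain ⟨a, d, ha, hdj, hle, hdS⟩ := exists_copies (e' := e') hs.hSE hs.hE F
    (fun i => (hF1 i).2) (M + 1) (fun i _ => hF2 i)
  have hdr : d ≤ res S q' := hres d fun t ht => by
    rw [hdS t ht]; exact (hF1 0).1 t
  obtain ⟨d2, hd2, i, j, hij, hj, hR⟩ := pigeon (p := d) (n := n) (m := m) (M := M)
    (s := fun i => act (a i) z)
    (fun n x hx y hy q hq hxq hyq hR => by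
      have hqc : (a 0)⁻¹ • q ≤ c := by
        rw [← le_smul_iff]
        exact hq.trans ((hle 0 (by omega)).trans (smul_le' _ ((hF1 0).1.trans hc1c)))
      have ha0 := inv_mem (hs.sub (ha 0))
      have h1 := hH.symm n (act (a 0)⁻¹ x) (hx.smul _) (act (a 0)⁻¹ y) (hy.smul _) _ hqc
        ((hs.hZ.fmem_iff ha0 _ _).2 hxq) ((hs.hZ.fmem_iff ha0 _ _).2 hyq)
        ((RR.act hs.hU ha0 _ _ _ _).2 hR)
      exact (RR.act hs.hU ha0 _ _ _ _).1 h1)
    (hm'.mono hdr) (hM'.mono hdr) (fun i => hs.hz.smul _)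
    (fun i hi => hs.memZ (fmem_mono ((hF1 i).1.trans hc1c) hzc) (ha i) (hle i (by omega)))
  exact hF3 i j hij hj (a i) (ha i) (a j) (ha j) (hdj i (by omega) j (by omega) (by omega)) d2
    (hd2.trans (hle i (by omega))) (hd2.trans (hle j (by omega))) hR

/-- Claim B. -/
theorem Std.claimB {c : Cond K W} (hc : res E c = c) (hH : HF (sys K) Z U c)
    (hzc : fmem z Z c) : ∃ c' ≤ c, res E c' = c' ∧ ∀ n, GoodC U z e' S E n c' := by
  have key : ∀ (n : ℕ) (x : {x : Cond K W // x ≤ c ∧ res E x = x}),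
      ∃ y : {x : Cond K W // x ≤ c ∧ res E x = x}, y.1 ≤ x.1 ∧ GoodC U z e' S E n y.1 := by
    intro n x
    obtain ⟨c', h1, h2, h3⟩ := hs.claimA x.2.2 (hH.mono x.2.1) (fmem_mono x.2.1 hzc) n
    exact ⟨⟨c', h1.trans x.2.1, h2⟩, h1, h3⟩
  choose f hf1 hf2 using key
  let p : ℕ → {x : Cond K W // x ≤ c ∧ res E x = x} := fun n =>
    Nat.rec ⟨c, le_rfl, hc⟩ (fun n x => f n x) n
  obtain ⟨q, hq, hqE⟩ := exists_lower (fun n => (p n).1) (fun n => hf1 n (p n))
  exact ⟨q, hq 0, hqE E fun n => (p n).2.2, fun n => (hf2 n (p n)).mono (hq (n + 1))⟩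

/-- Claim B for arbitrary copies. -/
theorem Std.claimB' {c : Cond K W} (hc : res E c = c) (hH : HF (sys K) Z U c)
    (hzc : fmem z Z c) (hG : ∀ n, GoodC U z e' S E n c) {g h : Gt K} (hg : g ∈ Fx e' S)
    (hh : h ∈ Fx e' S) {d : Cond K W} (hdg : d ≤ g • c) (hdh : d ≤ h • c) :
    feq (act g z) (act h z) d := by
  have key : ∀ g ∈ Fx e' S, ∀ b ∈ Fx e' S, (∀ t ∈ E, t ∉ S → b.1 t ∉ g.1 '' E) →
      ∀ d : Cond K W, d ≤ g • c → d ≤ b • c → feq (act g z) (act b z) d := by
    intro g hg b hb hfr d h1 h2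
    have hgb : g⁻¹ * b ∈ Fx e' S := mul_mem (inv_mem hg) hb
    have hdj : Dj S E 1 (g⁻¹ * b) := by
      intro t ht _ t' ht' ht'' he
      change t = g.1⁻¹ (b.1 t') at he
      refine hfr t' ht' ht'' ⟨t, ht, ?_⟩
      rw [he, pinv_l]
    have h3 : g⁻¹ • d ≤ c := by rw [← le_smul_iff]; exact h1
    have h4 : g⁻¹ • d ≤ (g⁻¹ * b) • c := by
      rw [mul_smul]; exact smul_le' _ h2
    have h5 : feq z (act (g⁻¹ * b) z) (g⁻¹ • d) :=
      hH.haus z hs.hz _ (hs.hz.smul _) _ h3 (fmem_mono h3 hzc) (hs.memZ hzc hgb h4)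
        fun n => hG n _ hgb hdj _ h3 h4
    have h6 := (feq_act g _ _ _).2 h5
    rwa [smul_inv_smul, ← act_mul, mul_inv_cancel_left] at h6
  refine feq_reg fun d1 hd1 => ?_
  have hY : (d1.supp ∪ (g.1 '' E ∪ h.1 '' E)).Countable :=
    d1.supp_countable.union ((hs.hE.image _).union (hs.hE.image _)).countable
  obtain ⟨b, hb, hbY⟩ := exists_fresh hs.hSE hs.hE hY e'
  obtain ⟨d', hd', hd'b, -⟩ := exists_amalg hb hc (d := d1)
    (fun t ht ht' h => hbY t ht ht' (Or.inl h))
    (fun t ht => by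
      have := (hd1.trans hdg) t
      rwa [Cond.smul_apply, Fx.fix_inv hg ht] at this)
  refine ⟨d', hd', ?_⟩
  have h1 := key g hg b hb (fun t ht ht' h => hbY t ht ht' (Or.inr (Or.inl h))) d'
    (hd'.trans (hd1.trans hdg)) hd'b
  have h2 := key h hh b hb (fun t ht ht' h => hbY t ht ht' (Or.inr (Or.inr h))) d'
    (hd'.trans (hd1.trans hdh)) hd'b
  exact feq_trans h1 (feq_symm h2)

/-- Step 1: the support can be reduced to `S`. -/
theorem Std.step1 {u0 : Cond K W} (hu : res S u0 = u0) (hH : HF (sys K) Z U u0)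
    {q : Cond K W} (hq : q ≤ u0) (hzq : fmem z Z q) :
    ∃ r ≤ q, ∃ z', HS (sys K) z' ∧ FixN (Fx e' S) z' ∧ feq z z' r := by
  have hEc : E.Countable := hs.hE.countable
  have h1 : fmem z Z (res E q) := by
    refine hom (fmemReg z Z) hEc ?_ hzq
    intro g hg hgE p
    have hgS : g ∈ Fx e' E := Xi.mem_Fx hg hgE e'
    have hgS' : g ∈ Fx e S := Fx.mono hs.hee hs.hSE hgS
    rw [← hs.hZ.fmem_iff hgS' z p]
    exact ⟨fun h => fmem_congr_left (feq_symm (hs.hzE g hgS _)) h,
      fun h => fmem_congr_left (hs.hzE g hgS _) h⟩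
  have h2 : res E q ≤ u0 := by
    have h3 : res E u0 = u0 := res_eq_iff.2 fun t ht =>
      res_eq_iff.1 hu t fun h => ht (hs.hSE h)
    have := res_mono E hq
    rwa [h3] at this
  have hH' := hH.mono h2
  obtain ⟨c, hc, hcE, hG⟩ := hs.claimB (res_res q) hH' h1
  obtain ⟨z', hz', hz'f, hzz'⟩ := symmetrize (𝓢 := sys K) (Fx_mem (e := e')
    (hs.hE.subset hs.hSE)) c hs.hz (fun g hg d hd hdg => by
      have := hs.claimB' hcE (hH'.mono hc) (fmem_mono hc h1) hG hg (one_mem _) hdg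
        (by rw [one_smul]; exact hd)
      rwa [act_one] at this)
  refine ⟨glue E c q, fun t => ?_, z', hz', hz'f, feq_mono (fun t => ?_) hzz'⟩
  · by_cases ht : t ∈ E
    · rw [glue_in ht]
      have := hc t
      rwa [res_in ht] at this
    · rw [glue_out ht]
  · by_cases ht : t ∈ E
    · rw [glue_in ht]
    · rw [glue_out ht, res_eq_iff.1 hcE t ht]; exact le_top

end step1

end Pool.Agent.Sym
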