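import Pool.Agent.Lib.MP_1454e8_lc.S8Step1

/-!
# Removing the support in the blobs of a level
-/

set_option autoImplicit false

namespace Pool.Agent.Sym

variable {K W : Type}

/-- The permutation of the blobs of level `j`. -/
def lvlPerm (K : Type) (j : ℕ) (σ : Equiv.Perm ℕ) : Equiv.Perm (Co K) where
  toFun t := (t.1, if t.1 = j then σ t.2.1 else t.2.1, t.2.2)
  invFun t := (t.1, if t.1 = j then σ⁻¹ t.2.1 else t.2.1, t.2.2)
  left_inv t := by
    by_cases h : t.1 = j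
    · simp only [h, if_true, pinv_r]
      rw [← h]
    · simp only [h, if_false]
  right_inv t := by
    by_cases h : t.1 = j
    · simp only [h, if_true, pinv_l]
      rw [← h]
    · simp only [h, if_false]

/-- The symmetry that permutes the blobs of level `j`. -/
def lvl (K : Type) (j : ℕ) (σ : Alt) : Gt K :=
  ⟨lvlPerm K j σ.1, fun i => if i = j then σ else 1, fun t => ⟨rfl, by
    by_cases h : t.1 = j
    · change (if t.1 = j then σ.1 t.2.1 else t.2.1) = (if t.1 = j then σ else 1 : Alt).1 t.2.1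
      rw [if_pos h, if_pos h]
    · change (if t.1 = j then σ.1 t.2.1 else t.2.1) = (if t.1 = j then σ else 1 : Alt).1 t.2.1
      rw [if_neg h, if_neg h]
      rfl⟩⟩

theorem lvl_apply (j : ℕ) (σ : Alt) (t : Co K) :
    (lvl K j σ).1 t = (t.1, if t.1 = j then σ.1 t.2.1 else t.2.1, t.2.2) := rfl

theorem lvl_mul (j : ℕ) (σ τ : Alt) : lvl K j (σ * τ) = lvl K j σ * lvl K j τ := by
  apply Subtype.ext
  apply Equiv.ext
  intro t
  change (lvl K j (σ * τ)).1 t = (lvl K j σ).1 ((lvl K j τ).1 t)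
  rw [lvl_apply, lvl_apply, lvl_apply]
  by_cases h : t.1 = j
  · simp only [h, if_true]
    rfl
  · simp only [h, if_false]

theorem lvl_one (j : ℕ) : lvl K j 1 = 1 := by
  have h := lvl_mul (K := K) j 1 1
  rw [mul_one] at h
  exact mul_left_cancel (h.symm.trans (mul_one _).symm)

theorem lvl_inv (j : ℕ) (σ : Alt) : lvl K j σ⁻¹ = (lvl K j σ)⁻¹ := by
  rw [eq_inv_iff_mul_eq_one, ← lvl_mul, inv_mul_cancel, lvl_one]

theorem lvl_mem {j : ℕ} {S : Set (Co K)} (hS : ∀ t ∈ S, t.1 < j) (σ : Alt) :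
    lvl K j σ ∈ Fx j S := by
  refine ⟨fun t ht => ?_, fun t ht => ?_⟩
  · rw [lvl_apply]
    exact if_neg ht.ne
  · rw [lvl_apply, if_neg (hS t ht).ne]

theorem exists_lvl {j : ℕ} {S : Set (Co K)} (hS : ∀ t ∈ S, t.1 < j) {g : Gt K}
    (hg : g ∈ Fx j S) : ∃ σ, (lvl K j σ)⁻¹ * g ∈ Fx (j + 1) S := by
  obtain ⟨π, hπ⟩ := g.2
  refine ⟨π j, fun t ht => ?_, fun t ht => ?_⟩
  · rw [← lvl_inv]
    change ((lvl K j (π j)⁻¹).1 (g.1 t)).2.1 = t.2.1
    rw [lvl_apply, g.fst]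
    rcases Nat.lt_succ_iff_lt_or_eq.1 ht with h | h
    · rw [if_neg h.ne]
      exact hg.1 t h
    · rw [if_pos h, (hπ t).2, h]
      exact pinv_r (π j).1 t.2.1
  · exact Fx.fix (mul_mem (inv_mem (lvl_mem hS _)) hg) ht

section decide

variable [Uncountable K]

theorem exists_decide {S : Set (Co K)} (hS : S.Countable) {Φ : Cond K W → Prop} (hΦ : Reg Φ)
    (hinv : ∀ g ∈ Xi K, (∀ t ∈ S, g.1 t = t) → ∀ p, Φ (g • p) ↔ Φ p) {c : Cond K W}
    (hc : res S c = c) : ∃ c' ≤ c, res S c' = c' ∧ (Φ c' ∨ ∀ d ≤ c', ¬ Φ d) := by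
  by_cases h : ∃ d ≤ c, Φ d
  · obtain ⟨d, hd, h⟩ := h
    refine ⟨res S d, ?_, res_res d, Or.inl (hom hΦ hS hinv h)⟩
    have := res_mono S hd
    rwa [hc] at this
  · push Not at h
    exact ⟨c, le_rfl, hc, Or.inr h⟩

/-- Countably many statements can be decided simultaneously. -/
theorem exists_decide_all {ι : Type*} [Countable ι] {S : Set (Co K)} (hS : S.Countable)
    {Φ : ι → Cond K W → Prop} (hΦ : ∀ i, Reg (Φ i))
    (hinv : ∀ i, ∀ g ∈ Xi K, (∀ t ∈ S, g.1 t = t) → ∀ p, Φ i (g • p) ↔ Φ i p) {c : Cond K W}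
    (hc : res S c = c) : ∃ c' ≤ c, res S c' = c' ∧ ∀ i, Φ i c' ∨ ∀ d ≤ c', ¬ Φ i d := by
  rcases isEmpty_or_nonempty ι with hι | hι
  · exact ⟨c, le_rfl, hc, fun i => (hι.false i).elim⟩
  obtain ⟨f, hf⟩ := exists_surjective_nat ι
  have key : ∀ (n : ℕ) (x : {x : Cond K W // x ≤ c ∧ res S x = x}),
      ∃ y : {x : Cond K W // x ≤ c ∧ res S x = x}, y.1 ≤ x.1 ∧
        (Φ (f n) y.1 ∨ ∀ d ≤ y.1, ¬ Φ (f n) d) := by
    intro n x
    obtain ⟨c', h1, h2, h3⟩ := exists_decide hS (hΦ (f n)) (hinv (f n)) x.2.2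
    exact ⟨⟨c', h1.trans x.2.1, h2⟩, h1, h3⟩
  choose F hF1 hF2 using key
  let p : ℕ → {x : Cond K W // x ≤ c ∧ res S x = x} := fun n =>
    Nat.rec ⟨c, le_rfl, hc⟩ (fun n x => F n x) n
  obtain ⟨q, hq, hqE⟩ := exists_lower (fun n => (p n).1) (fun n => hF1 n (p n))
  refine ⟨q, hq 0, hqE S fun n => (p n).2.2, fun i => ?_⟩
  obtain ⟨n, rfl⟩ := hf i
  rcases hF2 n (p n) with h | h
  · exact Or.inl ((hΦ _).mono (hq (n + 1)) h)
  · exact Or.inr fun d hd => h d (hd.trans (hq (n + 1)))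

end decide

variable [Uncountable K] {Z U z : Nam (Cond K W)} {e : ℕ} {S : Set (Co K)}

/-- Step 2: the blobs of level `j` can be removed from the support. -/
theorem step2 (hS : S.Finite) (hlev : ∀ t ∈ S, t.1 < e) (hZ : FixN (Fx e S) Z)
    (hU : FixN (Fx e S) U) {u0 : Cond K W} (hu : res S u0 = u0) (hH : HF (sys K) Z U u0)
    {j : ℕ} (hj : e ≤ j) (hz : HS (sys K) z) (hzf : FixN (Fx (j + 1) S) z) {q : Cond K W}
    (hq : q ≤ u0) (hzq : fmem z Z q) :
    ∃ r ≤ q, ∃ z', HS (sys K) z' ∧ FixN (Fx j S) z' ∧ feq z z' r := by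
  have hlevj : ∀ t ∈ S, t.1 < j := fun t ht => lt_of_lt_of_le (hlev t ht) hj
  have hsub : Fx j S ≤ Fx e S := Fx.mono hj subset_rfl
  have hsub' : Fx (j + 1) S ≤ Fx e S := Fx.mono (by omega) subset_rfl
  have hSc := hS.countable
  -- the name `λ σ z`
  have hconj : ∀ (σ : Alt) (g : Gt K), g ∈ Xi K → (∀ t ∈ S, g.1 t = t) → ∀ p,
      feq (act g (act (lvl K j σ) z)) (act (lvl K j σ) z) p := by
    intro σ g hg hgS p
    have h1 : (lvl K j σ)⁻¹ * g * lvl K j σ ∈ Fx (j + 1) S := by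
      refine ⟨fun t ht => ?_, fun t ht => ?_⟩
      · rw [← lvl_inv]
        change ((lvl K j σ⁻¹).1 (g.1 ((lvl K j σ).1 t))).2.1 = t.2.1
        rw [lvl_apply, g.fst, hg, lvl_apply]
        by_cases h : t.1 = j
        · simp only [h, if_true]
          exact pinv_r σ.1 t.2.1
        · simp only [h, if_false]
      · have h2 : g ∈ Fx j S := Xi.mem_Fx hg hgS j
        exact Fx.fix (mul_mem (mul_mem (inv_mem (lvl_mem hlevj σ)) h2) (lvl_mem hlevj σ)) ht
    have h2 := hzf _ h1 ((lvl K j σ)⁻¹ • p)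
    have h3 := (feq_act (lvl K j σ) _ _ _).2 h2
    rw [smul_inv_smul, ← act_mul, ← mul_assoc, mul_inv_cancel_left, act_mul] at h3
    exact h3
  -- decide everything
  have hc0 : res S q ≤ u0 := by
    have := res_mono S hq
    rwa [hu] at this
  have hzc0 : fmem z Z (res S q) := by
    refine hom (fmemReg z Z) hSc ?_ hzq
    intro g hg hgS p
    have hgS' : g ∈ Fx (j + 1) S := Xi.mem_Fx hg hgS _
    rw [← hZ.fmem_iff (hsub' hgS') z p]
    exact ⟨fun h => fmem_congr_left (feq_symm (hzf g hgS' _)) h,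
      fun h => fmem_congr_left (hzf g hgS' _) h⟩
  obtain ⟨c, hcq, hcS, hdec⟩ := exists_decide_all (ι := ℕ × Alt × Alt) hSc
    (Φ := fun i => RR U i.1 (act (lvl K j i.2.1) z) (act (lvl K j i.2.2) z))
    (fun i => RR.reg _ _ _ _) (fun i g hg hgS p => by
      have hgS' : g ∈ Fx e S := Xi.mem_Fx hg hgS _
      rw [← RR.act hU hgS' i.1 _ _ p]
      exact ⟨fun h => h.congr (feq_symm (hconj _ g hg hgS _)) (feq_symm (hconj _ g hg hgS _)),
        fun h => h.congr (hconj _ g hg hgS _) (hconj _ g hg hgS _)⟩) (res_res q)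
  have hHc : HF (sys K) Z U c := hH.mono (hcq.trans hc0)
  have hmem : ∀ σ : Alt, fmem (act (lvl K j σ) z) Z c := by
    intro σ
    have h1 := (hZ.fmem_iff (hsub (lvl_mem hlevj σ)) z c).2 (fmem_mono hcq hzc0)
    rwa [smul_eq_self hcS (fun t ht => Fx.fix (lvl_mem hlevj σ) ht)] at h1
  have hHS : ∀ σ : Alt, HS (sys K) (act (lvl K j σ) z) := fun σ => hz.smul _
  have hdec' : ∀ n (σ τ : Alt), (∃ d ≤ c, RR U n (act (lvl K j σ) z) (act (lvl K j τ) z) d) →
      RR U n (act (lvl K j σ) z) (act (lvl K j τ) z) c := by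
    rintro n σ τ ⟨d, hd, h⟩
    rcases hdec (n, σ, τ) with h1 | h1
    · exact h1
    · exact absurd h (h1 d hd)
  -- the 3-cycles are close to the identity
  have hclose : ∀ n (a b d : ℕ) (h1 : a ≠ b) (h2 : b ≠ d) (h3 : a ≠ d),
      RR U n (act (lvl K j 1) z) (act (lvl K j ⟨tc a b d, tc_mem h1 h2 h3⟩) z) c := by
    intro n a b d h1 h2 h3
    refine tc_close (fun n σ τ => RR U n (act (lvl K j σ) z) (act (lvl K j τ) z) c) ?_ ?_ ?_ ?_
      n a b d h1 h2 h3
    · intro n g σ τ h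
      have h4 := (RR.act hU (hsub (lvl_mem hlevj g)) n _ _ c).2 h
      rw [smul_eq_self hcS (fun t ht => Fx.fix (lvl_mem hlevj g) ht), ← act_mul, ← act_mul,
        ← lvl_mul, ← lvl_mul] at h4
      exact h4
    · intro n σ τ h
      exact hHc.symm n _ (hHS σ) _ (hHS τ) c le_rfl (hmem σ) (hmem τ) h
    · intro n
      obtain ⟨q', hq', m, hm⟩ := hHc.comp n c le_rfl
      refine ⟨m, fun σ τ υ h4 h5 => hdec' n σ υ ⟨q', hq', ?_⟩⟩
      exact hm _ (hHS σ) _ (hHS τ) _ (hHS υ) q' le_rfl (fmem_mono hq' (hmem σ))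
        (fmem_mono hq' (hmem τ)) (fmem_mono hq' (hmem υ)) (h4.mono hq') (h5.mono hq')
    · intro n s
      obtain ⟨q', hq', m, hm⟩ := hHc.comp n c le_rfl
      obtain ⟨q'', hq'', M, hM⟩ := hHc.tb m q' hq'
      obtain ⟨r, hr, i, k, hik, -, hR⟩ := pigeon (p := q'') (n := n) (m := m) (M := M)
        (s := fun i => act (lvl K j (s i)) z)
        (fun n x hx y hy r hr => hHc.symm n x hx y hy r (hr.trans (hq''.trans hq')))
        (hm.mono hq'') hM (fun i => hHS _) (fun i _ => fmem_mono (hq''.trans hq') (hmem _))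
      exact ⟨i, k, hik, hdec' n _ _ ⟨r, hr.trans (hq''.trans hq'), hR⟩⟩
  -- all blobs of the level
  have hfix : ∀ σ : Alt, feq (act (lvl K j σ) z) z c := by
    have key : ∀ σ (hσ : σ ∈ Alt), feq (act (lvl K j ⟨σ, hσ⟩) z) z c := by
      intro σ hσ
      refine Subgroup.closure_induction (p := fun σ hσ => feq (act (lvl K j ⟨σ, hσ⟩) z) z c)
        ?_ ?_ ?_ ?_ hσ
      · rintro σ ⟨a, b, d, h1, h2, h3, rfl⟩
        have h4 := hHc.haus _ (hHS 1) _ (hHS ⟨tc a b d, tc_mem h1 h2 h3⟩) c le_rfl (hmem _)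
          (hmem _) fun n => hclose n a b d h1 h2 h3
        rw [lvl_one, act_one] at h4
        exact feq_symm h4
      · change feq (act (lvl K j 1) z) z c
        rw [lvl_one, act_one]
        exact feq_refl _ _
      · intro σ τ hσ hτ h1 h2
        change feq (act (lvl K j (⟨σ, hσ⟩ * ⟨τ, hτ⟩)) z) z c
        rw [lvl_mul, act_mul]
        have h3 := (feq_act (lvl K j ⟨σ, hσ⟩) _ _ _).2 h2
        rw [smul_eq_self hcS (fun t ht => Fx.fix (lvl_mem hlevj _) ht)] at h3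
        exact feq_trans h3 h1
      · intro σ hσ h1
        change feq (act (lvl K j (⟨σ, hσ⟩⁻¹)) z) z c
        have h3 := (feq_act (lvl K j (⟨σ, hσ⟩⁻¹)) _ _ _).2 h1
        rw [smul_eq_self hcS (fun t ht => Fx.fix (lvl_mem hlevj _) ht), ← act_mul, ← lvl_mul,
          inv_mul_cancel, lvl_one, act_one] at h3
        exact feq_symm h3
    exact fun σ => key σ.1 σ.2
  obtain ⟨z', hz', hz'f, hzz'⟩ := symmetrize (𝓢 := sys K) (Fx_mem (e := j) hS) c hz
    (fun g hg d hd _ => by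
      obtain ⟨σ, hσ⟩ := exists_lvl hlevj hg
      have h1 := hzf _ hσ ((lvl K j σ)⁻¹ • d)
      have h2 := (feq_act (lvl K j σ) _ _ _).2 h1
      rw [smul_inv_smul, ← act_mul, mul_inv_cancel_left] at h2
      exact feq_trans h2 (feq_mono hd (hfix σ)))
  refine ⟨glue S c q, fun t => ?_, z', hz', hz'f, feq_mono (fun t => ?_) hzz'⟩
  · by_cases ht : t ∈ S
    · rw [glue_in ht]
      have := hcq t
      rwa [res_in ht] at this
    · rw [glue_out ht]
  · by_cases ht : t ∈ S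
    · rw [glue_in ht]
    · rw [glue_out ht, res_eq_iff.1 hcS t ht]; exact le_top

/-- Steps 1 and 2 together: points of `Z` have names with the support of `Z` and `U`. -/
theorem step12 (hS : S.Finite) (hlev : ∀ t ∈ S, t.1 < e) (hZ : FixN (Fx e S) Z)
    (hU : FixN (Fx e S) U) {u0 : Cond K W} (hu : res S u0 = u0) (hH : HF (sys K) Z U u0)
    (hz : HS (sys K) z) {q : Cond K W} (hq : q ≤ u0) (hzq : fmem z Z q) :
    ∃ r ≤ q, ∃ z', HS (sys K) z' ∧ FixN (Fx e S) z' ∧ feq z z' r := by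
  obtain ⟨H, ⟨e1, S1, hS1, hH1⟩, hzH⟩ := hz.sym
  have hz1 : FixN (Fx e1 S1) z := hzH.mono hH1
  obtain ⟨e2, he2⟩ : ∃ e2, ∀ t ∈ S1, t.1 < e2 := by
    obtain ⟨b, hb⟩ := (hS1.image (fun t : Co K => t.1)).bddAbove
    exact ⟨b + 1, fun t ht => Nat.lt_succ_of_le (hb ⟨t, ht, rfl⟩)⟩
  set e' := max e (max e1 e2) with he'
  have hs : Std Z U z e e' S (S ∪ S1) :=
    { hSE := Set.subset_union_left
      hE := hS.union hS1
      hee := le_max_left _ _
      hlev := by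
        rintro t (ht | ht)
        · exact lt_of_lt_of_le (hlev t ht) (le_max_left _ _)
        · exact lt_of_lt_of_le (he2 t ht) ((le_max_right _ _).trans (le_max_right _ _))
      hZ := hZ
      hU := hU
      hz := hz
      hzE := hz1.mono (Fx.mono ((le_max_left _ _).trans (le_max_right _ _))
        Set.subset_union_right) }
  obtain ⟨r, hr, z1, hz1, hz1f, hzz1⟩ := hs.step1 hu hH hq hzq
  -- going down
  have key : ∀ k (j : ℕ), j = e + k → ∀ z : Nam (Cond K W), HS (sys K) z → FixN (Fx j S) z →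
      ∀ q ≤ u0, fmem z Z q → ∃ r ≤ q, ∃ z', HS (sys K) z' ∧ FixN (Fx e S) z' ∧ feq z z' r := by
    intro k
    induction k with
    | zero =>
      rintro j rfl z hz hzf q _ _
      exact ⟨q, le_rfl, z, hz, hzf, feq_refl _ _⟩
    | succ k ih =>
      rintro j rfl z hz hzf q hq hzq
      obtain ⟨r, hr, z1, hz1, hz1f, hzz1⟩ := step2 hS hlev hZ hU hu hH (j := e + k) (by omega)
        hz hzf hq hzq
      obtain ⟨s, hs, z2, hz2, hz2f, hz12⟩ := ih (e + k) rfl z1 hz1 hz1f r (hr.trans hq)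
        (fmem_congr_left hzz1 (fmem_mono hr hzq))
      exact ⟨s, hs.trans hr, z2, hz2, hz2f, feq_trans (feq_mono hs hzz1) hz12⟩
  obtain ⟨k, hk⟩ : ∃ k, e' = e + k := ⟨e' - e, by omega⟩
  obtain ⟨s, hs', z2, hz2, hz2f, hz12⟩ := key k e' hk z1 hz1 hz1f r (hr.trans hq)
    (fmem_congr_left hzz1 (fmem_mono hr hzq))
  exact ⟨s, hs'.trans hr, z2, hz2, hz2f, feq_trans (feq_mono hs' hzz1) hz12⟩

end Pool.Agent.Sym
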