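import Pool.Agent.Lib.MP_1454e8_lc.THM

/-!
# Finite sets inside a model of ZF
-/

set_option autoImplicit false

namespace Pool.Agent.Sym

open Pool.Agent.Lib.MP_f5c99b_lc

universe u

variable {M : Type u} [Membership M M] [hZF : Fact (IsModelOfZF M)]

theorem isOmega_eq {w : M} (h : IsOmega w) : w = omega M := by
  have h1 : Ind w := ind_iff.mpr h.1
  refine ext fun n => ⟨fun hn => mem_omega.mpr fun b hb => ?_, fun hn => mem_omega.mp hn w h1⟩
  have hb' := ind_iff.mp hb
  exact h.2 b hb'.1 hb'.2 n hn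

theorem isFinite_iff {A : M} : IsFinite A ↔
    ∃ n f : M, n ∈ omega M ∧ IsFun f n A ∧ ∀ y : M, y ∈ A → ∃ x : M, App f x y := by
  constructor
  · rintro ⟨w, n, f, hw, h⟩
    rw [isOmega_eq hw] at h
    exact ⟨n, f, h⟩
  · rintro ⟨n, f, h⟩
    exact ⟨omega M, n, f, isOmega_omega, h⟩

instance D_IsFinite (s : (ℕ → M) → M) [DT s] : D (fun v => IsFinite (s v)) := by
  refine D1 (P := IsFinite) ?_ s
  simp only [isFinite_iff]
  infer_instance

theorem not_mem_self (n : M) : n ∉ n := by
  intro h
  obtain ⟨x, hx, h3⟩ := hZF.out.foundation (upair n n) ⟨n, mem_upair.mpr (Or.inl rfl)⟩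
  obtain rfl : x = n := by rcases mem_upair.mp hx with h | h <;> exact h
  exact h3 x h (mem_upair.mpr (Or.inr rfl))

theorem isFinite_emp : IsFinite (emp : M) := by
  refine isFinite_iff.mpr ⟨emp, emp, ind_omega.1, ⟨fun p hp => (not_mem_emp p hp).elim,
    fun x hx => (not_mem_emp x hx).elim⟩, fun y hy => (not_mem_emp y hy).elim⟩

/-- the set `A ∪ {a}` -/
noncomputable def ins (A a : M) : M := un A (upair a a)

theorem mem_ins {A a x : M} : x ∈ ins A a ↔ x ∈ A ∨ x = a := by
  simp [ins, mem_un, mem_upair]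

instance DT_ins (s t : (ℕ → M) → M) [DT s] [DT t] : DT (fun v => ins (s v) (t v)) := by
  unfold ins
  infer_instance

theorem IsFinite.ins {A : M} (h : IsFinite A) (a : M) : IsFinite (ins A a) := by
  obtain ⟨n, f, hn, hf, hs⟩ := isFinite_iff.mp h
  have hm : ∀ p, p ∈ Pool.Agent.Sym.ins f (pr n a) ↔ p ∈ f ∨ p = pr n a := fun p => mem_ins
  refine isFinite_iff.mpr ⟨suc n, Pool.Agent.Sym.ins f (pr n a), ind_omega.2 n hn, ⟨?_, ?_⟩, ?_⟩
  · intro p hp
    rcases (hm p).mp hp with hp | rfl
    · obtain ⟨x, y, hx, hy, h⟩ := hf.1 p hp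
      exact ⟨x, y, mem_suc.mpr (Or.inl hx), mem_ins.mpr (Or.inl hy), h⟩
    · exact ⟨n, a, mem_suc.mpr (Or.inr rfl), mem_ins.mpr (Or.inr rfl), isPair_iff.mpr rfl⟩
  · intro x hx
    rcases mem_suc.mp hx with hx | rfl
    · refine ⟨ap f x, app_iff.mpr ((hm _).mpr (Or.inl (app_iff.mp (hf.mem hx)))), ?_⟩
      intro y hy
      rcases (hm _).mp (app_iff.mp hy) with h1 | h1
      · exact (hf.app.mp (app_iff.mpr h1)).2
      · obtain ⟨rfl, _⟩ := pr_inj h1
        exact (not_mem_self _ hx).elim
    · refine ⟨a, app_iff.mpr ((hm _).mpr (Or.inr rfl)), ?_⟩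
      intro y hy
      rcases (hm _).mp (app_iff.mp hy) with h1 | h1
      · exact (not_mem_self _ (hf.app.mp (app_iff.mpr h1)).1).elim
      · exact (pr_inj h1).2
  · intro y hy
    rcases mem_ins.mp hy with hy | rfl
    · obtain ⟨x, hx⟩ := hs y hy
      exact ⟨x, app_iff.mpr ((hm _).mpr (Or.inl (app_iff.mp hx)))⟩
    · exact ⟨n, app_iff.mpr ((hm _).mpr (Or.inr rfl))⟩

/-- induction on finite sets -/
theorem finite_induction (P : M → Prop) [hP : D (fun v => P (v 0))] (h0 : P emp)
    (hs : ∀ A a, IsFinite A → P A → P (ins A a)) : ∀ A, IsFinite A → P A := by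
  have key : ∀ n, n ∈ omega M → ∀ A f, IsFun f n A → (∀ y, y ∈ A → ∃ x, App f x y) → P A := by
    have hD1 : D (fun v : ℕ → M => P (v 1)) := hP.perm (fun i => i + 1)
    refine omega_induction (fun n => ∀ A f, IsFun f n A → (∀ y, y ∈ A → ∃ x, App f x y) → P A)
      ?_ ?_
    · intro A f hf hA
      have : A = emp := by
        refine ext fun y => iff_of_false (fun hy => ?_) (not_mem_emp y)
        obtain ⟨x, hx⟩ := hA y hy
        exact not_mem_emp x (hf.app.mp hx).1
      rw [this]
      exact h0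
    · intro n hn ih A f hf hA
      have hmn : n ∈ suc n := mem_suc.mpr (Or.inr rfl)
      have hsub : ∀ x, x ∈ n → x ∈ suc n := fun x hx => mem_suc.mpr (Or.inl hx)
      -- the image of `n`
      let B : M := sep A (fun y => ∃ x, x ∈ n ∧ App f x y)
      have hB : ∀ y, y ∈ B ↔ y ∈ A ∧ ∃ x, x ∈ n ∧ App f x y := fun y => mem_sep
      have hg : ∀ x, x ∈ n → ap f x ∈ B := fun x hx =>
        (hB _).mpr ⟨hf.ap_mem (hsub x hx), x, hx, hf.mem (hsub x hx)⟩
      have hfun : IsFun (lam n (fun x => ap f x)) n B := isFun_lam hg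
      have hsur : ∀ y, y ∈ B → ∃ x, App (lam n (fun x => ap f x)) x y := by
        intro y hy
        obtain ⟨_, x, hx, hxy⟩ := (hB y).mp hy
        refine ⟨x, hfun.app.mpr ⟨hx, ?_⟩⟩
        rw [ap_lam hg hx]
        exact (hf.app.mp hxy).2
      have hPB : P B := ih B _ hfun hsur
      have hBf : IsFinite B := isFinite_iff.mpr ⟨n, _, hn, hfun, hsur⟩
      have hA' : A = ins B (ap f n) := by
        refine ext fun y => ?_
        rw [mem_ins, hB]
        constructor
        · intro hy
          obtain ⟨x, hx⟩ := hA y hy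
          obtain ⟨h1, h2⟩ := hf.app.mp hx
          rcases mem_suc.mp h1 with h1 | rfl
          · exact Or.inl ⟨hy, x, h1, hx⟩
          · exact Or.inr h2
        · rintro (h | rfl)
          · exact h.1
          · exact hf.ap_mem hmn
      rw [hA']
      exact hs B _ hBf hPB
  intro A hA
  obtain ⟨n, f, hn, hf, hs'⟩ := isFinite_iff.mp hA
  exact key n hn A f hf hs'

theorem IsFinite.union {A B : M} (hA : IsFinite A) (hB : IsFinite B) : IsFinite (un A B) := by
  refine finite_induction (fun B => IsFinite (un A B)) ?_ ?_ B hB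
  · have : un A emp = A := by
      refine ext fun x => ?_
      rw [mem_un]
      exact ⟨fun h => h.elim id fun h => (not_mem_emp x h).elim, Or.inl⟩
    rw [this]
    exact hA
  · intro B a _ h
    have : un A (Pool.Agent.Sym.ins B a) = Pool.Agent.Sym.ins (un A B) a := by
      refine ext fun x => ?_
      simp only [mem_un, mem_ins]
      tauto
    rw [this]
    exact h.ins a

theorem IsFinite.subset {A B : M} (hA : IsFinite A) (hB : ∀ x, x ∈ B → x ∈ A) : IsFinite B := by
  refine finite_induction (fun A => ∀ B, (∀ x, x ∈ B → x ∈ A) → IsFinite B) ?_ ?_ A hA B hB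
  · intro B hB
    have : B = emp := ext fun x => iff_of_false (fun h => not_mem_emp x (hB x h)) (not_mem_emp x)
    rw [this]
    exact isFinite_emp
  · intro A a _ ih B hB
    have h1 : IsFinite (sep B (fun x => x ≠ a)) := by
      refine ih _ fun x hx => ?_
      obtain ⟨h2, h3⟩ := mem_sep.mp hx
      exact (mem_ins.mp (hB x h2)).resolve_right h3
    by_cases ha : a ∈ B
    · have : B = Pool.Agent.Sym.ins (sep B (fun x => x ≠ a)) a := by
        refine ext fun x => ?_
        rw [mem_ins, mem_sep]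
        constructor
        · intro hx
          by_cases h : x = a
          · exact Or.inr h
          · exact Or.inl ⟨hx, h⟩
        · rintro (h | rfl)
          · exact h.1
          · exact ha
      rw [this]
      exact h1.ins a
    · have : B = sep B (fun x => x ≠ a) := by
        refine ext fun x => ?_
        rw [mem_sep]
        exact ⟨fun hx => ⟨hx, fun h => ha (h ▸ hx)⟩, fun h => h.1⟩
      rw [this]
      exact h1

theorem isFinite_upair (a b : M) : IsFinite (upair a b) := by
  refine ((isFinite_emp.ins a).ins b).subset fun x hx => ?_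
  rw [mem_ins, mem_ins]
  rcases mem_upair.mp hx with h | h
  · exact Or.inl (Or.inr h)
  · exact Or.inr h

end Pool.Agent.Sym
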