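import Pool.Agent.Lib.MP_1454e8_lc.THM

set_option autoImplicit false

namespace Pool.Agent.Sym

open Pool.Agent.Lib.MP_f5c99b_lc

universe u

variable {M : Type u} [Membership M M] [hZF : Fact (IsModelOfZF M)]

section T2

variable {K : RealField M}

variable (K) in
/-- the distance -/
noncomputable def rho (d x y : M) : El K.R := toF K (iota (fun z => z ∈ K.R ∧ App2 d x y z))

instance DR_rho (r s t : (ℕ → M) → M) [DT r] [DT s] [DT t] :
    DR K (fun v => rho K (r v) (s v) (t v)) := by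
  have h : DT (fun v : ℕ → M => iota (fun z => z ∈ K.R ∧ App2 (v 0) (v 1) (v 2) z)) :=
    inferInstance
  have h2 : DT (fun v : ℕ → M => iota (fun z => z ∈ K.R ∧ App2 (r v) (s v) (t v) z)) :=
    DT3 (f := fun a b c => iota (fun z => z ∈ K.R ∧ App2 a b c z)) h r s t
  exact DR_toF _

theorem rho_spec {X d x y : M} (hd : IsMetric K X d) (hx : x ∈ X) (hy : y ∈ X) :
    App2 d x y (rho K d x y).1 := by
  obtain ⟨r, hr, hu⟩ := hd.1 x y hx hy
  have h1 : iota (fun z => z ∈ K.R ∧ App2 d x y z) = r.1 := by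
    refine iota_eq ⟨r.2, hr⟩ ?_
    rintro z ⟨hz, hz'⟩
    have := hu ⟨z, hz⟩ hz'
    rw [← this]
  rw [rho, h1, toF_val]
  exact hr

theorem rho_eq {X d x y : M} (hd : IsMetric K X d) (hx : x ∈ X) (hy : y ∈ X) {r : El K.R}
    (hr : App2 d x y r.1) : rho K d x y = r :=
  (hd.1 x y hx hy).unique (rho_spec hd hx hy) hr

theorem rho_nonneg {X d x y : M} (hd : IsMetric K X d) (hx : x ∈ X) (hy : y ∈ X) :
    0 ≤ rho K d x y := (hd.2.1 x y _ hx hy (rho_spec hd hx hy)).1

theorem rho_zero {X d x y : M} (hd : IsMetric K X d) (hx : x ∈ X) (hy : y ∈ X) :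
    rho K d x y = 0 ↔ x = y := (hd.2.1 x y _ hx hy (rho_spec hd hx hy)).2

theorem rho_symm {X d x y : M} (hd : IsMetric K X d) (hx : x ∈ X) (hy : y ∈ X) :
    rho K d x y = rho K d y x :=
  (rho_eq hd hy hx (hd.2.2.1 x y _ hx hy (rho_spec hd hx hy))).symm

theorem rho_tri {X d x y z : M} (hd : IsMetric K X d) (hx : x ∈ X) (hy : y ∈ X) (hz : z ∈ X) :
    rho K d x z ≤ rho K d x y + rho K d y z :=
  hd.2.2.2 x y z _ _ _ hx hy hz (rho_spec hd hx hy) (rho_spec hd hy hz) (rho_spec hd hx hz)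

theorem mem_top {X T d U : M} (hd : IsMetric K X d) (hm : IsMetricTop K X T d) :
    U ∈ T ↔ ∀ x, x ∈ U → x ∈ X ∧ ∃ ε : El K.R, 0 < ε ∧
      ∀ y, y ∈ X → rho K d x y < ε → y ∈ U := by
  rw [hm U]
  refine forall_congr' fun x => forall_congr' fun hx => and_congr_right fun hX =>
    exists_congr fun ε => and_congr_right fun _ => ?_
  constructor
  · intro h y hy hr
    exact h y _ hy (rho_spec hd hX hy) hr
  · intro h y r hy hr hlt
    rw [← rho_eq hd hX hy hr] at hlt
    exact h y hy hlt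

variable (K) in
/-- the ball of radius `1 / (n + 1)` -/
noncomputable def bal (X d n x : M) : M := sep X (fun y => rho K d x y * (nu K n + 1) < 1)

theorem mem_bal {X d n x y : M} : y ∈ bal K X d n x ↔ y ∈ X ∧ rho K d x y * (nu K n + 1) < 1 :=
  mem_sep

theorem DT_bal (X d n : M) (s : (ℕ → M) → M) [DT s] : DT (fun v => bal K X d n (s v)) := by
  refine DT1 (f := fun x => bal K X d n x) ?_ s
  unfold bal
  infer_instance

theorem nu1_pos {n : M} (hn : n ∈ omega M) : 0 < nu K n + 1 := by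
  have := nu_nonneg (K := K) n hn
  linarith

theorem bal_open {X T d n x : M} (hd : IsMetric K X d) (hm : IsMetricTop K X T d)
    (hn : n ∈ omega M) (hx : x ∈ X) : bal K X d n x ∈ T := by
  rw [mem_top hd hm]
  intro y hy
  obtain ⟨hyX, hlt⟩ := mem_bal.mp hy
  have hp := nu1_pos (K := K) hn
  refine ⟨hyX, (1 - rho K d x y * (nu K n + 1)) / (nu K n + 1), div_pos (by linarith) hp, ?_⟩
  intro z hz hlt2
  rw [lt_div_iff₀ hp] at hlt2
  refine mem_bal.mpr ⟨hz, ?_⟩
  have h3 := mul_le_mul_of_nonneg_right (rho_tri hd hx hyX hz) hp.le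
  rw [add_mul] at h3
  linarith

variable (K) in
/-- the code of the uniformity -/
noncomputable def uni (X d : M) : M :=
  sep (prod (prod (omega M) X) X) (fun p => ∃ n x y, p = pr (pr n x) y ∧
    rho K d x y * (nu K n + 1) < 1)

theorem mem_uni {X d n x y : M} : pr (pr n x) y ∈ uni K X d ↔
    n ∈ omega M ∧ x ∈ X ∧ y ∈ X ∧ rho K d x y * (nu K n + 1) < 1 := by
  rw [uni, mem_sep]
  constructor
  · rintro ⟨h1, n', x', y', h2, h3⟩
    obtain ⟨h4, rfl⟩ := pr_inj h2
    obtain ⟨rfl, rfl⟩ := pr_inj h4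
    obtain ⟨q, hq, z, hz, h5⟩ := mem_prod.mp h1
    obtain ⟨rfl, rfl⟩ := pr_inj h5
    obtain ⟨a, ha, b, hb, h6⟩ := mem_prod.mp hq
    obtain ⟨rfl, rfl⟩ := pr_inj h6
    exact ⟨ha, hb, hz, h3⟩
  · rintro ⟨hn, hx, hy, h⟩
    exact ⟨mem_prod.mpr ⟨_, mem_prod.mpr ⟨n, hn, x, hx, rfl⟩, y, hy, rfl⟩, n, x, y, rfl, h⟩

theorem not_mem_self (x : M) : x ∉ x := by
  intro h
  obtain ⟨y, hy, h3⟩ := hZF.out.foundation (upair x x) ⟨x, mem_upair.mpr (Or.inl rfl)⟩
  have : y = x := by rcases mem_upair.mp hy with h | h <;> exact h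
  subst this
  exact h3 y h (mem_upair.mpr (Or.inl rfl))

/-- choice of the centres of finitely many balls, by internal induction -/
theorem choose_centres {X d n k f F : M} (hf : IsFun f k F) (hk : k ∈ omega M)
    (hF : ∀ B, B ∈ F → ∃ x, x ∈ X ∧ B = bal K X d n x) :
    ∃ h, IsFun h k X ∧ ∀ j, j ∈ k → ap f j = bal K X d n (ap h j) := by
  have hDT : ∀ s : (ℕ → M) → M, DT s → DT (fun v => bal K X d n (s v)) :=
    fun s hs => DT_bal X d n s
  have key : ∀ m, m ∈ omega M → (∀ j, j ∈ m → j ∈ k) →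
      ∃ h, IsFun h m X ∧ ∀ j, j ∈ m → ap f j = bal K X d n (ap h j) := by
    have hD : D (fun v : ℕ → M => (∀ j, j ∈ v 0 → j ∈ k) →
      ∃ h, IsFun h (v 0) X ∧ ∀ j, j ∈ v 0 → ap f j = bal K X d n (ap h j)) := by
      have := hDT (fun v => ap (v 1) (v 0)) inferInstance
      infer_instance
    refine omega_induction (fun m => (∀ j, j ∈ m → j ∈ k) →
      ∃ h, IsFun h m X ∧ ∀ j, j ∈ m → ap f j = bal K X d n (ap h j)) ?_ ?_
    · intro _
      refine ⟨emp, ⟨fun p hp => absurd hp (not_mem_emp p), fun x hx => absurd hx (not_mem_emp x)⟩,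
        fun j hj => absurd hj (not_mem_emp j)⟩
    · intro m hm ih hsub
      obtain ⟨h, hh, hh'⟩ := ih fun j hj => hsub j (mem_suc.mpr (Or.inl hj))
      have hmk : m ∈ k := hsub m (mem_suc.mpr (Or.inr rfl))
      obtain ⟨x, hx, hB⟩ := hF _ (hf.ap_mem hmk)
      have hmem : ∀ {p}, p ∈ un h (upair (pr m x) (pr m x)) ↔ p ∈ h ∨ p = pr m x := by
        intro p
        rw [mem_un, mem_upair, or_self_iff]
      have happ : ∀ {j y}, App (un h (upair (pr m x) (pr m x))) j y ↔
          App h j y ∨ (j = m ∧ y = x) := by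
        intro j y
        rw [app_iff, app_iff, hmem]
        refine or_congr_right ⟨fun h => pr_inj h, ?_⟩
        rintro ⟨rfl, rfl⟩
        rfl
      have hnot : ∀ {y}, ¬ App h m y := by
        intro y hy
        exact not_mem_self m (hh.app.mp hy).1
      have hfun : IsFun (un h (upair (pr m x) (pr m x))) (suc m) X := by
        constructor
        · intro p hp
          rcases hmem.mp hp with hp | rfl
          · obtain ⟨a, b, ha, hb, h3⟩ := hh.1 p hp
            exact ⟨a, b, mem_suc.mpr (Or.inl ha), hb, h3⟩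
          · exact ⟨m, x, mem_suc.mpr (Or.inr rfl), hx, isPair_iff.mpr rfl⟩
        · intro j hj
          rcases mem_suc.mp hj with hj | rfl
          · refine ⟨ap h j, happ.mpr (Or.inl (hh.mem hj)), ?_⟩
            intro y hy
            rcases happ.mp hy with hy | ⟨rfl, _⟩
            · exact (hh.app.mp hy).2
            · exact absurd hj (not_mem_self _)
          · refine ⟨x, happ.mpr (Or.inr ⟨rfl, rfl⟩), ?_⟩
            intro y hy
            rcases happ.mp hy with hy | ⟨_, h4⟩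
            · exact absurd hy hnot
            · exact h4
      refine ⟨_, hfun, ?_⟩
      intro j hj
      rcases mem_suc.mp hj with hj' | rfl
      · have h5 := (hfun.app.mp (happ.mpr (Or.inl (hh.mem hj')))).2
        rw [← h5]
        exact hh' j hj'
      · have h5 := (hfun.app.mp (happ.mpr (Or.inr ⟨rfl, rfl⟩))).2
        rw [← h5]
        exact hB
  exact key k hk fun _ h => h

theorem isOmega_eq {w : M} (h : IsOmega w) : w = omega M := by
  refine ext fun n => ⟨fun hn => ?_, fun hn => mem_omega.mp hn w (ind_iff.mpr h.1)⟩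
  exact h.2 (omega M) isOmega_omega.1.1 isOmega_omega.1.2 n hn

/-- least elements of nonempty definable classes of natural numbers -/
theorem exists_least (K : RealField M) (P : M → Prop) [hP : D (fun v => P (v 0))]
    (h : ∃ n, n ∈ omega M ∧ P n) :
    ∃ n, n ∈ omega M ∧ P n ∧ ∀ m, m ∈ omega M → P m → nu K n ≤ nu K m := by
  have key : ∀ n, n ∈ omega M → (∃ k, k ∈ omega M ∧ P k ∧ nu K k ≤ nu K n) →
      ∃ n, n ∈ omega M ∧ P n ∧ ∀ m, m ∈ omega M → P m → nu K n ≤ nu K m := by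
    refine omega_induction (fun n => (∃ k, k ∈ omega M ∧ P k ∧ nu K k ≤ nu K n) →
      ∃ n, n ∈ omega M ∧ P n ∧ ∀ m, m ∈ omega M → P m → nu K n ≤ nu K m) ?_ ?_
    · rintro ⟨k, hk, hPk, hle⟩
      rw [nu_emp] at hle
      exact ⟨k, hk, hPk, fun m hm _ => hle.trans (nu_nonneg m hm)⟩
    · intro n hn ih
      rintro ⟨k, hk, hPk, hle⟩
      by_cases h : ∃ k, k ∈ omega M ∧ P k ∧ nu K k ≤ nu K n
      · exact ih h
      · refine ⟨k, hk, hPk, fun m hm hPm => ?_⟩
        have h1 : nu K n < nu K m := by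
          by_contra h2
          exact h ⟨m, hm, hPm, not_lt.mp h2⟩
        have h2 := nu_lt n hn m hm h1
        rw [nu_suc hn] at hle
        exact hle.trans h2
  obtain ⟨n, hn, hPn⟩ := h
  exact key n hn ⟨n, hn, hPn, le_rfl⟩

end T2

/-- A compact metrizable space carries a uniformity as in `HM`
(`R_n x y` iff `d(x, y) < 1 / (n + 1)`), and a countable dense set for it gives separability. -/
theorem exists_HM (K : RealField M) {X T : M} (hT : IsTopology X T) (hc : IsCompactSp X T)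
    (hm : IsMetrizable K X T) : ∃ U : M, HM X U ∧ (CM X U → IsSeparable X T) := by
  obtain ⟨d, hd, hm⟩ := hm
  refine ⟨uni K X d, ⟨?_, ?_, ?_, ?_⟩, ?_⟩
  · intro n _ x _ y _ h
    obtain ⟨hn, hx, hy, h1⟩ := mem_uni.mp h
    refine mem_uni.mpr ⟨hn, hy, hx, ?_⟩
    rwa [rho_symm hd hy hx]
  · intro n hn
    obtain ⟨m, hm', hlt⟩ := archimedean (K := K) (2 * (nu K n + 1))
    refine ⟨m, hm', ?_⟩
    intro x hx y hy z hz h1 h2
    obtain ⟨_, _, _, h1⟩ := mem_uni.mp h1
    obtain ⟨_, _, _, h2⟩ := mem_uni.mp h2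
    refine mem_uni.mpr ⟨hn, hx, hz, ?_⟩
    have hp := nu1_pos (K := K) hn
    have hq := nu1_pos (K := K) hm'
    have h3 := mul_le_mul_of_nonneg_right (rho_tri hd hx hy hz) hq.le
    have h4 := rho_nonneg hd hx hz
    have h5 : rho K d x z * (2 * (nu K n + 1)) ≤ rho K d x z * (nu K m + 1) :=
      mul_le_mul_of_nonneg_left (by linarith) h4
    nlinarith
  · intro x hx y hy h
    rw [← rho_zero hd hx hy]
    by_contra hne
    have hpos : 0 < rho K d x y := lt_of_le_of_ne (rho_nonneg hd hx hy) (Ne.symm hne)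
    obtain ⟨m, hm', hlt⟩ := archimedean (K := K) (1 / rho K d x y)
    obtain ⟨_, _, _, h1⟩ := mem_uni.mp (h m hm')
    rw [div_lt_iff₀ hpos] at hlt
    nlinarith
  · intro n hn
    have hDT : ∀ s : (ℕ → M) → M, DT s → DT (fun v => bal K X d n (s v)) :=
      fun s hs => DT_bal X d n s
    have hD : D (fun v : ℕ → M => ∃ x, x ∈ X ∧ v 0 = bal K X d n x) := by
      have := hDT (fun v => v 0) inferInstance
      infer_instance
    obtain ⟨F, ⟨w, k, f, hw, hk, hf, hsurj⟩, hFC, hcov⟩ :=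
      hc (sep T (fun B => ∃ x, x ∈ X ∧ B = bal K X d n x)) (fun U hU => (mem_sep.mp hU).1) (by
        intro x hx
        refine ⟨bal K X d n x, mem_sep.mpr ⟨bal_open hd hm hn hx, x, hx, rfl⟩, ?_⟩
        refine mem_bal.mpr ⟨hx, ?_⟩
        rw [(rho_zero hd hx hx).mpr rfl]
        simp)
    obtain rfl := isOmega_eq hw
    obtain ⟨h, hh, hh'⟩ := choose_centres (K := K) (X := X) (d := d) (n := n) hf hk
      fun B hB => (mem_sep.mp (hFC B hB)).2
    refine ⟨k, hk, h, ?_, ?_, ?_⟩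
    · intro j hj
      exact ⟨ap h j, hh.ap_mem hj, app_iff.mp (hh.mem hj)⟩
    · intro j hj y hy y' hy'
      rw [(hh.app.mp (app_iff.mpr hy)).2, (hh.app.mp (app_iff.mpr hy')).2]
    · intro z hz
      obtain ⟨B, hB, hzB⟩ := hcov z hz
      obtain ⟨j, hj⟩ := hsurj B hB
      obtain ⟨hj1, hj2⟩ := hf.app.mp hj
      refine ⟨j, hj1, ap h j, app_iff.mp (hh.mem hj1), mem_uni.mpr ⟨hn, hz, hh.ap_mem hj1, ?_⟩⟩
      rw [hj2, hh' j hj1] at hzB
      have := (mem_bal.mp hzB).2
      rwa [rho_symm hd hz (hh.ap_mem hj1)]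
  · rintro ⟨F, hF, hdense⟩
    have hFX : ∀ y, y ∈ sep X (fun y => ∃ k, k ∈ omega M ∧ pr k y ∈ F) ↔
        y ∈ X ∧ ∃ k, k ∈ omega M ∧ pr k y ∈ F := fun y => mem_sep
    have hmin : ∀ y, (∃ k, k ∈ omega M ∧ pr k y ∈ F) →
        ∃! k, k ∈ omega M ∧ pr k y ∈ F ∧ ∀ m, m ∈ omega M → pr m y ∈ F → nu K k ≤ nu K m := by
      intro y hy
      obtain ⟨k, hk, hk1, hk2⟩ := exists_least K (fun k => pr k y ∈ F) hy
      refine ⟨k, ⟨hk, hk1, hk2⟩, ?_⟩
      rintro k' ⟨hk', hk1', hk2'⟩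
      exact nu_inj k' hk' k hk (le_antisymm (hk2' k hk hk1) (hk2 k' hk' hk1'))
    set t : M → M := fun y => iota (fun k => k ∈ omega M ∧ pr k y ∈ F ∧
      ∀ m, m ∈ omega M → pr m y ∈ F → nu K k ≤ nu K m) with ht
    have hDT : DT (fun v : ℕ → M => t (v 0)) := by
      rw [ht]
      infer_instance
    have htm : ∀ y, y ∈ sep X (fun y => ∃ k, k ∈ omega M ∧ pr k y ∈ F) →
        t y ∈ omega M ∧ pr (t y) y ∈ F := by
      intro y hy
      have h1 := iota_spec (hmin y (mem_sep.mp hy).2)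
      exact ⟨h1.1, h1.2.1⟩
    have hfun := isFun_lam (t := t) fun y hy => (htm y hy).1
    refine ⟨sep X (fun y => ∃ k, k ∈ omega M ∧ pr k y ∈ F), ⟨omega M, _, isOmega_omega, hfun, ?_⟩,
      fun x hx => (mem_sep.mp hx).1, ?_⟩
    · intro x y z hx hy
      obtain ⟨hx1, hx2⟩ := hfun.app.mp hx
      obtain ⟨hy1, hy2⟩ := hfun.app.mp hy
      rw [ap_lam (fun y hy => (htm y hy).1) hx1] at hx2
      rw [ap_lam (fun y hy => (htm y hy).1) hy1] at hy2
      have h1 := (htm x hx1).2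
      have h2 := (htm y hy1).2
      rw [← hx2] at h1
      rw [← hy2] at h2
      have hz : z ∈ omega M := by rw [hx2]; exact (htm x hx1).1
      exact hF z hz x h1 y h2
    · rintro V hV ⟨x, hx⟩
      obtain ⟨hxX, ε, hε, hball⟩ := (mem_top hd hm).mp hV x hx
      obtain ⟨n, hn, hlt⟩ := archimedean (K := K) (1 / ε)
      obtain ⟨k, hk, y, hy, hky, hU⟩ := hdense n hn x hxX
      obtain ⟨_, _, _, h1⟩ := mem_uni.mp hU
      refine ⟨y, mem_sep.mpr ⟨hy, k, hk, hky⟩, hball y hy ?_⟩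
      rw [div_lt_iff₀ hε] at hlt
      by_contra h2
      rw [not_lt] at h2
      have hp := nu1_pos (K := K) hn
      have h3 := mul_le_mul_of_nonneg_right h2 hp.le
      nlinarith

end Pool.Agent.Sym
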