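import Pool.Agent.Lib.MP_1454e8_lc.T1Fin

set_option autoImplicit false

namespace Pool.Agent.Sym

open Pool.Agent.Lib.MP_f5c99b_lc

universe u

variable {M : Type u} [Membership M M] [hZF : Fact (IsModelOfZF M)]

/-- `Y ∪ {∅}` -/
noncomputable def opX (Y : M) : M := un Y (upair emp emp)

/-- The open sets of the one-point compactification `Y ∪ {∅}` of the discrete space `Y`. -/
noncomputable def opT (Y : M) : M :=
  sep (pow (opX Y)) (fun U => emp ∈ U → IsFinite (diff (opX Y) U))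

instance DT_opX (s : (ℕ → M) → M) [DT s] : DT (fun v => opX (s v)) := by
  unfold opX
  infer_instance

instance DT_opT (s : (ℕ → M) → M) [DT s] : DT (fun v => opT (s v)) := by
  refine DT1 (f := opT) ?_ s
  unfold opT
  infer_instance

theorem mem_opX {Y x : M} : x ∈ opX Y ↔ x ∈ Y ∨ x = emp := by
  simp [opX, mem_un, mem_upair]

theorem mem_opT' {Y U : M} : U ∈ opT Y ↔ (∀ x, x ∈ U → x ∈ opX Y) ∧
    (emp ∈ U → IsFinite (diff (opX Y) U)) := by
  unfold opT
  rw [mem_sep, mem_pow]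

theorem mem_opT {Y U : M} : U ∈ opT Y ↔ (∀ x, x ∈ U → x ∈ Y ∨ x = emp) ∧
    (emp ∈ U → IsFinite (diff (opX Y) U)) := by
  rw [mem_opT']
  simp only [mem_opX]

theorem isTopology_opT (Y : M) : IsTopology (opX Y) (opT Y) := by
  refine ⟨fun U hU => (mem_opT'.mp hU).1, ?_, ?_, ?_⟩
  · refine mem_opT'.mpr ⟨fun x hx => hx, fun _ => ?_⟩
    refine isFinite_emp.subset fun x hx => ?_
    obtain ⟨h1, h2⟩ := mem_diff.mp hx
    exact absurd h1 h2
  · intro U V W hU hV hW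
    have hU' := mem_opT'.mp hU
    have hV' := mem_opT'.mp hV
    refine mem_opT'.mpr ⟨fun x hx => hU'.1 x ((hW x).mp hx).1, fun he => ?_⟩
    have h1 := hU'.2 ((hW _).mp he).1
    have h2 := hV'.2 ((hW _).mp he).2
    refine (h1.union h2).subset fun x hx => ?_
    obtain ⟨h3, h4⟩ := mem_diff.mp hx
    rw [mem_un, mem_diff, mem_diff]
    rw [hW] at h4
    tauto
  · intro S W hS hW
    refine mem_opT'.mpr ⟨fun x hx => ?_, fun he => ?_⟩
    · obtain ⟨U, hU, hxU⟩ := (hW x).mp hx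
      exact (mem_opT'.mp (hS U hU)).1 x hxU
    · obtain ⟨U, hU, hxU⟩ := (hW _).mp he
      refine ((mem_opT'.mp (hS U hU)).2 hxU).subset fun x hx => ?_
      obtain ⟨h3, h4⟩ := mem_diff.mp hx
      exact mem_diff.mpr ⟨h3, fun h5 => h4 ((hW x).mpr ⟨U, hU, h5⟩)⟩

/-- a finite subset of a covered set is covered by finitely many members of the cover -/
theorem finite_cover {X C : M} (hC : ∀ x : M, x ∈ X → ∃ U : M, U ∈ C ∧ x ∈ U) {A : M}
    (hA : IsFinite A) (hAX : ∀ x, x ∈ A → x ∈ X) :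
    ∃ F : M, IsFinite F ∧ (∀ U : M, U ∈ F → U ∈ C) ∧ ∀ x : M, x ∈ A → ∃ U : M, U ∈ F ∧ x ∈ U := by
  refine finite_induction (fun A => (∀ x, x ∈ A → x ∈ X) →
    ∃ F : M, IsFinite F ∧ (∀ U : M, U ∈ F → U ∈ C) ∧ ∀ x : M, x ∈ A → ∃ U : M, U ∈ F ∧ x ∈ U)
    ?_ ?_ A hA hAX
  · intro _
    exact ⟨emp, isFinite_emp, fun U hU => (not_mem_emp U hU).elim,
      fun x hx => (not_mem_emp x hx).elim⟩
  · intro A a _ ih hX
    obtain ⟨F, h1, h2, h3⟩ := ih fun x hx => hX x (mem_ins.mpr (Or.inl hx))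
    obtain ⟨U, hU, haU⟩ := hC a (hX a (mem_ins.mpr (Or.inr rfl)))
    refine ⟨ins F U, h1.ins U, fun V hV => ?_, fun x hx => ?_⟩
    · rcases mem_ins.mp hV with h | rfl
      · exact h2 V h
      · exact hU
    · rcases mem_ins.mp hx with h | rfl
      · obtain ⟨V, hV, hxV⟩ := h3 x h
        exact ⟨V, mem_ins.mpr (Or.inl hV), hxV⟩
      · exact ⟨U, mem_ins.mpr (Or.inr rfl), haU⟩

theorem isCompactSp_opT (Y : M) : IsCompactSp (opX Y) (opT Y) := by
  intro C hCT hC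
  obtain ⟨U, hU, heU⟩ := hC emp (mem_opX.mpr (Or.inr rfl))
  have hfin := (mem_opT'.mp (hCT U hU)).2 heU
  obtain ⟨F, h1, h2, h3⟩ := finite_cover hC hfin fun x hx => (mem_diff.mp hx).1
  refine ⟨ins F U, h1.ins U, fun V hV => ?_, fun x hx => ?_⟩
  · rcases mem_ins.mp hV with h | rfl
    · exact h2 V h
    · exact hU
  · by_cases hxU : x ∈ U
    · exact ⟨U, mem_ins.mpr (Or.inr rfl), hxU⟩
    · obtain ⟨V, hV, hxV⟩ := h3 x (mem_diff.mpr ⟨hx, hxU⟩)
      exact ⟨V, mem_ins.mpr (Or.inl hV), hxV⟩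

/-- `f` is a bijection from `ω` onto `Y`. -/
def Enum (f Y : M) : Prop := IsFun f (omega M) Y ∧ (∀ y, y ∈ Y → ∃ n, App f n y) ∧
  ∀ m n y : M, App f m y → App f n y → m = n

section metric

variable {K : RealField M}

variable (K) in
/-- `φ ∅ = 0` and `φ (f n) = 1 / (n + 1)` -/
noncomputable def phi (f y : M) : El K.R :=
  toF K (iota (fun z => z ∈ K.R ∧ ((y = emp ∧ toF K z = 0) ∨
    (y ≠ emp ∧ ∃ n, App f n y ∧ toF K z * (nu K n + 1) = 1))))

instance DR_phi (f : M) (s : (ℕ → M) → M) [DT s] : DR K (fun v => phi K f (s v)) := by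
  refine DR1 (t := phi K f) ?_ s
  unfold phi
  infer_instance

theorem phi_emp (f : M) : phi K f emp = 0 := by
  unfold phi
  rw [iota_eq (P := fun z => z ∈ K.R ∧ (((emp : M) = emp ∧ toF K z = 0) ∨
    ((emp : M) ≠ emp ∧ ∃ n, App f n emp ∧ toF K z * (nu K n + 1) = 1))) (x := (0 : El K.R).1)]
  · exact toF_val _
  · exact ⟨Subtype.property _, Or.inl ⟨rfl, toF_val _⟩⟩
  · rintro z ⟨hz, ⟨_, h⟩ | ⟨h, _⟩⟩
    · rw [← val_toF hz, h]
    · exact absurd rfl h

variable {Y f : M}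

theorem nu_pos {n : M} (hn : n ∈ omega M) : 0 < nu K n + 1 := by
  have := nu_nonneg (K := K) n hn
  linarith

theorem phi_app (hf : Enum f Y) (hY : emp ∉ Y) {n y : M} (h : App f n y) :
    phi K f y = (nu K n + 1)⁻¹ := by
  have hn : n ∈ omega M := (hf.1.app.mp h).1
  have hy : y ∈ Y := by
    rw [(hf.1.app.mp h).2]
    exact hf.1.ap_mem hn
  have hne : y ≠ emp := fun h => hY (h ▸ hy)
  have hpos := nu_pos (K := K) hn
  unfold phi
  rw [iota_eq (P := fun z => z ∈ K.R ∧ ((y = emp ∧ toF K z = 0) ∨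
    (y ≠ emp ∧ ∃ n, App f n y ∧ toF K z * (nu K n + 1) = 1))) (x := ((nu K n + 1)⁻¹).1)]
  · exact toF_val _
  · refine ⟨Subtype.property _, Or.inr ⟨hne, n, h, ?_⟩⟩
    rw [toF_val]
    exact inv_mul_cancel₀ hpos.ne'
  · rintro z ⟨hz, ⟨h1, _⟩ | ⟨_, m, hm, h2⟩⟩
    · exact absurd h1 hne
    · obtain rfl := hf.2.2 m n y hm h
      rw [← val_toF hz, eq_inv_of_mul_eq_one_left h2]

variable (K) in
/-- the metric `|φ x - φ y|` -/
noncomputable def opD (Y f : M) : M := sep (prod (prod (opX Y) (opX Y)) K.R)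
  (fun p => ∃ x y : M, p = pr (pr x y) (|phi K f x - phi K f y|).1)

theorem app_opD {x y r : M} : App2 (opD K Y f) x y r ↔
    x ∈ opX Y ∧ y ∈ opX Y ∧ r = (|phi K f x - phi K f y|).1 := by
  rw [app2_iff, opD, mem_sep]
  constructor
  · rintro ⟨h1, x', y', h2⟩
    obtain ⟨h3, rfl⟩ := pr_inj h2
    obtain ⟨rfl, rfl⟩ := pr_inj h3
    obtain ⟨q, hq, r, _, h4⟩ := mem_prod.mp h1
    obtain ⟨rfl, _⟩ := pr_inj h4
    obtain ⟨x', hx', y', hy', h5⟩ := mem_prod.mp hq
    obtain ⟨rfl, rfl⟩ := pr_inj h5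
    exact ⟨hx', hy', rfl⟩
  · rintro ⟨hx, hy, rfl⟩
    exact ⟨mem_prod.mpr ⟨_, mem_prod.mpr ⟨x, hx, y, hy, rfl⟩, _, Subtype.property _, rfl⟩,
      x, y, rfl⟩

theorem phi_cases (hf : Enum f Y) (hY : emp ∉ Y) {x : M} (hx : x ∈ opX Y) :
    (x = emp ∧ phi K f x = 0) ∨
      ∃ n, n ∈ omega M ∧ App f n x ∧ phi K f x = (nu K n + 1)⁻¹ := by
  rcases mem_opX.mp hx with h | rfl
  · obtain ⟨n, hn⟩ := hf.2.1 x h
    exact Or.inr ⟨n, (hf.1.app.mp hn).1, hn, phi_app hf hY hn⟩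
  · exact Or.inl ⟨rfl, phi_emp f⟩

theorem phi_inj (hf : Enum f Y) (hY : emp ∉ Y) {x y : M} (hx : x ∈ opX Y) (hy : y ∈ opX Y)
    (h : phi K f x = phi K f y) : x = y := by
  rcases phi_cases (K := K) hf hY hx with ⟨h1, h2⟩ | ⟨n, hn, h1, h2⟩ <;>
    rcases phi_cases (K := K) hf hY hy with ⟨h3, h4⟩ | ⟨m, hm, h3, h4⟩
  · rw [h1, h3]
  · rw [h2, h4] at h
    have := inv_pos.mpr (nu_pos (K := K) hm)
    rw [← h] at this
    exact absurd this (lt_irrefl _)
  · rw [h2, h4] at h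
    have := inv_pos.mpr (nu_pos (K := K) hn)
    rw [h] at this
    exact absurd this (lt_irrefl _)
  · rw [h2, h4] at h
    have h5 : nu K n + 1 = nu K m + 1 := inv_injective h
    have h6 : n = m := nu_inj (K := K) n hn m hm (by linarith)
    subst h6
    rw [(hf.1.app.mp h1).2, (hf.1.app.mp h3).2]

theorem isMetric_opD (hf : Enum f Y) (hY : emp ∉ Y) : IsMetric K (opX Y) (opD K Y f) := by
  refine ⟨?_, ?_, ?_, ?_⟩
  · intro x y hx hy
    refine ⟨|phi K f x - phi K f y|, app_opD.mpr ⟨hx, hy, rfl⟩, fun r hr => ?_⟩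
    exact Subtype.ext (app_opD.mp hr).2.2
  · intro x y r hx hy hr
    obtain rfl : r = |phi K f x - phi K f y| := Subtype.ext (app_opD.mp hr).2.2
    refine ⟨abs_nonneg _, ?_⟩
    rw [abs_eq_zero, sub_eq_zero]
    exact ⟨phi_inj hf hY hx hy, fun h => by rw [h]⟩
  · intro x y r hx hy hr
    obtain rfl : r = |phi K f x - phi K f y| := Subtype.ext (app_opD.mp hr).2.2
    exact app_opD.mpr ⟨hy, hx, by rw [abs_sub_comm]⟩
  · intro x y z r s t hx hy hz hr hs ht
    obtain rfl : r = |phi K f x - phi K f y| := Subtype.ext (app_opD.mp hr).2.2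
    obtain rfl : s = |phi K f y - phi K f z| := Subtype.ext (app_opD.mp hs).2.2
    obtain rfl : t = |phi K f x - phi K f z| := Subtype.ext (app_opD.mp ht).2.2
    exact abs_sub_le _ _ _

/-- the point `f n` is isolated -/
theorem isolated (hf : Enum f Y) (hY : emp ∉ Y) {n x : M} (hx : App f n x) :
    ∃ ε : El K.R, 0 < ε ∧ ∀ y, y ∈ opX Y → |phi K f x - phi K f y| < ε → y = x := by
  have hn : n ∈ omega M := (hf.1.app.mp hx).1
  have hn0 := nu_nonneg (K := K) n hn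
  have hpx := phi_app (K := K) hf hY hx
  have h1 : 0 < nu K n + 1 := by linarith
  have h2 : 0 < nu K n + 1 + 1 := by linarith
  have hlt : (nu K n + 1 + 1)⁻¹ < (nu K n + 1)⁻¹ := inv_strictAnti₀ h1 (by linarith)
  refine ⟨(nu K n + 1)⁻¹ - (nu K n + 1 + 1)⁻¹, sub_pos.mpr hlt, ?_⟩
  intro y hy hd
  rcases phi_cases (K := K) hf hY hy with ⟨h3, h4⟩ | ⟨m, hm, h3, h4⟩
  · exfalso
    rw [hpx, h4, sub_zero, abs_of_pos (inv_pos.mpr h1)] at hd
    have := inv_pos.mpr h2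
    linarith
  · rcases lt_trichotomy (nu K m) (nu K n) with h5 | h5 | h5
    · exfalso
      have h6 := nu_lt m hm n hn h5
      have hm0 := nu_nonneg (K := K) m hm
      have h7 : 0 < nu K m + 1 := by linarith
      -- `1 / m' - 1 / n'` with `m' + 1 ≤ n'`
      have h8 : (nu K n + 1)⁻¹ ≤ (nu K m + 1 + 1)⁻¹ := inv_anti₀ (by linarith) (by linarith)
      have h9 : (nu K n + 1)⁻¹ - (nu K n + 1 + 1)⁻¹ ≤ (nu K m + 1)⁻¹ - (nu K m + 1 + 1)⁻¹ := by
        have e1 : (nu K n + 1)⁻¹ - (nu K n + 1 + 1)⁻¹ = ((nu K n + 1) * (nu K n + 1 + 1))⁻¹ := by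
          field_simp
          ring
        have e2 : (nu K m + 1)⁻¹ - (nu K m + 1 + 1)⁻¹ = ((nu K m + 1) * (nu K m + 1 + 1))⁻¹ := by
          field_simp
          ring
        rw [e1, e2]
        refine inv_anti₀ (by positivity) ?_
        nlinarith
      have h10 : (nu K m + 1)⁻¹ - (nu K n + 1)⁻¹ ≤ |phi K f x - phi K f y| := by
        rw [hpx, h4, abs_sub_comm]
        exact le_abs_self _
      linarith
    · have h6 : m = n := nu_inj (K := K) m hm n hn h5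
      subst h6
      rw [(hf.1.app.mp hx).2, (hf.1.app.mp h3).2]
    · exfalso
      have h6 := nu_lt n hn m hm h5
      have h8 : (nu K m + 1)⁻¹ ≤ (nu K n + 1 + 1)⁻¹ := inv_anti₀ (by linarith) (by linarith)
      have h10 : (nu K n + 1)⁻¹ - (nu K m + 1)⁻¹ ≤ |phi K f x - phi K f y| := by
        rw [hpx, h4]
        exact le_abs_self _
      linarith

/-- a finite set of points of `Y` has positive distance from `∅` -/
theorem finite_away (hf : Enum f Y) (hY : emp ∉ Y) {A : M} (hA : IsFinite A)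
    (hAY : ∀ x, x ∈ A → x ∈ Y) : ∃ ε : El K.R, 0 < ε ∧ ∀ x, x ∈ A → ε ≤ phi K f x := by
  refine finite_induction (fun A => (∀ x, x ∈ A → x ∈ Y) →
    ∃ ε : El K.R, 0 < ε ∧ ∀ x, x ∈ A → ε ≤ phi K f x) ?_ ?_ A hA hAY
  · intro _
    exact ⟨1, one_pos, fun x hx => (not_mem_emp x hx).elim⟩
  · intro A a _ ih hX
    obtain ⟨ε, h1, h2⟩ := ih fun x hx => hX x (mem_ins.mpr (Or.inl hx))
    obtain ⟨n, hn⟩ := hf.2.1 a (hX a (mem_ins.mpr (Or.inr rfl)))
    have h3 := phi_app (K := K) hf hY hn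
    have h4 := inv_pos.mpr (nu_pos (K := K) (hf.1.app.mp hn).1)
    refine ⟨min ε (phi K f a), lt_min h1 (h3 ▸ h4), fun x hx => ?_⟩
    rcases mem_ins.mp hx with h | rfl
    · exact (min_le_left _ _).trans (h2 x h)
    · exact min_le_right _ _

/-- only finitely many points of `Y` have index less than `n` -/
theorem finite_index (hf : Enum f Y) : ∀ n, n ∈ omega M →
    IsFinite (sep Y (fun y => ∃ j, App f j y ∧ nu K j < nu K n)) := by
  refine omega_induction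
    (fun n => IsFinite (sep Y (fun y => ∃ j, App f j y ∧ nu K j < nu K n))) ?_ ?_
  · refine isFinite_emp.subset fun x hx => ?_
    exfalso
    obtain ⟨_, j, hj, hlt⟩ := mem_sep.mp hx
    rw [nu_emp] at hlt
    have := nu_nonneg (K := K) j (hf.1.app.mp hj).1
    linarith
  · intro n hn ih
    refine (ih.ins (ap f n)).subset fun x hx => ?_
    obtain ⟨hxY, j, hj, hlt⟩ := mem_sep.mp hx
    rw [mem_ins, mem_sep]
    obtain ⟨hjo, hjx⟩ := hf.1.app.mp hj
    rw [nu_suc hn] at hlt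
    rcases lt_trichotomy (nu K j) (nu K n) with h | h | h
    · exact Or.inl ⟨hxY, j, hj, h⟩
    · right
      rw [hjx, nu_inj (K := K) j hjo n hn h]
    · have := nu_lt n hn j hjo h
      linarith

end metric

theorem isMetrizable_opT (K : RealField M) {Y f : M} (hf : Enum f Y) (hY : emp ∉ Y) :
    IsMetrizable K (opX Y) (opT Y) := by
  refine ⟨opD K Y f, isMetric_opD hf hY, fun U => ⟨fun hU x hx => ?_, fun h => ?_⟩⟩
  · obtain ⟨h1, h2⟩ := mem_opT'.mp hU
    refine ⟨h1 x hx, ?_⟩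
    rcases mem_opX.mp (h1 x hx) with hxY | rfl
    · obtain ⟨n, hn⟩ := hf.2.1 x hxY
      obtain ⟨ε, hε, h3⟩ := isolated (K := K) hf hY hn
      refine ⟨ε, hε, fun y r hy hr hlt => ?_⟩
      obtain rfl : r = |phi K f x - phi K f y| := Subtype.ext (app_opD.mp hr).2.2
      rw [h3 y hy hlt]
      exact hx
    · obtain ⟨ε, hε, h3⟩ := finite_away (K := K) hf hY (h2 hx) fun x hx' => by
        obtain ⟨h4, h5⟩ := mem_diff.mp hx'
        rcases mem_opX.mp h4 with h6 | rfl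
        · exact h6
        · exact absurd hx h5
      refine ⟨ε, hε, fun y r hy hr hlt => ?_⟩
      obtain rfl : r = |phi K f emp - phi K f y| := Subtype.ext (app_opD.mp hr).2.2
      by_contra hyU
      have h4 := h3 y (mem_diff.mpr ⟨hy, hyU⟩)
      rw [phi_emp, zero_sub, abs_neg, abs_of_pos (hε.trans_le h4)] at hlt
      linarith
  · refine mem_opT'.mpr ⟨fun x hx => (h x hx).1, fun he => ?_⟩
    obtain ⟨_, ε, hε, h1⟩ := h emp he
    obtain ⟨n, hn, hn'⟩ := archimedean (K := K) ε⁻¹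
    refine (finite_index (K := K) hf n hn).subset fun x hx => ?_
    obtain ⟨hxX, hxU⟩ := mem_diff.mp hx
    rcases mem_opX.mp hxX with hxY | rfl
    · obtain ⟨j, hj⟩ := hf.2.1 x hxY
      refine mem_sep.mpr ⟨hxY, j, hj, ?_⟩
      have hjp := nu_pos (K := K) (hf.1.app.mp hj).1
      have hphi := phi_app (K := K) hf hY hj
      have h2 : ε ≤ phi K f x := by
        by_contra hlt
        push Not at hlt
        refine hxU (h1 x _ hxX (app_opD.mpr ⟨mem_opX.mpr (Or.inr rfl), hxX, rfl⟩) ?_)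
        rw [phi_emp, zero_sub, abs_neg, hphi, abs_of_pos (inv_pos.mpr hjp), ← hphi]
        exact hlt
      rw [hphi] at h2
      have h3 : nu K j + 1 ≤ ε⁻¹ := by
        rw [le_inv_comm₀ hjp hε]
        exact h2
      linarith
    · exact absurd he hxU

end Pool.Agent.Sym
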